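import Pool.Agent.LibKS13.Defs
import Pool.Agent.LibKS37.A1

/-!
# KS13: vertex sets of tuples, the facet `a B` (proved)
-/

open Finset Function
open scoped Classical

namespace KS13

open KS37

section
variable {E V : Type} [AddCommGroup E] [Module ℝ E] [Fintype V] {x : V → E}

theorem disj_symm {V : Type} {r s : ℕ} {B : Fin r → V} {B' : Fin s → V} (h : Disj B B') :
    Disj B' B := fun i j hij => h j i hij.symm

theorem cd_inj {V : Type} {a : V} {B : Fin 4 → V} (hB : Injective B) (ha : ∀ i, B i ≠ a) :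
    Injective (cd a B) := by
  unfold cd
  rw [Fin.cons_injective_iff]
  exact ⟨fun ⟨i, hi⟩ => ha i hi, hB⟩

theorem cd_av {V : Type} {A : Finset V} {a : V} {B : Fin 4 → V} (hB : ∀ i, B i ∉ A)
    (ha : a ∉ A) : Av A (cd a B) := by
  intro i
  refine Fin.cases ?_ (fun l => ?_) i
  · exact ha
  · exact hB l

@[simp] theorem cd_zero {V : Type} (a : V) (B : Fin 4 → V) : cd a B 0 = a := rfl

@[simp] theorem cd_succ {V : Type} (a : V) (B : Fin 4 → V) (i : Fin 4) :
    cd a B i.succ = B i := rfl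

theorem cd_update {V : Type} (a : V) (w : Fin 4 → V) (j : Fin 4) (u : V) :
    cd a (update w j u) = update (cd a w) j.succ u := by
  funext i
  refine Fin.cases ?_ (fun l => ?_) i
  · rw [cd_zero, update_of_ne (Ne.symm (Fin.succ_ne_zero j)), cd_zero]
  · rw [cd_succ]
    by_cases h : l = j
    · subst h
      rw [update_self, update_self]
    · rw [update_of_ne h, update_of_ne (fun e => h (Fin.succ_injective _ e)), cd_succ]

theorem spx_cd_zero (a : V) (B : Fin 4 → V) : spx x (cd a B) {0} = sp x B := by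
  rw [spx_single]
  congr 1

theorem sp_le_cd (a : V) (B : Fin 4 → V) : sp x B ≤ sp x (cd a B) := by
  rw [← spx_cd_zero a B]
  exact spx_le_sp _ _

theorem Dist5.symm {V : Type} {A : Finset V} {a : V} {B2 B3 : Fin 4 → V}
    (h : Dist5 A a B2 B3) : Dist5 A a B3 B2 := by
  obtain ⟨h1, h2, h3, h4, h5, h6, h7, h8⟩ := h
  exact ⟨h2, h1, disj_symm h3, h5, h4, h6, h8, h7⟩

theorem LiveU.symm {V : Type} {T : (Fin 5 → V) → Prop} {A : Finset V} {a : V}
    {B2 B3 : Fin 4 → V} (h : LiveU T A a B2 B3) : LiveU T A a B3 B2 := ⟨h.2.1, h.1, h.2.2.symm⟩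

theorem Dist5.f2 {V : Type} {A : Finset V} {a : V} {B2 B3 : Fin 4 → V}
    (h : Dist5 A a B2 B3) : Injective (cd a B2) ∧ Av A (cd a B2) := by
  obtain ⟨h1, h2, h3, h4, h5, h6, h7, h8⟩ := h
  exact ⟨cd_inj h1 h7, cd_av h4 h6⟩

theorem Dist5.f3 {V : Type} {A : Finset V} {a : V} {B2 B3 : Fin 4 → V}
    (h : Dist5 A a B2 B3) : Injective (cd a B3) ∧ Av A (cd a B3) := h.symm.f2

theorem Dist5.mono {V : Type} {A A' : Finset V} {a : V} {B2 B3 : Fin 4 → V} (hA : A' ⊆ A)
    (h : Dist5 A a B2 B3) : Dist5 A' a B2 B3 := by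
  obtain ⟨h1, h2, h3, h4, h5, h6, h7, h8⟩ := h
  exact ⟨h1, h2, h3, fun i hi => h4 i (hA hi), fun i hi => h5 i (hA hi), fun hi => h6 (hA hi),
    h7, h8⟩

/-- vertex set of a tuple without the indices of `I`. -/
noncomputable def vx {V : Type} {s : ℕ} (B : Fin s → V) (I : Finset (Fin s)) : Finset V :=
  (Iᶜ).image B

theorem spx_vx {s : ℕ} (B : Fin s → V) (I : Finset (Fin s)) :
    spx x B (I : Set (Fin s)) = vs x (vx B I : Set V) := by
  unfold vx
  rw [spx_eq_vs]
  congr 1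
  rw [Finset.coe_image, Finset.coe_compl]

theorem spx_vx1 {s : ℕ} (B : Fin s → V) (i : Fin s) :
    spx x B {i} = vs x (vx B {i} : Set V) := by
  rw [← spx_vx, Finset.coe_singleton]

theorem spx_vx2 {s : ℕ} (B : Fin s → V) (i j : Fin s) :
    spx x B {i, j} = vs x (vx B {i, j} : Set V) := by
  rw [← spx_vx, Finset.coe_insert, Finset.coe_singleton]

theorem sp_vx {s : ℕ} (B : Fin s → V) : sp x B = vs x (vx B ∅ : Set V) := by
  rw [← spx_vx]
  unfold sp spx
  rw [Finset.coe_empty, Set.compl_empty, Set.image_univ]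

theorem card_vx {V : Type} {s : ℕ} {B : Fin s → V} (hB : Injective B) (I : Finset (Fin s)) :
    (vx B I).card = s - I.card := by
  unfold vx
  rw [Finset.card_image_of_injective _ hB, Finset.card_compl, Fintype.card_fin]

theorem mem_vx {V : Type} {s : ℕ} {B : Fin s → V} {I : Finset (Fin s)} {v : V} :
    v ∈ vx B I ↔ ∃ i, i ∉ I ∧ B i = v := by
  unfold vx
  rw [Finset.mem_image]
  constructor
  · rintro ⟨i, hi, h⟩
    exact ⟨i, Finset.mem_compl.1 hi, h⟩
  · rintro ⟨i, hi, h⟩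
    exact ⟨i, Finset.mem_compl.2 hi, h⟩

theorem vx_empty {V : Type} {s : ℕ} (B : Fin s → V) : vx B ∅ = Finset.univ.image B := by
  unfold vx
  rw [Finset.compl_empty]

theorem vx_disj {V : Type} {s s' : ℕ} {B : Fin s → V} {B' : Fin s' → V} (hd : Disj B B')
    (I : Finset (Fin s)) (I' : Finset (Fin s')) : Disjoint (vx B I) (vx B' I') := by
  rw [Finset.disjoint_left]
  intro a ha ha'
  obtain ⟨i, _, hi⟩ := mem_vx.1 ha
  obtain ⟨j, _, hj⟩ := mem_vx.1 ha'
  exact hd i j (hi.trans hj.symm)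

theorem vx_inter {V : Type} {a : V} {B2 B3 : Fin 4 → V} (hd : Disj B2 B3)
    (h2 : ∀ i, B2 i ≠ a) (h3 : ∀ i, B3 i ≠ a) (I J : Finset (Fin 5)) :
    vx (cd a B2) I ∩ vx (cd a B3) J ⊆ {a} := by
  intro v hv
  rw [Finset.mem_inter, mem_vx, mem_vx] at hv
  obtain ⟨⟨i, _, hi⟩, j, _, hj⟩ := hv
  rw [Finset.mem_singleton]
  revert hi hj
  refine Fin.cases ?_ (fun i => ?_) i
  · intro hi _
    rw [cd_zero] at hi
    exact hi.symm
  · refine Fin.cases ?_ (fun j => ?_) j
    · intro _ hj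
      rw [cd_zero] at hj
      exact hj.symm
    · intro hi hj
      rw [cd_succ] at hi hj
      exact absurd (hi.trans hj.symm) (hd i j)

/-- the tuples of an object are admissible. -/
theorem adm_cd {V : Type} {m : ℕ} (hm : m ≤ 4) {B1 : Fin m → V} {a : V}
    {B2 B3 : Fin 4 → V} (h : Dist5 (Finset.univ.image B1) a B2 B3) (I1 : Finset (Fin m))
    (I2 I3 : Finset (Fin 5)) : Adm (vx B1 I1) (vx (cd a B2) I2) (vx (cd a B3) I3) := by
  have key : ∀ (B : Fin 4 → V), (∀ i, B i ∉ Finset.univ.image B1) →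
      a ∉ Finset.univ.image B1 → Disj B1 (cd a B) := by
    intro B hB ha i j
    refine Fin.cases ?_ (fun j => ?_) j
    · intro h
      exact ha (Finset.mem_image.2 ⟨i, Finset.mem_univ _, h⟩)
    · intro h
      exact hB j (Finset.mem_image.2 ⟨i, Finset.mem_univ _, h⟩)
  have hc : ∀ {s : ℕ} (B : Fin s → V) (I : Finset (Fin s)), (vx B I).card ≤ s := by
    intro s B I
    unfold vx
    refine Finset.card_image_le.trans ?_
    rw [Finset.card_compl, Fintype.card_fin]
    exact Nat.sub_le _ _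
  obtain ⟨h1, h2, h3, h4, h5, h6, h7, h8⟩ := h
  refine ⟨vx_disj (key B2 h4 h6) _ _, vx_disj (key B3 h5 h6) _ _, ?_, (hc _ _).trans hm,
    hc _ _, hc _ _⟩
  refine (Finset.card_le_card (vx_inter h3 h7 h8 I2 I3)).trans ?_
  rw [Finset.card_singleton]
  norm_num

/-- dimension of the triple intersections of an object. -/
theorem gf_cd (hF : GF x) {m : ℕ} (hm : m ≤ 4) {B1 : Fin m → V}
    (hB1 : Injective B1) {a : V} {B2 B3 : Fin 4 → V}
    (h : Dist5 (Finset.univ.image B1) a B2 B3) (I1 : Finset (Fin m)) (I2 I3 : Finset (Fin 5)) :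
    Module.finrank ℝ (spx x B1 (I1 : Set (Fin m)) ⊓ spx x (cd a B2) (I2 : Set (Fin 5)) ⊓
      spx x (cd a B3) (I3 : Set (Fin 5)) : Submodule ℝ E) =
      (m - I1.card) + (5 - I2.card) + (5 - I3.card) - 12 := by
  rw [spx_vx, spx_vx, spx_vx, hF _ _ _ (adm_cd hm h I1 I2 I3), card_vx hB1, card_vx h.f2.1,
    card_vx h.f3.1]

end

/-! ## linear algebra used in several rows -/
section
variable {E : Type} [AddCommGroup E] [Module ℝ E]

theorem gen_line (L : Submodule ℝ E) (h : Module.finrank ℝ L = 1) :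
    ∃ v ∈ L, v ≠ 0 ∧ ∀ y ∈ L, ∃ c : ℝ, y = c • v := by
  obtain ⟨v, hv, hv'⟩ := finrank_eq_one_iff'.1 h
  refine ⟨v, v.2, fun h0 => hv (Subtype.ext h0), fun y hy => ?_⟩
  obtain ⟨c, hc⟩ := hv' ⟨y, hy⟩
  exact ⟨c, (congrArg Subtype.val hc).symm⟩

theorem line_ne (L : Submodule ℝ E) {v : E} (h : ∀ y ∈ L, ∃ c : ℝ, y = c • v)
    (f : Module.Dual ℝ E) (hf : f v ≠ 0) : ∀ y ∈ L, f y = 0 → y = 0 := by
  intro y hy h0
  obtain ⟨c, rfl⟩ := h y hy
  rw [map_smul, smul_eq_mul] at h0
  rcases mul_eq_zero.1 h0 with h1 | h1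
  · rw [h1, zero_smul]
  · exact absurd h1 hf

theorem finrank_inf_ker [Module.Finite ℝ E] (P : Submodule ℝ E) (f : Module.Dual ℝ E)
    (h : ∃ y ∈ P, f y ≠ 0) :
    Module.finrank ℝ (P ⊓ LinearMap.ker f : Submodule ℝ E) + 1 = Module.finrank ℝ P := by
  have h1 := LinearMap.finrank_range_add_finrank_ker (f.domRestrict P)
  have h2 : LinearMap.range (f.domRestrict P) = ⊤ := by
    obtain ⟨y, hy, hfy⟩ := h
    rw [LinearMap.range_eq_top]
    intro c
    refine ⟨(c / f y) • ⟨y, hy⟩, ?_⟩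
    rw [map_smul, LinearMap.domRestrict_apply, smul_eq_mul, div_mul_cancel₀ _ hfy]
  rw [h2, finrank_top, Module.finrank_self] at h1
  have h3 : Module.finrank ℝ (LinearMap.ker (f.domRestrict P)) =
      Module.finrank ℝ (P ⊓ LinearMap.ker f : Submodule ℝ E) := by
    have e1 : (LinearMap.ker (f.domRestrict P)).map P.subtype = P ⊓ LinearMap.ker f := by
      ext y
      simp only [Submodule.mem_map, LinearMap.mem_ker, LinearMap.domRestrict_apply,
        Submodule.mem_inf, Submodule.subtype_apply]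
      constructor
      · rintro ⟨z, hz, rfl⟩
        exact ⟨z.2, hz⟩
      · rintro ⟨hy, hfy⟩
        exact ⟨⟨y, hy⟩, hfy, rfl⟩
    rw [← e1]
    exact (LinearEquiv.finrank_eq
      (Submodule.equivMapOfInjective P.subtype (Submodule.subtype_injective P) _))
  rw [h3] at h1
  omega

/-- a line in `P` on which `f ≠ 0` gives a vector. -/
theorem exists_ne_of_line {P L : Submodule ℝ E} (hLP : L ≤ P) (hL : Module.finrank ℝ L = 1)
    {f : Module.Dual ℝ E} (hf : ∀ y ∈ L, f y = 0 → y = 0) : ∃ y ∈ P, f y ≠ 0 := by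
  obtain ⟨v, hv, hv0, _⟩ := gen_line L hL
  exact ⟨v, hLP hv, fun h => hv0 (hf v hv h)⟩

theorem iso2_of [Module.Finite ℝ E] (P : Submodule ℝ E) (hP : Module.finrank ℝ P = 2)
    (f1 f2 : Module.Dual ℝ E) (h : ∀ y ∈ P, f1 y = 0 → f2 y = 0 → y = 0) : Iso2 P f1 f2 := by
  refine ⟨h, ?_⟩
  set g : P →ₗ[ℝ] ℝ × ℝ := (f1.domRestrict P).prod (f2.domRestrict P) with hg
  have hgi : Injective g := by
    rw [← LinearMap.ker_eq_bot, LinearMap.ker_eq_bot']
    intro y hy
    have h1 : f1 (y : E) = 0 := congrArg Prod.fst hy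
    have h2 : f2 (y : E) = 0 := congrArg Prod.snd hy
    exact Subtype.ext (h y y.2 h1 h2)
  have hgs : Surjective g := by
    refine (LinearMap.injective_iff_surjective_of_finrank_eq_finrank ?_).1 hgi
    rw [hP, Module.finrank_prod, Module.finrank_self]
  intro s t
  obtain ⟨y, hy⟩ := hgs (s, t)
  exact ⟨y, y.2, congrArg Prod.fst hy, congrArg Prod.snd hy⟩

theorem bot_of_finrank [Module.Finite ℝ E] {P : Submodule ℝ E}
    (h : Module.finrank ℝ P = 0) : P = ⊥ := Submodule.finrank_eq_zero.1 h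

end

/-- a vector of the span of `B` with vanishing `i`-th coordinate. -/
theorem kap_zero_mem {E V : Type} [AddCommGroup E] [Module ℝ E] [Fintype V] {r : ℕ} {x : V → E}
    {T : (Fin r → V) → Prop} (hS : Sys r x T) {B : Fin r → V} (hB : Injective B) {e : E}
    (he : e ∉ sp x B) {i : Fin r} {y : E} (hy : y ∈ sp x B) (h0 : kap x B e i y = 0) :
    y ∈ spx x B {i} := by
  obtain ⟨s, hs⟩ := (kap_eq_zero_iff hS B hB e he i y).1 h0
  have h1 : s • e ∈ sp x B := by
    have := (sp x B).sub_mem hy (spx_le_sp B {i} hs)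
    rwa [sub_sub_cancel] at this
  by_cases hs0 : s = 0
  · rwa [hs0, zero_smul, sub_zero] at hs
  · exact absurd (((sp x B).smul_mem_iff hs0).1 h1) he

theorem kap_zero_mem2 {E V : Type} [AddCommGroup E] [Module ℝ E] [Fintype V] {r : ℕ} {x : V → E}
    {T : (Fin r → V) → Prop} (hS : Sys r x T) {B : Fin r → V} (hB : Injective B) {e : E}
    (he : e ∉ sp x B) {i j : Fin r} {y : E} (hy : y ∈ sp x B) (h0 : kap x B e i y = 0)
    (h1 : kap x B e j y = 0) : y ∈ spx x B {i, j} := by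
  obtain ⟨s, hs⟩ := (kap_eq_zero_iff2 hS B hB e he i j y).1 ⟨h0, h1⟩
  have h1 : s • e ∈ sp x B := by
    have := (sp x B).sub_mem hy (spx_le_sp B {i, j} hs)
    rwa [sub_sub_cancel] at this
  by_cases hs0 : s = 0
  · rwa [hs0, zero_smul, sub_zero] at hs
  · exact absurd (((sp x B).smul_mem_iff hs0).1 h1) he

/-- coordinates of dual functionals. -/
theorem dual_sum {E V : Type} [AddCommGroup E] [Module ℝ E] {s : ℕ} {x : V → E}
    {R : Fin s → V} {b : Fin s → Module.Dual ℝ E} (hb : DualB x R b) {y : E}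
    (hy : y ∈ sp x R) : y = ∑ k, b k y • x (R k) := by
  obtain ⟨c, hc⟩ := (Submodule.mem_span_range_iff_exists_fun ℝ).1 hy
  have h1 : ∀ k, b k y = c k := by
    intro k
    rw [← hc, map_sum, Finset.sum_eq_single k]
    · rw [map_smul, hb, if_pos rfl, smul_eq_mul, mul_one]
    · intro l _ hl
      rw [map_smul, hb, if_neg (Ne.symm hl), smul_zero]
    · intro h
      exact absurd (Finset.mem_univ k) h
  rw [Finset.sum_congr rfl fun k _ => by rw [h1 k]]
  exact hc.symm

theorem dual_cone {E V : Type} [AddCommGroup E] [Module ℝ E] {s : ℕ} {x : V → E}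
    {R : Fin s → V} {b : Fin s → Module.Dual ℝ E} (hb : DualB x R b) (y : E) :
    Cone x R y ↔ y ∈ sp x R ∧ ∀ k, 0 < b k y := by
  constructor
  · rintro ⟨c, hc, hy⟩
    have hmem : y ∈ sp x R := by
      rw [hy]
      exact Submodule.sum_mem _ fun i _ => Submodule.smul_mem _ _ (Submodule.subset_span ⟨i, rfl⟩)
    refine ⟨hmem, fun k => ?_⟩
    have : b k y = c k := by
      rw [hy, map_sum, Finset.sum_eq_single k]
      · rw [map_smul, hb, if_pos rfl, smul_eq_mul, mul_one]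
      · intro l _ hl
        rw [map_smul, hb, if_neg (Ne.symm hl), smul_zero]
      · intro h
        exact absurd (Finset.mem_univ k) h
    rw [this]; exact hc k
  · rintro ⟨h1, h2⟩
    exact ⟨fun k => b k y, h2, dual_sum hb h1⟩

theorem dual_spx {E V : Type} [AddCommGroup E] [Module ℝ E] [Fintype V] {s : ℕ} {x : V → E}
    {R : Fin s → V} {b : Fin s → Module.Dual ℝ E} (hb : DualB x R b) {y : E}
    (hy : y ∈ sp x R) (I : Set (Fin s)) (hI : ∀ k ∈ I, b k y = 0) : y ∈ spx x R I :=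
  (mem_spx_iff R I y).2 ⟨fun k => b k y, hI, dual_sum hb hy⟩

theorem dual_exists {E V : Type} [AddCommGroup E] [Module ℝ E] [Fintype V] {r : ℕ} {x : V → E}
    {T : (Fin r → V) → Prop} (hS : Sys r x T) {s : ℕ} (hs : s ≤ r + 1) (R : Fin s → V)
    (hR : Injective R) : ∃ b : Fin s → Module.Dual ℝ E, DualB x R b := by
  have hv : LinearIndependent ℝ (fun l => x (R l)) := hS.gp s hs R hR
  have hk : ∀ k : Fin s, ∃ g : Module.Dual ℝ E, ∀ l, g (x (R l)) = if k = l then 1 else 0 := by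
    intro k
    obtain ⟨g, hg⟩ := LinearMap.exists_extend ((Module.Basis.span hv).coord k)
    refine ⟨g, fun l => ?_⟩
    have h1 : (Module.Basis.span hv l : E) = x (R l) :=
      congrArg Subtype.val (Module.Basis.span_apply hv l)
    have h2 : g (Module.Basis.span hv l : E) =
        (Module.Basis.span hv).coord k (Module.Basis.span hv l) := by
      rw [← hg]
      rfl
    rw [← h1, h2, Module.Basis.coord_apply, Module.Basis.repr_self, Finsupp.single_apply]
    by_cases h : l = k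
    · rw [if_pos h, if_pos h.symm]
    · rw [if_neg h, if_neg (fun h' => h h'.symm)]
  choose b1 hb1 using hk
  exact ⟨b1, hb1⟩

end KS13
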