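import Pool.Agent.LibKS37.A4
import Pool.Agent.LibKS37.SweepE

/-!
# KS13: definitions (k-hyperplanes of point sets in `ℝ^5`, MP_971713_co, exponent `44/9`)
Everything of LibKS37 (namespace KS37) that is stated for general rank is used as it is.
-/

open Finset Function
open scoped Classical

namespace KS13

open KS37

section
variable {E V : Type} [AddCommGroup E] [Module ℝ E]

/-! ## genericity of the vectors -/

/-- admissible triples of vertex sets in a system of rank 5 (`dim E = 6`). -/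
def Adm (A1 A2 A3 : Finset V) : Prop :=
  Disjoint A1 A2 ∧ Disjoint A1 A3 ∧ (A2 ∩ A3).card ≤ 2 ∧ A1.card ≤ 4 ∧ A2.card ≤ 5 ∧ A3.card ≤ 5

/-- the genericity condition (12 = 2 · 6). -/
def GT (x : V → E) : Prop :=
  ∀ A1 A2 A3 : Finset V, Adm A1 A2 A3 → A1.card + A2.card + A3.card = 12 →
    vs x (A1 : Set V) ⊓ vs x (A2 : Set V) ⊓ vs x (A3 : Set V) = ⊥

/-- dimensions of triple intersections in rank 5 (consequence of `GT`, row GF). -/
def GF (x : V → E) : Prop :=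
  ∀ A1 A2 A3 : Finset V, Adm A1 A2 A3 →
    Module.finrank ℝ (vs x (A1 : Set V) ⊓ vs x (A2 : Set V) ⊓ vs x (A3 : Set V) : Submodule ℝ E) =
      A1.card + A2.card + A3.card - 12

/-- admissible triples in a system of rank 4 (`dim E = 5`): pairwise disjoint, at most four. -/
def Adm4 (A1 A2 A3 : Finset V) : Prop :=
  Disjoint A1 A2 ∧ Disjoint A1 A3 ∧ Disjoint A2 A3 ∧ A1.card ≤ 4 ∧ A2.card ≤ 4 ∧ A3.card ≤ 4

/-- dimensions of triple intersections in rank 4. -/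
def HF (x : V → E) : Prop :=
  ∀ A1 A2 A3 : Finset V, Adm4 A1 A2 A3 →
    Module.finrank ℝ (vs x (A1 : Set V) ⊓ vs x (A2 : Set V) ⊓ vs x (A3 : Set V) : Submodule ℝ E) =
      A1.card + A2.card + A3.card - 10

/-! ## P3K: triples of facets of a rank 4 system inside the slice `ker φ` -/

/-- the slice functional is generic: non-zero on the vertices, on the lines
`vs A1 ⊓ vs A2` (`|A1| + |A2| = 6`) and on the lines `vs A1 ⊓ vs A2 ⊓ vs A3` (sum 11). -/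
structure PhiH (x : V → E) (φ : Module.Dual ℝ E) : Prop where
  v : ∀ v, φ (x v) ≠ 0
  l2 : ∀ A1 A2 : Finset V, Disjoint A1 A2 → A1.card ≤ 4 → A2.card ≤ 4 → A1.card + A2.card = 6 →
    ∀ y ∈ vs x (A1 : Set V) ⊓ vs x (A2 : Set V), φ y = 0 → y = 0
  l3 : ∀ A1 A2 A3 : Finset V, Adm4 A1 A2 A3 → A1.card + A2.card + A3.card = 11 →
    ∀ y ∈ vs x (A1 : Set V) ⊓ vs x (A2 : Set V) ⊓ vs x (A3 : Set V), φ y = 0 → y = 0

/-- the triples of pairwise disjoint facets with a common ray in `ker φ`. -/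
noncomputable def ZK {r : ℕ} [Fintype V] (x : V → E) (T : (Fin r → V) → Prop)
    (φ : Module.Dual ℝ E) : ℝ :=
  ∑ B : Fin r → V, ∑ B' : Fin r → V, ∑ B'' : Fin r → V,
    ind (T B ∧ T B' ∧ T B'' ∧ Disj B B' ∧ Disj B B'' ∧ Disj B' B'' ∧
      ∃ y, φ y = 0 ∧ Cone x B y ∧ Cone x B' y ∧ Cone x B'' y)

/-- `sp x B ⊓ ker φ`. -/
def sk {s : ℕ} (x : V → E) (φ : Module.Dual ℝ E) (B : Fin s → V) : Submodule ℝ E :=
  sp x B ⊓ LinearMap.ker φ

noncomputable def alK (x : V → E) (φ f1 f2 : Module.Dual ℝ E) (e : E)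
    (B B' B'' : Fin 4 → V) : Fin 4 ⊕ (Fin 4 ⊕ Fin 4) → ℝ :=
  Sum.elim (fun i => kap x B e i (av x (sk x φ B') f1 f2 B))
    (Sum.elim (fun i => kap x B' e i (av x (sk x φ B') f1 f2 B))
      (fun i => kap x B'' e i (av x (sk x φ B') f1 f2 B)))

noncomputable def beK (x : V → E) (φ f1 f2 : Module.Dual ℝ E) (e : E)
    (B B' B'' : Fin 4 → V) : Fin 4 ⊕ (Fin 4 ⊕ Fin 4) → ℝ :=
  Sum.elim (fun i => kap x B e i (qv x (sk x φ B') f1 f2 B))
    (Sum.elim (fun i => kap x B' e i (qv x (sk x φ B') f1 f2 B))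
      (fun i => kap x B'' e i (qv x (sk x φ B') f1 f2 B)))

/-- linear genericity conditions on `f1, f2, e` (rank 4, inside `ker φ`). -/
structure PKE (x : V → E) (φ f1 f2 : Module.Dual ℝ E) (e : E) : Prop where
  ridge : ∀ B B' : Fin 4 → V, Injective B → Injective B' → Disj B B' →
    ∀ i, ∀ y ∈ spx x B {i} ⊓ sk x φ B', f1 y = 0 → y = 0
  pair : ∀ B : Fin 4 → V, Injective B → ∀ i j, i ≠ j →
    ∀ y ∈ spx x B {i, j} ⊓ LinearMap.ker φ, f1 y = 0 → y = 0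
  triple : ∀ B B' B'' : Fin 4 → V, Injective B → Injective B' → Injective B'' → Disj B B' →
    Disj B B'' → Disj B' B'' → ∀ y ∈ sp x B ⊓ sk x φ B' ⊓ sp x B'', f1 y = 0 → y = 0
  iso : ∀ B B' : Fin 4 → V, Injective B → Injective B' → Disj B B' →
    Iso2 (sp x B ⊓ sk x φ B') f1 f2
  kk : Module.finrank ℝ (LinearMap.ker φ ⊓ LinearMap.ker f1 : Submodule ℝ E) = 3
  f2r : ∀ B : Fin 4 → V, Injective B → ∀ i,
    ∀ y ∈ spx x B {i} ⊓ (LinearMap.ker φ ⊓ LinearMap.ker f1), f2 y = 0 → y = 0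
  enot : ∀ B : Fin 4 → V, Injective B → e ∉ sp x B
  e3 : ∀ B B' : Fin 4 → V, Injective B → Injective B' → Disj B B' →
    ∀ B'' : Fin 4 → V, Injective B'' → ∀ j,
    e ∉ Submodule.span ℝ {qv x (sk x φ B') f1 f2 B} ⊔ spx x B'' {j}
  e4 : ∀ B B' : Fin 4 → V, Injective B → Injective B' → Disj B B' → ∀ i,
    ∀ B'' : Fin 4 → V, Injective B'' → ∀ j, e ∉ (spx x B {i} ⊓ sk x φ B') ⊔ spx x B'' {j}
  e5 : ∀ B B' : Fin 4 → V, Injective B → Injective B' → Disj B B' →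
    ∀ B'' : Fin 4 → V, Injective B'' → ∀ i j, i ≠ j → e ∉ (sp x B ⊓ sk x φ B') ⊔ spx x B'' {i, j}

structure PKGood (x : V → E) (φ f1 f2 : Module.Dual ℝ E) (e : E) : Prop where
  hyp : P2Hyp 4 x (LinearMap.ker φ ⊓ LinearMap.ker f1) f2
  iso : ∀ B B' : Fin 4 → V, Injective B → Injective B' → Disj B B' →
    Iso2 (sp x B ⊓ sk x φ B') f1 f2
  enot : ∀ B : Fin 4 → V, Injective B → e ∉ sp x B
  ridge : ∀ B B' : Fin 4 → V, Injective B → Injective B' → Disj B B' →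
    ∀ i, ∀ y ∈ spx x B {i} ⊓ sk x φ B', f1 y = 0 → y = 0
  kapq : ∀ B B' : Fin 4 → V, Injective B → Injective B' → Disj B B' → ∀ j,
    kap x B e j (qv x (sk x φ B') f1 f2 B) ≠ 0
  kapq' : ∀ B B' : Fin 4 → V, Injective B → Injective B' → Disj B B' → ∀ j,
    kap x B' e j (qv x (sk x φ B') f1 f2 B) ≠ 0
  kapq'' : ∀ B B' B'' : Fin 4 → V, Injective B → Injective B' → Injective B'' → Disj B B' →
    Disj B B'' → Disj B' B'' → ∀ j, kap x B'' e j (qv x (sk x φ B') f1 f2 B) ≠ 0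
  hq : ∀ B B' B'' : Fin 4 → V, Injective B → Injective B' → Injective B'' → Disj B B' →
    Disj B B'' → Disj B' B'' → hgt x B'' e (qv x (sk x φ B') f1 f2 B) ≠ 0
  nd : ∀ B B' B'' : Fin 4 → V, Injective B → Injective B' → Injective B'' → Disj B B' →
    Disj B B'' → Disj B' B'' → Nondeg (alK x φ f1 f2 e B B' B'') (beK x φ f1 f2 e B B' B'')
  hs : ∀ B B' B'' : Fin 4 → V, Injective B → Injective B' → Injective B'' → Disj B B' →
    Disj B B'' → Disj B' B'' → ∀ j,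
    hgt x B'' e (av x (sk x φ B') f1 f2 B) * beK x φ f1 f2 e B B' B'' j ≠
      hgt x B'' e (qv x (sk x φ B') f1 f2 B) * alK x φ f1 f2 e B B' B'' j

/-- the live objects. -/
def LiveK (T : (Fin 4 → V) → Prop) (B B' B'' : Fin 4 → V) : Prop :=
  T B ∧ T B' ∧ T B'' ∧ Disj B B' ∧ Disj B B'' ∧ Disj B' B''

/-- contribution of the event `j` of the object `(B, B', B'')`. -/
noncomputable def WK (x : V → E) (T : (Fin 4 → V) → Prop)
    (φ f1 f2 : Module.Dual ℝ E) (e : E) (B B' B'' : Fin 4 → V) (j : Fin 4 ⊕ (Fin 4 ⊕ Fin 4)) : ℝ :=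
  ind (LiveK T B B' B'') *
    (ind (Ev (alK x φ f1 f2 e B B' B'') (beK x φ f1 f2 e B B' B'') j) *
    (sg (beK x φ f1 f2 e B B' B'' j) * eps (alK x φ f1 f2 e B B' B'') (beK x φ f1 f2 e B B' B'')
      (hgt x B'' e (av x (sk x φ B') f1 f2 B)) (hgt x B'' e (qv x (sk x φ B') f1 f2 B)) j))

/-- objects present at `t = +∞`. -/
noncomputable def NPK [Fintype V] (x : V → E) (T : (Fin 4 → V) → Prop)
    (φ f1 f2 : Module.Dual ℝ E) (e : E) : ℝ :=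
  ∑ B : Fin 4 → V, ∑ B' : Fin 4 → V, ∑ B'' : Fin 4 → V,
    ind (LiveK T B B' B'' ∧ ∀ j, 0 < beK x φ f1 f2 e B B' B'' j)

/-! ## pairs of facets `a B2`, `a B3` of a rank 5 system -/

/-- the facet `a B`. -/
def cd (a : V) (B : Fin 4 → V) : Fin 5 → V := Fin.cons a B

/-- `a B2` and `a B3` avoid `A` and have only `a` in common. -/
def Dist5 (A : Finset V) (a : V) (B2 B3 : Fin 4 → V) : Prop :=
  Injective B2 ∧ Injective B3 ∧ Disj B2 B3 ∧ (∀ i, B2 i ∉ A) ∧ (∀ i, B3 i ∉ A) ∧ a ∉ A ∧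
    (∀ i, B2 i ≠ a) ∧ (∀ i, B3 i ≠ a)

/-- `F` avoids `A`. -/
def Av (A : Finset V) (F : Fin 5 → V) : Prop := ∀ i, F i ∉ A

/-- the live objects. -/
def LiveU (T : (Fin 5 → V) → Prop) (A : Finset V) (a : V) (B2 B3 : Fin 4 → V) : Prop :=
  T (cd a B2) ∧ T (cd a B3) ∧ Dist5 A a B2 B3

/-! ### PU: the sweep inside a fixed 3-dimensional subspace `U` -/

/-- hypotheses on `U` and the `m` functionals `b` (the cone `b > 0` in `U`). -/
structure UH {m : ℕ} (x : V → E) (U : Submodule ℝ E) (A : Finset V)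
    (b : Fin m → Module.Dual ℝ E) : Prop where
  fin : Module.finrank ℝ U = 3
  cardA : A.card ≤ 4
  sep : ∀ y ∈ U, (∀ k, b k y = 0) → y = 0
  two : ∀ F : Fin 5 → V, Injective F → Av A F →
    Module.finrank ℝ (sp x F ⊓ U : Submodule ℝ E) = 2
  one : ∀ F : Fin 5 → V, Injective F → Av A F → ∀ i,
    Module.finrank ℝ (spx x F {i} ⊓ U : Submodule ℝ E) = 1
  zero : ∀ F : Fin 5 → V, Injective F → Av A F → ∀ i j, i ≠ j → spx x F {i, j} ⊓ U = ⊥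
  edge : ∀ F : Fin 5 → V, Injective F → Av A F → ∀ k,
    Module.finrank ℝ (sp x F ⊓ U ⊓ LinearMap.ker (b k) : Submodule ℝ E) = 1
  edge2 : ∀ F : Fin 5 → V, Injective F → Av A F → ∀ k l, k ≠ l →
    ∀ y ∈ sp x F ⊓ U, b k y = 0 → b l y = 0 → y = 0
  edger : ∀ F : Fin 5 → V, Injective F → Av A F → ∀ k i,
    ∀ y ∈ spx x F {i} ⊓ U, b k y = 0 → y = 0
  dbl : ∀ (a : V) (B2 B3 : Fin 4 → V), Dist5 A a B2 B3 →
    Module.finrank ℝ (sp x (cd a B2) ⊓ sp x (cd a B3) ⊓ U : Submodule ℝ E) = 1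
  pairs : ∀ (a : V) (B2 B3 : Fin 4 → V), Dist5 A a B2 B3 → ∀ i j,
    spx x (cd a B2) {i} ⊓ spx x (cd a B3) {j} ⊓ U = ⊥

/-- linear genericity conditions on `f1, f2, e`. -/
structure PUE {m : ℕ} (x : V → E) (U : Submodule ℝ E) (A : Finset V)
    (b : Fin m → Module.Dual ℝ E) (f1 f2 : Module.Dual ℝ E) (e : E) : Prop where
  eU : e ∈ U
  pos : ∀ y ∈ U, (∀ k, 0 < b k y) → 0 < f1 y
  ridge : ∀ F : Fin 5 → V, Injective F → Av A F → ∀ i, ∀ y ∈ spx x F {i} ⊓ U, f1 y = 0 → y = 0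
  edge : ∀ F : Fin 5 → V, Injective F → Av A F → ∀ k, ∀ y ∈ sp x F ⊓ U, b k y = 0 →
    f1 y = 0 → y = 0
  dbl : ∀ (a : V) (B2 B3 : Fin 4 → V), Dist5 A a B2 B3 →
    ∀ y ∈ sp x (cd a B2) ⊓ sp x (cd a B3) ⊓ U, f1 y = 0 → y = 0
  iso : ∀ F : Fin 5 → V, Injective F → Av A F → Iso2 (sp x F ⊓ U) f1 f2
  enot : ∀ F : Fin 5 → V, Injective F → Av A F → e ∉ sp x F
  e3 : ∀ F F' : Fin 5 → V, Injective F → Injective F' → Av A F → Av A F' → ∀ j,
    e ∉ Submodule.span ℝ {qv x U f1 f2 F} ⊔ (spx x F' {j} ⊓ U)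
  e4 : ∀ F F' : Fin 5 → V, Injective F → Injective F' → Av A F → Av A F' → ∀ i j,
    e ∉ (spx x F {i} ⊓ U) ⊔ (spx x F' {j} ⊓ U)
  e6 : ∀ F F' : Fin 5 → V, Injective F → Injective F' → Av A F → Av A F' → ∀ k j,
    e ∉ (sp x F ⊓ U ⊓ LinearMap.ker (b k)) ⊔ (spx x F' {j} ⊓ U)

noncomputable def alU {m : ℕ} (x : V → E) (U : Submodule ℝ E) (b : Fin m → Module.Dual ℝ E)
    (f1 f2 : Module.Dual ℝ E) (e : E) (F2 F3 : Fin 5 → V) : Fin m ⊕ (Fin 5 ⊕ Fin 5) → ℝ :=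
  Sum.elim (fun k => b k (av x U f1 f2 F2))
    (Sum.elim (fun i => kap x F2 e i (av x U f1 f2 F2))
      (fun i => kap x F3 e i (av x U f1 f2 F2)))

noncomputable def beU {m : ℕ} (x : V → E) (U : Submodule ℝ E) (b : Fin m → Module.Dual ℝ E)
    (f1 f2 : Module.Dual ℝ E) (e : E) (F2 F3 : Fin 5 → V) : Fin m ⊕ (Fin 5 ⊕ Fin 5) → ℝ :=
  Sum.elim (fun k => b k (qv x U f1 f2 F2))
    (Sum.elim (fun i => kap x F2 e i (qv x U f1 f2 F2))
      (fun i => kap x F3 e i (qv x U f1 f2 F2)))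

structure PUGood {m : ℕ} (x : V → E) (U : Submodule ℝ E) (A : Finset V)
    (b : Fin m → Module.Dual ℝ E) (f1 f2 : Module.Dual ℝ E) (e : E) : Prop where
  eU : e ∈ U
  pos : ∀ y ∈ U, (∀ k, 0 < b k y) → 0 < f1 y
  ridge : ∀ F : Fin 5 → V, Injective F → Av A F → ∀ i, ∀ y ∈ spx x F {i} ⊓ U, f1 y = 0 → y = 0
  edge : ∀ F : Fin 5 → V, Injective F → Av A F → ∀ k, ∀ y ∈ sp x F ⊓ U, b k y = 0 →
    f1 y = 0 → y = 0
  dbl : ∀ (a : V) (B2 B3 : Fin 4 → V), Dist5 A a B2 B3 →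
    ∀ y ∈ sp x (cd a B2) ⊓ sp x (cd a B3) ⊓ U, f1 y = 0 → y = 0
  iso : ∀ F : Fin 5 → V, Injective F → Av A F → Iso2 (sp x F ⊓ U) f1 f2
  enot : ∀ F : Fin 5 → V, Injective F → Av A F → e ∉ sp x F
  kap1 : ∀ F : Fin 5 → V, Injective F → Av A F → ∀ k, b k (qv x U f1 f2 F) ≠ 0
  kapq : ∀ F F' : Fin 5 → V, Injective F → Injective F' → Av A F → Av A F' → ∀ j,
    kap x F' e j (qv x U f1 f2 F) ≠ 0
  hq : ∀ (a : V) (B2 B3 : Fin 4 → V), Dist5 A a B2 B3 →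
    hgt x (cd a B3) e (qv x U f1 f2 (cd a B2)) ≠ 0
  nd : ∀ (a : V) (B2 B3 : Fin 4 → V), Dist5 A a B2 B3 →
    Nondeg (alU x U b f1 f2 e (cd a B2) (cd a B3)) (beU x U b f1 f2 e (cd a B2) (cd a B3))

/-- contribution of the event `j` of the object `(a, B2, B3)`. -/
noncomputable def WU {m : ℕ} (x : V → E) (T : (Fin 5 → V) → Prop) (U : Submodule ℝ E)
    (A : Finset V) (b : Fin m → Module.Dual ℝ E) (f1 f2 : Module.Dual ℝ E) (e : E)
    (a : V) (B2 B3 : Fin 4 → V) (j : Fin m ⊕ (Fin 5 ⊕ Fin 5)) : ℝ :=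
  ind (LiveU T A a B2 B3) *
    (ind (Ev (alU x U b f1 f2 e (cd a B2) (cd a B3)) (beU x U b f1 f2 e (cd a B2) (cd a B3)) j) *
    (sg (beU x U b f1 f2 e (cd a B2) (cd a B3) j) *
      eps (alU x U b f1 f2 e (cd a B2) (cd a B3)) (beU x U b f1 f2 e (cd a B2) (cd a B3))
      (hgt x (cd a B3) e (av x U f1 f2 (cd a B2)))
      (hgt x (cd a B3) e (qv x U f1 f2 (cd a B2))) j))

/-- number of objects with the event `j`. -/
noncomputable def EVU {m : ℕ} [Fintype V] (x : V → E) (T : (Fin 5 → V) → Prop)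
    (U : Submodule ℝ E) (A : Finset V) (b : Fin m → Module.Dual ℝ E)
    (f1 f2 : Module.Dual ℝ E) (e : E) (j : Fin m ⊕ (Fin 5 ⊕ Fin 5)) : ℝ :=
  ∑ a : V, ∑ B2 : Fin 4 → V, ∑ B3 : Fin 4 → V,
    ind (LiveU T A a B2 B3 ∧
      Ev (alU x U b f1 f2 e (cd a B2) (cd a B3)) (beU x U b f1 f2 e (cd a B2) (cd a B3)) j)

/-- the number of `(a, B2, B3)` with a common ray in `U ∩ {b > 0}`. -/
noncomputable def OBU {m : ℕ} [Fintype V] (x : V → E) (T : (Fin 5 → V) → Prop)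
    (U : Submodule ℝ E) (A : Finset V) (b : Fin m → Module.Dual ℝ E) : ℝ :=
  ∑ a : V, ∑ B2 : Fin 4 → V, ∑ B3 : Fin 4 → V,
    ind (LiveU T A a B2 B3 ∧
      ∃ y ∈ U, (∀ k, 0 < b k y) ∧ Cone x (cd a B2) y ∧ Cone x (cd a B3) y)

/-- dual functionals of the vectors of the tuple `R`. -/
def DualB {s : ℕ} (x : V → E) (R : Fin s → V) (b : Fin s → Module.Dual ℝ E) : Prop :=
  ∀ k l, b k (x (R l)) = if k = l then 1 else 0

/-! ### PR: the rotating slice -/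

/-- genericity of `g`, `f`, `e`. -/
structure RH (x : V → E) (g f : Module.Dual ℝ E) (e : E) : Prop where
  gx : ∀ v, g (x v) ≠ 0
  g13 : ∀ A1 A2 A3 : Finset V, Adm A1 A2 A3 → A1.card + A2.card + A3.card = 13 →
    ∀ y ∈ vs x (A1 : Set V) ⊓ vs x (A2 : Set V) ⊓ vs x (A3 : Set V), g y = 0 → y = 0
  fx : ∀ v, f (x v) ≠ 0
  f7 : ∀ A1 A2 : Finset V, Disjoint A1 A2 → A1.card ≤ 4 → A2.card ≤ 5 → A1.card + A2.card = 7 →
    ∀ y ∈ vs x (A1 : Set V) ⊓ vs x (A2 : Set V), f y = 0 → y = 0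
  f13 : ∀ A1 A2 A3 : Finset V, Adm A1 A2 A3 → A1.card + A2.card + A3.card = 13 →
    ∀ y ∈ vs x (A1 : Set V) ⊓ vs x (A2 : Set V) ⊓ vs x (A3 : Set V), f y = 0 → y = 0
  iso : ∀ A1 A2 A3 : Finset V, Adm A1 A2 A3 → A1.card + A2.card + A3.card = 14 →
    Iso2 (vs x (A1 : Set V) ⊓ vs x (A2 : Set V) ⊓ vs x (A3 : Set V)) g f
  th : ∀ A1 A2 A3 : Finset V, Adm A1 A2 A3 → A1.card + A2.card + A3.card = 13 → ∀ c, c ∉ A1 →
    ∀ y ∈ vs x (A1 : Set V) ⊓ vs x (A2 : Set V) ⊓ vs x (A3 : Set V),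
      f y * g (x c) = f (x c) * g y → y = 0
  enot : ∀ F : Fin 5 → V, Injective F → e ∉ sp x F

/-- the functional of the link of `a` induced by `f - (f(x_a)/g(x_a)) g`. -/
noncomputable def pf (x : V → E) (g f : Module.Dual ℝ E) (a : V) : Module.Dual ℝ (LE x a) :=
  if h : Submodule.span ℝ {x a} ≤ LinearMap.ker (f - (f (x a) / g (x a)) • g) then
    (Submodule.span ℝ {x a}).liftQ (f - (f (x a) / g (x a)) • g) h
  else 0

/-- the plane `sp B1 ⊓ sp F2 ⊓ sp F3`. -/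
def WW (x : V → E) (B1 : Fin 4 → V) (F2 F3 : Fin 5 → V) : Submodule ℝ E :=
  sp x B1 ⊓ sp x F2 ⊓ sp x F3

/-- the point of the plane with `g = 1`, `f = 0`. -/
noncomputable def aR (x : V → E) (g f : Module.Dual ℝ E) (B1 : Fin 4 → V) (F2 F3 : Fin 5 → V) :
    E := solv (WW x B1 F2 F3) g f 1 0

/-- the point of the plane with `g = 0`, `f = 1`. -/
noncomputable def qR (x : V → E) (g f : Module.Dual ℝ E) (B1 : Fin 4 → V) (F2 F3 : Fin 5 → V) :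
    E := solv (WW x B1 F2 F3) g f 0 1

noncomputable def alR (x : V → E) (g f : Module.Dual ℝ E) (e : E) (b1 : Fin 4 → Module.Dual ℝ E)
    (B1 : Fin 4 → V) (F2 F3 : Fin 5 → V) : Fin 4 ⊕ (Fin 5 ⊕ Fin 5) → ℝ :=
  Sum.elim (fun k => b1 k (aR x g f B1 F2 F3))
    (Sum.elim (fun i => kap x F2 e i (aR x g f B1 F2 F3))
      (fun i => kap x F3 e i (aR x g f B1 F2 F3)))

noncomputable def beR (x : V → E) (g f : Module.Dual ℝ E) (e : E) (b1 : Fin 4 → Module.Dual ℝ E)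
    (B1 : Fin 4 → V) (F2 F3 : Fin 5 → V) : Fin 4 ⊕ (Fin 5 ⊕ Fin 5) → ℝ :=
  Sum.elim (fun k => b1 k (qR x g f B1 F2 F3))
    (Sum.elim (fun i => kap x F2 e i (qR x g f B1 F2 F3))
      (fun i => kap x F3 e i (qR x g f B1 F2 F3)))

/-- the zero `t_j = -α_j/β_j` lies strictly between `0` and `t1`. -/
def Btw {J : Type} (α β : J → ℝ) (t1 : ℝ) (j : J) : Prop :=
  (0 < -α j / β j ∧ -α j / β j < t1) ∨ (t1 < -α j / β j ∧ -α j / β j < 0)

/-- the angle of the vertex `c`. -/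
noncomputable def th (x : V → E) (g f : Module.Dual ℝ E) (c : V) : ℝ := f (x c) / g (x c)

/-- all pairs of facets `c B2`, `c B3` with a common ray with `B1` in the slice of `c`. -/
noncomputable def OBR [Fintype V] (x : V → E) (T : (Fin 5 → V) → Prop)
    (g f : Module.Dual ℝ E) (B1 : Fin 4 → V) : ℝ :=
  ∑ c : V, ∑ B2 : Fin 4 → V, ∑ B3 : Fin 4 → V,
    ind (LiveU T (Finset.univ.image B1) c B2 B3 ∧
      ∃ y, f y * g (x c) = f (x c) * g y ∧ Cone x B1 y ∧ Cone x (cd c B2) y ∧ Cone x (cd c B3) y)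

/-- those with `g y > 0`. -/
noncomputable def OBP [Fintype V] (x : V → E) (T : (Fin 5 → V) → Prop)
    (g f : Module.Dual ℝ E) (e : E) (B1 : Fin 4 → V) (b1 : Fin 4 → Module.Dual ℝ E) : ℝ :=
  ∑ c : V, ∑ B2 : Fin 4 → V, ∑ B3 : Fin 4 → V,
    ind (LiveU T (Finset.univ.image B1) c B2 B3 ∧
      ∀ j, 0 < alR x g f e b1 B1 (cd c B2) (cd c B3) j +
        beR x g f e b1 B1 (cd c B2) (cd c B3) j * th x g f c)

/-- contribution of the event `j` of the object `(c, B2, B3)`. -/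
noncomputable def WR (x : V → E) (T : (Fin 5 → V) → Prop)
    (g f : Module.Dual ℝ E) (e : E) (B1 : Fin 4 → V) (b1 : Fin 4 → Module.Dual ℝ E)
    (c : V) (B2 B3 : Fin 4 → V) (j : Fin 4 ⊕ (Fin 5 ⊕ Fin 5)) : ℝ :=
  ind (LiveU T (Finset.univ.image B1) c B2 B3) *
    (ind (Ev (alR x g f e b1 B1 (cd c B2) (cd c B3)) (beR x g f e b1 B1 (cd c B2) (cd c B3)) j ∧
      Btw (alR x g f e b1 B1 (cd c B2) (cd c B3)) (beR x g f e b1 B1 (cd c B2) (cd c B3))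
        (th x g f c) j) *
    (sg (beR x g f e b1 B1 (cd c B2) (cd c B3) j) *
      eps (alR x g f e b1 B1 (cd c B2) (cd c B3)) (beR x g f e b1 B1 (cd c B2) (cd c B3)) 0 1 j))

/-- number of objects with the event `j` (at any angle). -/
noncomputable def EVR [Fintype V] (x : V → E) (T : (Fin 5 → V) → Prop)
    (g f : Module.Dual ℝ E) (e : E) (B1 : Fin 4 → V) (b1 : Fin 4 → Module.Dual ℝ E)
    (j : Fin 4 ⊕ (Fin 5 ⊕ Fin 5)) : ℝ :=
  ∑ c : V, ∑ B2 : Fin 4 → V, ∑ B3 : Fin 4 → V,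
    ind (LiveU T (Finset.univ.image B1) c B2 B3 ∧
      Ev (alR x g f e b1 B1 (cd c B2) (cd c B3)) (beR x g f e b1 B1 (cd c B2) (cd c B3)) j)

end

end KS13
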