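import Pool.Agent.LibKS13.Cd
import Pool.Agent.LibKS37.C2

/-!
# KS13 row PKi: the triples present at t = +∞ (port of KS37 P3inf `p3_inf`)
-/

open Finset Function
open scoped Classical

namespace KS13

open KS37

private theorem PKi_one {V : Type} [Fintype V] {r : ℕ} (j : Fin r) (v : V) :
    ∑ B : Fin r → V, ind (B j = v) ≤ nn V ^ (r - 1) := by
  have h := group_sum (fun B : Fin r → V => ind (B j = v)) j 1 zero_le_one (fun w => ?_)
  · rw [one_mul] at h
    exact (le_abs_self _).trans h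
  · have h1 : ∀ u : V, ind (update w j u j = v) = if u = v then (1 : ℝ) else 0 := by
      intro u
      rw [update_self]
      rfl
    rw [Finset.sum_congr rfl (fun u _ => h1 u), Finset.sum_ite_eq']
    simp

private theorem PKi_meet {V : Type} [Fintype V] (B B'' : Fin 4 → V) :
    ind (¬ Disj B B'') ≤ ∑ i : Fin 4, ∑ j : Fin 4, ind (B'' j = B i) := by
  by_cases h : Disj B B''
  · rw [ind_false (fun hn => hn h)]
    exact Finset.sum_nonneg (fun i _ => Finset.sum_nonneg (fun j _ => ind_nonneg _))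
  · rw [ind_true h]
    unfold Disj at h
    push Not at h
    obtain ⟨i, j, hij⟩ := h
    have h1 : ind (B'' j = B i) ≤ ∑ j : Fin 4, ind (B'' j = B i) :=
      Finset.single_le_sum (f := fun j => ind (B'' j = B i)) (fun j _ => ind_nonneg _)
        (Finset.mem_univ j)
    have h2 : ∑ j : Fin 4, ind (B'' j = B i) ≤ ∑ i : Fin 4, ∑ j : Fin 4, ind (B'' j = B i) :=
      Finset.single_le_sum (f := fun i => ∑ j : Fin 4, ind (B'' j = B i))
        (fun i _ => Finset.sum_nonneg (fun j _ => ind_nonneg _)) (Finset.mem_univ i)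
    rw [ind_true hij.symm] at h1
    linarith

private theorem PKi_meet_sum {V : Type} [Fintype V] (B : Fin 4 → V) :
    ∑ B'' : Fin 4 → V, ind (¬ Disj B B'') ≤ 16 * nn V ^ 3 := by
  have h1 : ∑ B'' : Fin 4 → V, ind (¬ Disj B B'') ≤
      ∑ B'' : Fin 4 → V, ∑ i : Fin 4, ∑ j : Fin 4, ind (B'' j = B i) :=
    Finset.sum_le_sum (fun B'' _ => PKi_meet B B'')
  refine h1.trans ?_
  rw [Finset.sum_comm]
  have h2 : ∀ i ∈ (Finset.univ : Finset (Fin 4)),
      ∑ B'' : Fin 4 → V, ∑ j : Fin 4, ind (B'' j = B i) ≤ 4 * nn V ^ 3 := by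
    intro i _
    rw [Finset.sum_comm]
    have h3 : ∀ j ∈ (Finset.univ : Finset (Fin 4)),
        ∑ B'' : Fin 4 → V, ind (B'' j = B i) ≤ nn V ^ 3 := fun j _ => PKi_one j (B i)
    refine (Finset.sum_le_sum h3).trans ?_
    rw [Finset.sum_const, Finset.card_univ, Fintype.card_fin, nsmul_eq_mul]
    norm_num
  refine (Finset.sum_le_sum h2).trans ?_
  rw [Finset.sum_const, Finset.card_univ, Fintype.card_fin, nsmul_eq_mul]
  apply le_of_eq
  push_cast
  ring

/-- finitely many non-zero functionals keep their sign near `q`. -/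
private theorem PKi_near {E ι : Type} [AddCommGroup E] [Module ℝ E] [Fintype ι]
    (L : ι → E →ₗ[ℝ] ℝ) (p : ι → Prop) (q : E) (hq : ∀ i, p i → L i q ≠ 0) {P : E → Prop}
    (hP : Gen P) : ∃ z, P z ∧ ∀ i, p i → 0 < L i q * L i z := by
  refine Gen.near hP q fun g => ?_
  have hS : 0 ≤ ∑ i, |L i g / L i q| := Finset.sum_nonneg fun _ _ => abs_nonneg _
  refine ⟨(1 + ∑ i, |L i g / L i q|)⁻¹, by positivity, fun ε hε hε' i hi => ?_⟩
  have h0 := hq i hi
  rw [map_add, map_smul, smul_eq_mul]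
  have h1 : |L i g / L i q| ≤ ∑ i, |L i g / L i q| :=
    Finset.single_le_sum (f := fun i => |L i g / L i q|) (fun i _ => abs_nonneg _)
      (Finset.mem_univ i)
  have h2 : ε * (1 + ∑ i, |L i g / L i q|) < 1 := by
    have := mul_lt_mul_of_pos_right hε' (show (0 : ℝ) < 1 + ∑ i, |L i g / L i q| by positivity)
    rwa [inv_mul_cancel₀ (by positivity)] at this
  have h3 := neg_abs_le (L i g / L i q)
  have h4 : L i q * (L i q + ε * L i g) = (L i q) ^ 2 * (1 + ε * (L i g / L i q)) := by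
    field_simp
  rw [h4]
  refine mul_pos (by positivity) ?_
  nlinarith

private theorem PKi_pair {E V : Type} [AddCommGroup E] [Module ℝ E] [Fintype V] {x : V → E}
    {T : (Fin 4 → V) → Prop} (hS : Sys 4 x T) {φ f1 f2 : Module.Dual ℝ E} {e : E}
    (hG : PKGood x φ f1 f2 e) (p e' : E) (h : TReg x T p e') (B B' : Fin 4 → V)
    (hq : T B ∧ T B' ∧ Disj B B' ∧ ∃ y ∈ LinearMap.ker φ ⊓ LinearMap.ker f1,
      Cone x B y ∧ Cone x B' y ∧ 0 < f2 y) :
    NN x T p e' ≤ ∑ B'' : Fin 4 → V,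
      ind (LiveK T B B' B'' ∧ ∀ j, 0 < beK x φ f1 f2 e B B' B'' j) + 112 * nn V ^ 3 := by
  obtain ⟨hTB, hTB', hd, y, hy1, hcB, hcB', hy2⟩ := hq
  have hBi := hS.inj B hTB
  have hBi' := hS.inj B' hTB'
  have heB := hG.enot B hBi
  have heB' := hG.enot B' hBi'
  have hiso := hG.iso B B' hBi hBi' hd
  have hyB := ((cone_iff_kap hS B hBi e heB y).1 hcB).1
  have hyB' := ((cone_iff_kap hS B' hBi' e heB' y).1 hcB').1
  have hyq := solv_unique hiso (y := y) ⟨hyB, hyB', hy1.1⟩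
  rw [LinearMap.mem_ker.1 hy1.2, zero_smul, zero_add] at hyq
  have hqy : qv x (sk x φ B') f1 f2 B = (f2 y)⁻¹ • y := by
    unfold qv
    have : (f2 y)⁻¹ • y = (f2 y)⁻¹ • (f2 y • solv (sp x B ⊓ sk x φ B') f1 f2 0 1) := by
      rw [← hyq]
    rw [this, smul_smul, inv_mul_cancel₀ hy2.ne', one_smul]
  have hqB : Cone x B (qv x (sk x φ B') f1 f2 B) := by
    rw [hqy]
    exact hcB.smul (inv_pos.2 hy2)
  have hqB' : Cone x B' (qv x (sk x φ B') f1 f2 B) := by
    rw [hqy]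
    exact hcB'.smul (inv_pos.2 hy2)
  have hkB := ((cone_iff_kap hS B hBi e heB _).1 hqB).2
  have hkB' := ((cone_iff_kap hS B' hBi' e heB' _).1 hqB').2
  obtain ⟨q', ⟨hreg, _⟩, hsign⟩ := PKi_near
    (fun k : (Fin 4 → V) × Fin 4 => kap x k.1 e k.2)
    (fun k => Injective k.1 ∧ Disj B k.1 ∧ Disj B' k.1) (qv x (sk x φ B') f1 f2 B)
    (fun k hk => hG.kapq'' B B' k.1 hBi hBi' hk.1 hd hk.2.1 hk.2.2 k.2)
    (treg_gen hS e (fun B'' hB'' => hG.enot B'' (hS.inj B'' hB'')))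
  have hc := const hS p e' q' e h hreg
  have hc' := (le_abs_self _).trans hc
  have hle : NN x T q' e ≤ ∑ B'' : Fin 4 → V,
      (ind (LiveK T B B' B'' ∧ ∀ j, 0 < beK x φ f1 f2 e B B' B'' j) +
        (ind (¬ Disj B B'') + ind (¬ Disj B' B''))) := by
    unfold NN
    refine Finset.sum_le_sum (fun B'' _ => ?_)
    by_cases h1 : Disj B B''
    · by_cases h2 : Disj B' B''
      · have h3 : ind (T B'' ∧ Hit x B'' e q') ≤
            ind (LiveK T B B' B'' ∧ ∀ j, 0 < beK x φ f1 f2 e B B' B'' j) := by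
          refine ind_mono ?_
          rintro ⟨hT'', hh⟩
          refine ⟨⟨hTB, hTB', hT'', hd, h1, h2⟩, ?_⟩
          rintro (i | (i | i))
          · exact hkB i
          · exact hkB' i
          · have h4 := hsign (B'', i) ⟨hS.inj B'' hT'', h1, h2⟩
            exact (pos_iff_pos_of_mul_pos h4).2 (hh i)
        have h4 := ind_nonneg (¬ Disj B B'')
        have h5 := ind_nonneg (¬ Disj B' B'')
        linarith
      · have h3 := ind_le_one (T B'' ∧ Hit x B'' e q')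
        have h4 := ind_nonneg (LiveK T B B' B'' ∧ ∀ j, 0 < beK x φ f1 f2 e B B' B'' j)
        have h5 := ind_nonneg (¬ Disj B B'')
        rw [ind_true h2]
        linarith
    · have h3 := ind_le_one (T B'' ∧ Hit x B'' e q')
      have h4 := ind_nonneg (LiveK T B B' B'' ∧ ∀ j, 0 < beK x φ f1 f2 e B B' B'' j)
      have h5 := ind_nonneg (¬ Disj B' B'')
      rw [ind_true h1]
      linarith
  rw [Finset.sum_add_distrib, Finset.sum_add_distrib] at hle
  have hm := PKi_meet_sum B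
  have hm' := PKi_meet_sum B'
  have hK : (20 : ℝ) * ((4 : ℕ) : ℝ) * nn V ^ (4 - 1) = 80 * nn V ^ 3 := by norm_num
  rw [hK] at hc'
  linarith

theorem pk_inf {E V : Type} [AddCommGroup E] [Module ℝ E] [Fintype V] {x : V → E}
    {T : (Fin 4 → V) → Prop} (hS : Sys 4 x T)
    {φ f1 f2 : Module.Dual ℝ E} {e : E} (hG : PKGood x φ f1 f2 e) (p e' : E)
    (h : TReg x T p e') :
    QS x T (LinearMap.ker φ ⊓ LinearMap.ker f1) f2 * NN x T p e' ≤
      NPK x T φ f1 f2 e + 112 * nn V ^ 11 := by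
  unfold QS NPK
  rw [Finset.sum_mul]
  have hpair : ∀ B B' : Fin 4 → V,
      ind (T B ∧ T B' ∧ Disj B B' ∧ ∃ y ∈ LinearMap.ker φ ⊓ LinearMap.ker f1,
        Cone x B y ∧ Cone x B' y ∧ 0 < f2 y) *
        NN x T p e' ≤ ∑ B'' : Fin 4 → V,
      ind (LiveK T B B' B'' ∧ ∀ j, 0 < beK x φ f1 f2 e B B' B'' j) + 112 * nn V ^ 3 := by
    intro B B'
    by_cases hq : T B ∧ T B' ∧ Disj B B' ∧ ∃ y ∈ LinearMap.ker φ ⊓ LinearMap.ker f1,
        Cone x B y ∧ Cone x B' y ∧ 0 < f2 y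
    · rw [ind_true hq, one_mul]
      exact PKi_pair hS hG p e' h B B' hq
    · rw [ind_false hq, zero_mul]
      have h1 : 0 ≤ ∑ B'' : Fin 4 → V,
          ind (LiveK T B B' B'' ∧ ∀ j, 0 < beK x φ f1 f2 e B B' B'' j) :=
        Finset.sum_nonneg (fun B'' _ => ind_nonneg _)
      have h2 := nn_nonneg V
      positivity
  have hsum : ∀ B : Fin 4 → V, (∑ B' : Fin 4 → V,
      ind (T B ∧ T B' ∧ Disj B B' ∧ ∃ y ∈ LinearMap.ker φ ⊓ LinearMap.ker f1,
        Cone x B y ∧ Cone x B' y ∧ 0 < f2 y)) *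
        NN x T p e' ≤ ∑ B' : Fin 4 → V, ∑ B'' : Fin 4 → V,
      ind (LiveK T B B' B'' ∧ ∀ j, 0 < beK x φ f1 f2 e B B' B'' j) +
        nn V ^ 4 * (112 * nn V ^ 3) := by
    intro B
    rw [Finset.sum_mul, ← sum_const_fun V 4 (112 * nn V ^ 3), ← Finset.sum_add_distrib]
    exact Finset.sum_le_sum (fun B' _ => hpair B B')
  refine (Finset.sum_le_sum (fun B _ => hsum B)).trans ?_
  rw [Finset.sum_add_distrib, sum_const_fun]
  apply le_of_eq
  ring

end KS13
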