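import Pool.Agent.LibKS13.Cd
import Pool.Agent.LibKS37.O1

/-!
# KS13 row PKs: the object identity summed over all triples (port of KS37 P3sum `p3_sum`)
β ≠ 0: hG.kapq, hG.kapq', hG.kapq''. The common ray y = av + t qv ∈ sp x B ⊓ sp x B', φ y = 0.
-/

open Finset Function
open scoped Classical

namespace KS13

open KS37

/-- one triple of facets -/
private theorem PKs_triple {E V : Type} [AddCommGroup E] [Module ℝ E] [Fintype V] {x : V → E}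
    {T : (Fin 4 → V) → Prop} (hS : Sys 4 x T) {φ f1 f2 : Module.Dual ℝ E} {e : E}
    (hG : PKGood x φ f1 f2 e) (B B' B'' : Fin 4 → V) :
    ind (LiveK T B B' B'' ∧ ∀ j, 0 < beK x φ f1 f2 e B B' B'' j) ≤
      2 * ind (T B ∧ T B' ∧ T B'' ∧ Disj B B' ∧ Disj B B'' ∧ Disj B' B'' ∧
        ∃ y, φ y = 0 ∧ Cone x B y ∧ Cone x B' y ∧ Cone x B'' y) +
        ∑ j : Fin 4 ⊕ (Fin 4 ⊕ Fin 4), WK x T φ f1 f2 e B B' B'' j := by
  by_cases hL : LiveK T B B' B''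
  · obtain ⟨hT, hT', hT'', hD, hD1, hD2⟩ := hL
    have hL : LiveK T B B' B'' := ⟨hT, hT', hT'', hD, hD1, hD2⟩
    have hB := hS.inj _ hT
    have hB' := hS.inj _ hT'
    have hB'' := hS.inj _ hT''
    have hβ : ∀ j, beK x φ f1 f2 e B B' B'' j ≠ 0 := by
      rintro (i | i | i)
      · exact hG.kapq B B' hB hB' hD i
      · exact hG.kapq' B B' hB hB' hD i
      · exact hG.kapq'' B B' B'' hB hB' hB'' hD hD1 hD2 i
    have hoi := oi_eq (alK x φ f1 f2 e B B' B'') (beK x φ f1 f2 e B B' B'')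
      (hgt x B'' e (av x (sk x φ B') f1 f2 B)) (hgt x B'' e (qv x (sk x φ B') f1 f2 B)) hβ
      (hG.nd B B' B'' hB hB' hB'' hD hD1 hD2)
      (hG.hq B B' B'' hB hB' hB'' hD hD1 hD2) (hG.hs B B' B'' hB hB' hB'' hD hD1 hD2)
    have e1 : ind (LiveK T B B' B'' ∧ ∀ j, 0 < beK x φ f1 f2 e B B' B'' j) =
        ind (∀ j, 0 < beK x φ f1 f2 e B B' B'' j) :=
      ind_congr ⟨fun h => h.2, fun h => ⟨hL, h⟩⟩
    have e2 : ∑ j : Fin 4 ⊕ (Fin 4 ⊕ Fin 4), WK x T φ f1 f2 e B B' B'' j =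
        ∑ j, ind (Ev (alK x φ f1 f2 e B B' B'') (beK x φ f1 f2 e B B' B'') j) *
          (sg (beK x φ f1 f2 e B B' B'' j) * eps (alK x φ f1 f2 e B B' B'') (beK x φ f1 f2 e B B' B'')
            (hgt x B'' e (av x (sk x φ B') f1 f2 B)) (hgt x B'' e (qv x (sk x φ B') f1 f2 B)) j) := by
      refine Finset.sum_congr rfl fun j _ => ?_
      unfold WK
      rw [ind_true hL, one_mul]
    have e3 : ind (∃ t : ℝ, (∀ j, 0 < alK x φ f1 f2 e B B' B'' j + beK x φ f1 f2 e B B' B'' j * t) ∧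
          hgt x B'' e (av x (sk x φ B') f1 f2 B) + hgt x B'' e (qv x (sk x φ B') f1 f2 B) * t = 0) ≤
        ind (T B ∧ T B' ∧ T B'' ∧ Disj B B' ∧ Disj B B'' ∧ Disj B' B'' ∧
          ∃ y, φ y = 0 ∧ Cone x B y ∧ Cone x B' y ∧ Cone x B'' y) := by
      apply ind_mono
      rintro ⟨t, ht, hs⟩
      obtain ⟨a1, _, _⟩ := solv_spec (hG.iso B B' hB hB' hD) 1 0
      obtain ⟨b1, _, _⟩ := solv_spec (hG.iso B B' hB hB' hD) 0 1
      have hy : av x (sk x φ B') f1 f2 B + t • qv x (sk x φ B') f1 f2 B ∈ sp x B ⊓ sk x φ B' :=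
        Submodule.add_mem _ a1 (Submodule.smul_mem _ _ b1)
      refine ⟨hT, hT', hT'', hD, hD1, hD2, av x (sk x φ B') f1 f2 B + t • qv x (sk x φ B') f1 f2 B,
        LinearMap.mem_ker.1 hy.2.2, ?_, ?_, ?_⟩
      · rw [cone_iff_kap hS B hB e (hG.enot B hB)]
        refine ⟨hy.1, fun i => ?_⟩
        have := ht (Sum.inl i)
        rw [map_add, map_smul, smul_eq_mul, mul_comm]
        exact this
      · rw [cone_iff_kap hS B' hB' e (hG.enot B' hB')]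
        refine ⟨hy.2.1, fun i => ?_⟩
        have := ht (Sum.inr (Sum.inl i))
        rw [map_add, map_smul, smul_eq_mul, mul_comm]
        exact this
      · rw [cone_iff_kap hS B'' hB'' e (hG.enot B'' hB'')]
        refine ⟨?_, fun i => ?_⟩
        · rw [← hgt_eq_zero_iff hS B'' hB'' e (hG.enot B'' hB''), map_add, map_smul, smul_eq_mul, mul_comm]
          exact hs
        · have := ht (Sum.inr (Sum.inr i))
          rw [map_add, map_smul, smul_eq_mul, mul_comm]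
          exact this
    rw [e1, e2]
    have h0 := ind_nonneg (∀ j, beK x φ f1 f2 e B B' B'' j < 0)
    linarith
  · have h1 : ¬ (LiveK T B B' B'' ∧ ∀ j, 0 < beK x φ f1 f2 e B B' B'' j) := fun h => hL h.1
    rw [ind_false h1]
    have h2 : ∑ j : Fin 4 ⊕ (Fin 4 ⊕ Fin 4), WK x T φ f1 f2 e B B' B'' j = 0 := by
      refine Finset.sum_eq_zero fun j _ => ?_
      unfold WK
      rw [ind_false hL, zero_mul]
    rw [h2]
    have := ind_nonneg (T B ∧ T B' ∧ T B'' ∧ Disj B B' ∧ Disj B B'' ∧ Disj B' B'' ∧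
        ∃ y, φ y = 0 ∧ Cone x B y ∧ Cone x B' y ∧ Cone x B'' y)
    linarith

theorem pk_sum {E V : Type} [AddCommGroup E] [Module ℝ E] [Fintype V] {x : V → E}
    {T : (Fin 4 → V) → Prop} (hS : Sys 4 x T) {φ f1 f2 : Module.Dual ℝ E} {e : E}
    (hG : PKGood x φ f1 f2 e) :
    NPK x T φ f1 f2 e ≤ 2 * ZK x T φ +
      ∑ j : Fin 4 ⊕ (Fin 4 ⊕ Fin 4), |∑ B : Fin 4 → V, ∑ B' : Fin 4 → V, ∑ B'' : Fin 4 → V,
        WK x T φ f1 f2 e B B' B'' j| := by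
  have h1 : NPK x T φ f1 f2 e ≤ ∑ B : Fin 4 → V, ∑ B' : Fin 4 → V, ∑ B'' : Fin 4 → V,
      (2 * ind (T B ∧ T B' ∧ T B'' ∧ Disj B B' ∧ Disj B B'' ∧ Disj B' B'' ∧
        ∃ y, φ y = 0 ∧ Cone x B y ∧ Cone x B' y ∧ Cone x B'' y) +
        ∑ j : Fin 4 ⊕ (Fin 4 ⊕ Fin 4), WK x T φ f1 f2 e B B' B'' j) :=
    Finset.sum_le_sum fun B _ => Finset.sum_le_sum fun B' _ => Finset.sum_le_sum fun B'' _ =>
      PKs_triple hS hG B B' B''
  refine h1.trans ?_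
  have h2 : ∑ B : Fin 4 → V, ∑ B' : Fin 4 → V, ∑ B'' : Fin 4 → V,
      (2 * ind (T B ∧ T B' ∧ T B'' ∧ Disj B B' ∧ Disj B B'' ∧ Disj B' B'' ∧
        ∃ y, φ y = 0 ∧ Cone x B y ∧ Cone x B' y ∧ Cone x B'' y) +
        ∑ j : Fin 4 ⊕ (Fin 4 ⊕ Fin 4), WK x T φ f1 f2 e B B' B'' j) = 2 * ZK x T φ +
      ∑ j : Fin 4 ⊕ (Fin 4 ⊕ Fin 4), ∑ B : Fin 4 → V, ∑ B' : Fin 4 → V, ∑ B'' : Fin 4 → V,
        WK x T φ f1 f2 e B B' B'' j := by
    have h3 : ∀ B B' : Fin 4 → V, ∑ B'' : Fin 4 → V,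
      (2 * ind (T B ∧ T B' ∧ T B'' ∧ Disj B B' ∧ Disj B B'' ∧ Disj B' B'' ∧
        ∃ y, φ y = 0 ∧ Cone x B y ∧ Cone x B' y ∧ Cone x B'' y) +
        ∑ j : Fin 4 ⊕ (Fin 4 ⊕ Fin 4), WK x T φ f1 f2 e B B' B'' j) =
        2 * (∑ B'' : Fin 4 → V, ind (T B ∧ T B' ∧ T B'' ∧ Disj B B' ∧ Disj B B'' ∧ Disj B' B'' ∧
        ∃ y, φ y = 0 ∧ Cone x B y ∧ Cone x B' y ∧ Cone x B'' y)) +
        ∑ j : Fin 4 ⊕ (Fin 4 ⊕ Fin 4), ∑ B'' : Fin 4 → V, WK x T φ f1 f2 e B B' B'' j := by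
      intro B B'
      rw [Finset.sum_add_distrib, ← Finset.mul_sum]
      congr 1
      exact Finset.sum_comm
    have h4 : ∀ B : Fin 4 → V, ∑ B' : Fin 4 → V, ∑ B'' : Fin 4 → V,
      (2 * ind (T B ∧ T B' ∧ T B'' ∧ Disj B B' ∧ Disj B B'' ∧ Disj B' B'' ∧
        ∃ y, φ y = 0 ∧ Cone x B y ∧ Cone x B' y ∧ Cone x B'' y) +
        ∑ j : Fin 4 ⊕ (Fin 4 ⊕ Fin 4), WK x T φ f1 f2 e B B' B'' j) =
        2 * (∑ B' : Fin 4 → V, ∑ B'' : Fin 4 → V, ind (T B ∧ T B' ∧ T B'' ∧ Disj B B' ∧ Disj B B'' ∧ Disj B' B'' ∧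
        ∃ y, φ y = 0 ∧ Cone x B y ∧ Cone x B' y ∧ Cone x B'' y)) +
        ∑ j : Fin 4 ⊕ (Fin 4 ⊕ Fin 4), ∑ B' : Fin 4 → V, ∑ B'' : Fin 4 → V, WK x T φ f1 f2 e B B' B'' j := by
      intro B
      rw [Finset.sum_congr rfl fun B' _ => h3 B B', Finset.sum_add_distrib, ← Finset.mul_sum]
      congr 1
      exact Finset.sum_comm
    rw [Finset.sum_congr rfl fun B _ => h4 B, Finset.sum_add_distrib, ← Finset.mul_sum]
    congr 1
    exact Finset.sum_comm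
  rw [h2]
  gcongr
  exact le_abs_self _

end KS13
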