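import Pool.Agent.LibKS13.Cd
import Pool.Agent.LibKS37.G1

/-!
# KS13 row PKv: groups on the side of B'' (port of KS37 P3gv `p3_gv`)
`gv2` with p0 = av x (sk x φ B') f1 f2 B, q = qv .., X = image B ∪ image B' (≤ 8), bound 10. The hypothesis kap ≠ 0 of `gv2` is needed only for u with T (update w i u), u ∉ X, so B_u is disjoint from B, B' (after
the usual case split on w): hG.kapq''.
-/

open Finset Function
open scoped Classical

namespace KS13

open KS37

theorem PKv_X {V : Type} [Fintype V] (B B' : Fin 4 → V) :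
    ((Finset.univ.image B ∪ Finset.univ.image B').card : ℝ) ≤ 8 := by
  have h := Finset.card_image_le (s := (Finset.univ : Finset (Fin 4))) (f := B)
  have h' := Finset.card_image_le (s := (Finset.univ : Finset (Fin 4))) (f := B')
  rw [Finset.card_univ, Fintype.card_fin] at h h'
  have h2 := Finset.card_union_le (Finset.univ.image B) (Finset.univ.image B')
  have : (Finset.univ.image B ∪ Finset.univ.image B').card ≤ 8 := by omega
  exact_mod_cast this

theorem PKv_disj {V : Type} {r s : ℕ} (w : Fin r → V) (j : Fin r) (B : Fin s → V)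
    (hm : ∀ l, l ≠ j → ∀ i, B i ≠ w l) (u : V) :
    Disj B (update w j u) ↔ u ∉ Finset.univ.image B := by
  constructor
  · intro h hu
    obtain ⟨i, _, hi⟩ := Finset.mem_image.1 hu
    exact h i j (by rw [update_self]; exact hi)
  · intro hu i l
    by_cases hl : l = j
    · subst hl
      rw [update_self]
      intro h
      exact hu (Finset.mem_image.2 ⟨i, Finset.mem_univ i, h⟩)
    · rw [update_of_ne hl]
      exact hm l hl i

/-- one group -/
theorem PKv_group {E V : Type} [AddCommGroup E] [Module ℝ E] [Fintype V] {x : V → E}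
    {T : (Fin 4 → V) → Prop} (hS : Sys 4 x T) {φ f1 f2 : Module.Dual ℝ E} {e : E}
    (hG : PKGood x φ f1 f2 e) (i : Fin 4) (B B' w : Fin 4 → V) :
    |∑ u, WK x T φ f1 f2 e B B' (update w i u) (Sum.inr (Sum.inr i))| ≤ 10 := by
  by_cases hA : T B ∧ T B' ∧ Disj B B'
  swap
  · rw [Finset.sum_eq_zero, abs_zero]
    · norm_num
    · intro u _
      unfold WK
      rw [ind_false (fun h => hA ⟨h.1, h.2.1, h.2.2.2.1⟩), zero_mul]
  obtain ⟨hT, hT', hD⟩ := hA
  by_cases hm : ∀ l, l ≠ i → ∀ j, B j ≠ w l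
  swap
  · push Not at hm
    obtain ⟨l, hl, j, hj⟩ := hm
    rw [Finset.sum_eq_zero, abs_zero]
    · norm_num
    · intro u _
      unfold WK
      rw [ind_false (fun h => h.2.2.2.2.1 j l (by rw [update_of_ne hl]; exact hj)), zero_mul]
  by_cases hm' : ∀ l, l ≠ i → ∀ j, B' j ≠ w l
  swap
  · push Not at hm'
    obtain ⟨l, hl, j, hj⟩ := hm'
    rw [Finset.sum_eq_zero, abs_zero]
    · norm_num
    · intro u _
      unfold WK
      rw [ind_false (fun h => h.2.2.2.2.2 j l (by rw [update_of_ne hl]; exact hj)), zero_mul]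
  have hB := hS.inj _ hT
  have hB' := hS.inj _ hT'
  have hgv := gv2 hS w i (av x (sk x φ B') f1 f2 B) (qv x (sk x φ B') f1 f2 B) e
    (Finset.univ.image B ∪ Finset.univ.image B')
    (fun t => (∀ i, 0 < kap x B e i (av x (sk x φ B') f1 f2 B) + kap x B e i (qv x (sk x φ B') f1 f2 B) * t) ∧
      ∀ i, 0 < kap x B' e i (av x (sk x φ B') f1 f2 B) + kap x B' e i (qv x (sk x φ B') f1 f2 B) * t)
    (fun u hTu hu => by
      rw [Finset.mem_union, not_or, ← PKv_disj w i B hm u, ← PKv_disj w i B' hm' u] at hu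
      exact ⟨hG.enot _ (hS.inj _ hTu), hG.kapq'' B B' _ hB hB' (hS.inj _ hTu) hD hu.1 hu.2 i⟩)
  have hX := PKv_X B B'
  refine le_trans (le_of_eq ?_) (hgv.trans (by linarith))
  congr 1
  refine Finset.sum_congr rfl fun u _ => ?_
  have hiff : LiveK T B B' (update w i u) ∧
      Ev (alK x φ f1 f2 e B B' (update w i u)) (beK x φ f1 f2 e B B' (update w i u)) (Sum.inr (Sum.inr i)) ↔
      (T (update w i u) ∧ u ∉ Finset.univ.image B ∪ Finset.univ.image B' ∧
        EvB x (update w i u) e i (av x (sk x φ B') f1 f2 B) (qv x (sk x φ B') f1 f2 B) ∧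
        (fun t => (∀ i, 0 < kap x B e i (av x (sk x φ B') f1 f2 B) + kap x B e i (qv x (sk x φ B') f1 f2 B) * t) ∧
          ∀ i, 0 < kap x B' e i (av x (sk x φ B') f1 f2 B) + kap x B' e i (qv x (sk x φ B') f1 f2 B) * t)
          (tz x (update w i u) e i (av x (sk x φ B') f1 f2 B) (qv x (sk x φ B') f1 f2 B))) := by
    rw [Finset.mem_union, not_or, ← PKv_disj w i B hm u, ← PKv_disj w i B' hm' u]
    constructor
    · rintro ⟨⟨_, _, h1, _, h3, h4⟩, h5⟩
      refine ⟨h1, ⟨h3, h4⟩, ?_, ?_, ?_⟩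
      · intro l hl
        exact h5 (Sum.inr (Sum.inr l)) (fun h => hl (Sum.inr_injective (Sum.inr_injective h)))
      · intro j
        exact h5 (Sum.inl j) (by simp)
      · intro j
        exact h5 (Sum.inr (Sum.inl j)) (by simp)
    · rintro ⟨h1, ⟨h3, h4⟩, h5, h6, h7⟩
      refine ⟨⟨hT, hT', h1, hD, h3, h4⟩, ?_⟩
      rintro (l | j | j) hl
      · exact h6 l
      · exact h7 j
      · exact h5 j (fun h => hl (by rw [h]))
  unfold WK
  rw [← mul_assoc, ← ind_and, ind_congr hiff]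
  rfl

theorem pk_gv {E V : Type} [AddCommGroup E] [Module ℝ E] [Fintype V] {x : V → E}
    {T : (Fin 4 → V) → Prop} (hS : Sys 4 x T)
    {φ f1 f2 : Module.Dual ℝ E} {e : E} (hG : PKGood x φ f1 f2 e) (i : Fin 4) :
    |∑ B : Fin 4 → V, ∑ B' : Fin 4 → V, ∑ B'' : Fin 4 → V,
        WK x T φ f1 f2 e B B' B'' (Sum.inr (Sum.inr i))| ≤ 10 * nn V ^ 11 := by
  have h0 : ∀ B : Fin 4 → V, |∑ B' : Fin 4 → V, ∑ B'' : Fin 4 → V,
      WK x T φ f1 f2 e B B' B'' (Sum.inr (Sum.inr i))| ≤ nn V ^ 4 * (10 * nn V ^ (4 - 1)) := by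
    intro B
    refine (Finset.abs_sum_le_sum_abs _ _).trans ?_
    have h1 : ∀ B' ∈ (Finset.univ : Finset (Fin 4 → V)),
        |∑ B'' : Fin 4 → V, WK x T φ f1 f2 e B B' B'' (Sum.inr (Sum.inr i))| ≤ 10 * nn V ^ (4 - 1) := by
      intro B' _
      exact group_sum (fun B'' => WK x T φ f1 f2 e B B' B'' (Sum.inr (Sum.inr i))) i 10 (by norm_num)
        (fun w => PKv_group hS hG i B B' w)
    refine (Finset.sum_le_sum h1).trans ?_
    rw [sum_const_fun]
  refine (Finset.abs_sum_le_sum_abs _ _).trans ?_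
  refine (Finset.sum_le_sum (fun B _ => h0 B)).trans (le_of_eq ?_)
  rw [sum_const_fun]
  ring

end KS13
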