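import Pool.Agent.LibKS13.PKg
import Pool.Agent.LibKS13.PKa
import Pool.Agent.LibKS13.PKv
import Pool.Agent.LibKS13.PKi
import Pool.Agent.LibKS13.PKs
import Pool.Agent.LibKS37.P2

/-!
# KS13 PK: N³ ≤ 4 ZK + 688 n^11 in a slice of a rank 4 system (assembly, port of KS37 P3)
N² ≤ 2 QS + (44·4 + 3·16) n^7 (`p2_main`); QS·N ≤ NPK + 112 n^11; NPK ≤ 2 ZK + 12·10 n^11.
-/

open Finset Function
open scoped Classical

namespace KS13

open KS37

theorem PK_W {E V : Type} [AddCommGroup E] [Module ℝ E] [Fintype V] {x : V → E}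
    {T : (Fin 4 → V) → Prop} (hS : Sys 4 x T)
    {φ f1 f2 : Module.Dual ℝ E} {e : E} (hG : PKGood x φ f1 f2 e) :
    ∑ j : Fin 4 ⊕ (Fin 4 ⊕ Fin 4), |∑ B : Fin 4 → V, ∑ B' : Fin 4 → V, ∑ B'' : Fin 4 → V,
        WK x T φ f1 f2 e B B' B'' j| ≤ 120 * nn V ^ 11 := by
  have h1 : ∀ j : Fin 4 ⊕ (Fin 4 ⊕ Fin 4),
      |∑ B : Fin 4 → V, ∑ B' : Fin 4 → V, ∑ B'' : Fin 4 → V, WK x T φ f1 f2 e B B' B'' j| ≤
        10 * nn V ^ 11 := by
    rintro (i | i | i)
    · exact pk_ga hS hG i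
    · exact pk_ga' hS hG i
    · exact pk_gv hS hG i
  refine (Finset.sum_le_sum fun j _ => h1 j).trans ?_
  rw [Finset.sum_const, Finset.card_univ, Fintype.card_sum, Fintype.card_sum, Fintype.card_fin,
    nsmul_eq_mul]
  push_cast; linarith

theorem pk_main {E V : Type} [AddCommGroup E] [Module ℝ E] [Fintype V] {x : V → E}
    {T : (Fin 4 → V) → Prop} (hS : Sys 4 x T)
    (hF : HF x) {φ : Module.Dual ℝ E} (hφ : PhiH x φ) (p e : E) (h : TReg x T p e) :
    NN x T p e ^ 3 ≤ 4 * ZK x T φ + 688 * nn V ^ 11 := by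
  have hn := nn_nonneg V
  have hN0 : 0 ≤ NN x T p e := Finset.sum_nonneg fun _ _ => ind_nonneg _
  have hN1 : NN x T p e ≤ nn V ^ 4 := by
    unfold NN
    refine (sum_ind_le _).trans ?_
    rw [card_fun_real]
  by_cases hV : Nonempty V
  · obtain ⟨f1, f2, e0, hg⟩ := pk_good hS hF hφ
    have h2 := p2_main hS (by norm_num) hg.hyp p e h
    have h3 := pk_inf hS hg p e h
    have h4 := pk_sum hS hg
    have h5 := PK_W hS hg
    have h6 : NN x T p e ^ 3 ≤ (2 * QS x T (LinearMap.ker φ ⊓ LinearMap.ker f1) f2 +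
        224 * nn V ^ 7) * NN x T p e := by
      calc NN x T p e ^ 3 = NN x T p e ^ 2 * NN x T p e := by ring
        _ ≤ (2 * QS x T (LinearMap.ker φ ⊓ LinearMap.ker f1) f2 +
            (44 * (4 : ℕ) + 3 * (4 : ℕ) ^ 2) * (nn V ^ (4 - 1) * nn V ^ 4)) * NN x T p e :=
          mul_le_mul_of_nonneg_right h2 hN0
        _ = (2 * QS x T (LinearMap.ker φ ⊓ LinearMap.ker f1) f2 + 224 * nn V ^ 7) *
            NN x T p e := by
          norm_num
          left; ring
    have h7 : 224 * nn V ^ 7 * NN x T p e ≤ 224 * nn V ^ 7 * nn V ^ 4 :=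
      mul_le_mul_of_nonneg_left hN1 (by positivity)
    have h8 : 224 * nn V ^ 7 * nn V ^ 4 = 224 * nn V ^ 11 := by ring
    nlinarith
  · rw [not_nonempty_iff] at hV
    have h0 : nn V = 0 := by
      unfold nn
      rw [Fintype.card_eq_zero]; simp
    have h1 : NN x T p e = 0 := by
      rw [h0] at hN1
      norm_num at hN1
      exact le_antisymm hN1 hN0
    have h2 : 0 ≤ ZK x T φ := Finset.sum_nonneg fun _ _ => Finset.sum_nonneg fun _ _ =>
      Finset.sum_nonneg fun _ _ => ind_nonneg _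
    rw [h1, h0]
    norm_num
    exact h2

end KS13
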