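import Pool.Agent.LibKS13.Cd
import Pool.Agent.LibKS37.K1

/-!
# KS13 row HL: the links of a vertex: HF
A1, A2, A3 : Finset (LV a) with Adm4. Let A_i' = A_i.image Subtype.val (card the same, a ∉ A_i'). Consider Q = vs x A1' ⊓ vs x (insert a A2') ⊓ vs x (insert a A3') in E;
Adm A1' (insert a A2') (insert a A3') (the intersection of the last two is {a}), so by GF finrank Q = a1 + (a2+1) + (a3+1) - 12 = a1+a2+a3 - 10. The map mkQ (modulo x a) restricted to Q is injective
(x a ∉ vs x A1': independence of the at most 5 ≤ 6 vectors; so Q ⊓ span{x a} = ⊥) and its image is vs (lx x a) A1 ⊓ vs (lx x a) A2 ⊓ vs (lx x a) A3: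
vs (lx x a) A_i = map mkQ (vs x A_i'), and y ∈ vs x A1' with mkQ y ∈ map mkQ (vs x A_i') iff y ∈ vs x (insert a A_i'). (`LinearMap.finrank..`, `Submodule.finrank_map_eq..`/
`LinearEquiv.finrank_eq` with `Submodule.equivMapOfInjective` for the restriction.)
-/

open Finset Function
open scoped Classical

namespace KS13

open KS37

private theorem HL_map {E V : Type} [AddCommGroup E] [Module ℝ E] {x : V → E} (a : V)
    (A : Finset (LV a)) : vs (lx x a) (A : Set (LV a)) =
      (vs x ((A.image Subtype.val : Finset V) : Set V)).map (Submodule.span ℝ {x a}).mkQ := by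
  unfold vs
  rw [Submodule.map_span, Finset.coe_image, Set.image_image, Set.image_image]
  rfl

private theorem HL_ins {E V : Type} [AddCommGroup E] [Module ℝ E] {x : V → E} (a : V)
    (A : Finset V) : vs x ((insert a A : Finset V) : Set V) =
      Submodule.span ℝ {x a} ⊔ vs x (A : Set V) := by
  unfold vs
  rw [Finset.coe_insert, Set.image_insert_eq, Submodule.span_insert]

private theorem HL_mem {E V : Type} [AddCommGroup E] [Module ℝ E] {x : V → E} (a : V)
    (A : Finset (LV a)) (y : E) : (Submodule.span ℝ {x a}).mkQ y ∈ vs (lx x a) (A : Set (LV a)) ↔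
      y ∈ vs x ((insert a (A.image Subtype.val) : Finset V) : Set V) := by
  rw [HL_map, HL_ins, ← Submodule.mem_comap, Submodule.comap_map_mkQ]

theorem hf_link {E V : Type} [AddCommGroup E] [Module ℝ E] [Fintype V] {x : V → E}
    {T : (Fin 5 → V) → Prop} (hS : Sys 5 x T) (hF : GF x) (a : V) : HF (lx x a) := by
  intro A1 A2 A3 hA
  obtain ⟨h12, h13, h23, c1, c2, c3⟩ := hA
  have hcard : ∀ A : Finset (LV a), (A.image Subtype.val).card = A.card := fun A =>
    Finset.card_image_of_injective _ Subtype.val_injective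
  have hna : ∀ A : Finset (LV a), a ∉ A.image Subtype.val := by
    intro A h
    obtain ⟨v, -, hv⟩ := Finset.mem_image.1 h
    exact v.2 hv
  have hdis : ∀ A B : Finset (LV a), Disjoint A B →
      Disjoint (A.image Subtype.val) (B.image Subtype.val) := fun A B h =>
    (Finset.disjoint_image Subtype.val_injective).2 h
  have hci : ∀ A : Finset (LV a), (insert a (A.image Subtype.val)).card = A.card + 1 := by
    intro A
    rw [Finset.card_insert_of_notMem (hna A), hcard]
  have hdi : ∀ A B : Finset (LV a), Disjoint A B →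
      Disjoint (A.image Subtype.val) (insert a (B.image Subtype.val)) := by
    intro A B h
    rw [Finset.disjoint_insert_right]
    exact ⟨hna A, hdis A B h⟩
  have hadm : Adm (A1.image Subtype.val) (insert a (A2.image Subtype.val))
      (insert a (A3.image Subtype.val)) := by
    refine ⟨hdi _ _ h12, hdi _ _ h13, ?_, ?_, ?_, ?_⟩
    · have h1 : insert a (A2.image Subtype.val) ∩ insert a (A3.image Subtype.val) ⊆ {a} := by
        rw [← Finset.insert_inter_distrib, Finset.disjoint_iff_inter_eq_empty.1 (hdis _ _ h23)]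
        exact fun v hv => by simpa using hv
      exact (Finset.card_le_card h1).trans (by rw [Finset.card_singleton]; norm_num)
    · rw [hcard]; exact c1
    · rw [hci]; omega
    · rw [hci]; omega
  have hQ := hF _ _ _ hadm
  rw [hcard, hci, hci] at hQ
  obtain ⟨Q, hQd⟩ : ∃ Q : Submodule ℝ E, Q = vs x ((A1.image Subtype.val : Finset V) : Set V) ⊓
      vs x ((insert a (A2.image Subtype.val) : Finset V) : Set V) ⊓
      vs x ((insert a (A3.image Subtype.val) : Finset V) : Set V) := ⟨_, rfl⟩
  rw [← hQd] at hQ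
  have hmap : vs (lx x a) (A1 : Set (LV a)) ⊓ vs (lx x a) (A2 : Set (LV a)) ⊓
      vs (lx x a) (A3 : Set (LV a)) = Q.map (Submodule.span ℝ {x a}).mkQ := by
    ext z
    simp only [Submodule.mem_inf, Submodule.mem_map]
    constructor
    · rintro ⟨⟨hz1, hz2⟩, hz3⟩
      rw [HL_map] at hz1
      obtain ⟨y, hy, rfl⟩ := hz1
      rw [HL_mem] at hz2 hz3
      refine ⟨y, ?_, rfl⟩
      rw [hQd]
      exact ⟨⟨hy, hz2⟩, hz3⟩
    · rintro ⟨y, hy, rfl⟩
      rw [hQd] at hy
      obtain ⟨⟨hy1, hy2⟩, hy3⟩ := hy
      refine ⟨⟨?_, (HL_mem a A2 y).2 hy2⟩, (HL_mem a A3 y).2 hy3⟩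
      rw [HL_map]
      exact Submodule.mem_map_of_mem hy1
  have hbot : vs x ((A1.image Subtype.val : Finset V) : Set V) ⊓
      vs x (({a} : Finset V) : Set V) = ⊥ := by
    refine vs_inf_eq_bot hS _ _ (Finset.disjoint_singleton_right.2 (hna A1)) ?_
    rw [hcard, Finset.card_singleton]
    omega
  have hinj : Injective ((Submodule.span ℝ {x a}).mkQ.domRestrict Q) := by
    rw [← LinearMap.ker_eq_bot, LinearMap.ker_eq_bot']
    intro y hy
    rw [LinearMap.domRestrict_apply, Submodule.mkQ_apply, Submodule.Quotient.mk_eq_zero] at hy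
    have h1 : (y : E) ∈ vs x ((A1.image Subtype.val : Finset V) : Set V) ⊓
        vs x (({a} : Finset V) : Set V) := by
      refine ⟨?_, ?_⟩
      · exact (hQd.le y.2).1.1
      · unfold vs
        rw [Finset.coe_singleton, Set.image_singleton]
        exact hy
    rw [hbot, Submodule.mem_bot] at h1
    exact Subtype.ext h1
  rw [hmap, ← LinearMap.range_domRestrict, LinearMap.finrank_range_of_inj hinj, hQ]
  omega

end KS13
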