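import Pool.Agent.LibKS13.Cd
import Pool.Agent.LibKS37.A2

/-!
# KS13 row PHX: PhiH is a generic condition on φ (rank 4)
x v ≠ 0 (gp with one vertex), the lines vs A1 ⊓ vs A2 (|A1|+|A2| = 6: `finrank_vs_inf`: dimension 1), vs A1 ⊓ vs A2 ⊓ vs A3 (sum 11: HF: dimension 1): `Gen.dual_ne` on a generator (`gen_line`, `line_ne`), `Gen.all`, `Gen.imp`.
-/

open Finset Function
open scoped Classical

namespace KS13

open KS37

private theorem PHX_line {E : Type} [AddCommGroup E] [Module ℝ E] (L : Submodule ℝ E)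
    (h : Module.finrank ℝ L = 1) :
    Gen (fun φ : Module.Dual ℝ E => ∀ y ∈ L, φ y = 0 → y = 0) := by
  obtain ⟨v, -, hv0, hgen⟩ := gen_line L h
  exact (Gen.dual_ne hv0).mono fun φ hφ => line_ne L hgen φ hφ

theorem phi_gen {E V : Type} [AddCommGroup E] [Module ℝ E] [Fintype V] {x : V → E}
    {T : (Fin 4 → V) → Prop} (hS : Sys 4 x T) (hF : HF x) :
    Gen (fun φ : Module.Dual ℝ E => PhiH x φ) := by
  have g1 : Gen (fun φ : Module.Dual ℝ E => ∀ v, φ (x v) ≠ 0) := by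
    refine Gen.all fun v => Gen.dual_ne ?_
    have := hS.gp 1 (by omega) (fun _ => v) (injective_of_subsingleton _)
    exact this.ne_zero 0
  have g2 : Gen (fun φ : Module.Dual ℝ E => ∀ A1 A2 : Finset V, Disjoint A1 A2 → A1.card ≤ 4 →
      A2.card ≤ 4 → A1.card + A2.card = 6 →
      ∀ y ∈ vs x (A1 : Set V) ⊓ vs x (A2 : Set V), φ y = 0 → y = 0) := by
    refine Gen.all fun A1 => Gen.all fun A2 => Gen.imp fun hd => Gen.imp fun h1 =>
      Gen.imp fun h2 => Gen.imp fun h3 => PHX_line _ ?_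
    have h4 := finrank_vs_inf hS A1 A2 hd (by omega) (by omega) (by omega)
    omega
  have g3 : Gen (fun φ : Module.Dual ℝ E => ∀ A1 A2 A3 : Finset V, Adm4 A1 A2 A3 →
      A1.card + A2.card + A3.card = 11 →
      ∀ y ∈ vs x (A1 : Set V) ⊓ vs x (A2 : Set V) ⊓ vs x (A3 : Set V), φ y = 0 → y = 0) := by
    refine Gen.all fun A1 => Gen.all fun A2 => Gen.all fun A3 => Gen.imp fun hA =>
      Gen.imp fun h1 => PHX_line _ ?_
    rw [hF A1 A2 A3 hA]
    omega
  exact ((g1.and g2).and g3).mono fun φ h => ⟨h.1.1, h.1.2, h.2⟩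

end KS13
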