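import Pool.Agent.LibKS13.LP
import Pool.Agent.LibKS13.PHX
import Pool.Agent.LibKS13.HL
import Pool.Agent.LibKS37.K1

/-!
# KS13 row RX: existence of g, f, e
g generic (`Gen.exists`): g (x v) ≠ 0, g ≠ 0 on a generator of each line vs A1 ⊓ vs A2 ⊓ vs A3 (sum 13, GF: dimension 1). Then f generic: fx; f7: lines vs A1 ⊓ vs A2 (`finrank_vs_inf`: 7 - 6 = 1); f13; iso (sum 14, GF: dimension 2):
the plane contains a line with sum 13 (remove a vertex of A1 or A2 or A3; Adm is kept) on which g ≠ 0, so (plane) ⊓ ker g is a line (`finrank_inf_ker`), f ≠ 0 on its generator: `iso2_of`; th: for the generator v of a line of sum 13 and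
c ∉ A1: the vector g (x c) • v - g v • x c is ≠ 0 (otherwise x c ∈ vs x A1, |A1| ≤ 4, independent: `vs_inf_eq_bot` with {c}), f ≠ 0 on it; then f y g(x c) = f(x c) g y for y = t v gives t = 0.
PhiH for every a: `pf_gen` with `phi_gen (link_sys hS a) (hf_link hS hF a)`. e generic: outside sp x F (dimension 5 < 6).
-/

open Finset Function
open scoped Classical

namespace KS13

open KS37

section
variable {E V : Type} [AddCommGroup E] [Module ℝ E] [Fintype V] {x : V → E}
    {T : (Fin 5 → V) → Prop}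

private theorem RX_ne (hS : Sys 5 x T) (v : V) : x v ≠ 0 := by
  have h := hS.gp 1 (by norm_num) (fun _ => v) (fun i j _ => Subsingleton.elim i j)
  exact h.ne_zero 0

private theorem RX_fin (hF : GF x) {A1 A2 A3 : Finset V} (hA : Adm A1 A2 A3)
    (hs : A1.card + A2.card + A3.card = 13) :
    Module.finrank ℝ (vs x (A1 : Set V) ⊓ vs x (A2 : Set V) ⊓ vs x (A3 : Set V) : Submodule ℝ E) =
      1 := by
  rw [hF A1 A2 A3 hA, hs]

private theorem RX_gen_line (L : Submodule ℝ E) (h : Module.finrank ℝ L = 1) :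
    Gen (fun f : Module.Dual ℝ E => ∀ y ∈ L, f y = 0 → y = 0) := by
  obtain ⟨v, _, hv0, hgen⟩ := gen_line L h
  exact (Gen.dual_ne hv0).mono fun f hf => line_ne L hgen f hf

private theorem RX_gen13 (hF : GF x) :
    Gen (fun f : Module.Dual ℝ E => ∀ A1 A2 A3 : Finset V, Adm A1 A2 A3 →
      A1.card + A2.card + A3.card = 13 →
      ∀ y ∈ vs x (A1 : Set V) ⊓ vs x (A2 : Set V) ⊓ vs x (A3 : Set V), f y = 0 → y = 0) :=
  Gen.all fun _ => Gen.all fun _ => Gen.all fun _ => Gen.imp fun hA => Gen.imp fun hs =>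
    RX_gen_line _ (RX_fin hF hA hs)

private theorem RX_gen7 (hS : Sys 5 x T) :
    Gen (fun f : Module.Dual ℝ E => ∀ A1 A2 : Finset V, Disjoint A1 A2 → A1.card ≤ 4 →
      A2.card ≤ 5 → A1.card + A2.card = 7 →
      ∀ y ∈ vs x (A1 : Set V) ⊓ vs x (A2 : Set V), f y = 0 → y = 0) := by
  refine Gen.all fun A1 => Gen.all fun A2 => Gen.imp fun hd => Gen.imp fun h1 =>
    Gen.imp fun h2 => Gen.imp fun hs => RX_gen_line _ ?_
  have := finrank_vs_inf hS A1 A2 hd (by omega) (by omega) (by omega)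
  omega

private theorem RX_genIso (hS : Sys 5 x T) (hF : GF x) (g : Module.Dual ℝ E)
    (hg : ∀ A1 A2 A3 : Finset V, Adm A1 A2 A3 → A1.card + A2.card + A3.card = 13 →
      ∀ y ∈ vs x (A1 : Set V) ⊓ vs x (A2 : Set V) ⊓ vs x (A3 : Set V), g y = 0 → y = 0) :
    Gen (fun f : Module.Dual ℝ E => ∀ A1 A2 A3 : Finset V, Adm A1 A2 A3 →
      A1.card + A2.card + A3.card = 14 →
      Iso2 (vs x (A1 : Set V) ⊓ vs x (A2 : Set V) ⊓ vs x (A3 : Set V)) g f) := by
  haveI := finiteDimensional_of_sys hS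
  refine Gen.all fun A1 => Gen.all fun A2 => Gen.all fun A3 => Gen.imp fun hA =>
    Gen.imp fun hs => ?_
  have h2 : Module.finrank ℝ (vs x (A1 : Set V) ⊓ vs x (A2 : Set V) ⊓ vs x (A3 : Set V) :
      Submodule ℝ E) = 2 := by
    rw [hF A1 A2 A3 hA, hs]
  obtain ⟨d12, d13, hc, c1, c2, c3⟩ := hA
  obtain ⟨a, ha⟩ : A1.Nonempty := Finset.card_pos.1 (by omega)
  have hA' : Adm (A1.erase a) A2 A3 :=
    ⟨d12.mono_left (Finset.erase_subset _ _), d13.mono_left (Finset.erase_subset _ _), hc,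
      (Finset.card_le_card (Finset.erase_subset _ _)).trans c1, c2, c3⟩
  have hs' : (A1.erase a).card + A2.card + A3.card = 13 := by
    rw [Finset.card_erase_of_mem ha]
    omega
  have hle : vs x ((A1.erase a : Finset V) : Set V) ⊓ vs x (A2 : Set V) ⊓ vs x (A3 : Set V) ≤
      vs x (A1 : Set V) ⊓ vs x (A2 : Set V) ⊓ vs x (A3 : Set V) := by
    refine inf_le_inf_right _ (inf_le_inf_right _ ?_)
    unfold vs
    exact Submodule.span_mono (Set.image_mono (Finset.coe_subset.2 (Finset.erase_subset _ _)))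
  have hex := exists_ne_of_line hle (RX_fin hF hA' hs') (hg _ _ _ hA' hs')
  have h1 := finrank_inf_ker (vs x (A1 : Set V) ⊓ vs x (A2 : Set V) ⊓ vs x (A3 : Set V)) g hex
  rw [h2] at h1
  refine (RX_gen_line (vs x (A1 : Set V) ⊓ vs x (A2 : Set V) ⊓ vs x (A3 : Set V) ⊓
    LinearMap.ker g) (by omega)).mono fun f hf => ?_
  exact iso2_of _ h2 g f fun y hy h3 h4 => hf y ⟨hy, LinearMap.mem_ker.2 h3⟩ h4

private theorem RX_genTh (hS : Sys 5 x T) (hF : GF x) (g : Module.Dual ℝ E)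
    (hg : ∀ A1 A2 A3 : Finset V, Adm A1 A2 A3 → A1.card + A2.card + A3.card = 13 →
      ∀ y ∈ vs x (A1 : Set V) ⊓ vs x (A2 : Set V) ⊓ vs x (A3 : Set V), g y = 0 → y = 0) :
    Gen (fun f : Module.Dual ℝ E => ∀ A1 A2 A3 : Finset V, Adm A1 A2 A3 →
      A1.card + A2.card + A3.card = 13 → ∀ c, c ∉ A1 →
      ∀ y ∈ vs x (A1 : Set V) ⊓ vs x (A2 : Set V) ⊓ vs x (A3 : Set V),
        f y * g (x c) = f (x c) * g y → y = 0) := by
  refine Gen.all fun A1 => Gen.all fun A2 => Gen.all fun A3 => Gen.imp fun hA =>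
    Gen.imp fun hs => Gen.all fun c => Gen.imp fun hc => ?_
  obtain ⟨v, hv, hv0, hgen⟩ := gen_line _ (RX_fin hF hA hs)
  have hgv : g v ≠ 0 := fun h0 => hv0 (hg A1 A2 A3 hA hs v hv h0)
  have hu : g (x c) • v - g v • x c ≠ 0 := by
    intro h0
    have h1 : g v • x c = g (x c) • v := (sub_eq_zero.1 h0).symm
    have h2 : x c ∈ vs x (A1 : Set V) := by
      have h3 : g v • x c ∈ vs x (A1 : Set V) := by
        rw [h1]
        exact Submodule.smul_mem _ _ hv.1.1
      exact (Submodule.smul_mem_iff _ hgv).1 h3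
    have h4 : x c ∈ vs x (({c} : Finset V) : Set V) := by
      unfold vs
      refine Submodule.subset_span ⟨c, ?_, rfl⟩
      rw [Finset.coe_singleton]
      exact Set.mem_singleton c
    have h5 := vs_inf_eq_bot hS A1 {c} (Finset.disjoint_singleton_right.2 hc)
      (by rw [Finset.card_singleton]; have := hA.2.2.2.1; omega)
    have h6 : x c ∈ (⊥ : Submodule ℝ E) := by
      rw [← h5]
      exact ⟨h2, h4⟩
    exact RX_ne hS c ((Submodule.mem_bot ℝ).1 h6)
  refine (Gen.dual_ne hu).mono fun f hf y hy hyf => ?_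
  obtain ⟨t, rfl⟩ := hgen y hy
  have h7 : t * f (g (x c) • v - g v • x c) = 0 := by
    rw [map_sub, map_smul, map_smul, smul_eq_mul, smul_eq_mul]
    rw [map_smul, map_smul, smul_eq_mul, smul_eq_mul] at hyf
    linear_combination hyf
  rcases mul_eq_zero.1 h7 with h8 | h8
  · rw [h8, zero_smul]
  · exact absurd h8 hf

end

theorem rh_exists {E V : Type} [AddCommGroup E] [Module ℝ E] [Fintype V] {x : V → E}
    {T : (Fin 5 → V) → Prop} (hS : Sys 5 x T)
    (hF : GF x) : ∃ g f e, RH x g f e ∧ ∀ a, PhiH (lx x a) (pf x g f a) := by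
  obtain ⟨g, hgx, hg13⟩ := (Gen.and (Gen.all fun v => Gen.dual_ne (RX_ne hS v))
    (RX_gen13 hF)).exists
  obtain ⟨f, hfx, hf7, hf13, hiso, hth, hphi⟩ :=
    (Gen.and (Gen.all fun v => Gen.dual_ne (RX_ne hS v)) (Gen.and (RX_gen7 hS)
      (Gen.and (RX_gen13 hF) (Gen.and (RX_genIso hS hF g hg13) (Gen.and (RX_genTh hS hF g hg13)
        (Gen.all fun a : V => pf_gen x g a (hgx a)
          (phi_gen (link_sys hS a) (hf_link hS hF a)))))))).exists
  obtain ⟨e, he⟩ : ∃ e : E, ∀ F : Fin 5 → V, Injective F → e ∉ sp x F := by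
    refine Gen.exists (Gen.all fun F => Gen.imp fun hFi => Gen.notMem ?_)
    intro htop
    have h1 := finrank_sp hS (s := 5) (by norm_num) F hFi
    rw [htop, finrank_top, hS.rank] at h1
    omega
  exact ⟨g, f, e, ⟨hgx, hg13, hfx, hf7, hf13, hiso, hth, he⟩, hphi⟩

end KS13
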