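import Pool.Agent.LibKS13.R9
import Pool.Agent.LibKS13.TR
import Pool.Agent.LibKS13.RX
import Pool.Agent.LibKS13.PK

/-!
# KS13 F1: first step (assembly)
Σ_a N_a³ ≤ 4 Σ_a ZK_a + 688 n^12 ≤ 12 n^4 (616 n^8 + 34 n^4 K) + 688 n^12 = 8080 n^12 + 408 n^8 K.
-/

open Finset Function
open scoped Classical

namespace KS13

open KS37

theorem F1_nn {V : Type} [Fintype V] (a : V) : nn (LV a) ≤ nn V := by
  unfold nn
  exact_mod_cast Fintype.card_subtype_le (fun v : V => v ≠ a)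

theorem step1 {E V : Type} [AddCommGroup E] [Module ℝ E] [Fintype V] {x : V → E}
    {T : (Fin 5 → V) → Prop} (hS : Sys 5 x T)
    (K : ℝ) (hK : ∀ p e, NN x T p e ≤ K) (hF : GF x) (p e : (a : V) → LE x a)
    (h : ∀ a, TReg (lx x a) (lT (r := 4) T a) (p a) (e a)) :
    ∑ a, NN (lx x a) (lT (r := 4) T a) (p a) (e a) ^ 3 ≤
      8080 * nn V ^ 12 + 408 * (nn V ^ 8 * K) := by
  obtain ⟨g, f, e0, hR, hP⟩ := rh_exists hS hF
  have hn := nn_nonneg V
  have hK0 : 0 ≤ K := (NN_nonneg' x T 0 0).trans (hK 0 0)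
  have h1 : ∀ a, NN (lx x a) (lT (r := 4) T a) (p a) (e a) ^ 3 ≤
      4 * ZK (lx x a) (lT (r := 4) T a) (pf x g f a) + 688 * nn V ^ 11 := by
    intro a
    refine (pk_main (link_sys hS a) (hf_link hS hF a) (hP a) _ _ (h a)).trans ?_
    have h2 : nn (LV a) ^ 11 ≤ nn V ^ 11 := pow_le_pow_left₀ (nn_nonneg _) (F1_nn a) 11
    linarith
  have h2 := tr13 hS hR
  have h3 : ∑ B1 : Fin 4 → V, ind (Injective B1) * OBR x T g f B1 ≤
      nn V ^ 4 * (616 * nn V ^ 8 + 34 * (nn V ^ 4 * K)) := by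
    rw [← sum_const_fun V 4]
    refine Finset.sum_le_sum fun B1 _ => ?_
    by_cases hB : Injective B1
    · rw [ind_true hB, one_mul]
      exact obr_bound hS K hK hF hR B1 hB
    · rw [ind_false hB, zero_mul]
      positivity
  have hcard : ∑ _a : V, 688 * nn V ^ 11 = nn V * (688 * nn V ^ 11) := by
    rw [Finset.sum_const, nsmul_eq_mul, Finset.card_univ]; rfl
  calc ∑ a, NN (lx x a) (lT (r := 4) T a) (p a) (e a) ^ 3
      ≤ ∑ a, (4 * ZK (lx x a) (lT (r := 4) T a) (pf x g f a) + 688 * nn V ^ 11) :=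
        Finset.sum_le_sum fun a _ => h1 a
    _ = 4 * ∑ a, ZK (lx x a) (lT (r := 4) T a) (pf x g f a) + nn V * (688 * nn V ^ 11) := by
        rw [Finset.sum_add_distrib, ← Finset.mul_sum, hcard]
    _ ≤ 4 * (3 * (nn V ^ 4 * (616 * nn V ^ 8 + 34 * (nn V ^ 4 * K)))) +
        nn V * (688 * nn V ^ 11) := by linarith
    _ = 8080 * nn V ^ 12 + 408 * (nn V ^ 8 * K) := by ring

end KS13
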