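import Pool.Agent.LibKS13.Cd

/-!
# KS13 row G3L: HF implies (G3) (rank 4)
sp x B1 ⊓ sp x B2 ⊓ sp x (Fin.cons a B3): vertex sets univ.image B1 (3), univ.image B2 (3), univ.image (Fin.cons a B3) (4), pairwise disjoint, sum 10: finrank 0, so ⊥
(`sp_eq_vs`/`sp_vx`, `bot_of_finrank`).
-/

open Finset Function
open scoped Classical

namespace KS13

open KS37

theorem g3_of_hf {E V : Type} [AddCommGroup E] [Module ℝ E] [Fintype V] {x : V → E}
    {T : (Fin 4 → V) → Prop} (hS : Sys 4 x T) (hF : HF x) : G3 x := by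
  intro a B1 B2 B3 h1 h2 h3 h12 h13 h23 ha1 ha2 ha3
  haveI : Module.Finite ℝ E :=
    Module.finite_of_finrank_pos (by rw [hS.rank]; exact Nat.succ_pos _)
  have hc : Injective (Fin.cons a B3 : Fin 4 → V) := by
    rw [Fin.cons_injective_iff]
    exact ⟨fun ⟨i, hi⟩ => ha3 i hi, h3⟩
  have d1 : Disj B1 (Fin.cons a B3 : Fin 4 → V) := by
    intro i j
    refine Fin.cases ?_ (fun j => ?_) j
    · exact ha1 i
    · exact h13 i j
  have d2 : Disj B2 (Fin.cons a B3 : Fin 4 → V) := by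
    intro i j
    refine Fin.cases ?_ (fun j => ?_) j
    · exact ha2 i
    · exact h23 i j
  have c1 := card_vx h1 (∅ : Finset (Fin 3))
  have c2 := card_vx h2 (∅ : Finset (Fin 3))
  have c3 := card_vx hc (∅ : Finset (Fin 4))
  rw [Finset.card_empty] at c1 c2 c3
  rw [sp_vx B1, sp_vx B2, sp_vx (Fin.cons a B3 : Fin 4 → V)]
  apply bot_of_finrank
  rw [hF _ _ _ ⟨vx_disj h12 _ _, vx_disj d1 _ _, vx_disj d2 _ _, by omega, by omega, by omega⟩,
    c1, c2, c3]

end KS13
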