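import Pool.Agent.LibKS13.G2L
import Pool.Agent.LibKS13.G3L
import Pool.Agent.LibKS13.HL
import Pool.Agent.LibKS37.K6
import Pool.Agent.LibKS37.P3
import Pool.Agent.LibKS37.C3

/-!
# KS13 F2: second step (assembly)
In the rank 4 link of a: K_a = N_a + 80 n³ (`upper`), `thCK`: Σ_b ZZ ≤ 81 n^9 + 8 n^6 K_a; `p3_main`: N_ab³ ≤ 4 ZZ_ab + 459 n^8: Σ_b N_ab³ ≤ 4 (721 n^9 + 8 n^6 N_a) + 459 n^9 = 3343 n^9 + 32 n^6 N_a.
-/

open Finset Function
open scoped Classical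

namespace KS13

open KS37

theorem F2_nn {V : Type} [Fintype V] (a : V) : nn (LV a) ≤ nn V := by
  unfold nn
  exact_mod_cast Fintype.card_subtype_le (fun v : V => v ≠ a)

/-- `NN` does not depend on the enumeration of the vertices. -/
theorem F2_inst {E V : Type} [AddCommGroup E] [Module ℝ E] {r : ℕ} (i1 i2 : Fintype V)
    (x : V → E) (T : (Fin r → V) → Prop) (p e : E) :
    @NN E V _ _ r i1 x T p e = @NN E V _ _ r i2 x T p e := by
  rw [Subsingleton.elim i1 i2]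

theorem step2_gen {E V : Type} [AddCommGroup E] [Module ℝ E] [Fintype V] {x : V → E}
    {T : (Fin 4 → V) → Prop} (hL : Sys 4 x T) (hG3 : G3 x) (hG2 : ∀ b, G2 (lx x b))
    (p0 e0 : E) (h0 : TReg x T p0 e0) (p e : (b : V) → LE x b)
    (h : ∀ b, TReg (lx x b) (lT (r := 3) T b) (p b) (e b)) :
    ∑ b, NN (lx x b) (lT (r := 3) T b) (p b) (e b) ^ 3 ≤
      3343 * nn V ^ 9 + 32 * nn V ^ 6 * NN x T p0 e0 := by
  have hn := nn_nonneg V
  set N := NN x T p0 e0 with hN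
  have hK : ∀ p e, NN x T p e ≤ N + 80 * nn V ^ 3 := by
    intro p e
    have := upper hL p e p0 e0 h0
    refine this.trans (le_of_eq ?_)
    rw [hN]; norm_num
  have h1 := thCK hL hG3 _ hK
  have h2 : ∀ b, NN (lx x b) (lT (r := 3) T b) (p b) (e b) ^ 3 ≤
      4 * ZZ (lx x b) (lT (r := 3) T b) + 459 * nn V ^ 8 := by
    intro b
    refine (p3_main (link_sys hL b) (hG2 b) _ _ (h b)).trans ?_
    have h3 : nn (LV b) ^ 8 ≤ nn V ^ 8 :=
      pow_le_pow_left₀ (nn_nonneg _) (F2_nn b) 8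
    linarith
  have hcard : ∑ _b : V, 459 * nn V ^ 8 = nn V * (459 * nn V ^ 8) := by
    rw [Finset.sum_const, nsmul_eq_mul, Finset.card_univ]; rfl
  calc ∑ b, NN (lx x b) (lT (r := 3) T b) (p b) (e b) ^ 3
      ≤ ∑ b, (4 * ZZ (lx x b) (lT (r := 3) T b) + 459 * nn V ^ 8) :=
        Finset.sum_le_sum fun b _ => h2 b
    _ = 4 * ∑ b, ZZ (lx x b) (lT (r := 3) T b) + nn V * (459 * nn V ^ 8) := by
        rw [Finset.sum_add_distrib, ← Finset.mul_sum, hcard]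
    _ ≤ 4 * (81 * nn V ^ 9 + 8 * nn V ^ 6 * (N + 80 * nn V ^ 3)) +
          nn V * (459 * nn V ^ 8) := by linarith
    _ = 3343 * nn V ^ 9 + 32 * nn V ^ 6 * N := by ring

theorem step2 {E V : Type} [AddCommGroup E] [Module ℝ E] [Fintype V] {x : V → E}
    {T : (Fin 5 → V) → Prop} (hS : Sys 5 x T)
    (hF : GF x) (a : V) (p0 e0 : LE x a) (h0 : TReg (lx x a) (lT (r := 4) T a) p0 e0)
    (p e : (b : LV a) → LE (lx x a) b)
    (h : ∀ b, TReg (lx (lx x a) b) (lT (r := 3) (lT (r := 4) T a) b) (p b) (e b)) :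
    ∑ b, NN (lx (lx x a) b) (lT (r := 3) (lT (r := 4) T a) b) (p b) (e b) ^ 3 ≤
      3343 * nn V ^ 9 + 32 * nn V ^ 6 * NN (lx x a) (lT (r := 4) T a) p0 e0 := by
  have hL : Sys 4 (lx x a) (lT (r := 4) T a) := link_sys hS a
  have hn := nn_nonneg V
  have hn1 := nn_nonneg (LV a)
  have hn2 := F2_nn a
  have hN0 : 0 ≤ NN (lx x a) (lT (r := 4) T a) p0 e0 :=
    Finset.sum_nonneg fun _ _ => ind_nonneg _
  have h3 := step2_gen hL (g3_of_hf hL (hf_link hS hF a)) (g2_link2 hS hF a) p0 e0 h0 p e h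
  have h3' : ∑ b, NN (lx (lx x a) b) (lT (r := 3) (lT (r := 4) T a) b) (p b) (e b) ^ 3 ≤
      3343 * nn (LV a) ^ 9 + 32 * nn (LV a) ^ 6 * NN (lx x a) (lT (r := 4) T a) p0 e0 := by
    refine (Finset.sum_le_sum fun b _ => le_of_eq ?_).trans h3
    exact congrArg (fun z : ℝ => z ^ 3) (F2_inst _ _ _ _ _ _)
  have h4 : nn (LV a) ^ 9 ≤ nn V ^ 9 := pow_le_pow_left₀ hn1 hn2 9
  have h5 : nn (LV a) ^ 6 ≤ nn V ^ 6 := pow_le_pow_left₀ hn1 hn2 6
  have h6 := mul_le_mul_of_nonneg_right h5 hN0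
  linarith

end KS13
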