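import Pool.Agent.LibKS13.Defs

/-!
# KS13 row FN: the numbers
n = nn V. (Σ N)³ ≤ n² Σ N³ ≤ 48880 n^14 (`pow_sum_div_card_le_sum_pow`, see KS37 F1). (Σ_a Σ_b M)³ ≤ (n²)² Σ Σ M³ (power mean twice, card (LV a) ≤ n) ≤ n⁴ (3343 n^10 + 32 n^6 Σ N). With A = Σ N: S³ ≤ 3343 n^14 + 32 n^10 A,
S^9 ≤ 4 (3343³ n^42 + 32³ n^30 A³) ≤ 4 (3343³ + 32³·48880) n^44 ((u+v)³ ≤ 4(u³+v³); n ≥ 1 or V empty).
-/

open Finset Function
open scoped Classical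

namespace KS13

open KS37

theorem FN_pm {ι : Type*} (s : Finset ι) (f : ι → ℝ) (hf : ∀ i ∈ s, 0 ≤ f i) :
    (∑ i ∈ s, f i) ^ 3 ≤ (s.card : ℝ) ^ 2 * ∑ i ∈ s, f i ^ 3 := by
  rcases s.eq_empty_or_nonempty with h | h
  · rw [h]
    simp
  · have h1 := pow_sum_div_card_le_sum_pow hf 2
    have h2 : (0 : ℝ) < (s.card : ℝ) ^ 2 := by
      have h3 : (0 : ℝ) < s.card := by exact_mod_cast h.card_pos
      positivity
    rw [div_le_iff₀ h2, mul_comm] at h1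
    exact h1

theorem FN_cube {u v : ℝ} (hu : 0 ≤ u) (hv : 0 ≤ v) : (u + v) ^ 3 ≤ 4 * (u ^ 3 + v ^ 3) := by
  have h1 : 0 ≤ (u + v) * (u - v) ^ 2 := by positivity
  nlinarith

theorem num13 {V : Type} [Fintype V] (N : V → ℝ) (M : (a : V) → LV a → ℝ) (hN : ∀ a, 0 ≤ N a)
    (hM : ∀ a b, 0 ≤ M a b) (h1 : ∑ a, N a ^ 3 ≤ 48880 * nn V ^ 12)
    (h2 : ∀ a, ∑ b, M a b ^ 3 ≤ 3343 * nn V ^ 9 + 32 * nn V ^ 6 * N a) :
    (∑ a, ∑ b, M a b) ^ 9 ≤ (4 * (3343 ^ 3 + 32 ^ 3 * 48880)) * nn V ^ 44 := by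
  have hn : ∀ a : V, ((univ : Finset (LV a)).card : ℝ) ≤ nn V := by
    intro a
    have h3 : Fintype.card (LV a) ≤ Fintype.card V := Fintype.card_subtype_le _
    show ((univ : Finset (LV a)).card : ℝ) ≤ (Fintype.card V : ℝ)
    rw [Finset.card_univ]
    exact_mod_cast h3
  have hcV : ((univ : Finset V).card : ℝ) = nn V := by
    rw [Finset.card_univ]
    rfl
  have hn0 : 0 ≤ nn V := by
    rw [← hcV]
    exact Nat.cast_nonneg _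
  have hA := FN_pm univ N (fun a _ => hN a)
  rw [hcV] at hA
  have hA3 : (∑ a, N a) ^ 3 ≤ 48880 * nn V ^ 14 := by
    have h3 := mul_le_mul_of_nonneg_left h1 (by positivity : 0 ≤ nn V ^ 2)
    refine hA.trans (h3.trans (le_of_eq ?_))
    ring
  have hb : ∀ a, (∑ b, M a b) ^ 3 ≤ nn V ^ 2 * (3343 * nn V ^ 9 + 32 * nn V ^ 6 * N a) := by
    intro a
    have h3 := FN_pm univ (M a) (fun b _ => hM a b)
    have h4 : (((univ : Finset (LV a)).card : ℝ)) ^ 2 ≤ nn V ^ 2 :=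
      pow_le_pow_left₀ (Nat.cast_nonneg _) (hn a) 2
    have h5 : 0 ≤ ∑ b, M a b ^ 3 := Finset.sum_nonneg fun b _ => pow_nonneg (hM a b) 3
    exact h3.trans (mul_le_mul h4 (h2 a) h5 (by positivity))
  have hS := FN_pm univ (fun a => ∑ b, M a b) (fun a _ => Finset.sum_nonneg fun b _ => hM a b)
  rw [hcV] at hS
  have hS3 : (∑ a, ∑ b, M a b) ^ 3 ≤ 3343 * nn V ^ 14 + 32 * nn V ^ 10 * ∑ a, N a := by
    have h3 : ∑ a, (∑ b, M a b) ^ 3 ≤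
        ∑ a, nn V ^ 2 * (3343 * nn V ^ 9 + 32 * nn V ^ 6 * N a) :=
      Finset.sum_le_sum fun a _ => hb a
    rw [← Finset.mul_sum, Finset.sum_add_distrib, Finset.sum_const, ← Finset.mul_sum, nsmul_eq_mul,
      hcV] at h3
    have h4 := mul_le_mul_of_nonneg_left h3 (by positivity : 0 ≤ nn V ^ 2)
    refine hS.trans (h4.trans (le_of_eq ?_))
    ring
  have hS0 : 0 ≤ ∑ a, ∑ b, M a b :=
    Finset.sum_nonneg fun a _ => Finset.sum_nonneg fun b _ => hM a b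
  have hA0 : 0 ≤ ∑ a, N a := Finset.sum_nonneg fun a _ => hN a
  have h42 : nn V ^ 42 ≤ nn V ^ 44 := by
    rcases Nat.eq_zero_or_pos (univ : Finset V).card with h0 | h0
    · have h3 : nn V = 0 := by
        rw [← hcV, h0, Nat.cast_zero]
      rw [h3]
      norm_num
    · have h3 : 1 ≤ nn V := by
        rw [← hcV]
        exact_mod_cast h0
      exact pow_le_pow_right₀ h3 (by norm_num)
  have h9 : (∑ a, ∑ b, M a b) ^ 9 = ((∑ a, ∑ b, M a b) ^ 3) ^ 3 := by ring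
  rw [h9]
  have h10 := pow_le_pow_left₀ (pow_nonneg hS0 3) hS3 3
  have h11 := FN_cube (u := 3343 * nn V ^ 14) (v := 32 * nn V ^ 10 * ∑ a, N a) (by positivity)
    (by positivity)
  have h12 : (32 * nn V ^ 10 * ∑ a, N a) ^ 3 ≤ 32 ^ 3 * 48880 * nn V ^ 44 := by
    have h13 := mul_le_mul_of_nonneg_left hA3 (by positivity : 0 ≤ 32 ^ 3 * nn V ^ 30)
    calc (32 * nn V ^ 10 * ∑ a, N a) ^ 3 = 32 ^ 3 * nn V ^ 30 * (∑ a, N a) ^ 3 := by ring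
      _ ≤ 32 ^ 3 * nn V ^ 30 * (48880 * nn V ^ 14) := h13
      _ = 32 ^ 3 * 48880 * nn V ^ 44 := by ring
  have h14 : (3343 * nn V ^ 14) ^ 3 ≤ 3343 ^ 3 * nn V ^ 44 := by
    have h15 := mul_le_mul_of_nonneg_left h42 (by positivity : (0 : ℝ) ≤ 3343 ^ 3)
    refine le_trans (le_of_eq ?_) h15
    ring
  calc ((∑ a, ∑ b, M a b) ^ 3) ^ 3 ≤ (3343 * nn V ^ 14 + 32 * nn V ^ 10 * ∑ a, N a) ^ 3 := h10
    _ ≤ 4 * ((3343 * nn V ^ 14) ^ 3 + (32 * nn V ^ 10 * ∑ a, N a) ^ 3) := h11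
    _ ≤ 4 * (3343 ^ 3 * nn V ^ 44 + 32 ^ 3 * 48880 * nn V ^ 44) := by linarith
    _ = (4 * (3343 ^ 3 + 32 ^ 3 * 48880)) * nn V ^ 44 := by ring

end KS13
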