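import Pool.Agent.LibKS13.Cd

/-!
# KS13 row GF: dimensions from the genericity condition GT
(1) sum = 12: GT. (2) sum < 12: GT-type statement by adding vertices (14 ≤ card V, so there is a vertex outside A1 ∪ A2 ∪ A3, at most 11 vertices): if |A1| < 4 add it
to A1, otherwise |A2| < 5 or |A3| < 5 (|A2| + |A3| ≤ 7), add it there; Adm is kept and the intersection grows. Induction on 12 - sum: the intersection is ⊥, finrank 0.
(3) sum > 12 (≤ 14): then |A3| ≥ 4 (|A1| ≤ 4, |A2| ≤ 5). Lower bound: finrank (P ⊓ Q) ≥ finrank P + finrank Q - 6 twice with `KS37.finrank_vs`. Upper bound: A3' ⊆ A3 with |A3'| = |A3| - (sum - 12),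
Adm is kept, triple with A3' is ⊥ by GT; finrank (P ⊓ vs A3) ≤ finrank (P ⊓ vs A3') + (|A3| - |A3'|) for P = vs A1 ⊓ vs A2
(apply `Submodule.finrank_sup_add_finrank_inf_eq` to P ⊓ vs A3 and vs A3', both ≤ vs A3).
-/

open Finset Function
open scoped Classical

namespace KS13

open KS37

private theorem GF_mono {E V : Type} [AddCommGroup E] [Module ℝ E] {x : V → E} {A B : Finset V}
    (h : A ⊆ B) : vs x (A : Set V) ≤ vs x (B : Set V) := by
  unfold vs
  exact Submodule.span_mono (Set.image_mono (by exact_mod_cast h))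

private theorem GF_bot {E V : Type} [AddCommGroup E] [Module ℝ E] [Fintype V] {x : V → E}
    (hV : 14 ≤ Fintype.card V) (hG : GT x) (m : ℕ) : ∀ A1 A2 A3 : Finset V, Adm A1 A2 A3 →
    A1.card + A2.card + A3.card + m = 12 →
    vs x (A1 : Set V) ⊓ vs x (A2 : Set V) ⊓ vs x (A3 : Set V) = ⊥ := by
  induction m with
  | zero => exact fun A1 A2 A3 h hs => hG A1 A2 A3 h hs
  | succ m ih =>
    intro A1 A2 A3 h hs
    obtain ⟨w, hw⟩ : ∃ w, w ∉ A1 ∪ A2 ∪ A3 := by
      by_contra hcon
      push Not at hcon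
      have h1 : (A1 ∪ A2 ∪ A3).card = Fintype.card V := by
        rw [Finset.eq_univ_iff_forall.2 hcon, Finset.card_univ]
      have h2 := Finset.card_union_le (A1 ∪ A2) A3
      have h3 := Finset.card_union_le A1 A2
      omega
    rw [Finset.mem_union, Finset.mem_union, not_or, not_or] at hw
    obtain ⟨⟨hw1, hw2⟩, hw3⟩ := hw
    obtain ⟨d1, d2, d3, c1, c2, c3⟩ := h
    rw [eq_bot_iff]
    rcases Nat.lt_or_ge A1.card 4 with h4 | h4
    · have hc := Finset.card_insert_of_notMem hw1
      have h5 := ih (insert w A1) A2 A3 ⟨Finset.disjoint_insert_left.2 ⟨hw2, d1⟩,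
        Finset.disjoint_insert_left.2 ⟨hw3, d2⟩, d3, by omega, c2, c3⟩ (by omega)
      rw [← h5]
      exact inf_le_inf_right _ (inf_le_inf_right _ (GF_mono (Finset.subset_insert _ _)))
    · rcases Nat.lt_or_ge A2.card 5 with h6 | h6
      · have hc := Finset.card_insert_of_notMem hw2
        have h5 := ih A1 (insert w A2) A3 ⟨Finset.disjoint_insert_right.2 ⟨hw1, d1⟩, d2, by
          rw [Finset.insert_inter_of_notMem hw3]
          exact d3, c1, by omega, c3⟩ (by omega)
        rw [← h5]
        exact inf_le_inf_right _ (inf_le_inf_left _ (GF_mono (Finset.subset_insert _ _)))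
      · have hc := Finset.card_insert_of_notMem hw3
        have h5 := ih A1 A2 (insert w A3) ⟨d1, Finset.disjoint_insert_right.2 ⟨hw1, d2⟩, by
          rw [Finset.inter_insert_of_notMem hw2]
          exact d3, c1, c2, by omega⟩ (by omega)
        rw [← h5]
        exact inf_le_inf_left _ (GF_mono (Finset.subset_insert _ _))

theorem gf_of_gt {E V : Type} [AddCommGroup E] [Module ℝ E] [Fintype V] {x : V → E}
    {T : (Fin 5 → V) → Prop} (hS : Sys 5 x T) (hV : 14 ≤ Fintype.card V) (hG : GT x) : GF x := by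
  haveI := finiteDimensional_of_sys hS
  intro A1 A2 A3 h
  rcases Nat.lt_or_ge 12 (A1.card + A2.card + A3.card) with hs | hs
  · obtain ⟨d1, d2, d3, c1, c2, c3⟩ := h
    have f1 := finrank_vs hS A1 (by omega)
    have f2 := finrank_vs hS A2 (by omega)
    have f3 := finrank_vs hS A3 (by omega)
    have hlow : ∀ P Q : Submodule ℝ E, Module.finrank ℝ P + Module.finrank ℝ Q ≤
        Module.finrank ℝ (P ⊓ Q : Submodule ℝ E) + 6 := by
      intro P Q
      have e1 := Submodule.finrank_sup_add_finrank_inf_eq P Q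
      have e2 := Submodule.finrank_le (P ⊔ Q)
      have e3 := hS.rank
      omega
    have g1 := hlow (vs x (A1 : Set V)) (vs x (A2 : Set V))
    have g2 := hlow (vs x (A1 : Set V) ⊓ vs x (A2 : Set V)) (vs x (A3 : Set V))
    obtain ⟨A3', hsub, hc⟩ := Finset.exists_subset_card_eq (s := A3)
      (n := A3.card - (A1.card + A2.card + A3.card - 12)) (Nat.sub_le _ _)
    have hbot := hG A1 A2 A3' ⟨d1, d2.mono_right hsub,
      (Finset.card_le_card (Finset.inter_subset_inter_left hsub)).trans d3, c1, c2, by omega⟩ (by omega)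
    have f3' := finrank_vs hS A3' (by omega)
    have hle := GF_mono (x := x) hsub
    have e1 := Submodule.finrank_sup_add_finrank_inf_eq
      (vs x (A1 : Set V) ⊓ vs x (A2 : Set V) ⊓ vs x (A3 : Set V)) (vs x (A3' : Set V))
    have e2 : vs x (A1 : Set V) ⊓ vs x (A2 : Set V) ⊓ vs x (A3 : Set V) ⊓ vs x (A3' : Set V) = ⊥ := by
      rw [inf_assoc, inf_eq_right.2 hle]
      exact hbot
    have e3 : Module.finrank ℝ (vs x (A1 : Set V) ⊓ vs x (A2 : Set V) ⊓ vs x (A3 : Set V) ⊔
        vs x (A3' : Set V) : Submodule ℝ E) ≤ Module.finrank ℝ (vs x (A3 : Set V)) :=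
      Submodule.finrank_mono (sup_le inf_le_right hle)
    rw [e2, finrank_bot] at e1
    omega
  · have hb := GF_bot hV hG (12 - (A1.card + A2.card + A3.card)) A1 A2 A3 h (by omega)
    rw [hb, finrank_bot]
    omega

end KS13
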