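import Pool.Agent.LibKS13.Cd
import Pool.Agent.LibKS37.K1
import Pool.Agent.LibKS37.C2
import Pool.Agent.LibKS37.A3

/-!
# KS13 row K2: facets and the links of two vertices (port of KS37 K2 `k_step`)
mk2 x a b : E → LE (lx x a) b. e ∉ sp x B for all B with T B (generic); then p generic (`treg_gen`, `Gen.comap` along mk2, `Gen.all` over a, b). For B with T B: p = Σ κ_i x(B i) + (..) e, κ_i ≠ 0. Among five non-zero numbers three have the same
sign: there are i0 : Fin 5, i1 : Fin 4 such that κ ((i0.succAbove) (i1.succAbove l)), l : Fin 3, have the same sign (a finite check: decide on sign patterns Fin 5 → Bool). Let a = B i0, b = B (i0.succAbove i1), w l = B (i0.succAbove (i1.succAbove l)).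
T (cons a (cons b w)) by hS.perm, so w is a facet of the link of (a, b), mod x a, x b: Hit w (mk2 e) (mk2 p) or Hit w (mk2 e) (- mk2 p). ind (T B) ≤ Σ_{i0,i1} (…); `sum_insertNth` twice and `sum_subtype_tuple` twice; 20 = 5 · 4.
-/

open Finset Function
open scoped Classical

namespace KS13

open KS37

/-- the quotient map to the link space of `a, b`. -/
noncomputable def mk2 {E V : Type} [AddCommGroup E] [Module ℝ E] (x : V → E) (a : V) (b : LV a) :
    E →ₗ[ℝ] LE (lx x a) b :=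
  (Submodule.span ℝ {lx x a b}).mkQ ∘ₗ (Submodule.span ℝ {x a}).mkQ

private theorem K2_pat : ∀ s : Fin 5 → Bool, ∃ i0 : Fin 5, ∃ i1 : Fin 4,
    (∀ l : Fin 3, s (i0.succAbove (i1.succAbove l)) = true) ∨
    (∀ l : Fin 3, s (i0.succAbove (i1.succAbove l)) = false) := by
  decide

/-- three of five nonzero numbers have the same sign -/
private theorem K2_signs (κ : Fin 5 → ℝ) (h : ∀ i, κ i ≠ 0) : ∃ i0 : Fin 5, ∃ i1 : Fin 4,
    (∀ l : Fin 3, 0 < κ (i0.succAbove (i1.succAbove l))) ∨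
    (∀ l : Fin 3, κ (i0.succAbove (i1.succAbove l)) < 0) := by
  obtain ⟨i0, i1, h1⟩ := K2_pat fun i => decide (0 < κ i)
  refine ⟨i0, i1, ?_⟩
  rcases h1 with h1 | h1
  · exact Or.inl fun l => of_decide_eq_true (h1 l)
  · refine Or.inr fun l => ?_
    have h2 := of_decide_eq_false (h1 l)
    exact lt_of_le_of_ne (not_lt.1 h2) (h _)

private theorem K2_or {P Q : Prop} (h : P ∨ Q) : (1 : ℝ) ≤ ind P + ind Q := by
  rcases h with h | h
  · rw [ind_true h]; linarith [ind_nonneg Q]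
  · rw [ind_true h]; linarith [ind_nonneg P]

private theorem K2_cons {V : Type} {r : ℕ} {T : (Fin (r + 1) → V) → Prop}
    (hperm : ∀ w (σ : Equiv.Perm (Fin (r + 1))), T w → T (fun i => w (σ i)))
    (B : Fin (r + 1) → V) (hB : T B) (i0 : Fin (r + 1)) :
    T (Fin.cons (B i0) fun l : Fin r => B (i0.succAbove l)) := by
  have h1 : (Fin.cons (B i0) fun l : Fin r => B (i0.succAbove l) : Fin (r + 1) → V) =
      fun i => B (i0.cycleRange.symm i) := by
    funext i
    refine Fin.cases ?_ (fun l => ?_) i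
    · rw [Fin.cons_zero, Fin.cycleRange_symm_zero]
    · rw [Fin.cons_succ, Fin.cycleRange_symm_succ]
  rw [h1]
  exact hperm B _ hB

section
variable {E V : Type} [AddCommGroup E] [Module ℝ E] [Fintype V]

private theorem K2_notMem {r : ℕ} {x : V → E} {T : (Fin (r + 1) → V) → Prop} (e : E)
    (he : ∀ B, T B → e ∉ sp x B) (b : V) (g : Fin r → LV b)
    (hg : lT T b g) : (Submodule.span ℝ {x b}).mkQ e ∉ sp (lx x b) g := by
  intro hmem
  obtain ⟨c, hc⟩ := (mem_sp_iff g _).1 hmem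
  apply he _ hg
  rw [mem_sp_iff]
  have h1 : (Submodule.span ℝ {x b}).mkQ (e - ∑ i, c i • x (g i).1) = 0 := by
    rw [map_sub, map_sum, hc, sub_eq_zero]
    exact Finset.sum_congr rfl fun i _ => by rw [map_smul]; rfl
  rw [Submodule.mkQ_apply, Submodule.Quotient.mk_eq_zero, Submodule.mem_span_singleton] at h1
  obtain ⟨d, hd⟩ := h1
  refine ⟨Fin.cons d c, ?_⟩
  rw [Fin.sum_univ_succ]
  simp only [Fin.cons_zero, Fin.cons_succ]
  rw [hd]
  abel

/-- a facet through `B i0` in the link of `B i0`, and its coordinates. -/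
private theorem K2_link {r : ℕ} {x : V → E} {T : (Fin (r + 1) → V) → Prop}
    (hS : Sys (r + 1) x T) (p e : E) (he : ∀ B, T B → e ∉ sp x B) (B : Fin (r + 1) → V)
    (hB : T B) (i0 : Fin (r + 1)) (hne : ∀ l : Fin r, B (i0.succAbove l) ≠ B i0) :
    lT T (B i0) (fun l => (⟨B (i0.succAbove l), hne l⟩ : LV (B i0))) ∧
    ∀ l, kap (lx x (B i0)) (fun l => (⟨B (i0.succAbove l), hne l⟩ : LV (B i0)))
      ((Submodule.span ℝ {x (B i0)}).mkQ e) l ((Submodule.span ℝ {x (B i0)}).mkQ p) =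
      kap x B e (i0.succAbove l) p := by
  have hinj := hS.inj B hB
  have hT : lT T (B i0) (fun l => (⟨B (i0.succAbove l), hne l⟩ : LV (B i0))) :=
    K2_cons hS.perm B hB i0
  have hginj : Injective (fun l => (⟨B (i0.succAbove l), hne l⟩ : LV (B i0))) := by
    intro l l' hll
    have := hinj (Subtype.ext_iff.1 hll)
    exact Fin.succAbove_right_injective this
  have hne' := K2_notMem e he (B i0) _ hT
  have hlin : (Submodule.span ℝ {x (B i0)}).mkQ p =
      ∑ l : Fin r, kap x B e (i0.succAbove l) p •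
        lx x (B i0) (⟨B (i0.succAbove l), hne l⟩ : LV (B i0)) +
      hgt x B e p • (Submodule.span ℝ {x (B i0)}).mkQ e := by
    conv_lhs => rw [kap_sum hS B hinj e (he B hB) p, Fin.sum_univ_succAbove _ i0]
    rw [map_add, map_add, map_smul, map_smul, map_sum]
    have h0 : (Submodule.span ℝ {x (B i0)}).mkQ (x (B i0)) = 0 := by
      rw [Submodule.mkQ_apply, Submodule.Quotient.mk_eq_zero]
      exact Submodule.mem_span_singleton_self _
    rw [h0, smul_zero, zero_add]
    congr 1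
  exact ⟨hT, (kap_eq (link_sys hS (B i0)) _ hginj _ hne' _ _ _ hlin).1⟩

/-- the number of hits in the link of `a, b` of a tuple -/
private noncomputable def K2Phi (x : V → E) (T : (Fin 5 → V) → Prop) (p e : E) (a : V)
    (b : LV a) (w : Fin 3 → LV a) : ℝ :=
  if h : ∀ i, w i ≠ b then
    ind (lT (r := 3) (lT (r := 4) T a) b (fun i => ⟨w i, h i⟩) ∧
      Hit (lx (lx x a) b) (fun i => (⟨w i, h i⟩ : LV b)) (mk2 x a b e) (mk2 x a b p)) +
    ind (lT (r := 3) (lT (r := 4) T a) b (fun i => ⟨w i, h i⟩) ∧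
      Hit (lx (lx x a) b) (fun i => (⟨w i, h i⟩ : LV b)) (mk2 x a b e) (-mk2 x a b p))
  else 0

private noncomputable def K2Psi (x : V → E) (T : (Fin 5 → V) → Prop) (p e : E) (i1 : Fin 4)
    (a : V) (u : Fin 4 → V) : ℝ :=
  if h : ∀ i, u i ≠ a then
    K2Phi x T p e a ⟨u i1, h i1⟩ (fun l => ⟨u (i1.succAbove l), h _⟩)
  else 0

variable {x : V → E} {T : (Fin 5 → V) → Prop}

omit [Fintype V] in
private theorem K2Phi_nonneg (p e : E) (a : V) (b : LV a) (w : Fin 3 → LV a) :
    0 ≤ K2Phi x T p e a b w := by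
  unfold K2Phi
  split_ifs
  · exact add_nonneg (ind_nonneg _) (ind_nonneg _)
  · exact le_rfl

omit [Fintype V] in
private theorem K2Psi_nonneg (p e : E) (i1 : Fin 4) (a : V) (u : Fin 4 → V) :
    0 ≤ K2Psi x T p e i1 a u := by
  unfold K2Psi
  split_ifs
  · exact K2Phi_nonneg _ _ _ _ _
  · exact le_rfl

private theorem K2_point (hS : Sys 5 x T) (p e : E) (he : ∀ B, T B → e ∉ sp x B)
    (hp : TReg x T p e) (B : Fin 5 → V) :
    ind (T B) ≤ ∑ i0 : Fin 5, ∑ i1 : Fin 4,
      K2Psi x T p e i1 (B i0) (fun l => B (i0.succAbove l)) := by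
  by_cases hB : T B
  swap
  · rw [ind_false hB]
    exact Finset.sum_nonneg fun _ _ => Finset.sum_nonneg fun _ _ => K2Psi_nonneg _ _ _ _ _
  have hinj := hS.inj B hB
  obtain ⟨i0, i1, hi⟩ := K2_signs (fun i => kap x B e i p) (hp B hB).2
  refine le_trans ?_ (Finset.single_le_sum
    (f := fun i0 : Fin 5 => ∑ i1 : Fin 4, K2Psi x T p e i1 (B i0) (fun l => B (i0.succAbove l)))
    (fun i _ => Finset.sum_nonneg fun _ _ => K2Psi_nonneg _ _ _ _ _) (Finset.mem_univ i0))
  refine le_trans ?_ (Finset.single_le_sum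
    (f := fun i1 : Fin 4 => K2Psi x T p e i1 (B i0) (fun l => B (i0.succAbove l)))
    (fun i _ => K2Psi_nonneg _ _ _ _ _) (Finset.mem_univ i1))
  have hne : ∀ l : Fin 4, B (i0.succAbove l) ≠ B i0 := fun l h =>
    Fin.succAbove_ne i0 l (hinj h)
  obtain ⟨hT1, hk1⟩ := K2_link hS p e he B hB i0 hne
  set a : V := B i0 with ha
  set g : Fin 4 → LV a := fun l => (⟨B (i0.succAbove l), hne l⟩ : LV a) with hg
  have hS1 := link_sys hS a
  have he1 : ∀ g : Fin 4 → LV a, lT T a g → (Submodule.span ℝ {x a}).mkQ e ∉ sp (lx x a) g :=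
    fun g hg => K2_notMem e he a g hg
  have hginj := hS1.inj g hT1
  have hne1 : ∀ l : Fin 3, g (i1.succAbove l) ≠ g i1 := fun l h =>
    Fin.succAbove_ne i1 l (hginj h)
  obtain ⟨hT2, hk2⟩ := K2_link hS1 ((Submodule.span ℝ {x a}).mkQ p)
    ((Submodule.span ℝ {x a}).mkQ e) he1 g hT1 i1 hne1
  have hk3 : ∀ l, kap (lx (lx x a) (g i1))
      (fun l => (⟨g (i1.succAbove l), hne1 l⟩ : LV (g i1))) (mk2 x a (g i1) e) l
      (mk2 x a (g i1) p) = kap x B e (i0.succAbove (i1.succAbove l)) p := by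
    intro l
    exact (hk2 l).trans (hk1 _)
  have hpos : (1 : ℝ) ≤ K2Psi x T p e i1 a (fun l => B (i0.succAbove l)) := by
    unfold K2Psi
    rw [dif_pos hne]
    unfold K2Phi
    rw [dif_pos hne1]
    rcases hi with h | h
    · refine K2_or (Or.inl ⟨hT2, fun l => ?_⟩)
      have h1 := h l
      rw [← hk3 l] at h1
      exact h1
    · refine K2_or (Or.inr ⟨hT2, fun l => ?_⟩)
      have h1 := neg_pos.2 (h l)
      rw [← hk3 l, ← map_neg] at h1
      exact h1
  exact (ind_le_one _).trans hpos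

omit [Fintype V] in
private theorem K2_fi {α : Type} (i1 i2 : Fintype α) (f : α → ℝ) :
    @Finset.sum α ℝ _ (@Finset.univ α i1) f = @Finset.sum α ℝ _ (@Finset.univ α i2) f := by
  rw [Subsingleton.elim i1 i2]

omit [Fintype V] in
private theorem K2_si {r : ℕ} {x : V → E} {T : (Fin r → V) → Prop} (i1 i2 : Fintype V)
    (h : @Sys E V _ _ i1 r x T) : @Sys E V _ _ i2 r x T := by
  rw [Subsingleton.elim i2 i1]
  exact h

private theorem K2_sst (a : V) (b : LV a) (G : (Fin 3 → LV a) → ℝ) :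
    ∑ w : Fin 3 → LV b, G (fun i => (w i).1) =
      ∑ w : Fin 3 → LV a, ind (∀ i, w i ≠ b) * G w := by
  exact (K2_fi _ _ _).trans (sum_subtype_tuple b G)

private theorem K2_sys2 (hS : Sys 5 x T) (a : V) (b : LV a) :
    Sys 3 (lx (lx x a) b) (lT (r := 3) (lT (r := 4) T a) b) := by
  exact K2_si _ _ (link_sys (link_sys hS a) b)

private theorem K2_sum (p e : E) (a : V) (b : LV a) :
    ∑ w : Fin 3 → LV a, K2Phi x T p e a b w =
      NN (lx (lx x a) b) (lT (r := 3) (lT (r := 4) T a) b) (mk2 x a b p) (mk2 x a b e) +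
      NN (lx (lx x a) b) (lT (r := 3) (lT (r := 4) T a) b) (-mk2 x a b p) (mk2 x a b e) := by
  have h1 := K2_sst a b (K2Phi x T p e a b)
  have h2 : ∀ w : Fin 3 → LV a,
      ind (∀ i, w i ≠ b) * K2Phi x T p e a b w = K2Phi x T p e a b w := by
    intro w
    by_cases h : ∀ i, w i ≠ b
    · rw [ind_true h, one_mul]
    · rw [ind_false h, zero_mul, K2Phi, dif_neg h]
  rw [Finset.sum_congr rfl fun w _ => h2 w] at h1
  rw [← h1, NN, NN, ← Finset.sum_add_distrib]
  refine Finset.sum_congr rfl fun w _ => ?_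
  rw [K2Phi, dif_pos fun i => (w i).2]

private theorem K2_sum2 (p e : E) (i1 : Fin 4) (a : V) :
    ∑ u : Fin 4 → V, K2Psi x T p e i1 a u = ∑ b : LV a,
      (NN (lx (lx x a) b) (lT (r := 3) (lT (r := 4) T a) b) (mk2 x a b p) (mk2 x a b e) +
      NN (lx (lx x a) b) (lT (r := 3) (lT (r := 4) T a) b) (-mk2 x a b p) (mk2 x a b e)) := by
  have h1 := sum_subtype_tuple a (K2Psi x T p e i1 a)
  have h2 : ∀ u : Fin 4 → V,
      ind (∀ i, u i ≠ a) * K2Psi x T p e i1 a u = K2Psi x T p e i1 a u := by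
    intro u
    by_cases h : ∀ i, u i ≠ a
    · rw [ind_true h, one_mul]
    · rw [ind_false h, zero_mul, K2Psi, dif_neg h]
  rw [Finset.sum_congr rfl fun u _ => h2 u] at h1
  rw [← h1]
  have h3 : ∀ g : Fin 4 → LV a, K2Psi x T p e i1 a (fun i => (g i).1) =
      K2Phi x T p e a (g i1) (fun l => g (i1.succAbove l)) := by
    intro g
    rw [K2Psi, dif_pos fun i => (g i).2]
  rw [Finset.sum_congr rfl fun g _ => h3 g,
    sum_insertNth i1 fun g : Fin 4 → LV a => K2Phi x T p e a (g i1) (fun l => g (i1.succAbove l))]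
  refine Finset.sum_congr rfl fun b _ => ?_
  rw [← K2_sum]
  refine Finset.sum_congr rfl fun w _ => ?_
  rw [Fin.insertNth_apply_same]
  congr 1
  funext l
  rw [Fin.insertNth_apply_succAbove]

omit [Fintype V] in
private theorem K2_surj (x : V → E) (a : V) (b : LV a) : Surjective (mk2 x a b) := by
  unfold mk2
  rw [LinearMap.coe_comp]
  exact (Submodule.mkQ_surjective _).comp (Submodule.mkQ_surjective _)

end

theorem k_step2 {E V : Type} [AddCommGroup E] [Module ℝ E] [Fintype V] {x : V → E}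
    {T : (Fin 5 → V) → Prop} (hS : Sys 5 x T) : ∃ p e : E,
    (∀ a (b : LV a),
      TReg (lx (lx x a) b) (lT (r := 3) (lT (r := 4) T a) b) (mk2 x a b p) (mk2 x a b e) ∧
      TReg (lx (lx x a) b) (lT (r := 3) (lT (r := 4) T a) b) (-mk2 x a b p) (mk2 x a b e)) ∧
    NT T ≤ 20 * ∑ a, ∑ b : LV a,
      (NN (lx (lx x a) b) (lT (r := 3) (lT (r := 4) T a) b) (mk2 x a b p) (mk2 x a b e) +
      NN (lx (lx x a) b) (lT (r := 3) (lT (r := 4) T a) b) (-mk2 x a b p) (mk2 x a b e)) := by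
  have hfin : Module.Finite ℝ E := finiteDimensional_of_sys hS
  obtain ⟨e, he⟩ : ∃ e : E, ∀ B, T B → e ∉ sp x B := by
    apply Gen.exists
    apply Gen.all
    intro B
    apply Gen.imp
    intro hB
    apply Gen.notMem
    intro htop
    have h1 := finrank_sp hS (by norm_num) B (hS.inj B hB)
    rw [htop, finrank_top, hS.rank] at h1
    omega
  obtain ⟨p, hp, hpb⟩ : ∃ p : E, (TReg x T p e ∧ TReg x T (-p) e ∧ TReg x T e p) ∧
      ∀ a, ∀ b : LV a,
        TReg (lx (lx x a) b) (lT (r := 3) (lT (r := 4) T a) b) (mk2 x a b p) (mk2 x a b e) ∧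
        TReg (lx (lx x a) b) (lT (r := 3) (lT (r := 4) T a) b) (-mk2 x a b p) (mk2 x a b e) ∧
        TReg (lx (lx x a) b) (lT (r := 3) (lT (r := 4) T a) b) (mk2 x a b e) (mk2 x a b p) := by
    apply Gen.exists
    refine (treg_gen hS e he).and (Gen.all fun a => Gen.all fun b => ?_)
    exact (treg_gen (K2_sys2 hS a b) (mk2 x a b e)
      (fun g hg => K2_notMem ((Submodule.span ℝ {x a}).mkQ e)
        (fun g' hg' => K2_notMem e he a g' hg') b g hg)).comap (mk2 x a b) (K2_surj x a b)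
  refine ⟨p, e, fun a b => ⟨(hpb a b).1, (hpb a b).2.1⟩, ?_⟩
  rw [NT]
  refine (Finset.sum_le_sum fun B _ => K2_point hS p e he hp.1 B).trans ?_
  rw [Finset.sum_comm]
  have h1 : ∀ i0 : Fin 5, ∑ B : Fin 5 → V, ∑ i1 : Fin 4,
      K2Psi x T p e i1 (B i0) (fun l => B (i0.succAbove l)) =
      4 * ∑ a, ∑ b : LV a,
      (NN (lx (lx x a) b) (lT (r := 3) (lT (r := 4) T a) b) (mk2 x a b p) (mk2 x a b e) +
      NN (lx (lx x a) b) (lT (r := 3) (lT (r := 4) T a) b) (-mk2 x a b p) (mk2 x a b e)) := by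
    intro i0
    rw [Finset.sum_comm]
    have h2 : ∀ i1 : Fin 4, ∑ B : Fin 5 → V,
        K2Psi x T p e i1 (B i0) (fun l => B (i0.succAbove l)) = ∑ a, ∑ b : LV a,
        (NN (lx (lx x a) b) (lT (r := 3) (lT (r := 4) T a) b) (mk2 x a b p) (mk2 x a b e) +
        NN (lx (lx x a) b) (lT (r := 3) (lT (r := 4) T a) b) (-mk2 x a b p)
          (mk2 x a b e)) := by
      intro i1
      rw [sum_insertNth i0 fun B => K2Psi x T p e i1 (B i0) (fun l => B (i0.succAbove l))]
      refine Finset.sum_congr rfl fun a _ => ?_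
      rw [← K2_sum2 p e i1 a]
      refine Finset.sum_congr rfl fun u _ => ?_
      rw [Fin.insertNth_apply_same]
      congr 1
      funext l
      rw [Fin.insertNth_apply_succAbove]
    rw [Finset.sum_congr rfl fun i1 _ => h2 i1, Finset.sum_const, Finset.card_univ,
      Fintype.card_fin, nsmul_eq_mul]
    norm_num
  rw [Finset.sum_congr rfl fun i0 _ => h1 i0, Finset.sum_const, Finset.card_univ,
    Fintype.card_fin, nsmul_eq_mul]
  apply le_of_eq
  push_cast
  ring

end KS13
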