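import Pool.Agent.LibKS13.F1
import Pool.Agent.LibKS13.F2
import Pool.Agent.LibKS13.FN
import Pool.Agent.LibKS13.K2
import Pool.Agent.LibKS13.GF

/-!
# KS13 F3: the bound for systems of rank 5 (assembly)
-/

open Finset Function
open scoped Classical

namespace KS13

open KS37

theorem final_sys13 : ∃ C : ℝ, 0 < C ∧ ∀ (E V : Type) [AddCommGroup E] [Module ℝ E] [Fintype V]
    (x : V → E) (T : (Fin 5 → V) → Prop), Sys 5 x T → GT x → 14 ≤ Fintype.card V →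
    (∃ ℓ : Module.Dual ℝ E, ∀ v, 0 < ℓ (x v)) → NT T ^ 9 ≤ C * nn V ^ 44 := by
  refine ⟨20 ^ 9 * (2 ^ 9 * (4 * (3343 ^ 3 + 32 ^ 3 * 48880))), by norm_num, ?_⟩
  intro E V _ _ _ x T hS hGT hcard hl
  obtain ⟨ℓ, hℓ⟩ := hl
  have hF := gf_of_gt hS hcard hGT
  have hn := nn_nonneg V
  have hK : ∀ p e, NN x T p e ≤ 100 * nn V ^ 4 := by
    intro p e
    have := lovasz (by norm_num : 1 ≤ 5) hS ℓ hℓ p e
    refine this.trans (le_of_eq ?_)
    norm_num
  -- regular pairs in the links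
  have hreg : ∀ a, ∃ pe : LE x a × LE x a, TReg (lx x a) (lT (r := 4) T a) pe.1 pe.2 := by
    intro a
    obtain ⟨p, e, h⟩ := treg_exists (link_sys hS a)
    exact ⟨(p, e), h⟩
  choose pe hpe using hreg
  set N : V → ℝ := fun a => NN (lx x a) (lT (r := 4) T a) (pe a).1 (pe a).2 with hN
  have hN0 : ∀ a, 0 ≤ N a := fun a => Finset.sum_nonneg fun _ _ => ind_nonneg _
  have h1 : ∑ a, N a ^ 3 ≤ 48880 * nn V ^ 12 := by
    have := step1 hS _ hK hF (fun a => (pe a).1) (fun a => (pe a).2) hpe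
    refine this.trans (le_of_eq ?_)
    ring
  obtain ⟨p, e, hr, hNT⟩ := k_step2 hS
  set M : (a : V) → LV a → ℝ := fun a b =>
    NN (lx (lx x a) b) (lT (r := 3) (lT (r := 4) T a) b) (mk2 x a b p) (mk2 x a b e) with hM
  set M' : (a : V) → LV a → ℝ := fun a b =>
    NN (lx (lx x a) b) (lT (r := 3) (lT (r := 4) T a) b) (-mk2 x a b p) (mk2 x a b e) with hM'
  have hM0 : ∀ a b, 0 ≤ M a b := fun a b => Finset.sum_nonneg fun _ _ => ind_nonneg _
  have hM0' : ∀ a b, 0 ≤ M' a b := fun a b => Finset.sum_nonneg fun _ _ => ind_nonneg _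
  have h2 : ∀ a, ∑ b, M a b ^ 3 ≤ 3343 * nn V ^ 9 + 32 * nn V ^ 6 * N a := fun a =>
    step2 hS hF a _ _ (hpe a) (fun b => mk2 x a b p) (fun b => mk2 x a b e)
      (fun b => (hr a b).1)
  have h2' : ∀ a, ∑ b, M' a b ^ 3 ≤ 3343 * nn V ^ 9 + 32 * nn V ^ 6 * N a := fun a =>
    step2 hS hF a _ _ (hpe a) (fun b => -mk2 x a b p) (fun b => mk2 x a b e)
      (fun b => (hr a b).2)
  have h3 := num13 N M hN0 hM0 h1 h2
  have h3' := num13 N M' hN0 hM0' h1 h2'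
  set S := ∑ a, ∑ b, M a b with hS1
  set S' := ∑ a, ∑ b, M' a b with hS1'
  have hS0 : 0 ≤ S := Finset.sum_nonneg fun a _ => Finset.sum_nonneg fun b _ => hM0 a b
  have hS0' : 0 ≤ S' := Finset.sum_nonneg fun a _ => Finset.sum_nonneg fun b _ => hM0' a b
  have h4 : NT T ≤ 20 * (S + S') := by
    refine hNT.trans (le_of_eq ?_)
    rw [hS1, hS1', ← Finset.sum_add_distrib]
    congr 1
    refine Finset.sum_congr rfl fun a _ => ?_
    rw [← Finset.sum_add_distrib]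
  have h5 : 0 ≤ NT T := Finset.sum_nonneg fun _ _ => ind_nonneg _
  set D : ℝ := 4 * (3343 ^ 3 + 32 ^ 3 * 48880) with hD
  have hX : 0 ≤ D * nn V ^ 44 := by positivity
  have h6 : (S + S') ^ 9 ≤ 2 ^ 9 * (D * nn V ^ 44) := by
    rcases le_total S S' with h | h
    · calc (S + S') ^ 9 ≤ (2 * S') ^ 9 := pow_le_pow_left₀ (by linarith) (by linarith) 9
        _ = 2 ^ 9 * S' ^ 9 := by ring
        _ ≤ 2 ^ 9 * (D * nn V ^ 44) := by linarith
    · calc (S + S') ^ 9 ≤ (2 * S) ^ 9 := pow_le_pow_left₀ (by linarith) (by linarith) 9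
        _ = 2 ^ 9 * S ^ 9 := by ring
        _ ≤ 2 ^ 9 * (D * nn V ^ 44) := by linarith
  calc NT T ^ 9 ≤ (20 * (S + S')) ^ 9 := pow_le_pow_left₀ h5 h4 9
    _ = 20 ^ 9 * (S + S') ^ 9 := by ring
    _ ≤ 20 ^ 9 * (2 ^ 9 * (D * nn V ^ 44)) := by linarith
    _ = 20 ^ 9 * (2 ^ 9 * D) * nn V ^ 44 := by ring

end KS13
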