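import Pool.Agent.LibKS13.Cd
import Pool.Agent.LibKS37.K1

/-!
# KS13 row G2L: (G2) in the link of two vertices
R : Fin 2 → LV b, B, B' : Fin 3 → LV b (b : LV a), pairwise disjoint. Let y ∈ sp R ⊓ sp B ⊓ sp B' in LE (lx x a) b. Lift: y = mk (mk z), z ∈ vs x R' (R' the two vertices in V);
then mk z ∈ sp (lx x a) B + span (lx x a b), so z ∈ vs x (B' ∪ {a, b}) for both (two steps of: mkQ z = mkQ w gives z - w ∈ span{x a}).
GF with A1 = R' (2), A2 = B ∪ {a,b} (5), A3 = B' ∪ {a,b} (5), |A2 ∩ A3| = 2, sum 12: the intersection is ⊥, z = 0, y = 0.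
-/

open Finset Function
open scoped Classical

namespace KS13

open KS37

private theorem G2L_lift {E V : Type} [AddCommGroup E] [Module ℝ E] (x : V → E) (a : V)
    (A : Set (LV a)) :
    vs (lx x a) A = (vs x (Subtype.val '' A)).map (Submodule.span ℝ {x a}).mkQ := by
  unfold vs
  rw [Submodule.map_span, Set.image_image, Set.image_image]
  rfl

private theorem G2L_back {E V : Type} [AddCommGroup E] [Module ℝ E] (x : V → E) (a : V)
    (A : Set (LV a)) (z : E) (hz : (Submodule.span ℝ {x a}).mkQ z ∈ vs (lx x a) A) :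
    z ∈ vs x (insert a (Subtype.val '' A)) := by
  rw [G2L_lift, ← Submodule.mem_comap, Submodule.comap_map_eq, Submodule.ker_mkQ] at hz
  refine (sup_le ?_ ?_ : _ ≤ vs x (insert a (Subtype.val '' A))) hz
  · exact Submodule.span_mono (Set.image_mono (Set.subset_insert _ _))
  · refine Submodule.span_mono ?_
    rw [Set.singleton_subset_iff]
    exact Set.mem_image_of_mem _ (Set.mem_insert _ _)

private theorem G2L_set {V : Type} {a : V} {b : LV a} {s : ℕ} (B : Fin s → LV b) :
    insert a (Subtype.val '' (insert b (Subtype.val '' (Set.range B)))) =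
      ((insert a (insert b.1 (Finset.univ.image fun i => ((B i).1).1)) : Finset V) : Set V) := by
  ext v
  simp only [Set.mem_insert_iff, Set.mem_image, Set.mem_range, Finset.coe_insert,
    Finset.coe_image, Finset.coe_univ, Set.image_univ]
  constructor
  · rintro (h | ⟨w, (rfl | ⟨u, ⟨i, rfl⟩, rfl⟩), rfl⟩)
    · exact Or.inl h
    · exact Or.inr (Or.inl rfl)
    · exact Or.inr (Or.inr ⟨i, rfl⟩)
  · rintro (h | h | ⟨i, rfl⟩)
    · exact Or.inl h
    · exact Or.inr ⟨b, Or.inl rfl, h.symm⟩
    · exact Or.inr ⟨(B i).1, Or.inr ⟨B i, ⟨i, rfl⟩, rfl⟩, rfl⟩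

private theorem G2L_mem {V : Type} {a : V} {b : LV a} {s : ℕ} (B : Fin s → LV b) (v : V) :
    v ∈ (insert a (insert b.1 (Finset.univ.image fun i => ((B i).1).1)) : Finset V) ↔
      v = a ∨ v = b.1 ∨ ∃ i, ((B i).1).1 = v := by
  simp only [Finset.mem_insert, Finset.mem_image, Finset.mem_univ, true_and]

private theorem G2L_inj {V : Type} {a : V} {b : LV a} {s : ℕ} {B : Fin s → LV b}
    (hB : Injective B) : Injective (fun i => ((B i).1).1) := fun _ _ h =>
  hB (Subtype.ext (Subtype.ext h))

private theorem G2L_card {V : Type} {a : V} {b : LV a} {s : ℕ} {B : Fin s → LV b}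
    (hB : Injective B) :
    (insert a (insert b.1 (Finset.univ.image fun i => ((B i).1).1)) : Finset V).card = s + 2 := by
  rw [Finset.card_insert_of_notMem, Finset.card_insert_of_notMem,
    Finset.card_image_of_injective _ (G2L_inj hB), Finset.card_univ, Fintype.card_fin]
  · simp only [Finset.mem_image, Finset.mem_univ, true_and, not_exists]
    intro i hi
    exact (B i).2 (Subtype.ext hi)
  · simp only [Finset.mem_insert, Finset.mem_image, Finset.mem_univ, true_and, not_or, not_exists]
    exact ⟨fun h => b.2 h.symm, fun i hi => ((B i).1).2 hi⟩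

private theorem G2L_ne {V : Type} {a : V} {b : LV a} {s s' : ℕ} {R : Fin s → LV b}
    {B : Fin s' → LV b} (h : Disj R B) :
    Disjoint (Finset.univ.image fun i => ((R i).1).1)
      (insert a (insert b.1 (Finset.univ.image fun i => ((B i).1).1)) : Finset V) := by
  rw [Finset.disjoint_left]
  intro v hv hv'
  obtain ⟨i, _, rfl⟩ := Finset.mem_image.1 hv
  rw [G2L_mem] at hv'
  rcases hv' with h1 | h1 | ⟨j, hj⟩
  · exact ((R i).1).2 h1
  · exact (R i).2 (Subtype.ext h1)
  · exact h i j (Subtype.ext (Subtype.ext hj.symm))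

theorem g2_link2 {E V : Type} [AddCommGroup E] [Module ℝ E] [Fintype V] {x : V → E}
    {T : (Fin 5 → V) → Prop} (hS : Sys 5 x T) (hF : GF x) (a : V) (b : LV a) :
    G2 (lx (lx x a) b) := by
  intro R B B' hR hB hB' h1 h2 h3
  rw [eq_bot_iff]
  intro y hy
  obtain ⟨⟨hyR, hyB⟩, hyB'⟩ := hy
  have hyR' : y ∈ vs (lx (lx x a) b) (Set.range R) := by rw [← sp_eq_vs]; exact hyR
  have hyB1 : y ∈ vs (lx (lx x a) b) (Set.range B) := by rw [← sp_eq_vs]; exact hyB
  have hyB2 : y ∈ vs (lx (lx x a) b) (Set.range B') := by rw [← sp_eq_vs]; exact hyB'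
  rw [G2L_lift (lx x a) b (Set.range R), G2L_lift x a] at hyR'
  obtain ⟨w, ⟨z, hz, rfl⟩, rfl⟩ := hyR'
  have hz1 := G2L_back x a _ z (G2L_back (lx x a) b _ _ hyB1)
  have hz2 := G2L_back x a _ z (G2L_back (lx x a) b _ _ hyB2)
  rw [G2L_set] at hz1 hz2
  have hz0 : z ∈ vs x ((Finset.univ.image fun i => ((R i).1).1 : Finset V) : Set V) := by
    have he : Subtype.val '' (Subtype.val '' (Set.range R)) =
        ((Finset.univ.image fun i => ((R i).1).1 : Finset V) : Set V) := by
      rw [Finset.coe_image, Finset.coe_univ, Set.image_univ, ← Set.range_comp, ← Set.range_comp]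
      rfl
    rw [← he]
    exact hz
  have hc1 : (Finset.univ.image fun i => ((R i).1).1 : Finset V).card = 2 := by
    rw [Finset.card_image_of_injective _ (G2L_inj hR), Finset.card_univ, Fintype.card_fin]
  have hadm : Adm (Finset.univ.image fun i => ((R i).1).1 : Finset V)
      (insert a (insert b.1 (Finset.univ.image fun i => ((B i).1).1)) : Finset V)
      (insert a (insert b.1 (Finset.univ.image fun i => ((B' i).1).1)) : Finset V) := by
    refine ⟨G2L_ne h1, G2L_ne h2, ?_, ?_, ?_, ?_⟩
    · refine le_trans (Finset.card_le_card (t := {a, b.1}) ?_) Finset.card_le_two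
      intro v hv
      rw [Finset.mem_inter, G2L_mem, G2L_mem] at hv
      rw [Finset.mem_insert, Finset.mem_singleton]
      rcases hv with ⟨h4 | h4 | ⟨i, hi⟩, h5 | h5 | ⟨j, hj⟩⟩
      · exact Or.inl h4
      · exact Or.inl h4
      · exact Or.inl h4
      · exact Or.inr h4
      · exact Or.inr h4
      · exact Or.inr h4
      · exact Or.inl h5
      · exact Or.inr h5
      · exact absurd (Subtype.ext (Subtype.ext (hi.trans hj.symm))) (h3 i j)
    · rw [hc1]; norm_num
    · rw [G2L_card hB]
    · rw [G2L_card hB']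
  have hfr := hF _ _ _ hadm
  rw [hc1, G2L_card hB, G2L_card hB'] at hfr
  haveI : Module.Finite ℝ E := Module.finite_of_finrank_pos (by rw [hS.rank]; norm_num)
  have hbot := Submodule.finrank_eq_zero.1 hfr
  have hz3 : z ∈ (⊥ : Submodule ℝ E) := by
    rw [← hbot]
    exact ⟨⟨hz0, hz1⟩, hz2⟩
  rw [Submodule.mem_bot] at hz3
  rw [hz3, map_zero, map_zero]
  exact Submodule.zero_mem _

end KS13
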