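import Pool.Agent.LibKS13.GD0

/-!
# KS13 row GD: a determinant whose non-vanishing is LInj
Since the cards add up to 12 there is an equivalence ε : (A1 ⊕ A2 ⊕ A3) ≃ (Fin 6 ⊕ Fin 6) (types ↥A_i, `Fintype.equivOfCardEq`). M_x : Matrix (Fin 6 ⊕ Fin 6) (A1 ⊕ (A2 ⊕ A3)) ℝ with
column (x v, x v) for v ∈ A1, (-x v, 0) for v ∈ A2, (0, -x v) for v ∈ A3; F x = det (M_x.submatrix id ε.symm) (or `Matrix.reindex`). F is continuous (entries are ± coordinates of x or 0:
`Continuous.matrix_det`), along x + t y a polynomial in t (`D5_poly` of KS37 S2: det of the matrix of polynomials C a + X * C b, `Polynomial.coe_evalRingHom`, `RingHom.map_det`), and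
F x ≠ 0 iff M_x *ᵥ c = 0 only for c = 0 (`Matrix.exists_mulVec_eq_zero_iff`), which is LInj (the functions on V outside A_i do not matter).
-/

open Finset Function
open scoped Classical

namespace KS13

open KS37

/-- the matrix with the columns `(x v, x v)`, `(-x v, 0)`, `(0, -x v)`. -/
private noncomputable def GD_mat {V : Type} (A1 A2 A3 : Finset V) (x : V → Fin 6 → ℝ) :
    Matrix (Fin 6 ⊕ Fin 6) ({v // v ∈ A1} ⊕ ({v // v ∈ A2} ⊕ {v // v ∈ A3})) ℝ :=
  Matrix.of fun r c => match c, r with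
    | Sum.inl v, Sum.inl i => x v.1 i
    | Sum.inl v, Sum.inr i => x v.1 i
    | Sum.inr (Sum.inl v), Sum.inl i => -x v.1 i
    | Sum.inr (Sum.inl _), Sum.inr _ => 0
    | Sum.inr (Sum.inr _), Sum.inl _ => 0
    | Sum.inr (Sum.inr v), Sum.inr i => -x v.1 i

private theorem GD_lin {V : Type} (A1 A2 A3 : Finset V) (x y : V → Fin 6 → ℝ) (t : ℝ)
    (r : Fin 6 ⊕ Fin 6) (c : {v // v ∈ A1} ⊕ ({v // v ∈ A2} ⊕ {v // v ∈ A3})) :
    GD_mat A1 A2 A3 (x + t • y) r c = GD_mat A1 A2 A3 x r c + t * GD_mat A1 A2 A3 y r c := by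
  rcases c with v | v | v <;> rcases r with i | i <;> simp [GD_mat] <;> ring

private theorem GD_cont {V : Type} (A1 A2 A3 : Finset V)
    (r : Fin 6 ⊕ Fin 6) (c : {v // v ∈ A1} ⊕ ({v // v ∈ A2} ⊕ {v // v ∈ A3})) :
    Continuous fun x : V → Fin 6 → ℝ => GD_mat A1 A2 A3 x r c := by
  have h : ∀ (v : V) (i : Fin 6), Continuous fun x : V → Fin 6 → ℝ => x v i := fun v i =>
    (continuous_apply i).comp (continuous_apply v)
  rcases c with v | v | v <;> rcases r with i | i
  · exact h v.1 i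
  · exact h v.1 i
  · exact (h v.1 i).neg
  · exact continuous_const
  · exact continuous_const
  · exact (h v.1 i).neg

private theorem GD_inl {V : Type} (A1 A2 A3 : Finset V) (x : V → Fin 6 → ℝ) (α β γ : V → ℝ)
    (i : Fin 6) :
    (GD_mat A1 A2 A3 x).mulVec (Sum.elim (fun v => α v.1)
      (Sum.elim (fun v => β v.1) (fun v => γ v.1))) (Sum.inl i) =
      (∑ v ∈ A1, α v • x v) i - (∑ v ∈ A2, β v • x v) i := by
  rw [Matrix.mulVec, dotProduct, Fintype.sum_sum_type, Fintype.sum_sum_type, Finset.sum_apply,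
    Finset.sum_apply, ← Finset.sum_coe_sort A1, ← Finset.sum_coe_sort A2]
  simp only [GD_mat, Matrix.of_apply, Sum.elim_inl, Sum.elim_inr, zero_mul, Finset.sum_const_zero,
    add_zero, Pi.smul_apply, smul_eq_mul, neg_mul, Finset.sum_neg_distrib, ← sub_eq_add_neg]
  congr 1
  · exact Finset.sum_congr rfl fun v _ => mul_comm _ _
  · exact Finset.sum_congr rfl fun v _ => mul_comm _ _

private theorem GD_inr {V : Type} (A1 A2 A3 : Finset V) (x : V → Fin 6 → ℝ) (α β γ : V → ℝ)
    (i : Fin 6) :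
    (GD_mat A1 A2 A3 x).mulVec (Sum.elim (fun v => α v.1)
      (Sum.elim (fun v => β v.1) (fun v => γ v.1))) (Sum.inr i) =
      (∑ v ∈ A1, α v • x v) i - (∑ v ∈ A3, γ v • x v) i := by
  rw [Matrix.mulVec, dotProduct, Fintype.sum_sum_type, Fintype.sum_sum_type, Finset.sum_apply,
    Finset.sum_apply, ← Finset.sum_coe_sort A1, ← Finset.sum_coe_sort A3]
  simp only [GD_mat, Matrix.of_apply, Sum.elim_inl, Sum.elim_inr, zero_mul, Finset.sum_const_zero,
    Pi.smul_apply, smul_eq_mul, neg_mul, Finset.sum_neg_distrib]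
  rw [zero_add, ← sub_eq_add_neg]
  congr 1
  · exact Finset.sum_congr rfl fun v _ => mul_comm _ _
  · exact Finset.sum_congr rfl fun v _ => mul_comm _ _

private theorem GD_iff {V : Type} (A1 A2 A3 : Finset V) (x : V → Fin 6 → ℝ) (α β γ : V → ℝ) :
    (GD_mat A1 A2 A3 x).mulVec (Sum.elim (fun v => α v.1)
      (Sum.elim (fun v => β v.1) (fun v => γ v.1))) = 0 ↔
      ∑ v ∈ A1, α v • x v = ∑ v ∈ A2, β v • x v ∧
        ∑ v ∈ A1, α v • x v = ∑ v ∈ A3, γ v • x v := by
  constructor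
  · intro h
    constructor
    · funext i
      have h1 := congrFun h (Sum.inl i)
      rw [GD_inl] at h1
      exact sub_eq_zero.1 h1
    · funext i
      have h1 := congrFun h (Sum.inr i)
      rw [GD_inr] at h1
      exact sub_eq_zero.1 h1
  · rintro ⟨h1, h2⟩
    funext r
    rcases r with i | i
    · rw [GD_inl, h1, sub_self]; rfl
    · rw [GD_inr, h2, sub_self]; rfl

theorem gt_det {V : Type} [Fintype V] (A1 A2 A3 : Finset V)
    (hs : A1.card + A2.card + A3.card = 12) : ∃ F : (V → Fin 6 → ℝ) → ℝ, Continuous F ∧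
      (∀ x y : V → Fin 6 → ℝ, ∃ p : Polynomial ℝ, ∀ t : ℝ, F (x + t • y) = p.eval t) ∧
      ∀ x : V → Fin 6 → ℝ, F x ≠ 0 ↔ LInj x A1 A2 A3 := by
  have hcard : Fintype.card ({v // v ∈ A1} ⊕ ({v // v ∈ A2} ⊕ {v // v ∈ A3})) =
      Fintype.card (Fin 6 ⊕ Fin 6) := by
    rw [Fintype.card_sum, Fintype.card_sum, Fintype.card_sum, Fintype.card_coe, Fintype.card_coe,
      Fintype.card_coe, Fintype.card_fin]
    omega
  set e : ({v // v ∈ A1} ⊕ ({v // v ∈ A2} ⊕ {v // v ∈ A3})) ≃ (Fin 6 ⊕ Fin 6) :=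
    Fintype.equivOfCardEq hcard with he
  refine ⟨fun x => ((GD_mat A1 A2 A3 x).submatrix id e.symm).det, ?_, ?_, ?_⟩
  · refine Continuous.matrix_det ?_
    refine continuous_matrix fun i j => ?_
    exact GD_cont A1 A2 A3 i (e.symm j)
  · intro x y
    refine ⟨Matrix.det (Matrix.of fun i j : Fin 6 ⊕ Fin 6 =>
      Polynomial.C (GD_mat A1 A2 A3 x i (e.symm j)) +
        Polynomial.X * Polynomial.C (GD_mat A1 A2 A3 y i (e.symm j))), fun t => ?_⟩
    beta_reduce
    rw [← Polynomial.coe_evalRingHom, RingHom.map_det]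
    congr 1
    ext i j
    rw [Matrix.submatrix_apply, id, GD_lin, RingHom.mapMatrix_apply, Matrix.map_apply,
      Matrix.of_apply, Polynomial.coe_evalRingHom, Polynomial.eval_add, Polynomial.eval_mul,
      Polynomial.eval_C, Polynomial.eval_C, Polynomial.eval_X]
  · intro x
    beta_reduce
    constructor
    · intro hdet α β γ h1 h2
      set w : ({v // v ∈ A1} ⊕ ({v // v ∈ A2} ⊕ {v // v ∈ A3})) → ℝ :=
        Sum.elim (fun v => α v.1) (Sum.elim (fun v => β v.1) (fun v => γ v.1)) with hw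
      have h3 : (GD_mat A1 A2 A3 x).mulVec w = 0 := (GD_iff A1 A2 A3 x α β γ).2 ⟨h1, h2⟩
      have h4 : ((GD_mat A1 A2 A3 x).submatrix id e.symm).mulVec (w ∘ e.symm) = 0 := by
        rw [Matrix.submatrix_mulVec_equiv]
        have h5 : (w ∘ e.symm) ∘ e.symm.symm = w := by
          funext c; simp
        rw [h5, h3]; rfl
      have h6 : w ∘ e.symm = 0 := by
        by_contra hne
        exact hdet (Matrix.exists_mulVec_eq_zero_iff.1 ⟨_, hne, h4⟩)
      have h7 : ∀ c, w c = 0 := by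
        intro c
        have h8 := congrFun h6 (e c)
        simpa using h8
      exact ⟨fun v hv => h7 (Sum.inl ⟨v, hv⟩), fun v hv => h7 (Sum.inr (Sum.inl ⟨v, hv⟩)),
        fun v hv => h7 (Sum.inr (Sum.inr ⟨v, hv⟩))⟩
    · intro hL hdet
      obtain ⟨c, hc0, hc⟩ := Matrix.exists_mulVec_eq_zero_iff.2 hdet
      rw [Matrix.submatrix_mulVec_equiv] at hc
      set w : ({v // v ∈ A1} ⊕ ({v // v ∈ A2} ⊕ {v // v ∈ A3})) → ℝ := c ∘ e.symm.symm with hw
      have hc' : (GD_mat A1 A2 A3 x).mulVec w = 0 := by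
        funext r
        exact congrFun hc r
      set α : V → ℝ := fun v => if h : v ∈ A1 then w (Sum.inl ⟨v, h⟩) else 0 with hα
      set β : V → ℝ := fun v => if h : v ∈ A2 then w (Sum.inr (Sum.inl ⟨v, h⟩)) else 0 with hβ
      set γ : V → ℝ := fun v => if h : v ∈ A3 then w (Sum.inr (Sum.inr ⟨v, h⟩)) else 0 with hγ
      have hw' : w = Sum.elim (fun v => α v.1) (Sum.elim (fun v => β v.1) (fun v => γ v.1)) := by
        funext c
        rcases c with v | v | v
        · simp [hα]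
        · simp [hβ]
        · simp [hγ]
      rw [hw'] at hc'
      obtain ⟨g1, g2⟩ := (GD_iff A1 A2 A3 x α β γ).1 hc'
      obtain ⟨k1, k2, k3⟩ := hL α β γ g1 g2
      apply hc0
      funext r
      have h9 : w (e.symm r) = 0 := by
        rw [hw']
        rcases e.symm r with v | v | v
        · exact k1 v.1 v.2
        · exact k2 v.1 v.2
        · exact k3 v.1 v.2
      simpa [hw] using h9

end KS13
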