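import Pool.Agent.LibKS13.Defs

/-!
# KS13: the injectivity property of one triple of vertex sets
-/

open Finset Function
open scoped Classical

namespace KS13

open KS37

/-- the only coefficients with `Σ_{A1} α x = Σ_{A2} β x = Σ_{A3} γ x` are zero. -/
def LInj {V : Type} (x : V → Fin 6 → ℝ) (A1 A2 A3 : Finset V) : Prop :=
  ∀ α β γ : V → ℝ, ∑ v ∈ A1, α v • x v = ∑ v ∈ A2, β v • x v →
    ∑ v ∈ A1, α v • x v = ∑ v ∈ A3, γ v • x v →
    (∀ v ∈ A1, α v = 0) ∧ (∀ v ∈ A2, β v = 0) ∧ (∀ v ∈ A3, γ v = 0)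

end KS13
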