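import Pool.Agent.LibKS13.Defs

/-!
# KS13 row GW: combinatorial witness
a1 = |A1| ≤ 4, a2, a3 ≤ 5, a1+a2+a3 = 12. Let D1, D2, D3 partition Fin 6 with |D_i| = 6 - a_i (so |D1| ≥ 2); C_i = complement of D_i (|C_i| = a_i), C1 ∩ C2 ∩ C3 = ∅, D1 ⊆ C2 ∩ C3.
c maps A2 ∩ A3 (at most two vertices) injectively into D1, A2 \\ A3 injectively into C2 minus the image, A3 \\ A2 into C3 minus the image, A1 (disjoint from A2, A3) injectively into C1; anything elsewhere.
(e.g. finite functions by `Finset.exists_subset_card_eq`, `Finset.equivOfCardEq`; or reduce to explicit enumerations.)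
-/

open Finset Function
open scoped Classical

namespace KS13

open KS37

/-- an injection of `s` into `t`, extended to all of `V` -/
theorem GW_inj {V : Type} (s : Finset V) (t : Finset (Fin 6)) (h : s.card ≤ t.card) :
    ∃ f : V → Fin 6, Set.InjOn f (s : Set V) ∧ ∀ v ∈ s, f v ∈ t := by
  obtain ⟨e⟩ := Function.Embedding.nonempty_of_card_le (α := s) (β := t)
    (by rw [Fintype.card_coe, Fintype.card_coe]; exact h)
  refine ⟨fun v => if hv : v ∈ s then (e ⟨v, hv⟩ : Fin 6) else 0, fun v hv w hw hvw => ?_,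
    fun v hv => ?_⟩
  · have hv' : v ∈ s := hv
    have hw' : w ∈ s := hw
    simp only [dif_pos hv', dif_pos hw'] at hvw
    have h1 := e.injective (Subtype.ext hvw)
    exact congrArg Subtype.val h1
  · simp only [dif_pos hv]
    exact (e ⟨v, hv⟩).2

theorem gt_wit {V : Type} [Fintype V] (A1 A2 A3 : Finset V) (h : Adm A1 A2 A3)
    (hs : A1.card + A2.card + A3.card = 12) : ∃ c : V → Fin 6, Set.InjOn c (A1 : Set V) ∧
      Set.InjOn c (A2 : Set V) ∧ Set.InjOn c (A3 : Set V) ∧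
      ∀ i : Fin 6, ¬ (i ∈ A1.image c ∧ i ∈ A2.image c ∧ i ∈ A3.image c) := by
  obtain ⟨h12, h13, h23, h1, h2, h3⟩ := h
  obtain ⟨D1, -, hD1⟩ := Finset.exists_subset_card_eq (s := (univ : Finset (Fin 6)))
    (n := 6 - A1.card) (by simp)
  have hD1c : (D1ᶜ).card = A1.card := by
    rw [card_compl, hD1, Fintype.card_fin]
    omega
  obtain ⟨D2, hD2s, hD2⟩ := Finset.exists_subset_card_eq (s := D1ᶜ) (n := 6 - A2.card)
    (by rw [hD1c]; omega)
  have hdisj : Disjoint D1 D2 := by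
    rw [Finset.disjoint_left]
    intro i hi hi'
    exact (mem_compl.1 (hD2s hi')) hi
  have hC2 : (D2ᶜ).card = A2.card := by
    rw [card_compl, hD2, Fintype.card_fin]
    omega
  have hC3 : (D1 ∪ D2).card = A3.card := by
    rw [card_union_of_disjoint hdisj, hD1, hD2]
    omega
  -- the map on `A2 ∩ A3`
  obtain ⟨c0, hc0, hc0m⟩ := GW_inj (A2 ∩ A3) D1 (by rw [hD1]; omega)
  set J : Finset (Fin 6) := (A2 ∩ A3).image c0 with hJ
  have hJc : J.card = (A2 ∩ A3).card := card_image_of_injOn hc0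
  have hJD : J ⊆ D1 := by
    intro i hi
    obtain ⟨v, hv, rfl⟩ := mem_image.1 hi
    exact hc0m v hv
  have hJ2 : J ⊆ D2ᶜ := fun i hi => mem_compl.2 fun h' => Finset.disjoint_left.1 hdisj (hJD hi) h'
  have hJ3 : J ⊆ D1 ∪ D2 := fun i hi => mem_union_left _ (hJD hi)
  have e2 : (A2 \ A3).card + (A2 ∩ A3).card = A2.card := card_sdiff_add_card_inter A2 A3
  have e3 : (A3 \ A2).card + (A2 ∩ A3).card = A3.card := by
    rw [inter_comm]
    exact card_sdiff_add_card_inter A3 A2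
  obtain ⟨c1, hc1, hc1m⟩ := GW_inj A1 D1ᶜ hD1c.ge
  obtain ⟨c2, hc2, hc2m⟩ := GW_inj (A2 \ A3) (D2ᶜ \ J) (by
    have := card_sdiff_add_card_eq_card hJ2
    omega)
  obtain ⟨c3, hc3, hc3m⟩ := GW_inj (A3 \ A2) ((D1 ∪ D2) \ J) (by
    have := card_sdiff_add_card_eq_card hJ3
    omega)
  set c : V → Fin 6 := fun v =>
    if v ∈ A1 then c1 v else if v ∈ A2 ∩ A3 then c0 v else if v ∈ A2 then c2 v else c3 v with hc
  have v1 : ∀ v ∈ A1, c v = c1 v := fun v hv => by simp only [hc, if_pos hv]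
  have v0 : ∀ v ∈ A2 ∩ A3, c v = c0 v := fun v hv => by
    have hn : v ∉ A1 := fun hv' => Finset.disjoint_left.1 h12 hv' (mem_inter.1 hv).1
    simp only [hc, if_neg hn, if_pos hv]
  have v2 : ∀ v ∈ A2 \ A3, c v = c2 v := fun v hv => by
    have hv1 := (mem_sdiff.1 hv).1
    have hn : v ∉ A1 := fun hv' => Finset.disjoint_left.1 h12 hv' hv1
    have hn2 : v ∉ A2 ∩ A3 := fun hv' => (mem_sdiff.1 hv).2 (mem_inter.1 hv').2
    simp only [hc, if_neg hn, if_neg hn2, if_pos hv1]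
  have v3 : ∀ v ∈ A3 \ A2, c v = c3 v := fun v hv => by
    have hv1 := (mem_sdiff.1 hv).1
    have hn : v ∉ A1 := fun hv' => Finset.disjoint_left.1 h13 hv' hv1
    have hn2 : v ∉ A2 ∩ A3 := fun hv' => (mem_sdiff.1 hv).2 (mem_inter.1 hv').1
    simp only [hc, if_neg hn, if_neg hn2, if_neg (mem_sdiff.1 hv).2]
  refine ⟨c, ?_, ?_, ?_, ?_⟩
  · intro v hv w hw hvw
    rw [v1 v hv, v1 w hw] at hvw
    exact hc1 hv hw hvw
  · intro v hv w hw hvw
    have hv' : v ∈ A2 := hv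
    have hw' : w ∈ A2 := hw
    by_cases a : v ∈ A3 <;> by_cases b : w ∈ A3
    · have a' := mem_inter.2 ⟨hv', a⟩
      have b' := mem_inter.2 ⟨hw', b⟩
      rw [v0 v a', v0 w b'] at hvw
      exact hc0 a' b' hvw
    · have a' := mem_inter.2 ⟨hv', a⟩
      have b' := mem_sdiff.2 ⟨hw', b⟩
      rw [v0 v a', v2 w b'] at hvw
      exact absurd (hvw ▸ mem_image_of_mem c0 a') (mem_sdiff.1 (hc2m w b')).2
    · have a' := mem_sdiff.2 ⟨hv', a⟩
      have b' := mem_inter.2 ⟨hw', b⟩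
      rw [v2 v a', v0 w b'] at hvw
      exact absurd (hvw.symm ▸ mem_image_of_mem c0 b') (mem_sdiff.1 (hc2m v a')).2
    · have a' := mem_sdiff.2 ⟨hv', a⟩
      have b' := mem_sdiff.2 ⟨hw', b⟩
      rw [v2 v a', v2 w b'] at hvw
      exact hc2 a' b' hvw
  · intro v hv w hw hvw
    have hv' : v ∈ A3 := hv
    have hw' : w ∈ A3 := hw
    by_cases a : v ∈ A2 <;> by_cases b : w ∈ A2
    · have a' := mem_inter.2 ⟨a, hv'⟩
      have b' := mem_inter.2 ⟨b, hw'⟩
      rw [v0 v a', v0 w b'] at hvw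
      exact hc0 a' b' hvw
    · have a' := mem_inter.2 ⟨a, hv'⟩
      have b' := mem_sdiff.2 ⟨hw', b⟩
      rw [v0 v a', v3 w b'] at hvw
      exact absurd (hvw ▸ mem_image_of_mem c0 a') (mem_sdiff.1 (hc3m w b')).2
    · have a' := mem_sdiff.2 ⟨hv', a⟩
      have b' := mem_inter.2 ⟨b, hw'⟩
      rw [v3 v a', v0 w b'] at hvw
      exact absurd (hvw.symm ▸ mem_image_of_mem c0 b') (mem_sdiff.1 (hc3m v a')).2
    · have a' := mem_sdiff.2 ⟨hv', a⟩
      have b' := mem_sdiff.2 ⟨hw', b⟩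
      rw [v3 v a', v3 w b'] at hvw
      exact hc3 a' b' hvw
  · rintro i ⟨i1, i2, i3⟩
    obtain ⟨u, hu, hui⟩ := mem_image.1 i1
    obtain ⟨v, hv, hvi⟩ := mem_image.1 i2
    obtain ⟨w, hw, hwi⟩ := mem_image.1 i3
    have m1 : i ∈ D1ᶜ := by
      rw [← hui, v1 u hu]
      exact hc1m u hu
    have m2 : i ∈ D2ᶜ := by
      rw [← hvi]
      by_cases a : v ∈ A3
      · rw [v0 v (mem_inter.2 ⟨hv, a⟩)]
        exact hJ2 (mem_image_of_mem c0 (mem_inter.2 ⟨hv, a⟩))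
      · rw [v2 v (mem_sdiff.2 ⟨hv, a⟩)]
        exact (mem_sdiff.1 (hc2m v (mem_sdiff.2 ⟨hv, a⟩))).1
    have m3 : i ∈ D1 ∪ D2 := by
      rw [← hwi]
      by_cases a : w ∈ A2
      · rw [v0 w (mem_inter.2 ⟨a, hw⟩)]
        exact hJ3 (mem_image_of_mem c0 (mem_inter.2 ⟨a, hw⟩))
      · rw [v3 w (mem_sdiff.2 ⟨hw, a⟩)]
        exact (mem_sdiff.1 (hc3m w (mem_sdiff.2 ⟨hw, a⟩))).1
    rcases mem_union.1 m3 with m | m
    · exact (mem_compl.1 m1) m
    · exact (mem_compl.1 m2) m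

end KS13
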