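import Pool.Agent.LibKS13.GD0

/-!
# KS13 row GX: LInj for a coordinate configuration, LInj gives the triple intersection ⊥
-/

open Finset Function
open scoped Classical

namespace KS13

open KS37

theorem GX_sum_in {V : Type} (A : Finset V) (c : V → Fin 6) (h : Set.InjOn c (A : Set V))
    (α : V → ℝ) {w : V} (hw : w ∈ A) :
    (∑ v ∈ A, α v • (Pi.single (c v) 1 : Fin 6 → ℝ)) (c w) = α w := by
  rw [Finset.sum_apply, Finset.sum_eq_single_of_mem w hw]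
  · rw [Pi.smul_apply, Pi.single_eq_same, smul_eq_mul, mul_one]
  · intro v hv hvw
    have hc : c w ≠ c v := fun e => hvw (h hv hw e.symm)
    rw [Pi.smul_apply, Pi.single_eq_of_ne hc, smul_zero]

theorem GX_sum_out {V : Type} (A : Finset V) (c : V → Fin 6)
    (α : V → ℝ) {i : Fin 6} (hi : i ∉ A.image c) :
    (∑ v ∈ A, α v • (Pi.single (c v) 1 : Fin 6 → ℝ)) i = 0 := by
  rw [Finset.sum_apply]
  refine Finset.sum_eq_zero fun v hv => ?_
  have hc : i ≠ c v := fun e => hi (Finset.mem_image.2 ⟨v, hv, e.symm⟩)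
  rw [Pi.smul_apply, Pi.single_eq_of_ne hc, smul_zero]

theorem linj_coord {V : Type} [Fintype V] (A1 A2 A3 : Finset V) (c : V → Fin 6)
    (h1 : Set.InjOn c (A1 : Set V)) (h2 : Set.InjOn c (A2 : Set V)) (h3 : Set.InjOn c (A3 : Set V))
    (h : ∀ i : Fin 6, ¬ (i ∈ A1.image c ∧ i ∈ A2.image c ∧ i ∈ A3.image c)) :
    LInj (fun v => (Pi.single (c v) 1 : Fin 6 → ℝ)) A1 A2 A3 := by
  intro α β γ e2 e3
  have e2' : ∀ i, (∑ v ∈ A1, α v • (Pi.single (c v) 1 : Fin 6 → ℝ)) i =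
      (∑ v ∈ A2, β v • (Pi.single (c v) 1 : Fin 6 → ℝ)) i := fun i => congrFun e2 i
  have e3' : ∀ i, (∑ v ∈ A1, α v • (Pi.single (c v) 1 : Fin 6 → ℝ)) i =
      (∑ v ∈ A3, γ v • (Pi.single (c v) 1 : Fin 6 → ℝ)) i := fun i => congrFun e3 i
  have key : ∀ i, (∑ v ∈ A1, α v • (Pi.single (c v) 1 : Fin 6 → ℝ)) i = 0 := by
    intro i
    by_cases m1 : i ∈ A1.image c
    · by_cases m2 : i ∈ A2.image c
      · have m3 : i ∉ A3.image c := fun m3 => h i ⟨m1, m2, m3⟩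
        rw [e3' i, GX_sum_out A3 c γ m3]
      · rw [e2' i, GX_sum_out A2 c β m2]
    · exact GX_sum_out A1 c α m1
  refine ⟨fun v hv => ?_, fun v hv => ?_, fun v hv => ?_⟩
  · rw [← GX_sum_in A1 c h1 α hv, key]
  · rw [← GX_sum_in A2 c h2 β hv, ← e2', key]
  · rw [← GX_sum_in A3 c h3 γ hv, ← e3', key]

theorem GX_mem {V : Type} (x : V → Fin 6 → ℝ) (A : Finset V) {y : Fin 6 → ℝ}
    (hy : y ∈ vs x (A : Set V)) : ∃ α : V → ℝ, ∑ v ∈ A, α v • x v = y := by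
  unfold vs at hy
  obtain ⟨c, hc⟩ := (Submodule.mem_span_image_finset_iff_exists_fun ℝ).1 hy
  refine ⟨fun v => if hv : v ∈ A then c ⟨v, hv⟩ else 0, ?_⟩
  rw [← hc, ← Finset.sum_coe_sort A]
  refine Finset.sum_congr rfl fun i _ => ?_
  have e : (fun v => if hv : v ∈ A then c ⟨v, hv⟩ else 0) (i : V) = c i := dif_pos i.2
  rw [e]

theorem bot_of_linj {V : Type} [Fintype V] (x : V → Fin 6 → ℝ) (A1 A2 A3 : Finset V)
    (h : LInj x A1 A2 A3) :
    vs x (A1 : Set V) ⊓ vs x (A2 : Set V) ⊓ vs x (A3 : Set V) = ⊥ := by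
  rw [eq_bot_iff]
  intro y hy
  rw [Submodule.mem_inf, Submodule.mem_inf] at hy
  obtain ⟨⟨y1, y2⟩, y3⟩ := hy
  obtain ⟨α, hα⟩ := GX_mem x A1 y1
  obtain ⟨β, hβ⟩ := GX_mem x A2 y2
  obtain ⟨γ, hγ⟩ := GX_mem x A3 y3
  obtain ⟨k, -, -⟩ := h α β γ (hα.trans hβ.symm) (hα.trans hγ.symm)
  rw [Submodule.mem_bot, ← hα]
  refine Finset.sum_eq_zero fun v hv => ?_
  rw [k v hv, zero_smul]

end KS13
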