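import Pool.Agent.LibKS13.Cd
import Pool.Agent.LibKS37.A2

/-!
# KS13 row LP: the functional pf of the link
pf_mk: g (x a) ≠ 0, so f - (f(x a)/g(x a)) g vanishes on x a: the `dif_pos` branch, `Submodule.liftQ_apply`. pf_gen: the map f ↦ pf x g f a is linear (additive and homogeneous: f ↦ liftQ (f - (f(x a)/g(x a)) g),
check on mkQ y by pf_mk) and surjective (φ is the image of f = φ ∘ mkQ, f (x a) = 0): `Gen.comap`.
-/

open Finset Function
open scoped Classical

namespace KS13

open KS37

theorem pf_mk {E V : Type} [AddCommGroup E] [Module ℝ E] (x : V → E) (g f : Module.Dual ℝ E)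
    (a : V) (hg : g (x a) ≠ 0) (y : E) :
    pf x g f a ((Submodule.span ℝ {x a}).mkQ y) = f y - f (x a) / g (x a) * g y := by
  have h : Submodule.span ℝ {x a} ≤ LinearMap.ker (f - (f (x a) / g (x a)) • g) := by
    rw [Submodule.span_singleton_le_iff_mem, LinearMap.mem_ker, LinearMap.sub_apply,
      LinearMap.smul_apply, smul_eq_mul, div_mul_cancel₀ _ hg, sub_self]
  unfold pf
  rw [dif_pos h, Submodule.mkQ_apply]
  erw [Submodule.liftQ_apply]
  rw [LinearMap.sub_apply, LinearMap.smul_apply, smul_eq_mul]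

theorem pf_gen {E V : Type} [AddCommGroup E] [Module ℝ E] (x : V → E) (g : Module.Dual ℝ E)
    (a : V) (hg : g (x a) ≠ 0) {P : Module.Dual ℝ (LE x a) → Prop} (h : Gen P) :
    Gen (fun f : Module.Dual ℝ E => P (pf x g f a)) := by
  have hext : ∀ u v : Module.Dual ℝ (LE x a),
      (∀ y : E, u ((Submodule.span ℝ {x a}).mkQ y) = v ((Submodule.span ℝ {x a}).mkQ y)) →
      u = v := by
    intro u v huv
    refine LinearMap.ext fun z => ?_
    obtain ⟨y, rfl⟩ := Submodule.mkQ_surjective (Submodule.span ℝ {x a}) z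
    exact huv y
  let F : Module.Dual ℝ E →ₗ[ℝ] Module.Dual ℝ (LE x a) :=
    { toFun := fun f => pf x g f a
      map_add' := by
        intro f1 f2
        refine hext _ _ fun y => ?_
        rw [LinearMap.add_apply, pf_mk x g _ a hg, pf_mk x g _ a hg, pf_mk x g _ a hg,
          LinearMap.add_apply, LinearMap.add_apply]
        ring
      map_smul' := by
        intro c f1
        refine hext _ _ fun y => ?_
        rw [RingHom.id_apply, LinearMap.smul_apply, pf_mk x g _ a hg, pf_mk x g _ a hg,
          LinearMap.smul_apply, LinearMap.smul_apply, smul_eq_mul, smul_eq_mul, smul_eq_mul]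
        ring }
  refine h.comap F ?_
  intro φ
  refine ⟨φ.comp (Submodule.span ℝ {x a}).mkQ, ?_⟩
  refine hext _ _ fun y => ?_
  have h0 : (φ.comp (Submodule.span ℝ {x a}).mkQ) (x a) = 0 := by
    rw [LinearMap.comp_apply]
    have : (Submodule.span ℝ {x a}).mkQ (x a) = 0 := by
      rw [Submodule.mkQ_apply, Submodule.Quotient.mk_eq_zero]
      exact Submodule.mem_span_singleton_self _
    rw [this, map_zero]
  show pf x g (φ.comp (Submodule.span ℝ {x a}).mkQ) a _ = _
  rw [pf_mk x g _ a hg, h0, zero_div, zero_mul, sub_zero, LinearMap.comp_apply]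

end KS13
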