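import Pool.Agent.LibKS13.S5

/-!
# KS13 M1: point sets in ℝ^5 (port of KS37 M1)
-/

open Finset Function
open scoped Classical

namespace KS13

open KS37

/-- `S` is in general position: no affine hyperplane contains more than five of its points. -/
def GenPos5 (S : Finset (Fin 5 → ℝ)) : Prop :=
  ∀ (a : Fin 5 → ℝ) (b : ℝ), a ≠ 0 → {p : Fin 5 → ℝ | p ∈ S ∧ ∑ i, a i * p i = b}.ncard ≤ 5

/-- `T` is a `k`-hyperplane of `S`. -/
def IsKH (S : Finset (Fin 5 → ℝ)) (k : ℕ) (T : Finset (Fin 5 → ℝ)) : Prop :=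
  T ⊆ S ∧ T.card = 5 ∧ ∃ (a : Fin 5 → ℝ) (b : ℝ), a ≠ 0 ∧ (∀ p ∈ T, ∑ i, a i * p i = b) ∧
    {p : Fin 5 → ℝ | p ∈ S ∧ b < ∑ i, a i * p i}.ncard = k

/-- homogeneous coordinates. -/
noncomputable def M1_x (S : Finset (Fin 5 → ℝ)) (p : {p // p ∈ S}) : Fin 6 → ℝ :=
  Fin.cons 1 p.1

/-- the functional `a·p - b`. -/
noncomputable def M1_G (a : Fin 5 → ℝ) (b : ℝ) : Module.Dual ℝ (Fin 6 → ℝ) where
  toFun := fun z => ∑ i, a i * z i.succ - b * z 0
  map_add' := by
    intro z z'
    simp only [Pi.add_apply, mul_add, Finset.sum_add_distrib]; ring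
  map_smul' := by
    intro c z
    simp only [Pi.smul_apply, smul_eq_mul, RingHom.id_apply, mul_sub, Finset.mul_sum]
    congr 1
    · apply Finset.sum_congr rfl; intro i _; ring
    · ring

theorem M1_G_apply (S : Finset (Fin 5 → ℝ)) (a : Fin 5 → ℝ) (b : ℝ) (p : {p // p ∈ S}) :
    M1_G a b (M1_x S p) = ∑ i, a i * p.1 i - b := by
  simp [M1_G, M1_x]

theorem M1_ncard (S : Finset (Fin 5 → ℝ)) (P : (Fin 5 → ℝ) → Prop) :
    {p : Fin 5 → ℝ | p ∈ S ∧ P p}.ncard = (univ.filter (fun p : {p // p ∈ S} => P p.1)).card := by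
  have h1 : {p : Fin 5 → ℝ | p ∈ S ∧ P p} = ((S.filter P : Finset (Fin 5 → ℝ)) : Set _) := by
    ext p; simp
  rw [h1, Set.ncard_coe_finset]
  have h : (univ.filter (fun p : {p // p ∈ S} => P p)).map (Embedding.subtype _) = S.filter P := by
    ext p
    simp only [mem_map, mem_filter, mem_univ, true_and, Embedding.coe_subtype, Subtype.exists,
      exists_and_right, exists_eq_right]
    constructor
    · rintro ⟨h1, h2⟩; exact ⟨h1, h2⟩
    · rintro ⟨h1, h2⟩; exact ⟨h1, h2⟩
  rw [← h, card_map]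

theorem M1_gp (S : Finset (Fin 5 → ℝ)) (hS : GenPos5 S) : GP6 (M1_x S) := by
  intro v hv hD
  unfold D6 at hD
  obtain ⟨c, hc, hc2⟩ := Matrix.exists_mulVec_eq_zero_iff.2 hD
  have h1 : ∀ i, c 0 + ∑ j : Fin 5, c j.succ * (v i).1 j = 0 := by
    intro i
    have h2 := congrFun hc2 i
    simp only [Matrix.mulVec, dotProduct, Matrix.of_apply, M1_x, Fin.sum_univ_succ (n := 5),
      Fin.cons_zero, Fin.cons_succ, Pi.zero_apply, one_mul] at h2
    rw [← h2]
    congr 1
    apply Finset.sum_congr rfl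
    intro j _; ring
  have ha : (fun j : Fin 5 => c j.succ) ≠ 0 := by
    intro h0
    apply hc
    funext j
    refine Fin.cases ?_ (fun j => ?_) j
    · have h2 := h1 0
      have h3 : ∀ j : Fin 5, c j.succ = 0 := fun j => congrFun h0 j
      simp only [h3, zero_mul, Finset.sum_const_zero, add_zero] at h2
      exact h2
    · exact congrFun h0 j
  have h2 := hS (fun j => c j.succ) (-c 0) ha
  rw [M1_ncard S (fun p => ∑ i, (fun j : Fin 5 => c j.succ) i * p i = -c 0)] at h2
  have h3 : univ.image v ⊆ univ.filter (fun p : {p // p ∈ S} =>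
      ∑ i, (fun j : Fin 5 => c j.succ) i * p.1 i = -c 0) := by
    intro p hp
    obtain ⟨i, _, hi⟩ := mem_image.1 hp
    rw [mem_filter]
    refine ⟨mem_univ _, ?_⟩
    have := h1 i
    rw [← hi]
    simp only
    linarith
  have h4 := Finset.card_le_card h3
  rw [Finset.card_image_of_injective _ hv, Finset.card_univ, Fintype.card_fin] at h4
  exact absurd (h4.trans h2) (by norm_num)

theorem M1_enum (S T : Finset (Fin 5 → ℝ)) (hTS : T ⊆ S) (hT : T.card = 5) :
    ∃ v : Fin 5 → {p // p ∈ S}, Injective v ∧ (∀ l, (v l : Fin 5 → ℝ) ∈ T) ∧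
      univ.image (fun l => (v l : Fin 5 → ℝ)) = T := by
  let e := (T.equivFinOfCardEq hT).symm
  refine ⟨fun i => ⟨(e i : Fin 5 → ℝ), hTS (e i).2⟩, ?_, fun l => (e l).2, ?_⟩
  · intro i j hij
    have h1 : (e i : Fin 5 → ℝ) = (e j : Fin 5 → ℝ) :=
      congrArg (fun q : {p // p ∈ S} => (q : Fin 5 → ℝ)) hij
    exact e.injective (Subtype.ext h1)
  · ext p
    simp only [mem_image, mem_univ, true_and]
    constructor
    · rintro ⟨i, rfl⟩; exact (e i).2
    · intro hp
      refine ⟨e.symm ⟨p, hp⟩, ?_⟩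
      simp

theorem M1_zero_iff {V : Type} [Fintype V] (x : V → Fin 6 → ℝ) (hgp : GP6 x) (v : Fin 5 → V)
    (hv : Injective v) (u : V) :
    D6 (Fin.snoc (fun i => x (v i)) (x u)) = 0 ↔ ∃ l, v l = u := by
  rw [S1_zero_iff x hgp v hv u, mem_image]
  simp

theorem M1_TT (S : Finset (Fin 5 → ℝ)) (hS : GenPos5 S) (k : ℕ) (T : Finset (Fin 5 → ℝ))
    (h : IsKH S k T) (v : Fin 5 → {p // p ∈ S}) (hv : Injective v)
    (hvT : ∀ l, (v l : Fin 5 → ℝ) ∈ T) : TT (M1_x S) k v := by
  obtain ⟨hTS, hTc, a, b, ha, hab, hk⟩ := h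
  refine ⟨hv, ?_⟩
  have hgp := M1_gp S hS
  rw [M1_ncard S (fun p => b < ∑ i, a i * p i)] at hk
  have h4 := hS a b ha
  rw [M1_ncard S (fun p => ∑ i, a i * p i = b)] at h4
  have himg : univ.image v ⊆ univ.filter (fun p : {p // p ∈ S} => ∑ i, a i * p.1 i = b) := by
    intro p hp
    obtain ⟨i, _, hi⟩ := mem_image.1 hp
    rw [mem_filter]
    exact ⟨mem_univ _, by rw [← hi]; exact hab _ (hvT i)⟩
  have hcimg : (univ.image v).card = 5 := by
    rw [Finset.card_image_of_injective _ hv]; simp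
  have heq : univ.image v = univ.filter (fun p : {p // p ∈ S} => ∑ i, a i * p.1 i = b) :=
    Finset.eq_of_subset_of_card_le himg (by rw [hcimg]; exact h4)
  have hneg := S1_neg_count (M1_x S) hgp v hv
  by_cases hex : ∃ u0 : {p // p ∈ S}, u0 ∉ univ.image v
  · obtain ⟨u0, hu0⟩ := hex
    have hF0 : D6 (Fin.snoc (fun i => M1_x S (v i)) (M1_x S u0)) ≠ 0 := by
      intro h0
      obtain ⟨l, hl⟩ := (M1_zero_iff (M1_x S) hgp v hv u0).1 h0
      exact hu0 (mem_image.2 ⟨l, mem_univ _, hl⟩)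
    have hG0 : M1_G a b (M1_x S u0) ≠ 0 := by
      rw [M1_G_apply]
      intro h0
      apply hu0
      rw [heq, mem_filter]
      exact ⟨mem_univ _, by linarith⟩
    set F := S1_dd (fun i => M1_x S (v i)) with hF
    have hFe : ∀ z, F z = D6 (Fin.snoc (fun i => M1_x S (v i)) z) := fun z => S1_dd_apply _ z
    set γ := F (M1_x S u0) / M1_G a b (M1_x S u0) with hγ
    have hγ0 : γ ≠ 0 := div_ne_zero (by rw [hFe]; exact hF0) hG0
    have hzero : F - γ • M1_G a b = 0 := by
      by_contra hne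
      apply hF0
      apply S1_D6_zero _ _ hne
      intro l
      refine Fin.lastCases ?_ (fun l => ?_) l
      · rw [Fin.snoc_last, LinearMap.sub_apply, LinearMap.smul_apply, smul_eq_mul, hγ,
          div_mul_cancel₀ _ hG0, sub_self]
      · rw [Fin.snoc_castSucc, LinearMap.sub_apply, LinearMap.smul_apply, smul_eq_mul, hFe,
          (M1_zero_iff (M1_x S) hgp v hv (v l)).2 ⟨l, rfl⟩, M1_G_apply,
          hab _ (hvT l)]
        ring
    have hFG : ∀ u : {p // p ∈ S}, D6 (Fin.snoc (fun i => M1_x S (v i)) (M1_x S u)) =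
        γ * (∑ i, a i * u.1 i - b) := by
      intro u
      have h5 : (F - γ • M1_G a b) (M1_x S u) = 0 := by rw [hzero]; rfl
      rw [LinearMap.sub_apply, LinearMap.smul_apply, smul_eq_mul, hFe, M1_G_apply] at h5
      linarith
    rcases lt_or_gt_of_ne hγ0 with hg | hg
    · right
      have h6 : (univ.filter (fun u : {p // p ∈ S} =>
          D6 (Fin.snoc (fun i => M1_x S (v i)) (M1_x S u)) < 0)).card = k := by
        rw [← hk]
        congr 1
        ext u
        simp only [mem_filter, mem_univ, true_and]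
        rw [hFG u]
        constructor
        · intro h7
          by_contra h8
          have : 0 ≤ γ * (∑ i, a i * u.1 i - b) :=
            mul_nonneg_of_nonpos_of_nonpos hg.le (by linarith [not_lt.1 h8])
          linarith
        · intro h7
          exact mul_neg_of_neg_of_pos hg (by linarith)
      omega
    · left
      unfold npos
      rw [← hk]
      congr 1
      ext u
      simp only [mem_filter, mem_univ, true_and]
      rw [hFG u]
      constructor
      · intro h7
        by_contra h8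
        have : γ * (∑ i, a i * u.1 i - b) ≤ 0 :=
          mul_nonpos_of_nonneg_of_nonpos hg.le (by linarith [not_lt.1 h8])
        linarith
      · intro h7
        exact mul_pos hg (by linarith)
  · push Not at hex
    left
    have h6 : (univ : Finset {p // p ∈ S}) = univ.image v := by
      ext u; simp only [mem_univ, true_iff]; exact hex u
    have h7 : Fintype.card {p // p ∈ S} = 5 := by
      rw [← Finset.card_univ, h6, hcimg]
    have h8 : k = 0 := by
      rw [← hk, Finset.card_eq_zero, Finset.filter_eq_empty_iff]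
      intro u _ hu
      have := hex u
      rw [heq, mem_filter] at this
      linarith [this.2]
    omega

theorem main5 : ∃ C : ℝ, 0 < C ∧ ∀ S : Finset (Fin 5 → ℝ), GenPos5 S → ∀ k : ℕ,
    ({T : Finset (Fin 5 → ℝ) | IsKH S k T}.ncard : ℝ) ≤ C * (S.card : ℝ) ^ ((44 : ℝ) / 9) := by
  obtain ⟨C, hC, hb⟩ := bound6
  refine ⟨C ^ ((9 : ℝ)⁻¹), by positivity, ?_⟩
  intro S hS k
  have h1 := hb {p // p ∈ S} (M1_x S) (M1_gp S hS) (fun v => by
    show (0 : ℝ) < 1
    norm_num) k
  have hn : nn {p // p ∈ S} = (S.card : ℝ) := by simp [nn]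
  rw [hn] at h1
  -- counting
  have h2 : ({T : Finset (Fin 5 → ℝ) | IsKH S k T}.ncard : ℝ) ≤ NT (TT (M1_x S) k) := by
    have h3 : NT (TT (M1_x S) k) =
        ((univ.filter (fun v : Fin 5 → {p // p ∈ S} => TT (M1_x S) k v)).card : ℝ) := by
      unfold NT
      rw [Finset.card_filter]
      push_cast
      apply Finset.sum_congr rfl
      intro v _
      unfold ind
      rfl
    rw [h3]
    have h4 : {T : Finset (Fin 5 → ℝ) | IsKH S k T} ⊆
        (((univ.filter (fun v : Fin 5 → {p // p ∈ S} => TT (M1_x S) k v)).image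
          (fun v => univ.image (fun l => (v l : Fin 5 → ℝ))) : Finset (Finset (Fin 5 → ℝ))) :
          Set (Finset (Fin 5 → ℝ))) := by
      intro T hT
      obtain ⟨v, hv, hvT, him⟩ := M1_enum S T hT.1 hT.2.1
      rw [Finset.mem_coe, mem_image]
      refine ⟨v, ?_, him⟩
      rw [mem_filter]
      exact ⟨mem_univ _, M1_TT S hS k T hT v hv hvT⟩
    have h5 := Set.ncard_le_ncard h4 (Finset.finite_toSet _)
    rw [Set.ncard_coe_finset] at h5
    exact_mod_cast h5.trans Finset.card_image_le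
  refine h2.trans ?_
  have hNT : 0 ≤ NT (TT (M1_x S) k) := by
    unfold NT
    exact Finset.sum_nonneg (fun _ _ => ind_nonneg _)
  have hn0 : (0 : ℝ) ≤ (S.card : ℝ) := by positivity
  have h6 : NT (TT (M1_x S) k) = (NT (TT (M1_x S) k) ^ 9) ^ ((9 : ℝ)⁻¹) := by
    have := Real.pow_rpow_inv_natCast hNT (n := 9) (by norm_num)
    push_cast at this
    exact this.symm
  rw [h6]
  refine (Real.rpow_le_rpow (by positivity) h1 (by norm_num)).trans (le_of_eq ?_)
  rw [Real.mul_rpow hC.le (pow_nonneg hn0 44)]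
  congr 1
  rw [← Real.rpow_natCast (S.card : ℝ) 44, ← Real.rpow_mul hn0]
  norm_num

end KS13
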