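import Pool.Agent.LibKS37.O3
import Pool.Agent.LibKS13.Defs

/-!
# KS13 row O4: change of `∀ j, 0 < α_j + β_j t` between t = 0 and t = t1
Apply `KS37.oi_ray` to α, γ with γ_j = α_j + β_j t1 (value at t1): for τ ≥ 0, α_j + γ_j τ = (1+τ)·(value at t1 τ/(1+τ)).
Nondeg α γ (α_j γ_l - α_l γ_j = t1 (α_j β_l - α_l β_j)). τ_j = -α_j/γ_j > 0 and Ev α γ j ⟺ Ev α β j and t_j = -α_j/β_j = t1 τ_j/(1+τ_j) strictly between 0 and t1
(1+τ_j = β_j t1/γ_j; conversely t_j strictly between 0 and t1 gives τ_j = t_j/(t1-t_j) > 0). For such j sg γ_j = sg β_j · sg t1 (γ_j = β_j (t1 - t_j)) = sg β_j · sg t_j, and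
eps α β 0 1 j = sg (0 + 1·t_j) · sg 1 = sg t_j.
-/

open Finset Function
open scoped Classical

namespace KS13

open KS37

private theorem O4_key {J : Type} (α β : J → ℝ) (t1 : ℝ) (hα : ∀ j, α j ≠ 0)
    (hβ : ∀ j, β j ≠ 0) (hγ : ∀ j, α j + β j * t1 ≠ 0) (j : J) :
    ind (Ev α (fun j => α j + β j * t1) j ∧ 0 < -α j / (α j + β j * t1)) *
        sg (α j + β j * t1) =
      ind (Ev α β j ∧ Btw α β t1 j) * (sg (β j) * eps α β 0 1 j) := by
  obtain ⟨T, hT⟩ : ∃ T, T = -α j / β j := ⟨_, rfl⟩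
  have hb := hβ j
  have hαj : α j = -(β j * T) := by
    rw [hT]
    field_simp
  have hγj : α j + β j * t1 = β j * (t1 - T) := by
    rw [hαj]
    ring
  have hT0 : T ≠ 0 := by
    intro h
    apply hα j
    rw [hαj, h, mul_zero, neg_zero]
  have htT : t1 - T ≠ 0 := by
    intro h
    apply hγ j
    rw [hγj, h, mul_zero]
  have hτ : -α j / (α j + β j * t1) = T / (t1 - T) := by
    rw [hγj, hαj, neg_neg, mul_div_mul_left _ _ hb]
  have hBtw : 0 < T / (t1 - T) ↔ Btw α β t1 j := by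
    unfold Btw
    rw [← hT, div_pos_iff]
    constructor
    · rintro (⟨h1, h2⟩ | ⟨h1, h2⟩)
      · exact Or.inl ⟨h1, by linarith⟩
      · exact Or.inr ⟨by linarith, h1⟩
    · rintro (⟨h1, h2⟩ | ⟨h1, h2⟩)
      · exact Or.inl ⟨h1, by linarith⟩
      · exact Or.inr ⟨h2, by linarith⟩
  rw [hτ]
  by_cases hB : Btw α β t1 j
  · have hpos := hBtw.2 hB
    have h1τ : 0 < 1 + T / (t1 - T) := by linarith
    have hval : ∀ l, α l + (α l + β l * t1) * (T / (t1 - T)) =
        (1 + T / (t1 - T)) * (α l + β l * T) := by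
      intro l
      field_simp
      ring
    have hEv : Ev α (fun j => α j + β j * t1) j ↔ Ev α β j := by
      unfold Ev
      constructor
      · intro h l hl
        have h1 : 0 < α l + (α l + β l * t1) * (-α j / (α j + β j * t1)) := h l hl
        rw [hτ, hval] at h1
        rw [← hT]
        exact (mul_pos_iff_of_pos_left h1τ).1 h1
      · intro h l hl
        have h1 : 0 < α l + β l * (-α j / β j) := h l hl
        rw [← hT] at h1
        change 0 < α l + (α l + β l * t1) * (-α j / (α j + β j * t1))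
        rw [hτ, hval]
        exact mul_pos h1τ h1
    have hc : (Ev α (fun j => α j + β j * t1) j ∧ 0 < T / (t1 - T)) ↔
        (Ev α β j ∧ Btw α β t1 j) := by rw [hEv, hBtw]
    rw [ind_congr hc]
    congr 1
    unfold eps
    rw [← hT, hγj, zero_add, one_mul, sg_pos (by norm_num : (0 : ℝ) < 1), mul_one]
    unfold Btw at hB
    rw [← hT] at hB
    rcases hB with ⟨h1, h2⟩ | ⟨h1, h2⟩
    · have h3 : 0 < t1 - T := by linarith
      rw [sg_pos h1, mul_one]
      rcases lt_or_gt_of_ne hb with h | h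
      · rw [sg_neg h, sg_neg (mul_neg_of_neg_of_pos h h3)]
      · rw [sg_pos h, sg_pos (mul_pos h h3)]
    · have h3 : t1 - T < 0 := by linarith
      rw [sg_neg h2]
      rcases lt_or_gt_of_ne hb with h | h
      · rw [sg_neg h, sg_pos (mul_pos_of_neg_of_neg h h3)]
        norm_num
      · rw [sg_pos h, sg_neg (mul_neg_of_pos_of_neg h h3)]
        norm_num
  · rw [ind_false (fun h => hB (hBtw.1 h.2)), ind_false (fun h => hB h.2), zero_mul, zero_mul]

theorem oi_btw {J : Type} [Fintype J] (α β : J → ℝ) (t1 : ℝ) (ht : t1 ≠ 0) (hα : ∀ j, α j ≠ 0)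
    (hβ : ∀ j, β j ≠ 0) (hγ : ∀ j, α j + β j * t1 ≠ 0) (hnd : Nondeg α β) :
    ind (∀ j, 0 < α j + β j * t1) - ind (∀ j, 0 < α j) =
      ∑ j, ind (Ev α β j ∧ Btw α β t1 j) * (sg (β j) * eps α β 0 1 j) := by
  have hnd' : Nondeg α (fun j => α j + β j * t1) := by
    intro j l hjl h
    have h1 : α j * (α l + β l * t1) = α l * (α j + β j * t1) := h
    apply hnd j l hjl
    have h2 : (α j * β l - α l * β j) * t1 = 0 := by linarith
    rcases mul_eq_zero.1 h2 with h3 | h3
    · linarith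
    · exact absurd h3 ht
  have h1 := oi_ray α (fun j => α j + β j * t1) hα hγ hnd'
  rw [h1]
  exact Finset.sum_congr rfl fun j _ => O4_key α β t1 hα hβ hγ j

end KS13
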