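import Pool.Agent.LibKS13.Cd

/-!
# KS13 row PK0: dimensions in the slice ker φ of a rank 4 system (dim E = 5)
All by `finrank_inf_ker` (Cd): a subspace P of dimension d containing a vector with φ ≠ 0 has dim (P ⊓ ker φ) = d - 1. Dimensions of sp x B ⊓ sp x B' etc.: `KS37.finrank_sp_inf`, triple: HF
(sets `vx`, `spx_vx`, `sp_vx`, `card_vx`, `vx_disj`). The vector with φ ≠ 0: `exists_ne_of_line` for a line of PhiH.l2 / l3 inside P, or x v.
pk_two: sp B ⊓ sp B' (4+4-5 = 3) contains vs (B minus 2) ⊓ sp B' (2+4 = 6: a line). pk_one: spx B {i} ⊓ sp B' (3+4-5 = 2). pk_zero2: spx B {i,j} ⊓ sp B' is a line (2+4 = 6), φ ≠ 0 on it (l2).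
pk_zero11: spx B {i} ⊓ spx B' {j}: 3+3 = 6. pk_triple: sp B ⊓ sp B' ⊓ sp B'' (12 - 10 = 2) contains the line with B minus one vertex (11). pk_hs: 3+4+4 = 11: l3.
pk_ker: finrank ker φ = 4 (φ ≠ 0 : if V is empty, [Nonempty V] is assumed). pk_r3: spx B {i} (dimension 3) ⊓ ker φ has dimension 2; pk_r2: spx B {i,j} ⊓ ker φ has dimension 1 (contain some x v).
-/

open Finset Function
open scoped Classical

namespace KS13

open KS37

section
variable {E V : Type} [AddCommGroup E] [Module ℝ E] [Fintype V] {x : V → E}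
    {T : (Fin 4 → V) → Prop}

private theorem PK0_mono {C A : Finset V} (h : C ⊆ A) :
    vs x (C : Set V) ≤ vs x (A : Set V) := by
  unfold vs
  apply Submodule.span_mono
  apply Set.image_mono
  exact_mod_cast h

private theorem PK0_gen2 (hS : Sys 4 x T) {φ : Module.Dual ℝ E} (hφ : PhiH x φ)
    (A1 A2 : Finset V) (hd : Disjoint A1 A2) (h1 : A1.card ≤ 4) (h2 : A2.card ≤ 4)
    (h : 6 ≤ A1.card + A2.card) :
    Module.finrank ℝ (vs x (A1 : Set V) ⊓ vs x (A2 : Set V) ⊓ LinearMap.ker φ : Submodule ℝ E) + 6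
      = A1.card + A2.card := by
  haveI := finiteDimensional_of_sys hS
  obtain ⟨C, hC, hc⟩ := Finset.exists_subset_card_eq (s := A1) (n := 6 - A2.card) (by omega)
  have hd' : Disjoint C A2 := Finset.disjoint_of_subset_left hC hd
  have e1 := finrank_vs_inf hS C A2 hd' (by omega) (by omega) (by omega)
  have e2 := finrank_vs_inf hS A1 A2 hd (by omega) (by omega) (by omega)
  have e3 := finrank_inf_ker (vs x (A1 : Set V) ⊓ vs x (A2 : Set V)) φ
    (exists_ne_of_line (L := vs x (C : Set V) ⊓ vs x (A2 : Set V))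
      (inf_le_inf_right _ (PK0_mono hC)) (by omega)
      (hφ.l2 C A2 hd' (by omega) h2 (by omega)))
  omega

private theorem PK0_gen3 (hS : Sys 4 x T) (hF : HF x) {φ : Module.Dual ℝ E} (hφ : PhiH x φ)
    (A1 A2 A3 : Finset V) (hA : Adm4 A1 A2 A3) (h : 11 ≤ A1.card + A2.card + A3.card) :
    Module.finrank ℝ (vs x (A1 : Set V) ⊓ vs x (A2 : Set V) ⊓ vs x (A3 : Set V) ⊓
      LinearMap.ker φ : Submodule ℝ E) + 11 = A1.card + A2.card + A3.card := by
  haveI := finiteDimensional_of_sys hS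
  obtain ⟨d1, d2, d3, c1, c2, c3⟩ := hA
  obtain ⟨C, hC, hc⟩ := Finset.exists_subset_card_eq (s := A1)
    (n := 11 - A2.card - A3.card) (by omega)
  have hA' : Adm4 C A2 A3 := ⟨Finset.disjoint_of_subset_left hC d1,
    Finset.disjoint_of_subset_left hC d2, d3, by omega, c2, c3⟩
  have e1 := hF C A2 A3 hA'
  have e2 := hF A1 A2 A3 ⟨d1, d2, d3, c1, c2, c3⟩
  have e3 := finrank_inf_ker (vs x (A1 : Set V) ⊓ vs x (A2 : Set V) ⊓ vs x (A3 : Set V)) φ
    (exists_ne_of_line (L := vs x (C : Set V) ⊓ vs x (A2 : Set V) ⊓ vs x (A3 : Set V))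
      (inf_le_inf_right _ (inf_le_inf_right _ (PK0_mono hC))) (by omega)
      (hφ.l3 C A2 A3 hA' (by omega)))
  omega

private theorem PK0_c0 {B : Fin 4 → V} (hB : Injective B) : (vx B ∅).card = 4 := by
  rw [card_vx hB, Finset.card_empty]

private theorem PK0_c1 {B : Fin 4 → V} (hB : Injective B) (i : Fin 4) :
    (vx B {i}).card = 3 := by
  rw [card_vx hB, Finset.card_singleton]

private theorem PK0_c2 {B : Fin 4 → V} (hB : Injective B) {i j : Fin 4} (h : i ≠ j) :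
    (vx B {i, j}).card = 2 := by
  rw [card_vx hB, Finset.card_pair h]

private theorem PK0_adm {B B' B'' : Fin 4 → V} (hB : Injective B) (hB' : Injective B')
    (hB'' : Injective B'') (h1 : Disj B B') (h2 : Disj B B'') (h3 : Disj B' B'')
    (I I' I'' : Finset (Fin 4)) : Adm4 (vx B I) (vx B' I') (vx B'' I'') := by
  refine ⟨vx_disj h1 _ _, vx_disj h2 _ _, vx_disj h3 _ _, ?_, ?_, ?_⟩
  · rw [card_vx hB]; omega
  · rw [card_vx hB']; omega
  · rw [card_vx hB'']; omega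

theorem pk_two (hS : Sys 4 x T) (hF : HF x) {φ : Module.Dual ℝ E} (hφ : PhiH x φ)
    (B B' : Fin 4 → V) (hB : Injective B) (hB' : Injective B') (hd : Disj B B') :
    Module.finrank ℝ (sp x B ⊓ sk x φ B' : Submodule ℝ E) = 2 := by
  have h := PK0_gen2 hS hφ (vx B ∅) (vx B' ∅) (vx_disj hd _ _) (PK0_c0 hB).le (PK0_c0 hB').le
    (by rw [PK0_c0 hB, PK0_c0 hB']; norm_num)
  rw [PK0_c0 hB, PK0_c0 hB'] at h
  unfold sk
  rw [← inf_assoc, sp_vx, sp_vx]
  omega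

theorem pk_one (hS : Sys 4 x T) (hF : HF x) {φ : Module.Dual ℝ E} (hφ : PhiH x φ)
    (B B' : Fin 4 → V) (hB : Injective B) (hB' : Injective B') (hd : Disj B B') (i : Fin 4) :
    Module.finrank ℝ (spx x B {i} ⊓ sk x φ B' : Submodule ℝ E) = 1 := by
  have h := PK0_gen2 hS hφ (vx B {i}) (vx B' ∅) (vx_disj hd _ _)
    (by rw [PK0_c1 hB]; norm_num) (PK0_c0 hB').le
    (by rw [PK0_c1 hB, PK0_c0 hB']; norm_num)
  rw [PK0_c1 hB, PK0_c0 hB'] at h
  unfold sk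
  rw [← inf_assoc, spx_vx1, sp_vx]
  omega

theorem pk_zero2 (hS : Sys 4 x T) (hF : HF x) {φ : Module.Dual ℝ E} (hφ : PhiH x φ)
    (B B' : Fin 4 → V) (hB : Injective B) (hB' : Injective B') (hd : Disj B B') (i j : Fin 4)
    (hij : i ≠ j) : ∀ y ∈ spx x B {i, j} ⊓ sp x B', φ y = 0 → y = 0 := by
  rw [spx_vx2, sp_vx]
  exact hφ.l2 (vx B {i, j}) (vx B' ∅) (vx_disj hd _ _) (by rw [PK0_c2 hB hij]; norm_num)
    (PK0_c0 hB').le (by rw [PK0_c2 hB hij, PK0_c0 hB'])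

theorem pk_zero11 (hS : Sys 4 x T) (hF : HF x) {φ : Module.Dual ℝ E} (hφ : PhiH x φ)
    (B B' : Fin 4 → V) (hB : Injective B) (hB' : Injective B') (hd : Disj B B') (i j : Fin 4) :
    ∀ y ∈ spx x B {i} ⊓ spx x B' {j}, φ y = 0 → y = 0 := by
  rw [spx_vx1, spx_vx1]
  exact hφ.l2 (vx B {i}) (vx B' {j}) (vx_disj hd _ _) (by rw [PK0_c1 hB]; norm_num)
    (by rw [PK0_c1 hB']; norm_num) (by rw [PK0_c1 hB, PK0_c1 hB'])

theorem pk_triple (hS : Sys 4 x T) (hF : HF x) {φ : Module.Dual ℝ E} (hφ : PhiH x φ)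
    (B B' B'' : Fin 4 → V) (hB : Injective B) (hB' : Injective B') (hB'' : Injective B'')
    (h1 : Disj B B') (h2 : Disj B B'') (h3 : Disj B' B'') :
    Module.finrank ℝ (sp x B ⊓ sk x φ B' ⊓ sp x B'' : Submodule ℝ E) = 1 := by
  have h := PK0_gen3 hS hF hφ (vx B ∅) (vx B' ∅) (vx B'' ∅) (PK0_adm hB hB' hB'' h1 h2 h3 _ _ _)
    (by rw [PK0_c0 hB, PK0_c0 hB', PK0_c0 hB'']; norm_num)
  rw [PK0_c0 hB, PK0_c0 hB', PK0_c0 hB''] at h
  have e : sp x B ⊓ sk x φ B' ⊓ sp x B'' = sp x B ⊓ sp x B' ⊓ sp x B'' ⊓ LinearMap.ker φ := by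
    unfold sk
    rw [← inf_assoc, inf_right_comm]
  rw [e, sp_vx, sp_vx, sp_vx]
  omega

/-- 3 + 4 + 4 = 11. -/
theorem pk_hs (hS : Sys 4 x T) (hF : HF x) {φ : Module.Dual ℝ E} (hφ : PhiH x φ)
    (B B' B'' : Fin 4 → V) (hB : Injective B) (hB' : Injective B') (hB'' : Injective B'')
    (h1 : Disj B B') (h2 : Disj B B'') (h3 : Disj B' B'') (i : Fin 4) :
    ∀ y ∈ spx x B {i} ⊓ sp x B' ⊓ sp x B'', φ y = 0 → y = 0 := by
  rw [spx_vx1, sp_vx, sp_vx]
  exact hφ.l3 (vx B {i}) (vx B' ∅) (vx B'' ∅) (PK0_adm hB hB' hB'' h1 h2 h3 _ _ _)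
    (by rw [PK0_c1 hB, PK0_c0 hB', PK0_c0 hB''])

/-- 3 + 4 + 3 = 10. -/
theorem pk_bot33 (hS : Sys 4 x T) (hF : HF x)
    (B B' B'' : Fin 4 → V) (hB : Injective B) (hB' : Injective B') (hB'' : Injective B'')
    (h1 : Disj B B') (h2 : Disj B B'') (h3 : Disj B' B'') (i j : Fin 4) :
    spx x B {i} ⊓ sp x B' ⊓ spx x B'' {j} = ⊥ := by
  haveI := finiteDimensional_of_sys hS
  apply bot_of_finrank
  rw [spx_vx1, sp_vx, spx_vx1, hF _ _ _ (PK0_adm hB hB' hB'' h1 h2 h3 _ _ _), PK0_c1 hB,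
    PK0_c0 hB', PK0_c1 hB'']

/-- 4 + 4 + 2 = 10. -/
theorem pk_bot2 (hS : Sys 4 x T) (hF : HF x)
    (B B' B'' : Fin 4 → V) (hB : Injective B) (hB' : Injective B') (hB'' : Injective B'')
    (h1 : Disj B B') (h2 : Disj B B'') (h3 : Disj B' B'') (i j : Fin 4) (hij : i ≠ j) :
    sp x B ⊓ sp x B' ⊓ spx x B'' {i, j} = ⊥ := by
  haveI := finiteDimensional_of_sys hS
  apply bot_of_finrank
  rw [sp_vx, sp_vx, spx_vx2, hF _ _ _ (PK0_adm hB hB' hB'' h1 h2 h3 _ _ _), PK0_c0 hB,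
    PK0_c0 hB', PK0_c2 hB'' hij]

theorem pk_ker (hS : Sys 4 x T) [Nonempty V] {φ : Module.Dual ℝ E} (hφ : PhiH x φ) :
    Module.finrank ℝ (LinearMap.ker φ) = 4 := by
  haveI := finiteDimensional_of_sys hS
  obtain ⟨v⟩ := ‹Nonempty V›
  have h := finrank_inf_ker (⊤ : Submodule ℝ E) φ ⟨x v, Submodule.mem_top, hφ.v v⟩
  rw [top_inf_eq, finrank_top, hS.rank] at h
  omega

theorem pk_r3 (hS : Sys 4 x T) {φ : Module.Dual ℝ E} (hφ : PhiH x φ)
    (B : Fin 4 → V) (hB : Injective B) (i : Fin 4) :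
    Module.finrank ℝ (spx x B {i} ⊓ LinearMap.ker φ : Submodule ℝ E) = 2 := by
  haveI := finiteDimensional_of_sys hS
  rw [spx_vx1]
  have h0 : (vx B {i}).card = 3 := PK0_c1 hB i
  obtain ⟨v, hv⟩ := Finset.card_pos.1 (by rw [h0]; norm_num : 0 < (vx B {i}).card)
  have h1 := finrank_inf_ker (vs x (vx B {i} : Set V)) φ
    ⟨x v, Submodule.subset_span ⟨v, Finset.mem_coe.2 hv, rfl⟩, hφ.v v⟩
  have h2 := finrank_vs hS (vx B {i}) (by rw [h0]; norm_num)
  omega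

theorem pk_r2 (hS : Sys 4 x T) {φ : Module.Dual ℝ E} (hφ : PhiH x φ)
    (B : Fin 4 → V) (hB : Injective B) (i j : Fin 4) (hij : i ≠ j) :
    Module.finrank ℝ (spx x B {i, j} ⊓ LinearMap.ker φ : Submodule ℝ E) = 1 := by
  haveI := finiteDimensional_of_sys hS
  rw [spx_vx2]
  have h0 : (vx B {i, j}).card = 2 := PK0_c2 hB hij
  obtain ⟨v, hv⟩ := Finset.card_pos.1 (by rw [h0]; norm_num : 0 < (vx B {i, j}).card)
  have h1 := finrank_inf_ker (vs x (vx B {i, j} : Set V)) φ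
    ⟨x v, Submodule.subset_span ⟨v, Finset.mem_coe.2 hv, rfl⟩, hφ.v v⟩
  have h2 := finrank_vs hS (vx B {i, j}) (by rw [h0]; norm_num)
  omega

end

end KS13
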