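import Pool.Agent.LibKS13.PK0
import Pool.Agent.LibKS37.A2

/-!
# KS13 row PK1: existence of f1, f2, e (port of KS37 P3g1 `p3_exists`)
f1 generic (`Gen.dual_ne` on generators, `gen_line`, `line_ne`): nonzero on the lines spx x B {i} ⊓ sk x φ B' (pk_one), spx x B {i,j} ⊓ ker φ (pk_r2), sp x B ⊓ sk x φ B' ⊓ sp x B'' (pk_triple), and f1 nonzero on
ker φ (dimension 4: some nonzero vector). Then kk by `finrank_inf_ker`. f2 generic: on the line sp x B ⊓ sk x φ B' ⊓ ker f1 (dimension 2 - 1; f1 ≠ 0 on the ridge line inside): `iso2_of`; and on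
spx x B {i} ⊓ (ker φ ⊓ ker f1) (2 - 1 = 1; f1 ≠ 0 on the line spx x B {i,j} ⊓ ker φ inside, j ≠ i). e generic: outside the proper subspaces (dimension sums ≤ 4 < 5): e3 1+3, e4 1+3, e5 2+2, enot 4.
([Nonempty V] for kk.)
-/

open Finset Function
open scoped Classical

namespace KS13

open KS37

section PK1aux
variable {E V : Type} [AddCommGroup E] [Module ℝ E] [Fintype V] {x : V → E}
  {T : (Fin 4 → V) → Prop}

private theorem PK1_line (L : Submodule ℝ E) (h : Module.finrank ℝ L = 1) :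
    Gen (fun f : Module.Dual ℝ E => ∀ y ∈ L, f y = 0 → y = 0) := by
  obtain ⟨v, _, hv0, hvg⟩ := gen_line L h
  exact (Gen.dual_ne hv0).mono (fun f hf => line_ne L hvg f hf)

private theorem PK1_spx_mono (B : Fin 4 → V) {I J : Set (Fin 4)} (h : I ⊆ J) :
    spx x B J ≤ spx x B I := by
  unfold spx
  exact Submodule.span_mono (Set.image_mono (Set.compl_subset_compl.2 h))

private theorem PK1_fin1 (hS : Sys 4 x T) (B : Fin 4 → V) (hB : Injective B) (i : Fin 4) :
    Module.finrank ℝ (spx x B {i}) = 3 := by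
  rw [spx_vx1, finrank_vs hS _ (by rw [card_vx hB]; exact (Nat.sub_le _ _).trans (by norm_num)),
    card_vx hB, Finset.card_singleton]

private theorem PK1_fin2 (hS : Sys 4 x T) (B : Fin 4 → V) (hB : Injective B) (i j : Fin 4)
    (hij : i ≠ j) : Module.finrank ℝ (spx x B {i, j}) = 2 := by
  rw [spx_vx2, finrank_vs hS _ (by rw [card_vx hB]; exact (Nat.sub_le _ _).trans (by norm_num)),
    card_vx hB, Finset.card_pair hij]

private theorem PK1_ne (i : Fin 4) : ∃ j : Fin 4, i ≠ j := by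
  by_cases h : i = 0
  · exact ⟨1, by rw [h]; decide⟩
  · exact ⟨0, h⟩

private theorem PK1_f1 (hS : Sys 4 x T) [Nonempty V] (hF : HF x) {φ : Module.Dual ℝ E}
    (hφ : PhiH x φ) : Gen (fun f1 : Module.Dual ℝ E =>
    (∃ y ∈ LinearMap.ker φ, f1 y ≠ 0) ∧
    (∀ B B' : Fin 4 → V, Injective B → Injective B' → Disj B B' →
      ∀ i, ∀ y ∈ spx x B {i} ⊓ sk x φ B', f1 y = 0 → y = 0) ∧
    (∀ B : Fin 4 → V, Injective B → ∀ i j, i ≠ j →
      ∀ y ∈ spx x B {i, j} ⊓ LinearMap.ker φ, f1 y = 0 → y = 0) ∧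
    (∀ B B' B'' : Fin 4 → V, Injective B → Injective B' → Injective B'' → Disj B B' →
      Disj B B'' → Disj B' B'' → ∀ y ∈ sp x B ⊓ sk x φ B' ⊓ sp x B'', f1 y = 0 → y = 0)) := by
  refine Gen.and ?_ (Gen.and ?_ (Gen.and ?_ ?_))
  · have h4 := pk_ker hS hφ
    have h5 : LinearMap.ker φ ≠ ⊥ := by
      intro h0
      rw [h0, finrank_bot] at h4
      exact absurd h4 (by norm_num)
    obtain ⟨y, hy, hy0⟩ := Submodule.exists_mem_ne_zero_of_ne_bot h5
    exact (Gen.dual_ne hy0).mono (fun f hf => ⟨y, hy, hf⟩)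
  · refine Gen.all fun B => Gen.all fun B' => Gen.imp fun hB => Gen.imp fun hB' =>
      Gen.imp fun hd => Gen.all fun i => ?_
    exact PK1_line _ (pk_one hS hF hφ B B' hB hB' hd i)
  · refine Gen.all fun B => Gen.imp fun hB => Gen.all fun i => Gen.all fun j =>
      Gen.imp fun hij => ?_
    exact PK1_line _ (pk_r2 hS hφ B hB i j hij)
  · refine Gen.all fun B => Gen.all fun B' => Gen.all fun B'' => Gen.imp fun hB =>
      Gen.imp fun hB' => Gen.imp fun hB'' => Gen.imp fun h1 => Gen.imp fun h2 =>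
      Gen.imp fun h3 => ?_
    exact PK1_line _ (pk_triple hS hF hφ B B' B'' hB hB' hB'' h1 h2 h3)

private theorem PK1_f2 (hS : Sys 4 x T) (hF : HF x) {φ : Module.Dual ℝ E}
    (hφ : PhiH x φ) (f1 : Module.Dual ℝ E)
    (hr : ∀ B B' : Fin 4 → V, Injective B → Injective B' → Disj B B' →
      ∀ i, ∀ y ∈ spx x B {i} ⊓ sk x φ B', f1 y = 0 → y = 0)
    (hp : ∀ B : Fin 4 → V, Injective B → ∀ i j, i ≠ j →
      ∀ y ∈ spx x B {i, j} ⊓ LinearMap.ker φ, f1 y = 0 → y = 0) :
    Gen (fun f2 : Module.Dual ℝ E =>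
    (∀ B B' : Fin 4 → V, Injective B → Injective B' → Disj B B' →
      Iso2 (sp x B ⊓ sk x φ B') f1 f2) ∧
    (∀ B : Fin 4 → V, Injective B → ∀ i,
      ∀ y ∈ spx x B {i} ⊓ (LinearMap.ker φ ⊓ LinearMap.ker f1), f2 y = 0 → y = 0)) := by
  haveI := finiteDimensional_of_sys hS
  refine Gen.and ?_ ?_
  · refine Gen.all fun B => Gen.all fun B' => Gen.imp fun hB => Gen.imp fun hB' =>
      Gen.imp fun hd => ?_
    have h2 := pk_two hS hF hφ B B' hB hB' hd
    have h1 := pk_one hS hF hφ B B' hB hB' hd 0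
    have h3 := finrank_inf_ker (sp x B ⊓ sk x φ B') f1
      (exists_ne_of_line (inf_le_inf_right (sk x φ B') (spx_le_sp B {0})) h1
        (hr B B' hB hB' hd 0))
    have h4 : Module.finrank ℝ (sp x B ⊓ sk x φ B' ⊓ LinearMap.ker f1 : Submodule ℝ E) = 1 := by
      omega
    refine (PK1_line _ h4).mono (fun f2 hf2 => ?_)
    exact iso2_of _ h2 f1 f2 (fun y hy hy1 hy2 => hf2 y ⟨hy, LinearMap.mem_ker.2 hy1⟩ hy2)
  · refine Gen.all fun B => Gen.imp fun hB => Gen.all fun i => ?_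
    obtain ⟨j, hij⟩ := PK1_ne i
    have h2 := pk_r3 hS hφ B hB i
    have h1 := pk_r2 hS hφ B hB i j hij
    have hle : spx x B {i, j} ≤ spx x B {i} :=
      PK1_spx_mono B (Set.singleton_subset_iff.2 (Set.mem_insert i {j}))
    have h3 := finrank_inf_ker (spx x B {i} ⊓ LinearMap.ker φ) f1
      (exists_ne_of_line (inf_le_inf_right (LinearMap.ker φ) hle) h1 (hp B hB i j hij))
    rw [← inf_assoc]
    exact PK1_line _ (by omega)

private theorem PK1_top [Module.Finite ℝ E] (hE : Module.finrank ℝ E = 5)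
    (P Q : Submodule ℝ E) (h : Module.finrank ℝ P + Module.finrank ℝ Q ≤ 4) : P ⊔ Q ≠ ⊤ := by
  intro h0
  have h1 := Submodule.finrank_add_le_finrank_add_finrank P Q
  rw [h0, finrank_top, hE] at h1
  omega

end PK1aux

theorem pk_exists {E V : Type} [AddCommGroup E] [Module ℝ E] [Fintype V] {x : V → E}
    {T : (Fin 4 → V) → Prop} (hS : Sys 4 x T)
    [Nonempty V] (hF : HF x) {φ : Module.Dual ℝ E} (hφ : PhiH x φ) : ∃ f1 f2 e, PKE x φ f1 f2 e := by
  haveI := finiteDimensional_of_sys hS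
  have hE : Module.finrank ℝ E = 5 := hS.rank
  obtain ⟨f1, hk, hr, hp, htr⟩ := (PK1_f1 hS hF hφ).exists
  obtain ⟨f2, hiso, hf2r⟩ := (PK1_f2 hS hF hφ f1 hr hp).exists
  have hkk : Module.finrank ℝ (LinearMap.ker φ ⊓ LinearMap.ker f1 : Submodule ℝ E) = 3 := by
    have h1 := finrank_inf_ker (LinearMap.ker φ) f1 hk
    have h2 := pk_ker hS hφ
    omega
  have hg : Gen (fun e : E => (∀ B : Fin 4 → V, Injective B → e ∉ sp x B) ∧
      (∀ B B' : Fin 4 → V, Injective B → Injective B' → Disj B B' →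
        ∀ B'' : Fin 4 → V, Injective B'' → ∀ j,
        e ∉ Submodule.span ℝ {qv x (sk x φ B') f1 f2 B} ⊔ spx x B'' {j}) ∧
      (∀ B B' : Fin 4 → V, Injective B → Injective B' → Disj B B' → ∀ i,
        ∀ B'' : Fin 4 → V, Injective B'' → ∀ j,
        e ∉ (spx x B {i} ⊓ sk x φ B') ⊔ spx x B'' {j}) ∧
      (∀ B B' : Fin 4 → V, Injective B → Injective B' → Disj B B' →
        ∀ B'' : Fin 4 → V, Injective B'' → ∀ i j, i ≠ j →
        e ∉ (sp x B ⊓ sk x φ B') ⊔ spx x B'' {i, j})) := by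
    refine Gen.and ?_ (Gen.and ?_ (Gen.and ?_ ?_))
    · refine Gen.all fun B => Gen.imp fun hB => Gen.notMem ?_
      intro h0
      have h1 := finrank_sp hS (by norm_num) B hB
      rw [h0, finrank_top, hE] at h1
      norm_num at h1
    · refine Gen.all fun B => Gen.all fun B' => Gen.imp fun hB => Gen.imp fun hB' =>
        Gen.imp fun hd => Gen.all fun B'' => Gen.imp fun hB'' => Gen.all fun j =>
        Gen.notMem (PK1_top hE _ _ ?_)
      have h1 := finrank_span_le_card (R := ℝ) ({qv x (sk x φ B') f1 f2 B} : Set E)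
      rw [Set.toFinset_singleton, Finset.card_singleton] at h1
      rw [PK1_fin1 hS B'' hB'' j]
      omega
    · refine Gen.all fun B => Gen.all fun B' => Gen.imp fun hB => Gen.imp fun hB' =>
        Gen.imp fun hd => Gen.all fun i => Gen.all fun B'' => Gen.imp fun hB'' =>
        Gen.all fun j => Gen.notMem (PK1_top hE _ _ ?_)
      rw [pk_one hS hF hφ B B' hB hB' hd i, PK1_fin1 hS B'' hB'' j]
    · refine Gen.all fun B => Gen.all fun B' => Gen.imp fun hB => Gen.imp fun hB' =>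
        Gen.imp fun hd => Gen.all fun B'' => Gen.imp fun hB'' => Gen.all fun i =>
        Gen.all fun j => Gen.imp fun hij => Gen.notMem (PK1_top hE _ _ ?_)
      rw [pk_two hS hF hφ B B' hB hB' hd, PK1_fin2 hS B'' hB'' i j hij]
  obtain ⟨e, h1, h2, h3, h4⟩ := hg.exists
  exact ⟨f1, f2, e, ⟨hr, hp, htr, hiso, hkk, hf2r, h1, h2, h3, h4⟩⟩

end KS13
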