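import Pool.Agent.LibKS13.PK0

/-!
# KS13 row PK2: the slice ker φ ⊓ ker f1 satisfies P2Hyp (port of KS37 P3g2 `p3_hyp`)
fin: hE.kk. u3: y ∈ spx x B {i,j}, φ y = 0, f1 y = 0: hE.pair. u6: y ∈ spx x B {i} ⊓ sp x B', φ y = 0, f1 y = 0: hE.ridge. ridge: hE.f2r. dbl: hE.iso.1.
-/

open Finset Function
open scoped Classical

namespace KS13

open KS37

theorem pk_hyp {E V : Type} [AddCommGroup E] [Module ℝ E] [Fintype V] {x : V → E}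
    {T : (Fin 4 → V) → Prop} (hS : Sys 4 x T)
    {φ f1 f2 : Module.Dual ℝ E} {e : E} (hE : PKE x φ f1 f2 e) :
    P2Hyp 4 x (LinearMap.ker φ ⊓ LinearMap.ker f1) f2 := by
  refine ⟨hE.kk, ?_, ?_, ?_, ?_⟩
  · intro B hB i j hij
    rw [eq_bot_iff]
    rintro y ⟨hy, hφy, hfy⟩
    exact (Submodule.mem_bot ℝ).2 (hE.pair B hB i j hij y ⟨hy, hφy⟩ (LinearMap.mem_ker.1 hfy))
  · intro B B' hB hB' hd i
    rw [eq_bot_iff]
    rintro y ⟨⟨hy, hy'⟩, hφy, hfy⟩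
    exact (Submodule.mem_bot ℝ).2
      (hE.ridge B B' hB hB' hd i y ⟨hy, hy', hφy⟩ (LinearMap.mem_ker.1 hfy))
  · intro B hB i y hy h
    exact hE.f2r B hB i y hy h
  · rintro B B' hB hB' hd y ⟨⟨hy, hy'⟩, hφy, hfy⟩ h
    exact (hE.iso B B' hB hB' hd).1 y ⟨hy, hy', hφy⟩ (LinearMap.mem_ker.1 hfy) h

end KS13
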