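import Pool.Agent.LibKS13.PK0

/-!
# KS13 row PK3: coordinates and height at q (port of KS37 P3g3; simpler, B'' is disjoint)
q = qv x (sk x φ B') f1 f2 B ∈ sp x B ⊓ sp x B', φ q = 0, f1 q = 0, f2 q = 1 (`solv_spec`, hE.iso), q ≠ 0.
kapq: kap x B e j q = 0 gives q ∈ spx x B {j} (`kap_zero_mem`), hE.ridge B B': q = 0. kapq': the same with B', B exchanged. kapq'': q - s e ∈ spx x B'' {j} (`kap_eq_zero_iff`): s ≠ 0: e ∈ span{q} ⊔ spx: hE.e3;
s = 0: q ∈ spx x B'' {j} ⊓ sp x B ⊓ sp x B', φ q = 0: pk_hs (B'', B, B'): q = 0. hq: hgt = 0 gives q ∈ sp x B'' (`hgt_eq_zero_iff`): hE.triple.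
-/

open Finset Function
open scoped Classical

namespace KS13

open KS37

section
variable {E V : Type} [AddCommGroup E] [Module ℝ E] [Fintype V] {x : V → E}
    {T : (Fin 4 → V) → Prop}

theorem PK3_spec {φ f1 f2 : Module.Dual ℝ E} {e : E}
    (hE : PKE x φ f1 f2 e) (B B' : Fin 4 → V) (hB : Injective B) (hB' : Injective B')
    (hd : Disj B B') :
    qv x (sk x φ B') f1 f2 B ∈ sp x B ∧ qv x (sk x φ B') f1 f2 B ∈ sp x B' ∧
      φ (qv x (sk x φ B') f1 f2 B) = 0 ∧ f1 (qv x (sk x φ B') f1 f2 B) = 0 ∧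
      f2 (qv x (sk x φ B') f1 f2 B) = 1 := by
  obtain ⟨b1, b2, b3⟩ := solv_spec (hE.iso B B' hB hB' hd) 0 1
  change qv x (sk x φ B') f1 f2 B ∈ sp x B ⊓ (sp x B' ⊓ LinearMap.ker φ) at b1
  change f1 (qv x (sk x φ B') f1 f2 B) = 0 at b2
  change f2 (qv x (sk x φ B') f1 f2 B) = 1 at b3
  exact ⟨b1.1, b1.2.1, b1.2.2, b2, b3⟩

theorem PK3_ne {φ f1 f2 : Module.Dual ℝ E} {e : E}
    (hE : PKE x φ f1 f2 e) (B B' : Fin 4 → V) (hB : Injective B) (hB' : Injective B')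
    (hd : Disj B B') : qv x (sk x φ B') f1 f2 B ≠ 0 := by
  obtain ⟨_, _, _, _, b3⟩ := PK3_spec hE B B' hB hB' hd
  intro h
  rw [h, map_zero] at b3
  norm_num at b3

theorem pk_kapq (hS : Sys 4 x T) (hF : HF x) {φ f1 f2 : Module.Dual ℝ E} (hφ : PhiH x φ) {e : E}
    (hE : PKE x φ f1 f2 e) (B B' : Fin 4 → V) (hB : Injective B) (hB' : Injective B')
    (hd : Disj B B') (j : Fin 4) : kap x B e j (qv x (sk x φ B') f1 f2 B) ≠ 0 := by
  intro h0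
  obtain ⟨b1, b2, b3, b4, b5⟩ := PK3_spec hE B B' hB hB' hd
  have h1 := kap_zero_mem hS hB (hE.enot B hB) b1 h0
  exact PK3_ne hE B B' hB hB' hd (hE.ridge B B' hB hB' hd j _ ⟨h1, b2, b3⟩ b4)

theorem pk_kapq' (hS : Sys 4 x T) (hF : HF x) {φ f1 f2 : Module.Dual ℝ E} (hφ : PhiH x φ) {e : E}
    (hE : PKE x φ f1 f2 e) (B B' : Fin 4 → V) (hB : Injective B) (hB' : Injective B')
    (hd : Disj B B') (j : Fin 4) : kap x B' e j (qv x (sk x φ B') f1 f2 B) ≠ 0 := by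
  intro h0
  obtain ⟨b1, b2, b3, b4, b5⟩ := PK3_spec hE B B' hB hB' hd
  have h1 := kap_zero_mem hS hB' (hE.enot B' hB') b2 h0
  exact PK3_ne hE B B' hB hB' hd
    (hE.ridge B' B hB' hB (disj_symm hd) j _ ⟨h1, b1, b3⟩ b4)

theorem pk_kapq'' (hS : Sys 4 x T) (hF : HF x) {φ f1 f2 : Module.Dual ℝ E} (hφ : PhiH x φ)
    {e : E} (hE : PKE x φ f1 f2 e) (B B' B'' : Fin 4 → V) (hB : Injective B) (hB' : Injective B')
    (hB'' : Injective B'') (h1 : Disj B B') (h2 : Disj B B'') (h3 : Disj B' B'') (j : Fin 4) :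
    kap x B'' e j (qv x (sk x φ B') f1 f2 B) ≠ 0 := by
  intro h0
  obtain ⟨b1, b2, b3, b4, b5⟩ := PK3_spec hE B B' hB hB' h1
  obtain ⟨s, hs⟩ := (kap_eq_zero_iff hS B'' hB'' e (hE.enot B'' hB'') j _).1 h0
  by_cases hs0 : s = 0
  · rw [hs0, zero_smul, sub_zero] at hs
    exact PK3_ne hE B B' hB hB' h1
      (pk_hs hS hF hφ B'' B B' hB'' hB hB' (disj_symm h2) (disj_symm h3) h1 j _
        ⟨⟨hs, b1⟩, b2⟩ b3)
  · apply hE.e3 B B' hB hB' h1 B'' hB'' j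
    have h4 : e = s⁻¹ • qv x (sk x φ B') f1 f2 B -
        s⁻¹ • (qv x (sk x φ B') f1 f2 B - s • e) := by
      rw [smul_sub, smul_smul, inv_mul_cancel₀ hs0, one_smul]
      abel
    rw [h4]
    refine Submodule.sub_mem _ ?_ ?_
    · exact Submodule.mem_sup_left (Submodule.smul_mem _ _ (Submodule.mem_span_singleton_self _))
    · exact Submodule.mem_sup_right (Submodule.smul_mem _ _ hs)

theorem pk_hq (hS : Sys 4 x T) (hF : HF x) {φ f1 f2 : Module.Dual ℝ E} (hφ : PhiH x φ) {e : E}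
    (hE : PKE x φ f1 f2 e) (B B' B'' : Fin 4 → V) (hB : Injective B) (hB' : Injective B')
    (hB'' : Injective B'') (h1 : Disj B B') (h2 : Disj B B'') (h3 : Disj B' B'') :
    hgt x B'' e (qv x (sk x φ B') f1 f2 B) ≠ 0 := by
  intro h0
  obtain ⟨b1, b2, b3, b4, b5⟩ := PK3_spec hE B B' hB hB' h1
  have h4 := (hgt_eq_zero_iff hS B'' hB'' e (hE.enot B'' hB'') _).1 h0
  exact PK3_ne hE B B' hB hB' h1
    (hE.triple B B' B'' hB hB' hB'' h1 h2 h3 _ ⟨⟨b1, b2, b3⟩, h4⟩ b4)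

end

end KS13
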