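import Pool.Agent.LibKS13.PK0
import Pool.Agent.LibKS37.P3g4

/-!
# KS13 row PK4: non-degeneracy (port of KS37 P3g4 `p3_nd`)
-/

open Finset Function
open scoped Classical

namespace KS13

open KS37

theorem pk_nd {E V : Type} [AddCommGroup E] [Module ℝ E] [Fintype V] {x : V → E}
    {T : (Fin 4 → V) → Prop} (hS : Sys 4 x T)
    (hF : HF x) {φ f1 f2 : Module.Dual ℝ E} (hφ : PhiH x φ) {e : E}
    (hE : PKE x φ f1 f2 e) (B B' B'' : Fin 4 → V) (hB : Injective B) (hB' : Injective B')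
    (hB'' : Injective B'') (h1 : Disj B B') (h2 : Disj B B'') (h3 : Disj B' B'') :
    Nondeg (alK x φ f1 f2 e B B' B'') (beK x φ f1 f2 e B B' B'') := by
  have he := hE.enot B hB
  have he' := hE.enot B' hB'
  have he'' := hE.enot B'' hB''
  have hiso := hE.iso B B' hB hB' h1
  have ha := solv_spec hiso 1 0
  have hq := solv_spec hiso 0 1
  let ψ : Fin 4 ⊕ (Fin 4 ⊕ Fin 4) → E →ₗ[ℝ] ℝ :=
    Sum.elim (fun i => kap x B e i) (Sum.elim (fun i => kap x B' e i) (fun i => kap x B'' e i))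
  have hα : ∀ j, alK x φ f1 f2 e B B' B'' j = ψ j (av x (sk x φ B') f1 f2 B) := by
    rintro (i | i | i) <;> rfl
  have hβ : ∀ j, beK x φ f1 f2 e B B' B'' j = ψ j (qv x (sk x φ B') f1 f2 B) := by
    rintro (i | i | i) <;> rfl
  have hzero : ∀ {P : Submodule ℝ E} {y : E}, P = ⊥ → y ∈ P → y = 0 := by
    intro P y hP hy
    rw [hP] at hy
    exact (Submodule.mem_bot ℝ).1 hy
  -- same tuple
  have kBB : ∀ {B B' : Fin 4 → V}, Injective B → Injective B' → e ∉ sp x B → Disj B B' →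
      ∀ {i i' : Fin 4}, i ≠ i' → ∀ {y : E}, y ∈ sp x B → y ∈ sp x B' → φ y = 0 →
      kap x B e i y = 0 → kap x B e i' y = 0 → y = 0 := by
    intro B B' hB hB' he hd i i' hi y hy hy' hφy h1 h2
    exact pk_zero2 hS hF hφ B B' hB hB' hd i i' hi y
      ⟨kap_zero_mem2 hS hB he hy h1 h2, hy'⟩ hφy
  have kBC : ∀ {B B' : Fin 4 → V}, Injective B → Injective B' → e ∉ sp x B → Disj B B' →
      Disj B B'' → Disj B' B'' → ∀ {i j : Fin 4} {y : E}, y ∈ sp x B → y ∈ sp x B' → φ y = 0 →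
      kap x B e i y = 0 → kap x B'' e j y = 0 → y = 0 := by
    intro B B' hB hB' he hd h2 h3 i j y hy hy' hφy hi hj
    have hyi := kap_zero_mem hS hB he hy hi
    obtain ⟨s, hs⟩ := (kap_eq_zero_iff hS B'' hB'' e he'' j y).1 hj
    have h0 := P3g4_e (P := spx x B {i} ⊓ sk x φ B') ⟨hyi, hy', LinearMap.mem_ker.2 hφy⟩ hs
      (hE.e4 B B' hB hB' hd i B'' hB'' j)
    rw [h0, zero_smul, sub_zero] at hs
    exact hzero (pk_bot33 hS hF B B' B'' hB hB' hB'' hd h2 h3 i j) ⟨⟨hyi, hy'⟩, hs⟩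
  have key : ∀ j l, j ≠ l → ∀ y ∈ sp x B ⊓ sk x φ B', ψ j y = 0 → ψ l y = 0 → y = 0 := by
    rintro j l hne y ⟨hy, hy', hφy⟩ hj hl
    have hφy : φ y = 0 := LinearMap.mem_ker.1 hφy
    rcases j with i | i | i <;> rcases l with l | l | l
    · exact kBB hB hB' he h1 (fun h => hne (by rw [h])) hy hy' hφy hj hl
    · exact pk_zero11 hS hF hφ B B' hB hB' h1 i l y
        ⟨kap_zero_mem hS hB he hy hj, kap_zero_mem hS hB' he' hy' hl⟩ hφy
    · exact kBC hB hB' he h1 h2 h3 hy hy' hφy hj hl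
    · exact pk_zero11 hS hF hφ B B' hB hB' h1 l i y
        ⟨kap_zero_mem hS hB he hy hl, kap_zero_mem hS hB' he' hy' hj⟩ hφy
    · exact kBB hB' hB he' (disj_symm h1) (fun h => hne (by rw [h])) hy' hy hφy hj hl
    · exact kBC hB' hB he' (disj_symm h1) h3 h2 hy' hy hφy hj hl
    · exact kBC hB hB' he h1 h2 h3 hy hy' hφy hl hj
    · exact kBC hB' hB he' (disj_symm h1) h3 h2 hy' hy hφy hl hj
    · have hij : i ≠ l := fun h => hne (by rw [h])
      obtain ⟨s, hs⟩ := (kap_eq_zero_iff2 hS B'' hB'' e he'' i l y).1 ⟨hj, hl⟩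
      have h0 := P3g4_e (P := sp x B ⊓ sk x φ B') ⟨hy, hy', LinearMap.mem_ker.2 hφy⟩ hs
        (hE.e5 B B' hB hB' h1 B'' hB'' i l hij)
      rw [h0, zero_smul, sub_zero] at hs
      exact hzero (pk_bot2 hS hF B B' B'' hB hB' hB'' h1 h2 h3 i l hij) ⟨⟨hy, hy'⟩, hs⟩
  intro j l hjl heq
  rw [hα, hα, hβ, hβ] at heq
  obtain ⟨t0, t1, ht, hf, hg⟩ := P3g4_two heq
  have hy : t0 • av x (sk x φ B') f1 f2 B + t1 • qv x (sk x φ B') f1 f2 B ∈
      sp x B ⊓ sk x φ B' :=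
    Submodule.add_mem _ (Submodule.smul_mem _ _ ha.1) (Submodule.smul_mem _ _ hq.1)
  have h0 := key j l hjl _ hy hf hg
  have hf1 := congrArg f1 h0
  have hf2 := congrArg f2 h0
  unfold av qv at hf1 hf2
  rw [map_add, map_smul, map_smul, ha.2.1, hq.2.1, map_zero] at hf1
  rw [map_add, map_smul, map_smul, ha.2.2, hq.2.2, map_zero] at hf2
  simp only [smul_eq_mul, mul_one, mul_zero, add_zero, zero_add] at hf1 hf2
  rcases ht with ht | ht
  · exact ht hf1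
  · exact ht hf2

end KS13
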