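import Pool.Agent.LibKS13.PK0

/-!
# KS13 row PK5: the height is not 0 at an event (port of KS37 P3g5 `p3_hs`)
If equality holds there is (τ0,τ1) ≠ 0 with y = τ0 a + τ1 q, hgt x B'' e y = 0 (y ∈ sp x B''), the j-th coordinate is 0 at y; y ≠ 0, y ∈ sp x B ⊓ sp x B', φ y = 0.
(B i): `kap_zero_mem`, pk_hs B B' B''. (B' i): pk_hs B' B B''. (B'' i): pk_hs B'' B B'.
-/

open Finset Function
open scoped Classical

namespace KS13

open KS37

/-- two functionals with vanishing determinant have a common zero -/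
private theorem PK5_det (a b c d : ℝ) (h : a * d = b * c) :
    ∃ s t : ℝ, (s ≠ 0 ∨ t ≠ 0) ∧ s * a + t * b = 0 ∧ s * c + t * d = 0 := by
  by_cases h1 : a = 0 ∧ b = 0
  · by_cases h2 : c = 0 ∧ d = 0
    · exact ⟨1, 0, Or.inl one_ne_zero, by rw [h1.1, h1.2]; ring, by rw [h2.1, h2.2]; ring⟩
    · refine ⟨d, -c, ?_, by rw [h1.1, h1.2]; ring, by ring⟩
      by_contra h3
      push Not at h3
      exact h2 ⟨by linarith [h3.2], h3.1⟩
  · refine ⟨b, -a, ?_, by ring, by linarith⟩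
    by_contra h3
    push Not at h3
    exact h1 ⟨by linarith [h3.2], h3.1⟩

theorem pk_hsj {E V : Type} [AddCommGroup E] [Module ℝ E] [Fintype V] {x : V → E}
    {T : (Fin 4 → V) → Prop} (hS : Sys 4 x T)
    (hF : HF x) {φ f1 f2 : Module.Dual ℝ E} (hφ : PhiH x φ) {e : E}
    (hE : PKE x φ f1 f2 e) (B B' B'' : Fin 4 → V) (hB : Injective B) (hB' : Injective B')
    (hB'' : Injective B'') (h1 : Disj B B') (h2 : Disj B B'') (h3 : Disj B' B'')
    (j : Fin 4 ⊕ (Fin 4 ⊕ Fin 4)) :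
    hgt x B'' e (av x (sk x φ B') f1 f2 B) * beK x φ f1 f2 e B B' B'' j ≠
      hgt x B'' e (qv x (sk x φ B') f1 f2 B) * alK x φ f1 f2 e B B' B'' j := by
  intro heq
  have hiso := hE.iso B B' hB hB' h1
  obtain ⟨ha, ha1, ha2⟩ := solv_spec hiso 1 0
  obtain ⟨hq, hq1, hq2⟩ := solv_spec hiso 0 1
  have ha' : av x (sk x φ B') f1 f2 B = solv (sp x B ⊓ sk x φ B') f1 f2 1 0 := rfl
  have hq' : qv x (sk x φ B') f1 f2 B = solv (sp x B ⊓ sk x φ B') f1 f2 0 1 := rfl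
  -- the coordinate functional
  obtain ⟨κ, hκa, hκq, hκ⟩ : ∃ κ : E →ₗ[ℝ] ℝ,
      alK x φ f1 f2 e B B' B'' j = κ (av x (sk x φ B') f1 f2 B) ∧
      beK x φ f1 f2 e B B' B'' j = κ (qv x (sk x φ B') f1 f2 B) ∧
      ∀ y ∈ sp x B ⊓ sk x φ B' ⊓ sp x B'', κ y = 0 → y = 0 := by
    rcases j with i | i | i
    · refine ⟨kap x B e i, rfl, rfl, fun y hy h0 => ?_⟩
      have h4 := kap_zero_mem hS hB (hE.enot B hB) hy.1.1 h0
      exact pk_hs hS hF hφ B B' B'' hB hB' hB'' h1 h2 h3 i y ⟨⟨h4, hy.1.2.1⟩, hy.2⟩ hy.1.2.2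
    · refine ⟨kap x B' e i, rfl, rfl, fun y hy h0 => ?_⟩
      have h4 := kap_zero_mem hS hB' (hE.enot B' hB') hy.1.2.1 h0
      exact pk_hs hS hF hφ B' B B'' hB' hB hB'' (disj_symm h1) h3 h2 i y
        ⟨⟨h4, hy.1.1⟩, hy.2⟩ hy.1.2.2
    · refine ⟨kap x B'' e i, rfl, rfl, fun y hy h0 => ?_⟩
      have h4 := kap_zero_mem hS hB'' (hE.enot B'' hB'') hy.2 h0
      exact pk_hs hS hF hφ B'' B B' hB'' hB hB' (disj_symm h2) (disj_symm h3) h1 i y
        ⟨⟨h4, hy.1.1⟩, hy.1.2.1⟩ hy.1.2.2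
  rw [hκa, hκq, ha', hq'] at heq
  set a := solv (sp x B ⊓ sk x φ B') f1 f2 1 0 with hadef
  set q := solv (sp x B ⊓ sk x φ B') f1 f2 0 1 with hqdef
  obtain ⟨s, t, hst, e1, e2⟩ := PK5_det (hgt x B'' e a) (hgt x B'' e q) (κ a) (κ q) heq
  have hyP : s • a + t • q ∈ sp x B ⊓ sk x φ B' :=
    Submodule.add_mem _ (Submodule.smul_mem _ _ ha) (Submodule.smul_mem _ _ hq)
  have hy2 : s • a + t • q ∈ sp x B'' := by
    rw [← hgt_eq_zero_iff hS B'' hB'' e (hE.enot B'' hB''), map_add, map_smul, map_smul,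
      smul_eq_mul, smul_eq_mul]
    exact e1
  have hy0 := hκ (s • a + t • q) ⟨hyP, hy2⟩ (by
    rw [map_add, map_smul, map_smul, smul_eq_mul, smul_eq_mul]
    exact e2)
  have k1 := congrArg f1 hy0
  have k2 := congrArg f2 hy0
  rw [map_add, map_smul, map_smul, map_zero, ha1, hq1, smul_eq_mul, smul_eq_mul] at k1
  rw [map_add, map_smul, map_smul, map_zero, ha2, hq2, smul_eq_mul, smul_eq_mul] at k2
  rcases hst with h | h
  · apply h; linarith
  · apply h; linarith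

end KS13
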