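import Pool.Agent.LibKS13.PK1
import Pool.Agent.LibKS13.PK2
import Pool.Agent.LibKS13.PK3
import Pool.Agent.LibKS13.PK4
import Pool.Agent.LibKS13.PK5

/-!
# KS13 PKg: PKGood exists (assembly)
-/

open Finset Function
open scoped Classical

namespace KS13

open KS37

theorem pk_good {E V : Type} [AddCommGroup E] [Module ℝ E] [Fintype V] {x : V → E}
    {T : (Fin 4 → V) → Prop} (hS : Sys 4 x T)
    [Nonempty V] (hF : HF x) {φ : Module.Dual ℝ E} (hφ : PhiH x φ) : ∃ f1 f2 e, PKGood x φ f1 f2 e := by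
  obtain ⟨f1, f2, e, hE⟩ := pk_exists hS hF hφ
  exact ⟨f1, f2, e, pk_hyp hS hE, hE.iso, hE.enot, hE.ridge,
    fun B B' hB hB' hd j => pk_kapq hS hF hφ hE B B' hB hB' hd j,
    fun B B' hB hB' hd j => pk_kapq' hS hF hφ hE B B' hB hB' hd j,
    fun B B' B'' hB hB' hB'' h1 h2 h3 j => pk_kapq'' hS hF hφ hE B B' B'' hB hB' hB'' h1 h2 h3 j,
    fun B B' B'' hB hB' hB'' h1 h2 h3 => pk_hq hS hF hφ hE B B' B'' hB hB' hB'' h1 h2 h3,
    fun B B' B'' hB hB' hB'' h1 h2 h3 => pk_nd hS hF hφ hE B B' B'' hB hB' hB'' h1 h2 h3,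
    fun B B' B'' hB hB' hB'' h1 h2 h3 j => pk_hsj hS hF hφ hE B B' B'' hB hB' hB'' h1 h2 h3 j⟩

end KS13
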