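import Pool.Agent.LibKS13.R6
import Pool.Agent.LibKS13.GW
import Pool.Agent.LibKS13.GD
import Pool.Agent.LibKS13.GX

/-!
# KS13 row PT: generic perturbation (port of KS37 S4)
As KS37.S4 `pert` with D6, Fin 6; `dens` of KS37 S2 with Fin 6 in place of Fin 5 (copy it). For the finitely many triples (A1,A2,A3) : Finset V × Finset V × Finset V with Adm and sum 12 the set {F ≠ 0}
(`gt_det`) is open and dense (`gt_wit`, `linj_coord`); intersect with the open set of KS37 S4_open (Fin 6). LInj gives ⊥ (`bot_of_linj`).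
-/

open Finset Function
open scoped Classical

namespace KS13

open KS37

theorem PT_dens {V : Type} [Fintype V] (F : (V → Fin 6 → ℝ) → ℝ)
    (hF : ∀ x y : V → Fin 6 → ℝ, ∃ p : Polynomial ℝ, ∀ t : ℝ, F (x + t • y) = p.eval t)
    (x1 : V → Fin 6 → ℝ) (h1 : F x1 ≠ 0) : Dense {x | F x ≠ 0} := by
  intro x
  obtain ⟨p, hp⟩ := hF x (x1 - x)
  have hp0 : p ≠ 0 := by
    intro h0
    apply h1
    have := hp 1
    rw [one_smul, add_sub_cancel, h0, Polynomial.eval_zero] at this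
    exact this
  have hd : Dense {t : ℝ | p.eval t ≠ 0} := by
    have hfin : {t : ℝ | p.eval t = 0}.Finite := by
      have : {t : ℝ | p.eval t = 0} = (p.roots.toFinset : Set ℝ) := by
        ext t
        simp [Polynomial.mem_roots hp0]
      rw [this]; exact Finset.finite_toSet _
    have h2 : {t : ℝ | p.eval t ≠ 0} = {t : ℝ | p.eval t = 0}ᶜ := by
      ext t; simp
    rw [h2]
    exact hfin.countable.dense_compl ℝ
  have hc : Continuous (fun t : ℝ => x + t • (x1 - x)) := by fun_prop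
  have h0 : (0 : ℝ) ∈ closure {t : ℝ | p.eval t ≠ 0} := hd 0
  have h3 := image_closure_subset_closure_image hc (Set.mem_image_of_mem _ h0)
  have h4 : (fun t : ℝ => x + t • (x1 - x)) '' {t : ℝ | p.eval t ≠ 0} ⊆ {x | F x ≠ 0} := by
    rintro _ ⟨t, ht, rfl⟩
    show F (x + t • (x1 - x)) ≠ 0
    rw [hp t]; exact ht
  have h5 := closure_mono h4 h3
  simpa using h5

theorem PT_cont {V : Type} [Fintype V] (v : Fin 6 → V) :
    Continuous (fun y : V → Fin 6 → ℝ => D6 (fun i => y (v i))) := by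
  unfold D6
  apply Continuous.matrix_det
  exact continuous_pi fun i => continuous_apply (v i)

theorem PT_open {V : Type} [Fintype V] (x : V → Fin 6 → ℝ) :
    IsOpen {y : V → Fin 6 → ℝ | (∀ v : Fin 6 → V, Injective v →
        0 < D6 (fun i => x (v i)) * D6 (fun i => y (v i))) ∧ ∀ v, 0 < y v 0} := by
  have h1 : {y : V → Fin 6 → ℝ | (∀ v : Fin 6 → V, Injective v →
      0 < D6 (fun i => x (v i)) * D6 (fun i => y (v i))) ∧ ∀ v, 0 < y v 0} =
      (⋂ v : {v : Fin 6 → V // Injective v}, {y : V → Fin 6 → ℝ |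
        0 < D6 (fun i => x (v.1 i)) * D6 (fun i => y (v.1 i))}) ∩
      ⋂ v : V, {y : V → Fin 6 → ℝ | 0 < y v 0} := by
    ext y
    simp only [Set.mem_setOf_eq, Set.mem_inter_iff, Set.mem_iInter, Subtype.forall]
  rw [h1]
  refine IsOpen.inter (isOpen_iInter_of_finite fun v => ?_) (isOpen_iInter_of_finite fun v => ?_)
  · exact isOpen_lt continuous_const (continuous_const.mul (PT_cont v.1))
  · exact isOpen_lt continuous_const ((continuous_apply (0 : Fin 6)).comp (continuous_apply v))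

/-- the index set of the genericity conditions. -/
def PT_ad {V : Type} (t : Finset V × Finset V × Finset V) : Prop :=
  Adm t.1 t.2.1 t.2.2 ∧ t.1.card + t.2.1.card + t.2.2.card = 12

theorem PT_dense {V : Type} [Fintype V] (G : {t : Finset V × Finset V × Finset V // PT_ad t} →
      (V → Fin 6 → ℝ) → ℝ) (hc : ∀ t, Continuous (G t))
    (hp : ∀ t, ∀ x y : V → Fin 6 → ℝ, ∃ p : Polynomial ℝ, ∀ s : ℝ, G t (x + s • y) = p.eval s)
    (hG : ∀ t, ∀ x : V → Fin 6 → ℝ, G t x ≠ 0 ↔ LInj x t.1.1 t.1.2.1 t.1.2.2) :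
    Dense (⋂ t : {t : Finset V × Finset V × Finset V // PT_ad t},
      {x : V → Fin 6 → ℝ | G t x ≠ 0}) := by
  refine dense_iInter_of_isOpen (fun t => isOpen_ne_fun (hc t) continuous_const) (fun t => ?_)
  obtain ⟨c, h1, h2, h3, h4⟩ := gt_wit t.1.1 t.1.2.1 t.1.2.2 t.2.1 t.2.2
  exact PT_dens (G t) (hp t) (fun v => (Pi.single (c v) 1 : Fin 6 → ℝ))
    ((hG t _).2 (linj_coord t.1.1 t.1.2.1 t.1.2.2 c h1 h2 h3 h4))

theorem pert6 {V : Type} [Fintype V] (x : V → Fin 6 → ℝ) (hgp : GP6 x) (hpos : ∀ v, 0 < x v 0) :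
    ∃ x' : V → Fin 6 → ℝ, (∀ v : Fin 6 → V, Injective v →
        0 < D6 (fun i => x (v i)) * D6 (fun i => x' (v i))) ∧ (∀ v, 0 < x' v 0) ∧ GT x' := by
  have hex : ∀ t : {t : Finset V × Finset V × Finset V // PT_ad t},
      ∃ F : (V → Fin 6 → ℝ) → ℝ, Continuous F ∧
      (∀ x y : V → Fin 6 → ℝ, ∃ p : Polynomial ℝ, ∀ s : ℝ, F (x + s • y) = p.eval s) ∧
      ∀ x : V → Fin 6 → ℝ, F x ≠ 0 ↔ LInj x t.1.1 t.1.2.1 t.1.2.2 := fun t =>
    gt_det t.1.1 t.1.2.1 t.1.2.2 t.2.2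
  choose G hc hp hG using hex
  obtain ⟨y, ⟨hy1, hy2⟩, hy3⟩ := (PT_dense G hc hp hG).inter_open_nonempty _ (PT_open x)
    ⟨x, fun v hv => mul_self_pos.2 (hgp v hv), hpos⟩
  rw [Set.mem_iInter] at hy3
  refine ⟨y, hy1, hy2, ?_⟩
  intro A1 A2 A3 hA hs
  exact bot_of_linj y A1 A2 A3 ((hG ⟨(A1, A2, A3), hA, hs⟩ y).1 (hy3 ⟨(A1, A2, A3), hA, hs⟩))

end KS13
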