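import Pool.Agent.LibKS13.Cd
import Pool.Agent.LibKS37.G2

/-!
# KS13 row PUa: groups on the side of F2, vertex in B2 (port of KS37 P4ga `p4_ga`)
For fixed a, B3, w: `ga` with the tuple cd a w, index j.succ (`cd_update`), U, h = hgt x (cd a B3) e, X = A ∪ image B3 ∪ {a} (|X| ≤ 4 + 4 + 1 = 9, hA: A.card ≤ 4), group bound 11; `group_sum`: 11 n^3, times n^4 (B3), n (a).
-/

open Finset Function
open scoped Classical

namespace KS13

open KS37

private theorem PUa_X {V : Type} [Fintype V] {A : Finset V} (hA : A.card ≤ 4) (B : Fin 4 → V)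
    (a : V) : ((A ∪ Finset.univ.image B ∪ {a} : Finset V).card : ℝ) ≤ 9 := by
  have h := Finset.card_image_le (s := (Finset.univ : Finset (Fin 4))) (f := B)
  rw [Finset.card_univ, Fintype.card_fin] at h
  have h2 := Finset.card_union_le A (Finset.univ.image B)
  have h3 := Finset.card_union_le (A ∪ Finset.univ.image B) {a}
  rw [Finset.card_singleton] at h3
  have : (A ∪ Finset.univ.image B ∪ {a}).card ≤ 9 := by omega
  exact_mod_cast this

/-- the live objects of a group -/
private theorem PUa_live {E V : Type} [AddCommGroup E] [Module ℝ E] [Fintype V] {x : V → E}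
    {T : (Fin 5 → V) → Prop} (hS : Sys 5 x T) (A : Finset V) (a : V) (B3 w : Fin 4 → V)
    (j : Fin 4) (hi3 : Injective B3) (hB3A : ∀ i, B3 i ∉ A) (haA : a ∉ A) (ha3 : ∀ i, B3 i ≠ a)
    (hw1 : ∀ l, l ≠ j → w l ∉ A) (hw3 : ∀ l, l ≠ j → ∀ i, B3 i ≠ w l)
    (hwa : ∀ l, l ≠ j → w l ≠ a) (u : V) :
    (T (cd a (update w j u)) ∧ Dist5 A a (update w j u) B3) ↔
      (T (update (cd a w) j.succ u) ∧ u ∉ A ∪ Finset.univ.image B3 ∪ {a}) := by
  rw [← cd_update a w j u]
  constructor
  · rintro ⟨h1, h2, h3, h4, h5, h6, h7, h8, h9⟩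
    refine ⟨h1, ?_⟩
    intro hu
    rcases Finset.mem_union.1 hu with hu | hu
    · rcases Finset.mem_union.1 hu with hu | hu
      · exact h5 j (by rw [update_self]; exact hu)
      · obtain ⟨i, _, hi⟩ := Finset.mem_image.1 hu
        exact h4 j i (by rw [update_self]; exact hi.symm)
    · exact h8 j (by rw [update_self]; exact Finset.mem_singleton.1 hu)
  · rintro ⟨h1, hu⟩
    have hu1 : u ∉ A := fun h => hu (Finset.mem_union_left _ (Finset.mem_union_left _ h))
    have hu3 : ∀ i, B3 i ≠ u := fun i hi => hu (Finset.mem_union_left _ (Finset.mem_union_right _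
      (Finset.mem_image.2 ⟨i, Finset.mem_univ i, hi⟩)))
    have hua : u ≠ a := fun h => hu (Finset.mem_union_right _ (Finset.mem_singleton.2 h))
    have hinj := hS.inj _ h1
    refine ⟨h1, ?_, hi3, ?_, ?_, hB3A, haA, ?_, ha3⟩
    · intro l l' h
      have h2 : cd a (update w j u) l.succ = cd a (update w j u) l'.succ := by
        rw [cd_succ, cd_succ]
        exact h
      exact Fin.succ_injective _ (hinj h2)
    · intro l i
      by_cases hl : l = j
      · subst hl
        rw [update_self]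
        exact fun h => hu3 i h.symm
      · rw [update_of_ne hl]
        exact fun h => hw3 l hl i h.symm
    · intro l
      by_cases hl : l = j
      · subst hl
        rw [update_self]
        exact hu1
      · rw [update_of_ne hl]
        exact hw1 l hl
    · intro l
      by_cases hl : l = j
      · subst hl
        rw [update_self]
        exact hua
      · rw [update_of_ne hl]
        exact hwa l hl

private theorem PUa_spx {E V : Type} [AddCommGroup E] [Module ℝ E] {r : ℕ} (x : V → E)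
    (w : Fin r → V) (i : Fin r) (u : V) : spx x (update w i u) {i} = spx x w {i} := by
  unfold spx
  congr 1
  apply Set.image_congr
  intro l hl
  have : l ≠ i := fun h => hl (by rw [h]; exact Set.mem_singleton i)
  rw [update_of_ne this]

/-- one group -/
private theorem PUa_group {E V : Type} [AddCommGroup E] [Module ℝ E] [Fintype V] {x : V → E}
    {T : (Fin 5 → V) → Prop} (hS : Sys 5 x T) {m : ℕ} {U : Submodule ℝ E} {A : Finset V}
    {b : Fin m → Module.Dual ℝ E} {f1 f2 : Module.Dual ℝ E} {e : E}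
    (hA : A.card ≤ 4) (hG : PUGood x U A b f1 f2 e) (j : Fin 4) (a : V) (B3 w : Fin 4 → V) :
    |∑ u, WU x T U A b f1 f2 e a (update w j u) B3 (Sum.inr (Sum.inl j.succ))| ≤ 11 := by
  have hzero : (∀ u, ¬ LiveU T A a (update w j u) B3) →
      |∑ u, WU x T U A b f1 f2 e a (update w j u) B3 (Sum.inr (Sum.inl j.succ))| ≤ 11 := by
    intro h
    rw [Finset.sum_eq_zero, abs_zero]
    · norm_num
    · intro u _
      unfold WU
      rw [ind_false (h u), zero_mul]
  by_cases hB : T (cd a B3) ∧ Injective B3 ∧ (∀ i, B3 i ∉ A) ∧ a ∉ A ∧ (∀ i, B3 i ≠ a)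
  swap
  · exact hzero fun u h => hB ⟨h.2.1, h.2.2.2.1, h.2.2.2.2.2.2.1, h.2.2.2.2.2.2.2.1,
      h.2.2.2.2.2.2.2.2.2⟩
  obtain ⟨hT3, hi3, hB3A, haA, ha3⟩ := hB
  by_cases hw1 : ∀ l, l ≠ j → w l ∉ A
  swap
  · push Not at hw1
    obtain ⟨l, hl, hi⟩ := hw1
    exact hzero fun u h => h.2.2.2.2.2.1 l (by rw [update_of_ne hl]; exact hi)
  by_cases hw3 : ∀ l, l ≠ j → ∀ i, B3 i ≠ w l
  swap
  · push Not at hw3
    obtain ⟨l, hl, i, hi⟩ := hw3
    exact hzero fun u h => h.2.2.2.2.1 l i (by rw [update_of_ne hl]; exact hi.symm)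
  by_cases hwa : ∀ l, l ≠ j → w l ≠ a
  swap
  · push Not at hwa
    obtain ⟨l, hl, hi⟩ := hwa
    exact hzero fun u h => h.2.2.2.2.2.2.2.2.1 l (by rw [update_of_ne hl]; exact hi)
  have hlive' : ∀ u, LiveU T A a (update w j u) B3 ↔
      (T (update (cd a w) j.succ u) ∧ u ∉ A ∪ Finset.univ.image B3 ∪ {a}) := by
    intro u
    rw [← PUa_live hS A a B3 w j hi3 hB3A haA ha3 hw1 hw3 hwa u]
    unfold LiveU
    constructor
    · rintro ⟨h1, _, h3⟩
      exact ⟨h1, h3⟩
    · rintro ⟨h1, h3⟩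
      exact ⟨h1, hT3, h3⟩
  by_cases hex : ∃ u, LiveU T A a (update w j u) B3
  swap
  · exact hzero fun u h => hex ⟨u, h⟩
  obtain ⟨u0, hu0⟩ := hex
  have hav : ∀ u, LiveU T A a (update w j u) B3 → Av A (update (cd a w) j.succ u) := by
    intro u h
    rw [← cd_update a w j u]
    exact h.2.2.f2.2
  have hF3 := hS.inj _ hT3
  have hF31 : Av A (cd a B3) := cd_av hB3A haA
  have hga := ga hS U f1 f2 (hgt x (cd a B3) e) e (cd a w) j.succ
    (A ∪ Finset.univ.image B3 ∪ {a})
    (fun y => (∀ k, 0 < b k y) ∧ ∀ i, 0 < kap x (cd a B3) e i y)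
    (by
      rw [← PUa_spx x (cd a w) j.succ u0]
      exact hG.ridge _ (hS.inj _ ((hlive' u0).1 hu0).1) (hav u0 hu0) j.succ)
    (fun u hT hX => by
      have hl := (hlive' u).2 ⟨hT, hX⟩
      have hinj := hS.inj _ hT
      have hd := hav u hl
      exact ⟨hG.enot _ hinj hd, hG.iso _ hinj hd, hG.kapq _ _ hinj hinj hd hd j.succ⟩)
  have hX := PUa_X hA B3 a
  refine le_trans (le_of_eq ?_) (hga.trans (by linarith))
  congr 1
  refine Finset.sum_congr rfl fun u _ => ?_
  unfold WU
  rw [cd_update a w j u]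
  have hiff : LiveU T A a (update w j u) B3 ∧
      Ev (alU x U b f1 f2 e (update (cd a w) j.succ u) (cd a B3))
        (beU x U b f1 f2 e (update (cd a w) j.succ u) (cd a B3)) (Sum.inr (Sum.inl j.succ)) ↔
      (T (update (cd a w) j.succ u) ∧ u ∉ A ∪ Finset.univ.image B3 ∪ {a} ∧
        EvB x (update (cd a w) j.succ u) e j.succ (solv (sp x (update (cd a w) j.succ u) ⊓ U) f1 f2 1 0)
          (solv (sp x (update (cd a w) j.succ u) ⊓ U) f1 f2 0 1) ∧
        (fun y => (∀ k, 0 < b k y) ∧ ∀ i, 0 < kap x (cd a B3) e i y)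
          (solv (sp x (update (cd a w) j.succ u) ⊓ U) f1 f2 1 0 +
          tz x (update (cd a w) j.succ u) e j.succ (solv (sp x (update (cd a w) j.succ u) ⊓ U) f1 f2 1 0)
            (solv (sp x (update (cd a w) j.succ u) ⊓ U) f1 f2 0 1) •
            solv (sp x (update (cd a w) j.succ u) ⊓ U) f1 f2 0 1)) := by
    rw [hlive' u, and_assoc]
    constructor
    · rintro ⟨h1, h3, h5⟩
      refine ⟨h1, h3, ?_, ?_, ?_⟩
      · intro l hl
        exact h5 (Sum.inr (Sum.inl l)) (fun h => hl (Sum.inl_injective (Sum.inr_injective h)))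
      · intro k
        have := h5 (Sum.inl k) (by simp)
        rw [map_add, map_smul, smul_eq_mul, mul_comm (tz _ _ _ _ _ _)]
        exact this
      · intro i
        have := h5 (Sum.inr (Sum.inr i)) (by simp)
        rw [map_add, map_smul, smul_eq_mul, mul_comm (tz _ _ _ _ _ _)]
        exact this
    · rintro ⟨h1, h3, h5, h6, h7⟩
      refine ⟨h1, h3, ?_⟩
      rintro (k | l | i) hl
      · have := h6 k
        rw [map_add, map_smul, smul_eq_mul, mul_comm (tz _ _ _ _ _ _)] at this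
        exact this
      · exact h5 l (fun h => hl (by rw [h]))
      · have := h7 i
        rw [map_add, map_smul, smul_eq_mul, mul_comm (tz _ _ _ _ _ _)] at this
        exact this
  rw [← mul_assoc, ← ind_and, ind_congr hiff]
  rfl

theorem pu_ga {E V : Type} [AddCommGroup E] [Module ℝ E] [Fintype V] {x : V → E}
    {T : (Fin 5 → V) → Prop} (hS : Sys 5 x T)
    {m : ℕ} {U : Submodule ℝ E} {A : Finset V}
    {b : Fin m → Module.Dual ℝ E} {f1 f2 : Module.Dual ℝ E} {e : E}
    (hA : A.card ≤ 4) (hG : PUGood x U A b f1 f2 e) (j : Fin 4) :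
    |∑ a : V, ∑ B2 : Fin 4 → V, ∑ B3 : Fin 4 → V,
        WU x T U A b f1 f2 e a B2 B3 (Sum.inr (Sum.inl j.succ))| ≤ 11 * nn V ^ 8 := by
  have h0 : ∀ a : V, |∑ B2 : Fin 4 → V, ∑ B3 : Fin 4 → V,
      WU x T U A b f1 f2 e a B2 B3 (Sum.inr (Sum.inl j.succ))| ≤
        nn V ^ 4 * (11 * nn V ^ (4 - 1)) := by
    intro a
    rw [Finset.sum_comm]
    refine (Finset.abs_sum_le_sum_abs _ _).trans ?_
    have h1 : ∀ B3 ∈ (Finset.univ : Finset (Fin 4 → V)),
        |∑ B2 : Fin 4 → V, WU x T U A b f1 f2 e a B2 B3 (Sum.inr (Sum.inl j.succ))| ≤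
          11 * nn V ^ (4 - 1) := by
      intro B3 _
      exact group_sum (fun B2 => WU x T U A b f1 f2 e a B2 B3 (Sum.inr (Sum.inl j.succ))) j 11
        (by norm_num) (fun w => PUa_group hS hA hG j a B3 w)
    refine (Finset.sum_le_sum h1).trans ?_
    rw [sum_const_fun]
  refine (Finset.abs_sum_le_sum_abs _ _).trans ?_
  refine (Finset.sum_le_sum (fun a _ => h0 a)).trans (le_of_eq ?_)
  rw [Finset.sum_const, nsmul_eq_mul, Finset.card_univ]
  show nn V * (nn V ^ 4 * (11 * nn V ^ (4 - 1))) = 11 * nn V ^ 8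
  ring

end KS13
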