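import Pool.Agent.LibKS13.Cd
import Pool.Agent.LibKS37.A3

/-!
# KS13 row PUc: event: the a-coordinate of F2 vanishes (port of KS37 P4a `p4_a`)
y = av + t qv ∈ sp x F2 ⊓ U, kap x F2 e 0 y = 0: y ∈ sp x B2 ⊓ U, Cone x B2 y, Hit x (cd a B3) e y. For fixed B2 (of a live object) sp x B2 ⊓ U = spx x (cd a B2) {0} ⊓ U has dimension 1 (hU.one, `spx_cd_zero`),
so all such y are positive multiples of one z: Σ_{a,B3} ≤ NN x T z e ≤ K (`sum_cons`); sum over B2: n^4.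
-/

open Finset Function
open scoped Classical

namespace KS13

open KS37

section PUc_helpers
variable {E V : Type} [AddCommGroup E] [Module ℝ E] [Fintype V] {x : V → E}
  {T : (Fin 5 → V) → Prop}

theorem PUc_key (hS : Sys 5 x T) {m : ℕ} {U : Submodule ℝ E} {A : Finset V}
    {b : Fin m → Module.Dual ℝ E} {f1 f2 : Module.Dual ℝ E} {e : E}
    (hG : PUGood x U A b f1 f2 e) (a : V) (B2 B3 : Fin 4 → V) (hd : Dist5 A a B2 B3)
    (hev : Ev (alU x U b f1 f2 e (cd a B2) (cd a B3)) (beU x U b f1 f2 e (cd a B2) (cd a B3))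
      (Sum.inr (Sum.inl 0))) :
    ∃ y, y ∈ sp x B2 ⊓ U ∧ Cone x B2 y ∧ Hit x (cd a B3) e y := by
  obtain ⟨hF2i, hF2d⟩ := hd.f2
  have hiso := hG.iso (cd a B2) hF2i hF2d
  have hen := hG.enot (cd a B2) hF2i hF2d
  have hA := (solv_spec hiso 1 0).1
  have hQ := (solv_spec hiso 0 1).1
  set AA := av x U f1 f2 (cd a B2) with hAdef
  set Q := qv x U f1 f2 (cd a B2) with hQdef
  have hA' : AA ∈ sp x (cd a B2) ⊓ U := hA
  have hQ' : Q ∈ sp x (cd a B2) ⊓ U := hQ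
  have hne : kap x (cd a B2) e 0 Q ≠ 0 := hG.kapq (cd a B2) (cd a B2) hF2i hF2i hF2d hF2d 0
  set t : ℝ := -(kap x (cd a B2) e 0 AA) / kap x (cd a B2) e 0 Q with ht
  set y := AA + t • Q with hy
  have hymem : y ∈ sp x (cd a B2) ⊓ U :=
    Submodule.add_mem _ hA' (Submodule.smul_mem _ _ hQ')
  have hy0 : kap x (cd a B2) e 0 y = 0 := by
    rw [hy, map_add, map_smul, smul_eq_mul, ht]
    field_simp
    ring
  have hyl : ∀ l : Fin 4, 0 < kap x (cd a B2) e l.succ y := by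
    intro l
    have h := hev (Sum.inr (Sum.inl l.succ)) (by
      intro hh
      have h1 := Sum.inl.inj (Sum.inr.inj hh)
      exact absurd h1 (Fin.succ_ne_zero l))
    rw [hy, map_add, map_smul, smul_eq_mul, mul_comm]
    exact h
  have hyh : Hit x (cd a B3) e y := by
    intro i
    have h := hev (Sum.inr (Sum.inr i)) (by
      intro hh
      have h1 := Sum.inr.inj hh
      exact absurd h1 (by simp))
    rw [hy, map_add, map_smul, smul_eq_mul, mul_comm]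
    exact h
  have hg0 : hgt x (cd a B2) e y = 0 := (hgt_eq_zero_iff hS _ hF2i e hen y).2 hymem.1
  have hsum := kap_sum hS (cd a B2) hF2i e hen y
  rw [hg0, zero_smul, add_zero, Fin.sum_univ_succ, hy0, zero_smul, zero_add] at hsum
  have hcone : Cone x B2 y := ⟨fun l => kap x (cd a B2) e l.succ y, hyl, hsum⟩
  refine ⟨y, ⟨?_, hymem.2⟩, hcone, hyh⟩
  exact (mem_sp_iff B2 y).2 ⟨_, hsum⟩

theorem PUc_cone_unique (hS : Sys 5 x T) {U : Submodule ℝ E} (B2 : Fin 4 → V)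
    (hB2 : Injective B2) (hfr1 : Module.finrank ℝ (sp x B2 ⊓ U : Submodule ℝ E) = 1) {y z : E}
    (hy : y ∈ sp x B2 ⊓ U) (hz : z ∈ sp x B2 ⊓ U) (hcy : Cone x B2 y) (hcz : Cone x B2 z) :
    ∃ c : ℝ, 0 < c ∧ z = c • y := by
  have hli := hS.gp 4 (by norm_num) B2 hB2
  obtain ⟨c, hc, hyc⟩ := hcy
  obtain ⟨d, hdp, hzd⟩ := hcz
  have hy0 : y ≠ 0 := by
    intro h0
    rw [h0] at hyc
    have := Fintype.linearIndependent_iff.1 hli c hyc.symm 0
    exact absurd this (hc 0).ne'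
  have hy0' : (⟨y, hy⟩ : (sp x B2 ⊓ U : Submodule ℝ E)) ≠ 0 := by
    intro h
    exact hy0 (congrArg Subtype.val h)
  obtain ⟨s, hs⟩ := (finrank_eq_one_iff_of_nonzero' _ hy0').1 hfr1 ⟨z, hz⟩
  have hs' : s • y = z := congrArg Subtype.val hs
  refine ⟨s, ?_, hs'.symm⟩
  have hcoef : ∀ i, d i - s * c i = 0 := by
    apply Fintype.linearIndependent_iff.1 hli (fun i => d i - s * c i)
    have : ∑ i, (d i - s * c i) • x (B2 i) = z - s • y := by
      rw [hzd, hyc, Finset.smul_sum, ← Finset.sum_sub_distrib]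
      refine Finset.sum_congr rfl (fun i _ => ?_)
      rw [sub_smul, mul_smul]
    rw [this, hs', sub_self]
  have h0 := hcoef 0
  have hc0 := hc 0
  have hd0 := hdp 0
  by_contra hneg
  have hneg' : s ≤ 0 := not_lt.1 hneg
  have : s * c 0 ≤ 0 := mul_nonpos_of_nonpos_of_nonneg hneg' hc0.le
  linarith

theorem PUc_NN_nonneg (p e : E) : 0 ≤ NN x T p e := by
  unfold NN
  exact Finset.sum_nonneg (fun _ _ => ind_nonneg _)

theorem PUc_fix (hS : Sys 5 x T) (K : ℝ) (hK : ∀ p e, NN x T p e ≤ K) {m : ℕ}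
    {U : Submodule ℝ E} {A : Finset V} {b : Fin m → Module.Dual ℝ E} (hU : UH x U A b)
    {f1 f2 : Module.Dual ℝ E} {e : E} (hG : PUGood x U A b f1 f2 e) (B2 : Fin 4 → V) :
    ∑ a : V, ∑ B3 : Fin 4 → V,
      ind (LiveU T A a B2 B3 ∧
        Ev (alU x U b f1 f2 e (cd a B2) (cd a B3)) (beU x U b f1 f2 e (cd a B2) (cd a B3))
          (Sum.inr (Sum.inl 0))) ≤ K := by
  by_cases hex : ∃ a B3, LiveU T A a B2 B3 ∧
        Ev (alU x U b f1 f2 e (cd a B2) (cd a B3)) (beU x U b f1 f2 e (cd a B2) (cd a B3))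
          (Sum.inr (Sum.inl 0))
  · obtain ⟨a0, B30, hL0, hE0⟩ := hex
    have hfr1 : Module.finrank ℝ (sp x B2 ⊓ U : Submodule ℝ E) = 1 := by
      have h := hU.one (cd a0 B2) hL0.2.2.f2.1 hL0.2.2.f2.2 0
      rwa [spx_cd_zero] at h
    obtain ⟨z, hz, hcz, -⟩ := PUc_key hS hG a0 B2 B30 hL0.2.2 hE0
    refine le_trans ?_ (hK z e)
    unfold NN
    rw [KS37.sum_cons]
    refine Finset.sum_le_sum (fun a _ => Finset.sum_le_sum (fun B3 _ => ind_mono ?_))
    rintro ⟨hL, hE⟩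
    obtain ⟨y, hy, hcy, hhy⟩ := PUc_key hS hG a B2 B3 hL.2.2 hE
    obtain ⟨c, hc, hzc⟩ := PUc_cone_unique hS B2 hL.2.2.1 hfr1 hy hz hcy hcz
    refine ⟨hL.2.1, ?_⟩
    rw [hzc]
    exact Hit.smul hhy hc
  · have h0 : ∑ a : V, ∑ B3 : Fin 4 → V,
      ind (LiveU T A a B2 B3 ∧
        Ev (alU x U b f1 f2 e (cd a B2) (cd a B3)) (beU x U b f1 f2 e (cd a B2) (cd a B3))
          (Sum.inr (Sum.inl 0))) = 0 := by
      refine Finset.sum_eq_zero (fun a _ => Finset.sum_eq_zero (fun B3 _ => ind_false ?_))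
      intro h
      exact hex ⟨a, B3, h⟩
    rw [h0]
    exact (PUc_NN_nonneg (x := x) (T := T) 0 e).trans (hK 0 e)

end PUc_helpers

theorem pu_c {E V : Type} [AddCommGroup E] [Module ℝ E] [Fintype V] {x : V → E}
    {T : (Fin 5 → V) → Prop} (hS : Sys 5 x T)
    (K : ℝ) (hK : ∀ p e, NN x T p e ≤ K) {m : ℕ} {U : Submodule ℝ E} {A : Finset V}
    {b : Fin m → Module.Dual ℝ E}
    (hU : UH x U A b) {f1 f2 : Module.Dual ℝ E} {e : E} (hG : PUGood x U A b f1 f2 e) :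
    EVU x T U A b f1 f2 e (Sum.inr (Sum.inl 0)) ≤ nn V ^ 4 * K := by
  unfold EVU
  rw [Finset.sum_comm, ← sum_const_fun V 4 K]
  exact Finset.sum_le_sum (fun B2 _ => PUc_fix hS K hK hU hG B2)

end KS13
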