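import Pool.Agent.LibKS13.Cd
import Pool.Agent.LibKS37.A3

/-!
# KS13 row PUe: event: the functional b_k vanishes (new form of KS37 P4b `p4_b`)
y = av + t qv ∈ sp x F2 ⊓ U, b k y = 0, f1 y = 1, all coordinates in F2 positive: Cone x F2 y. If there is no live object with the event the sum is 0. Otherwise let y0 be the point of one: Uk = U ⊓ ker (b k) has dimension ≥ 2
(finrank U = 3), f1 y0 = 1, so there is e' ∈ Uk, e' ≠ 0, f1 e' = 0. Every event point y of a live object: y - y0 ∈ Uk ⊓ ker f1; this space has dimension 1: Uk has dimension 2 (if Uk = U then sp x F2 ⊓ U ⊓ ker b_k = sp x F2 ⊓ U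
has dimension 2, hU.two, but hU.edge says 1), so y = y0 + s e'. e' ∉ sp x F2 (hG.edge: e' ∈ sp x F2 ⊓ U, b k e' = 0, f1 e' = 0 gives e' = 0). So Hit x F2 e' y0 (`hit_iff`), F2 = cd a B2. For every B3:
Σ_{a,B2} ≤ NN x T y0 e' ≤ K (`sum_cons`); sum over B3: n^4.
-/

open Finset Function
open scoped Classical

namespace KS13

open KS37

theorem PUe_pt {E V : Type} [AddCommGroup E] [Module ℝ E] [Fintype V] {x : V → E}
    {T : (Fin 5 → V) → Prop} (hS : Sys 5 x T) {m : ℕ} {U : Submodule ℝ E} {A : Finset V}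
    {b : Fin m → Module.Dual ℝ E} {f1 f2 : Module.Dual ℝ E} {e : E}
    (hG : PUGood x U A b f1 f2 e) (k : Fin m) (a : V) (B2 B3 : Fin 4 → V)
    (hL : LiveU T A a B2 B3)
    (hEv : Ev (alU x U b f1 f2 e (cd a B2) (cd a B3)) (beU x U b f1 f2 e (cd a B2) (cd a B3))
      (Sum.inl k)) :
    ∃ y ∈ U, b k y = 0 ∧ f1 y = 1 ∧ Cone x (cd a B2) y := by
  obtain ⟨hT2, hT3, hD⟩ := hL
  obtain ⟨hF2, hd2⟩ := hD.f2
  have he2 := hG.enot _ hF2 hd2
  have hiso := hG.iso _ hF2 hd2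
  have hav1 : av x U f1 f2 (cd a B2) ∈ sp x (cd a B2) ⊓ U := (solv_spec hiso 1 0).1
  have hav2 : f1 (av x U f1 f2 (cd a B2)) = 1 := (solv_spec hiso 1 0).2.1
  have hqv1 : qv x U f1 f2 (cd a B2) ∈ sp x (cd a B2) ⊓ U := (solv_spec hiso 0 1).1
  have hqv2 : f1 (qv x U f1 f2 (cd a B2)) = 0 := (solv_spec hiso 0 1).2.1
  have hβ := hG.kap1 _ hF2 hd2 k
  obtain ⟨t, ht⟩ : ∃ t : ℝ, t = -alU x U b f1 f2 e (cd a B2) (cd a B3) (Sum.inl k) /
    beU x U b f1 f2 e (cd a B2) (cd a B3) (Sum.inl k) := ⟨_, rfl⟩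
  obtain ⟨p, hp⟩ : ∃ p : E, p = av x U f1 f2 (cd a B2) +
    t • qv x U f1 f2 (cd a B2) := ⟨_, rfl⟩
  have hlin : ∀ g : E →ₗ[ℝ] ℝ, g p = g (av x U f1 f2 (cd a B2)) +
      g (qv x U f1 f2 (cd a B2)) * t := by
    intro g
    rw [hp, map_add, map_smul, smul_eq_mul, mul_comm]
  have hpmem : p ∈ sp x (cd a B2) ⊓ U := by
    rw [hp]
    exact Submodule.add_mem _ hav1 (Submodule.smul_mem _ _ hqv1)
  have hk0 : b k p = 0 := by
    rw [hlin, ht]
    simp only [alU, beU, Sum.elim_inl]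
    field_simp
    ring
  have hf : f1 p = 1 := by
    rw [hlin, hav2, hqv2, zero_mul, add_zero]
  have hk2 : ∀ l : Fin 5, 0 < kap x (cd a B2) e l p := by
    intro l
    rw [hlin, ht]
    exact hEv (Sum.inr (Sum.inl l)) (fun h => Sum.inr_ne_inl h)
  exact ⟨p, hpmem.2, hk0, hf, (cone_iff_kap hS (cd a B2) hF2 e he2 p).2 ⟨hpmem.1, hk2⟩⟩

theorem PUe_line {E V : Type} [AddCommGroup E] [Module ℝ E] [Fintype V] {x : V → E}
    {T : (Fin 5 → V) → Prop} (hS : Sys 5 x T) {m : ℕ} {U : Submodule ℝ E} {A : Finset V}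
    {b : Fin m → Module.Dual ℝ E} (hU : UH x U A b) {f1 : Module.Dual ℝ E} (k : Fin m)
    {F : Fin 5 → V} (hF : Injective F) (hA : Av A F) {y0 : E} (hy0 : y0 ∈ U)
    (hb0 : b k y0 = 0) (hf0 : f1 y0 = 1) :
    ∃ e' ∈ U, b k e' = 0 ∧ f1 e' = 0 ∧ e' ≠ 0 ∧
      ∀ y ∈ U, b k y = 0 → f1 y = 1 → ∃ s : ℝ, y = y0 + s • e' := by
  haveI : Module.Finite ℝ E := Module.finite_of_finrank_pos (by rw [hS.rank]; norm_num)
  have h1 : ∃ y ∈ U, b k y ≠ 0 := by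
    by_contra hcon
    push Not at hcon
    have h2 : (sp x F ⊓ U ⊓ LinearMap.ker (b k) : Submodule ℝ E) = sp x F ⊓ U := by
      refine le_antisymm inf_le_left (le_inf le_rfl ?_)
      intro y hy
      exact hcon y hy.2
    have h3 := hU.edge F hF hA k
    rw [h2, hU.two F hF hA] at h3
    omega
  have h2 := finrank_inf_ker U (b k) h1
  rw [hU.fin] at h2
  have h3 : ∃ y ∈ (U ⊓ LinearMap.ker (b k) : Submodule ℝ E), f1 y ≠ 0 :=
    ⟨y0, ⟨hy0, hb0⟩, by rw [hf0]; exact one_ne_zero⟩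
  have h4 := finrank_inf_ker _ f1 h3
  have h5 : Module.finrank ℝ (U ⊓ LinearMap.ker (b k) ⊓ LinearMap.ker f1 : Submodule ℝ E) = 1 := by
    omega
  obtain ⟨v, hv, hv0, hv1⟩ := gen_line _ h5
  refine ⟨v, hv.1.1, hv.1.2, hv.2, hv0, ?_⟩
  intro y hy hby hfy
  have h6 : y - y0 ∈ (U ⊓ LinearMap.ker (b k) ⊓ LinearMap.ker f1 : Submodule ℝ E) := by
    refine ⟨⟨Submodule.sub_mem _ hy hy0, ?_⟩, ?_⟩
    · change b k (y - y0) = 0
      rw [map_sub, hby, hb0, sub_self]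
    · change f1 (y - y0) = 0
      rw [map_sub, hfy, hf0, sub_self]
  obtain ⟨c, hc⟩ := hv1 _ h6
  exact ⟨c, by rw [← hc]; abel⟩

theorem pu_e {E V : Type} [AddCommGroup E] [Module ℝ E] [Fintype V] {x : V → E}
    {T : (Fin 5 → V) → Prop} (hS : Sys 5 x T)
    (K : ℝ) (hK : ∀ p e, NN x T p e ≤ K) {m : ℕ} {U : Submodule ℝ E} {A : Finset V}
    {b : Fin m → Module.Dual ℝ E}
    (hU : UH x U A b) {f1 f2 : Module.Dual ℝ E} {e : E} (hG : PUGood x U A b f1 f2 e)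
    (k : Fin m) : EVU x T U A b f1 f2 e (Sum.inl k) ≤ nn V ^ 4 * K := by
  have hK0 : 0 ≤ K := by
    refine le_trans ?_ (hK 0 0)
    exact Finset.sum_nonneg fun _ _ => ind_nonneg _
  have hbound : ∀ B3 : Fin 4 → V, ∑ a : V, ∑ B2 : Fin 4 → V,
      ind (LiveU T A a B2 B3 ∧
        Ev (alU x U b f1 f2 e (cd a B2) (cd a B3)) (beU x U b f1 f2 e (cd a B2) (cd a B3))
          (Sum.inl k)) ≤ K := by
    intro B3
    by_cases h : ∃ a : V, ∃ B2 : Fin 4 → V, LiveU T A a B2 B3 ∧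
        Ev (alU x U b f1 f2 e (cd a B2) (cd a B3)) (beU x U b f1 f2 e (cd a B2) (cd a B3))
          (Sum.inl k)
    · obtain ⟨a0, B20, hL0, hEv0⟩ := h
      obtain ⟨y0, hy0, hb0, hf0, -⟩ := PUe_pt hS hG k a0 B20 B3 hL0 hEv0
      obtain ⟨e', he'U, hbe', hfe', he'0, hline⟩ :=
        PUe_line hS hU (f1 := f1) k hL0.2.2.f2.1 hL0.2.2.f2.2 hy0 hb0 hf0
      refine le_trans ?_ (hK y0 e')
      unfold NN
      rw [KS37.sum_cons]
      refine Finset.sum_le_sum fun a _ => Finset.sum_le_sum fun B2 _ => ind_mono ?_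
      rintro ⟨hL, hEv⟩
      refine ⟨hL.1, ?_⟩
      obtain ⟨y, hy, hby, hfy, hcone⟩ := PUe_pt hS hG k a B2 B3 hL hEv
      obtain ⟨s, hs⟩ := hline y hy hby hfy
      have hF2 := hL.2.2.f2.1
      have hd2 := hL.2.2.f2.2
      have hnot : e' ∉ sp x (cd a B2) := by
        intro hmem
        exact he'0 (hG.edge _ hF2 hd2 k e' ⟨hmem, he'U⟩ hbe' hfe')
      refine (hit_iff hS (cd a B2) hF2 e' hnot y0).2 ⟨s, ?_⟩
      rw [← hs]
      exact hcone
    · refine le_trans (le_of_eq ?_) hK0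
      refine Finset.sum_eq_zero fun a _ => Finset.sum_eq_zero fun B2 _ => ind_false ?_
      rintro ⟨hL, hEv⟩
      exact h ⟨a, B2, hL, hEv⟩
  unfold EVU
  rw [Finset.sum_congr rfl fun a _ => Finset.sum_comm, Finset.sum_comm]
  refine (Finset.sum_le_sum fun B3 _ => hbound B3).trans ?_
  rw [sum_const_fun]

end KS13
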