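import Pool.Agent.LibKS13.Cd
import Pool.Agent.LibKS37.O2

/-!
# KS13 row PUs: object inequality inside U (port of KS37 P4sum `p4_sum`)
`oi_le` with alU, beU, σ0 = hgt x F3 e (av .. F2), σ1 = hgt x F3 e (qv .. F2). A common ray y ∈ U, all b_k y > 0, Cone F2 y, Cone F3 y: f1 y > 0 (hG.pos), y/f1 y = av + t qv. Nothing at ±∞: all b_k q > 0 gives f1 q > 0
(hG.pos), but f1 q = 0; all b_k q < 0: the same for -q.
-/

open Finset Function
open scoped Classical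

namespace KS13

open KS37

theorem PUs_abs {J : Type} (α β : J → ℝ) (σ0 σ1 : ℝ) (j : J) (P Q : Prop) :
    -(ind P * (ind Q * (sg (β j) * eps α β σ0 σ1 j))) ≤ ind (P ∧ Q) := by
  have h1 : |sg (β j) * eps α β σ0 σ1 j| ≤ 1 := by
    unfold eps
    rw [abs_mul, abs_mul]
    have a1 := abs_sg_le (β j)
    have a2 := abs_sg_le (σ0 + σ1 * (-α j / β j))
    have a3 := abs_sg_le σ1
    exact mul_le_one₀ a1 (by positivity) (mul_le_one₀ a2 (abs_nonneg _) a3)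
  rw [ind_and, ← mul_assoc, ← mul_neg]
  have h2 : 0 ≤ ind P * ind Q := mul_nonneg (ind_nonneg _) (ind_nonneg _)
  have h3 : -(sg (β j) * eps α β σ0 σ1 j) ≤ 1 := by
    have := neg_abs_le (sg (β j) * eps α β σ0 σ1 j)
    linarith
  calc ind P * ind Q * -(sg (β j) * eps α β σ0 σ1 j) ≤ ind P * ind Q * 1 :=
        mul_le_mul_of_nonneg_left h3 h2
    _ = _ := mul_one _

/-- one object -/
theorem PUs_one {E V : Type} [AddCommGroup E] [Module ℝ E] [Fintype V] {x : V → E}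
    {T : (Fin 5 → V) → Prop} (hS : Sys 5 x T)
    {m : ℕ} {U : Submodule ℝ E} {A : Finset V}
    {b : Fin m → Module.Dual ℝ E} {f1 f2 : Module.Dual ℝ E} {e : E}
    (hG : PUGood x U A b f1 f2 e) (a : V) (B2 B3 : Fin 4 → V) :
    2 * ind (LiveU T A a B2 B3 ∧ ∃ y ∈ U, (∀ k, 0 < b k y) ∧ Cone x (cd a B2) y ∧ Cone x (cd a B3) y) ≤
      ∑ j : Fin 4, -WU x T U A b f1 f2 e a B2 B3 (Sum.inr (Sum.inl j.succ)) +
      ∑ j : Fin 4, -WU x T U A b f1 f2 e a B2 B3 (Sum.inr (Sum.inr j.succ)) +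
      ∑ k : Fin m, ind (LiveU T A a B2 B3 ∧
        Ev (alU x U b f1 f2 e (cd a B2) (cd a B3)) (beU x U b f1 f2 e (cd a B2) (cd a B3))
          (Sum.inl k)) +
      ind (LiveU T A a B2 B3 ∧
        Ev (alU x U b f1 f2 e (cd a B2) (cd a B3)) (beU x U b f1 f2 e (cd a B2) (cd a B3))
          (Sum.inr (Sum.inl 0))) +
      ind (LiveU T A a B2 B3 ∧
        Ev (alU x U b f1 f2 e (cd a B2) (cd a B3)) (beU x U b f1 f2 e (cd a B2) (cd a B3))
          (Sum.inr (Sum.inr 0))) := by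
  by_cases hL : LiveU T A a B2 B3
  swap
  · have h1 : ¬ (LiveU T A a B2 B3 ∧ ∃ y ∈ U, (∀ k, 0 < b k y) ∧ Cone x (cd a B2) y ∧ Cone x (cd a B3) y) :=
      fun h => hL h.1
    rw [ind_false h1]
    have h2 : ∀ j, WU x T U A b f1 f2 e a B2 B3 j = 0 := by
      intro j
      unfold WU
      rw [ind_false hL, zero_mul]
    simp only [h2, neg_zero, Finset.sum_const_zero]
    have h3 : 0 ≤ ∑ k : Fin m, ind (LiveU T A a B2 B3 ∧
        Ev (alU x U b f1 f2 e (cd a B2) (cd a B3)) (beU x U b f1 f2 e (cd a B2) (cd a B3))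
          (Sum.inl k)) := Finset.sum_nonneg fun _ _ => ind_nonneg _
    have h4 := ind_nonneg (LiveU T A a B2 B3 ∧
        Ev (alU x U b f1 f2 e (cd a B2) (cd a B3)) (beU x U b f1 f2 e (cd a B2) (cd a B3))
          (Sum.inr (Sum.inl 0)))
    have h5 := ind_nonneg (LiveU T A a B2 B3 ∧
        Ev (alU x U b f1 f2 e (cd a B2) (cd a B3)) (beU x U b f1 f2 e (cd a B2) (cd a B3))
          (Sum.inr (Sum.inr 0)))
    linarith
  have hD := hL.2.2
  obtain ⟨hF2, hF21⟩ := hD.f2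
  obtain ⟨hF3, hF31⟩ := hD.f3
  have hβ : ∀ j, beU x U b f1 f2 e (cd a B2) (cd a B3) j ≠ 0 := by
    rintro (k | i | i)
    · exact hG.kap1 _ hF2 hF21 k
    · exact hG.kapq _ _ hF2 hF2 hF21 hF21 i
    · exact hG.kapq _ _ hF2 hF3 hF21 hF31 i
  have hoi := oi_le (alU x U b f1 f2 e (cd a B2) (cd a B3)) (beU x U b f1 f2 e (cd a B2) (cd a B3))
    (hgt x (cd a B3) e (av x U f1 f2 (cd a B2)))
    (hgt x (cd a B3) e (qv x U f1 f2 (cd a B2))) hβ (hG.nd a B2 B3 hD) (hG.hq a B2 B3 hD)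
  have hiso := hG.iso _ hF2 hF21
  -- the point with a common ray
  have e3 : ind (LiveU T A a B2 B3 ∧ ∃ y ∈ U, (∀ k, 0 < b k y) ∧ Cone x (cd a B2) y ∧ Cone x (cd a B3) y) ≤
      ind (∃ t : ℝ, (∀ j, 0 < alU x U b f1 f2 e (cd a B2) (cd a B3) j +
        beU x U b f1 f2 e (cd a B2) (cd a B3) j * t) ∧
          hgt x (cd a B3) e (av x U f1 f2 (cd a B2)) +
            hgt x (cd a B3) e (qv x U f1 f2 (cd a B2)) * t = 0) := by
    apply ind_mono
    rintro ⟨_, y, hyB1, hyb, hy2, hy3⟩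
    have k2 := (cone_iff_kap hS _ hF2 e (hG.enot _ hF2 hF21) y).1 hy2
    have k3 := (cone_iff_kap hS _ hF3 e (hG.enot _ hF3 hF31) y).1 hy3
    have hf1 : 0 < f1 y := hG.pos y hyB1 hyb
    have hsol := solv_unique hiso (y := y) ⟨k2.1, hyB1⟩
    have hlin : ∀ g : Module.Dual ℝ E, g (av x U f1 f2 (cd a B2)) +
        g (qv x U f1 f2 (cd a B2)) * (f2 y / f1 y) = g y / f1 y := by
      intro g
      have h1 : g y = f1 y * g (av x U f1 f2 (cd a B2)) +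
          f2 y * g (qv x U f1 f2 (cd a B2)) := by
        conv_lhs => rw [hsol]
        rw [map_add, map_smul, map_smul, smul_eq_mul, smul_eq_mul]
        rfl
      rw [h1]
      field_simp
    refine ⟨f2 y / f1 y, ?_, ?_⟩
    · rintro (k | i | i)
      · have h1 : 0 < b k y := hyb k
        have h2 := hlin (b k)
        show 0 < b k (av x U f1 f2 (cd a B2)) + b k (qv x U f1 f2 (cd a B2)) * (f2 y / f1 y)
        rw [h2]
        positivity
      · have h1 := k2.2 i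
        have h2 := hlin (kap x (cd a B2) e i)
        show 0 < kap x (cd a B2) e i (av x U f1 f2 (cd a B2)) +
          kap x (cd a B2) e i (qv x U f1 f2 (cd a B2)) * (f2 y / f1 y)
        rw [h2]
        positivity
      · have h1 := k3.2 i
        have h2 := hlin (kap x (cd a B3) e i)
        show 0 < kap x (cd a B3) e i (av x U f1 f2 (cd a B2)) +
          kap x (cd a B3) e i (qv x U f1 f2 (cd a B2)) * (f2 y / f1 y)
        rw [h2]
        positivity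
    · rw [hlin (hgt x (cd a B3) e), (hgt_eq_zero_iff hS _ hF3 e (hG.enot _ hF3 hF31) y).2 k3.1, zero_div]
  -- nothing at infinity
  have hq : qv x U f1 f2 (cd a B2) ∈ sp x (cd a B2) ⊓ U ∧
      f1 (qv x U f1 f2 (cd a B2)) = 0 := ⟨(solv_spec hiso 0 1).1, (solv_spec hiso 0 1).2.1⟩
  have i1 : ind (∀ j, 0 < beU x U b f1 f2 e (cd a B2) (cd a B3) j) = 0 := by
    apply ind_false
    intro h
    have h2 := hG.pos _ hq.1.2 fun k => h (Sum.inl k)
    rw [hq.2] at h2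
    exact lt_irrefl _ h2
  have i2 : ind (∀ j, beU x U b f1 f2 e (cd a B2) (cd a B3) j < 0) = 0 := by
    apply ind_false
    intro h
    have h2 := hG.pos (-qv x U f1 f2 (cd a B2)) (U.neg_mem hq.1.2) fun k => by
      rw [map_neg]
      exact neg_pos.2 (h (Sum.inl k))
    rw [map_neg, hq.2, neg_zero] at h2
    exact lt_irrefl _ h2
  rw [i1, i2, Fintype.sum_sum_type, Fintype.sum_sum_type, Fin.sum_univ_succ (n := 4), Fin.sum_univ_succ (n := 4)] at hoi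
  have hW : ∀ j, WU x T U A b f1 f2 e a B2 B3 j =
      ind (Ev (alU x U b f1 f2 e (cd a B2) (cd a B3)) (beU x U b f1 f2 e (cd a B2) (cd a B3)) j) *
    (sg (beU x U b f1 f2 e (cd a B2) (cd a B3) j) *
      eps (alU x U b f1 f2 e (cd a B2) (cd a B3)) (beU x U b f1 f2 e (cd a B2) (cd a B3))
      (hgt x (cd a B3) e (av x U f1 f2 (cd a B2)))
      (hgt x (cd a B3) e (qv x U f1 f2 (cd a B2))) j) := by
    intro j
    unfold WU
    rw [ind_true hL, one_mul]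
  simp only [← hW] at hoi
  have hneg : ∀ j, -WU x T U A b f1 f2 e a B2 B3 j ≤ ind (LiveU T A a B2 B3 ∧
        Ev (alU x U b f1 f2 e (cd a B2) (cd a B3)) (beU x U b f1 f2 e (cd a B2) (cd a B3)) j) := by
    intro j
    unfold WU
    exact PUs_abs _ _ _ _ j _ _
  have hneg1 : -∑ k : Fin m, WU x T U A b f1 f2 e a B2 B3 (Sum.inl k) ≤ ∑ k : Fin m, ind (LiveU T A a B2 B3 ∧
        Ev (alU x U b f1 f2 e (cd a B2) (cd a B3)) (beU x U b f1 f2 e (cd a B2) (cd a B3))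
          (Sum.inl k)) := by
    rw [← Finset.sum_neg_distrib]
    exact Finset.sum_le_sum fun k _ => hneg (Sum.inl k)
  have hneg2 := hneg (Sum.inr (Sum.inl 0))
  have hneg3 := hneg (Sum.inr (Sum.inr 0))
  rw [Finset.sum_neg_distrib, Finset.sum_neg_distrib]
  linarith

theorem pu_sum {E V : Type} [AddCommGroup E] [Module ℝ E] [Fintype V] {x : V → E}
    {T : (Fin 5 → V) → Prop} (hS : Sys 5 x T)
    {m : ℕ} {U : Submodule ℝ E} {A : Finset V}
    {b : Fin m → Module.Dual ℝ E} {f1 f2 : Module.Dual ℝ E} {e : E}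
    (hG : PUGood x U A b f1 f2 e) :
    2 * OBU x T U A b ≤
      (∑ j : Fin 4, |∑ a : V, ∑ B2 : Fin 4 → V, ∑ B3 : Fin 4 → V,
        WU x T U A b f1 f2 e a B2 B3 (Sum.inr (Sum.inl j.succ))|) +
      (∑ j : Fin 4, |∑ a : V, ∑ B2 : Fin 4 → V, ∑ B3 : Fin 4 → V,
        WU x T U A b f1 f2 e a B2 B3 (Sum.inr (Sum.inr j.succ))|) +
      (∑ k : Fin m, EVU x T U A b f1 f2 e (Sum.inl k)) +
      EVU x T U A b f1 f2 e (Sum.inr (Sum.inl 0)) +
      EVU x T U A b f1 f2 e (Sum.inr (Sum.inr 0)) := by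
  have hswap : ∀ (J : Type) [Fintype J] (G : J → V → (Fin 4 → V) → (Fin 4 → V) → ℝ),
      ∑ a : V, ∑ B2 : Fin 4 → V, ∑ B3 : Fin 4 → V, ∑ j : J, G j a B2 B3 =
      ∑ j : J, ∑ a : V, ∑ B2 : Fin 4 → V, ∑ B3 : Fin 4 → V, G j a B2 B3 := by
    intro J _ G
    have h1 : ∀ (a : V) (B2 : Fin 4 → V), ∑ B3 : Fin 4 → V, ∑ j : J, G j a B2 B3 =
        ∑ j : J, ∑ B3 : Fin 4 → V, G j a B2 B3 := fun a B2 => Finset.sum_comm
    have h2 : ∀ a : V, ∑ B2 : Fin 4 → V, ∑ j : J, ∑ B3 : Fin 4 → V, G j a B2 B3 =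
        ∑ j : J, ∑ B2 : Fin 4 → V, ∑ B3 : Fin 4 → V, G j a B2 B3 := fun a => Finset.sum_comm
    simp only [h1, h2]
    exact Finset.sum_comm
  have hsum : ∑ a : V, ∑ B2 : Fin 4 → V, ∑ B3 : Fin 4 → V,
      2 * ind (LiveU T A a B2 B3 ∧ ∃ y ∈ U, (∀ k, 0 < b k y) ∧ Cone x (cd a B2) y ∧ Cone x (cd a B3) y) ≤ _ :=
    Finset.sum_le_sum fun a _ => Finset.sum_le_sum fun B2 _ => Finset.sum_le_sum fun B3 _ =>
      PUs_one hS hG a B2 B3
  simp only [Finset.sum_add_distrib] at hsum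
  rw [hswap (Fin 4) (fun j a B2 B3 => -WU x T U A b f1 f2 e a B2 B3 (Sum.inr (Sum.inl j.succ))),
    hswap (Fin 4) (fun j a B2 B3 => -WU x T U A b f1 f2 e a B2 B3 (Sum.inr (Sum.inr j.succ))),
    hswap (Fin m) (fun k a B2 B3 => ind (LiveU T A a B2 B3 ∧
        Ev (alU x U b f1 f2 e (cd a B2) (cd a B3)) (beU x U b f1 f2 e (cd a B2) (cd a B3))
          (Sum.inl k)))] at hsum
  have hOB : 2 * OBU x T U A b = ∑ a : V, ∑ B2 : Fin 4 → V, ∑ B3 : Fin 4 → V,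
      2 * ind (LiveU T A a B2 B3 ∧ ∃ y ∈ U, (∀ k, 0 < b k y) ∧ Cone x (cd a B2) y ∧ Cone x (cd a B3) y) := by
    unfold OBU
    simp only [Finset.mul_sum]
  rw [hOB]
  refine hsum.trans ?_
  have hn : ∀ j : Fin m ⊕ (Fin 5 ⊕ Fin 5), ∑ a : V, ∑ B2 : Fin 4 → V, ∑ B3 : Fin 4 → V,
      -WU x T U A b f1 f2 e a B2 B3 j ≤ |∑ a : V, ∑ B2 : Fin 4 → V, ∑ B3 : Fin 4 → V,
        WU x T U A b f1 f2 e a B2 B3 j| := by
    intro j
    simp only [Finset.sum_neg_distrib]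
    exact neg_le_abs _
  have s1 : ∑ j : Fin 4, ∑ a : V, ∑ B2 : Fin 4 → V, ∑ B3 : Fin 4 → V,
      -WU x T U A b f1 f2 e a B2 B3 (Sum.inr (Sum.inl j.succ)) ≤
      ∑ j : Fin 4, |∑ a : V, ∑ B2 : Fin 4 → V, ∑ B3 : Fin 4 → V,
        WU x T U A b f1 f2 e a B2 B3 (Sum.inr (Sum.inl j.succ))| :=
    Finset.sum_le_sum fun j _ => hn _
  have s2 : ∑ j : Fin 4, ∑ a : V, ∑ B2 : Fin 4 → V, ∑ B3 : Fin 4 → V,
      -WU x T U A b f1 f2 e a B2 B3 (Sum.inr (Sum.inr j.succ)) ≤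
      ∑ j : Fin 4, |∑ a : V, ∑ B2 : Fin 4 → V, ∑ B3 : Fin 4 → V,
        WU x T U A b f1 f2 e a B2 B3 (Sum.inr (Sum.inr j.succ))| :=
    Finset.sum_le_sum fun j _ => hn _
  unfold EVU
  linarith

end KS13
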