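import Pool.Agent.LibKS13.Cd
import Pool.Agent.LibKS37.G1

/-!
# KS13 row PUv: groups on the side of F3, vertex in B3 (port of KS37 P4gv `p4_gv`)
`gv2` with the tuple cd a w, index j.succ, p0 = av x U f1 f2 (cd a B2), q = qv .., X = A ∪ image B2 ∪ {a} (≤ 9), bound 11.
-/

open Finset Function
open scoped Classical

namespace KS13

open KS37

theorem PUv_X {V : Type} [Fintype V] {A : Finset V} (hA : A.card ≤ 4) (B : Fin 4 → V) (a : V) :
    ((A ∪ Finset.univ.image B ∪ {a} : Finset V).card : ℝ) ≤ 9 := by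
  have h := Finset.card_image_le (s := (Finset.univ : Finset (Fin 4))) (f := B)
  rw [Finset.card_univ, Fintype.card_fin] at h
  have h2 := Finset.card_union_le A (Finset.univ.image B)
  have h3 := Finset.card_union_le (A ∪ Finset.univ.image B) {a}
  rw [Finset.card_singleton] at h3
  have : (A ∪ Finset.univ.image B ∪ {a}).card ≤ 9 := by omega
  exact_mod_cast this

/-- the live objects of a group -/
theorem PUv_live {E V : Type} [AddCommGroup E] [Module ℝ E] [Fintype V] {x : V → E}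
    {T : (Fin 5 → V) → Prop} (hS : Sys 5 x T) (A : Finset V) (a : V) (B2 w : Fin 4 → V) (j : Fin 4)
    (hT2 : T (cd a B2)) (hi2 : Injective B2) (hd2 : ∀ i, B2 i ∉ A) (haA : a ∉ A)
    (ha2 : ∀ i, B2 i ≠ a) (hw1 : ∀ l, l ≠ j → w l ∉ A) (hw3 : ∀ l, l ≠ j → ∀ i, B2 i ≠ w l)
    (hwa : ∀ l, l ≠ j → w l ≠ a) (u : V) :
    LiveU T A a B2 (update w j u) ↔
      (T (update (cd a w) j.succ u) ∧ u ∉ A ∪ Finset.univ.image B2 ∪ {a}) := by
  rw [← cd_update a w j u]
  constructor
  · rintro ⟨_, h1, h2, h3, h4, h5, h6, h7, h8, h9⟩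
    refine ⟨h1, ?_⟩
    intro hu
    rcases Finset.mem_union.1 hu with hu | hu
    · rcases Finset.mem_union.1 hu with hu | hu
      · exact h6 j (by rw [update_self]; exact hu)
      · obtain ⟨i, _, hi⟩ := Finset.mem_image.1 hu
        exact h4 i j (by rw [update_self]; exact hi)
    · exact h9 j (by rw [update_self]; exact Finset.mem_singleton.1 hu)
  · rintro ⟨h1, hu⟩
    have hu1 : u ∉ A := fun hi => hu (Finset.mem_union_left _ (Finset.mem_union_left _ hi))
    have hu3 : ∀ i, B2 i ≠ u := fun i hi => hu (Finset.mem_union_left _ (Finset.mem_union_right _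
      (Finset.mem_image.2 ⟨i, Finset.mem_univ i, hi⟩)))
    have hua : u ≠ a := fun h => hu (Finset.mem_union_right _ (Finset.mem_singleton.2 h))
    have hinj := hS.inj _ h1
    refine ⟨hT2, h1, hi2, ?_, ?_, hd2, ?_, haA, ha2, ?_⟩
    · intro l l' h
      have h2 : cd a (update w j u) l.succ = cd a (update w j u) l'.succ := by
        rw [cd_succ, cd_succ]
        exact h
      exact Fin.succ_injective _ (hinj h2)
    · intro i l
      by_cases hl : l = j
      · subst hl
        rw [update_self]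
        exact hu3 i
      · rw [update_of_ne hl]
        exact hw3 l hl i
    · intro l
      by_cases hl : l = j
      · subst hl
        rw [update_self]
        exact hu1
      · rw [update_of_ne hl]
        exact hw1 l hl
    · intro l
      by_cases hl : l = j
      · subst hl
        rw [update_self]
        exact hua
      · rw [update_of_ne hl]
        exact hwa l hl

/-- one group -/
theorem PUv_group {E V : Type} [AddCommGroup E] [Module ℝ E] [Fintype V] {x : V → E}
    {T : (Fin 5 → V) → Prop} (hS : Sys 5 x T)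
    {m : ℕ} {U : Submodule ℝ E} {A : Finset V}
    {b : Fin m → Module.Dual ℝ E} {f1 f2 : Module.Dual ℝ E} {e : E}
    (hA : A.card ≤ 4) (hG : PUGood x U A b f1 f2 e) (j : Fin 4) (a : V) (B2 w : Fin 4 → V) :
    |∑ u, WU x T U A b f1 f2 e a B2 (update w j u) (Sum.inr (Sum.inr j.succ))| ≤ 11 := by
  have hzero : (∀ u, ¬ LiveU T A a B2 (update w j u)) →
      |∑ u, WU x T U A b f1 f2 e a B2 (update w j u) (Sum.inr (Sum.inr j.succ))| ≤ 11 := by
    intro h
    rw [Finset.sum_eq_zero, abs_zero]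
    · norm_num
    · intro u _
      unfold WU
      rw [ind_false (h u), zero_mul]
  by_cases hB : T (cd a B2) ∧ Injective B2 ∧ (∀ i, B2 i ∉ A) ∧ a ∉ A ∧ (∀ i, B2 i ≠ a)
  swap
  · refine hzero fun u h => hB ?_
    obtain ⟨h0, h1, h2, h3, h4, h5, h6, h7, h8, h9⟩ := h
    exact ⟨h0, h2, h5, h7, h8⟩
  obtain ⟨hT2, hi2, hd2, haA, ha2⟩ := hB
  by_cases hw1 : ∀ l, l ≠ j → w l ∉ A
  swap
  · push Not at hw1
    obtain ⟨l, hl, hi⟩ := hw1
    refine hzero fun u h => ?_
    obtain ⟨h0, h1, h2, h3, h4, h5, h6, h7, h8, h9⟩ := h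
    exact h6 l (by rw [update_of_ne hl]; exact hi)
  by_cases hw3 : ∀ l, l ≠ j → ∀ i, B2 i ≠ w l
  swap
  · push Not at hw3
    obtain ⟨l, hl, i, hi⟩ := hw3
    refine hzero fun u h => ?_
    obtain ⟨h0, h1, h2, h3, h4, h5, h6, h7, h8, h9⟩ := h
    exact h4 i l (by rw [update_of_ne hl]; exact hi)
  by_cases hwa : ∀ l, l ≠ j → w l ≠ a
  swap
  · push Not at hwa
    obtain ⟨l, hl, hi⟩ := hwa
    refine hzero fun u h => ?_
    obtain ⟨h0, h1, h2, h3, h4, h5, h6, h7, h8, h9⟩ := h
    exact h9 l (by rw [update_of_ne hl]; exact hi)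
  have hlive := PUv_live hS A a B2 w j hT2 hi2 hd2 haA ha2 hw1 hw3 hwa
  have hav : ∀ u, LiveU T A a B2 (update w j u) → Av A (update (cd a w) j.succ u) := by
    intro u h
    rw [← cd_update a w j u]
    exact cd_av h.2.2.2.2.2.2.1 haA
  have hF2 := hS.inj _ hT2
  have hF21 : Av A (cd a B2) := cd_av hd2 haA
  have hgv := gv2 hS (cd a w) j.succ (av x U f1 f2 (cd a B2)) (qv x U f1 f2 (cd a B2)) e
    (A ∪ Finset.univ.image B2 ∪ {a})
    (fun t => (∀ k, 0 < b k (av x U f1 f2 (cd a B2)) + b k (qv x U f1 f2 (cd a B2)) * t) ∧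
      ∀ i, 0 < kap x (cd a B2) e i (av x U f1 f2 (cd a B2)) +
        kap x (cd a B2) e i (qv x U f1 f2 (cd a B2)) * t)
    (fun u hT hX => by
      have hl := (hlive u).2 ⟨hT, hX⟩
      have hinj := hS.inj _ hT
      have hd := hav u hl
      exact ⟨hG.enot _ hinj hd, hG.kapq _ _ hF2 hinj hF21 hd j.succ⟩)
  have hX := PUv_X hA B2 a
  refine le_trans (le_of_eq ?_) (hgv.trans (by linarith))
  congr 1
  refine Finset.sum_congr rfl fun u _ => ?_
  unfold WU
  rw [cd_update a w j u]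
  have hiff : LiveU T A a B2 (update w j u) ∧
      Ev (alU x U b f1 f2 e (cd a B2) (update (cd a w) j.succ u))
        (beU x U b f1 f2 e (cd a B2) (update (cd a w) j.succ u)) (Sum.inr (Sum.inr j.succ)) ↔
      (T (update (cd a w) j.succ u) ∧ u ∉ A ∪ Finset.univ.image B2 ∪ {a} ∧
        EvB x (update (cd a w) j.succ u) e j.succ (av x U f1 f2 (cd a B2))
          (qv x U f1 f2 (cd a B2)) ∧
        (fun t => (∀ k, 0 < b k (av x U f1 f2 (cd a B2)) + b k (qv x U f1 f2 (cd a B2)) * t) ∧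
          ∀ i, 0 < kap x (cd a B2) e i (av x U f1 f2 (cd a B2)) +
            kap x (cd a B2) e i (qv x U f1 f2 (cd a B2)) * t)
          (tz x (update (cd a w) j.succ u) e j.succ (av x U f1 f2 (cd a B2))
            (qv x U f1 f2 (cd a B2)))) := by
    rw [hlive u, and_assoc]
    constructor
    · rintro ⟨h1, h3, h5⟩
      refine ⟨h1, h3, ?_, ?_, ?_⟩
      · intro l hl
        exact h5 (Sum.inr (Sum.inr l)) (fun h => hl (Sum.inr_injective (Sum.inr_injective h)))
      · intro k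
        exact h5 (Sum.inl k) (by simp)
      · intro i
        exact h5 (Sum.inr (Sum.inl i)) (by simp)
    · rintro ⟨h1, h3, h5, h6, h7⟩
      refine ⟨h1, h3, ?_⟩
      rintro (k | i | l) hl
      · exact h6 k
      · exact h7 i
      · exact h5 l (fun h => hl (by rw [h]))
  rw [← mul_assoc, ← ind_and, ind_congr hiff]
  rfl

theorem pu_gv {E V : Type} [AddCommGroup E] [Module ℝ E] [Fintype V] {x : V → E}
    {T : (Fin 5 → V) → Prop} (hS : Sys 5 x T)
    {m : ℕ} {U : Submodule ℝ E} {A : Finset V}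
    {b : Fin m → Module.Dual ℝ E} {f1 f2 : Module.Dual ℝ E} {e : E}
    (hA : A.card ≤ 4) (hG : PUGood x U A b f1 f2 e) (j : Fin 4) :
    |∑ a : V, ∑ B2 : Fin 4 → V, ∑ B3 : Fin 4 → V,
        WU x T U A b f1 f2 e a B2 B3 (Sum.inr (Sum.inr j.succ))| ≤ 11 * nn V ^ 8 := by
  have h0 : ∀ a : V, |∑ B2 : Fin 4 → V, ∑ B3 : Fin 4 → V,
      WU x T U A b f1 f2 e a B2 B3 (Sum.inr (Sum.inr j.succ))| ≤
        nn V ^ 4 * (11 * nn V ^ (4 - 1)) := by
    intro a
    refine (Finset.abs_sum_le_sum_abs _ _).trans ?_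
    have h1 : ∀ B2 ∈ (Finset.univ : Finset (Fin 4 → V)),
        |∑ B3 : Fin 4 → V, WU x T U A b f1 f2 e a B2 B3 (Sum.inr (Sum.inr j.succ))| ≤
          11 * nn V ^ (4 - 1) := by
      intro B2 _
      exact group_sum (fun B3 => WU x T U A b f1 f2 e a B2 B3 (Sum.inr (Sum.inr j.succ))) j 11
        (by norm_num) (fun w => PUv_group hS hA hG j a B2 w)
    refine (Finset.sum_le_sum h1).trans ?_
    rw [sum_const_fun]
  refine (Finset.abs_sum_le_sum_abs _ _).trans ?_
  refine (Finset.sum_le_sum (fun a _ => h0 a)).trans (le_of_eq ?_)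
  rw [Finset.sum_const, nsmul_eq_mul, Finset.card_univ]
  show nn V * (nn V ^ 4 * (11 * nn V ^ (4 - 1))) = 11 * nn V ^ 8
  ring

end KS13
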