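import Pool.Agent.LibKS13.PUg
import Pool.Agent.LibKS13.PUs
import Pool.Agent.LibKS13.PUa
import Pool.Agent.LibKS13.PUv
import Pool.Agent.LibKS13.PUc
import Pool.Agent.LibKS13.PUd
import Pool.Agent.LibKS13.PUe

/-!
# KS13 PU: number of common rays in U (assembly)
2 OBU ≤ 4·11 n^8 + 4·11 n^8 + (m+2) n^4 K.
-/

open Finset Function
open scoped Classical

namespace KS13

open KS37

theorem NN_nonneg' {E V : Type} [AddCommGroup E] [Module ℝ E] [Fintype V] {r : ℕ} (x : V → E)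
    (T : (Fin r → V) → Prop) (p e : E) : 0 ≤ NN x T p e :=
  Finset.sum_nonneg fun _ _ => ind_nonneg _

theorem pu_main {E V : Type} [AddCommGroup E] [Module ℝ E] [Fintype V] {x : V → E}
    {T : (Fin 5 → V) → Prop} (hS : Sys 5 x T)
    (K : ℝ) (hK : ∀ p e, NN x T p e ≤ K) {m : ℕ} {U : Submodule ℝ E} {A : Finset V}
    {b : Fin m → Module.Dual ℝ E}
    (hm : m ≤ 4) (hU : UH x U A b) : OBU x T U A b ≤ 44 * nn V ^ 8 + 3 * (nn V ^ 4 * K) := by
  obtain ⟨f1, f2, e, hG⟩ := pu_good hS hU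
  have hn := nn_nonneg V
  have hK0 : 0 ≤ K := (NN_nonneg' x T 0 0).trans (hK 0 0)
  have h0 := pu_sum hS hG
  have h1 : (∑ j : Fin 4, |∑ a : V, ∑ B2 : Fin 4 → V, ∑ B3 : Fin 4 → V,
        WU x T U A b f1 f2 e a B2 B3 (Sum.inr (Sum.inl j.succ))|) ≤ 44 * nn V ^ 8 := by
    refine (Finset.sum_le_sum fun j _ => pu_ga hS hU.cardA hG j).trans ?_
    rw [Finset.sum_const, Finset.card_univ, Fintype.card_fin, nsmul_eq_mul]
    push_cast; linarith
  have h2 : (∑ j : Fin 4, |∑ a : V, ∑ B2 : Fin 4 → V, ∑ B3 : Fin 4 → V,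
        WU x T U A b f1 f2 e a B2 B3 (Sum.inr (Sum.inr j.succ))|) ≤ 44 * nn V ^ 8 := by
    refine (Finset.sum_le_sum fun j _ => pu_gv hS hU.cardA hG j).trans ?_
    rw [Finset.sum_const, Finset.card_univ, Fintype.card_fin, nsmul_eq_mul]
    push_cast; linarith
  have h3 : (∑ k : Fin m, EVU x T U A b f1 f2 e (Sum.inl k)) ≤ 4 * (nn V ^ 4 * K) := by
    refine (Finset.sum_le_sum fun k _ => pu_e hS K hK hU hG k).trans ?_
    rw [Finset.sum_const, Finset.card_univ, Fintype.card_fin, nsmul_eq_mul]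
    have : (m : ℝ) ≤ 4 := by exact_mod_cast hm
    exact mul_le_mul_of_nonneg_right this (by positivity)
  have h4 := pu_c hS K hK hU hG
  have h5 := pu_d hS K hK hU hG
  linarith

end KS13
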