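import Pool.Agent.LibKS13.Cd
import Pool.Agent.LibKS37.A2

/-!
# KS13 row PU1: existence of f1, f2, e inside U (port of KS37 P4g1 `p4_exists`)
-/

open Finset Function
open scoped Classical

namespace KS13

open KS37

/-- positive combinations of the functionals `b k`. -/
private noncomputable def PU1_L {E : Type} [AddCommGroup E] [Module ℝ E] {m : ℕ}
    (b : Fin m → Module.Dual ℝ E) : (Fin m → ℝ) →ₗ[ℝ] Module.Dual ℝ E where
  toFun c := ∑ k, c k • b k
  map_add' c d := by
    rw [← Finset.sum_add_distrib]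
    exact Finset.sum_congr rfl fun k _ => add_smul _ _ _
  map_smul' r c := by
    rw [RingHom.id_apply, Finset.smul_sum]
    exact Finset.sum_congr rfl fun k _ => mul_smul _ _ _

private theorem PU1_L_apply {E : Type} [AddCommGroup E] [Module ℝ E] {m : ℕ}
    (b : Fin m → Module.Dual ℝ E) (c : Fin m → ℝ) (y : E) :
    PU1_L b c y = ∑ k, c k * b k y := by
  show (∑ k, c k • b k) y = _
  rw [LinearMap.sum_apply]
  exact Finset.sum_congr rfl fun k _ => rfl

private theorem PU1_gen {E : Type} [AddCommGroup E] [Module ℝ E] {m : ℕ}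
    (b : Fin m → Module.Dual ℝ E) (y : E) (h : ∃ k, b k y ≠ 0) :
    Gen (fun c : Fin m → ℝ => PU1_L b c y ≠ 0) := by
  obtain ⟨k, hk⟩ := h
  set f : Module.Dual ℝ (Fin m → ℝ) :=
    { toFun := fun c => PU1_L b c y
      map_add' := fun c d => by rw [map_add]; rfl
      map_smul' := fun r c => by rw [map_smul]; rfl } with hf
  have hf0 : f ≠ 0 := by
    intro h0
    apply hk
    have h1 : f (Pi.single k 1) = 0 := by rw [h0]; rfl
    have h2 : f (Pi.single k 1) = PU1_L b (Pi.single k 1) y := rfl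
    rw [h2, PU1_L_apply, Finset.sum_eq_single k] at h1
    · rwa [Pi.single_eq_same, one_mul] at h1
    · intro l _ hl
      rw [Pi.single_eq_of_ne hl, zero_mul]
    · intro h
      exact absurd (Finset.mem_univ k) h
  exact (Gen.ne_zero hf0).mono fun c hc => hc

private theorem PU1_line {E : Type} [AddCommGroup E] [Module ℝ E] {m : ℕ}
    {b : Fin m → Module.Dual ℝ E} {U : Submodule ℝ E}
    (hsep : ∀ y ∈ U, (∀ k, b k y = 0) → y = 0) (L : Submodule ℝ E) (hL : L ≤ U)
    (h : Module.finrank ℝ L = 1) :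
    Gen (fun c : Fin m → ℝ => ∀ y ∈ L, PU1_L b c y = 0 → y = 0) := by
  obtain ⟨v, hv, hv0, hgen⟩ := gen_line L h
  refine (PU1_gen b v ?_).mono fun c hc => line_ne L hgen _ hc
  by_contra hcon
  push_neg at hcon
  exact hv0 (hsep v (hL hv) hcon)

theorem pu_exists {E V : Type} [AddCommGroup E] [Module ℝ E] [Fintype V] {x : V → E}
    {T : (Fin 5 → V) → Prop} (hS : Sys 5 x T)
    {m : ℕ} {U : Submodule ℝ E} {A : Finset V}
    {b : Fin m → Module.Dual ℝ E} (hU : UH x U A b) :
    ∃ f1 f2 e, PUE x U A b f1 f2 e := by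
  have hfd : Module.Finite ℝ E := finiteDimensional_of_sys hS
  -- f1
  have hG1 : Gen (fun c : Fin m → ℝ =>
      (∀ F : Fin 5 → V, Injective F → Av A F → ∀ i, ∀ y ∈ spx x F {i} ⊓ U,
        PU1_L b c y = 0 → y = 0) ∧
      (∀ F : Fin 5 → V, Injective F → Av A F → ∀ k, ∀ y ∈ sp x F ⊓ U ⊓ LinearMap.ker (b k),
        PU1_L b c y = 0 → y = 0) ∧
      (∀ (a : V) (B2 B3 : Fin 4 → V), Dist5 A a B2 B3 →
        ∀ y ∈ sp x (cd a B2) ⊓ sp x (cd a B3) ⊓ U, PU1_L b c y = 0 → y = 0)) := by
    refine Gen.and ?_ (Gen.and ?_ ?_)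
    · refine Gen.all fun F => Gen.imp fun hF => Gen.imp fun hA => Gen.all fun i => ?_
      exact PU1_line hU.sep _ inf_le_right (hU.one F hF hA i)
    · refine Gen.all fun F => Gen.imp fun hF => Gen.imp fun hA => Gen.all fun k => ?_
      exact PU1_line hU.sep _ (inf_le_left.trans inf_le_right) (hU.edge F hF hA k)
    · refine Gen.all fun a => Gen.all fun B2 => Gen.all fun B3 => Gen.imp fun hD => ?_
      exact PU1_line hU.sep _ inf_le_right (hU.dbl a B2 B3 hD)
  obtain ⟨c, ⟨hr, hed, hdb⟩, hc⟩ := Gen.near (Q := fun c : Fin m → ℝ => ∀ k, 0 < c k) hG1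
    (fun _ => 1) (fun g => by
      refine ⟨(1 + ∑ k, |g k|)⁻¹, by positivity, fun ε hε hε' k => ?_⟩
      show 0 < (1 : ℝ) + (ε • g) k
      rw [Pi.smul_apply, smul_eq_mul]
      have h1 : |g k| ≤ ∑ k, |g k| :=
        Finset.single_le_sum (f := fun k => |g k|) (fun k _ => abs_nonneg _) (Finset.mem_univ k)
      have h2 : ε * (1 + ∑ k, |g k|) < 1 := by
        have := mul_lt_mul_of_pos_right hε' (show (0 : ℝ) < 1 + ∑ k, |g k| by positivity)
        rwa [inv_mul_cancel₀ (by positivity)] at this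
      have h3 := neg_abs_le (g k)
      nlinarith)
  have hm : Nonempty (Fin m) := by
    by_contra hcon
    rw [not_nonempty_iff] at hcon
    have h1 : U = ⊥ := by
      rw [eq_bot_iff]
      intro y hy
      exact (Submodule.mem_bot ℝ).2 (hU.sep y hy fun k => (hcon.false k).elim)
    have h2 := hU.fin
    rw [h1, finrank_bot] at h2
    omega
  set f1 : Module.Dual ℝ E := PU1_L b c with hf1
  have hpos : ∀ y ∈ U, (∀ k, 0 < b k y) → 0 < f1 y := by
    intro y _ hy
    rw [hf1, PU1_L_apply]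
    exact Finset.sum_pos (fun k _ => mul_pos (hc k) (hy k)) Finset.univ_nonempty
  -- f2
  have hG2 : Gen (fun f2 : Module.Dual ℝ E =>
      ∀ F : Fin 5 → V, Injective F → Av A F → Iso2 (sp x F ⊓ U) f1 f2) := by
    refine Gen.all fun F => Gen.imp fun hF => Gen.imp fun hA => ?_
    have h2 := hU.two F hF hA
    have h1 := hU.one F hF hA 0
    have hex := exists_ne_of_line (P := sp x F ⊓ U)
      (inf_le_inf_right U (spx_le_sp F {0})) h1 (f := f1) (hr F hF hA 0)
    have h3 := finrank_inf_ker (sp x F ⊓ U) f1 hex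
    have h4 : Module.finrank ℝ (sp x F ⊓ U ⊓ LinearMap.ker f1 : Submodule ℝ E) = 1 := by
      omega
    obtain ⟨v, hv, hv0, hgen⟩ := gen_line _ h4
    refine (Gen.dual_ne hv0).mono fun f2 hf2 => ?_
    exact iso2_of _ h2 f1 f2 fun y hy hy1 hy2 =>
      line_ne _ hgen f2 hf2 y ⟨hy, LinearMap.mem_ker.2 hy1⟩ hy2
  obtain ⟨f2, hiso⟩ := hG2.exists
  -- e
  have hnle : ∀ K : Submodule ℝ E, Module.finrank ℝ K ≤ 2 → ¬ U ≤ K := by
    intro K hK hle
    have h1 := Submodule.finrank_mono hle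
    have h2 := hU.fin
    omega
  have hg1 : Gen fun w : U => ∀ F : Fin 5 → V, Injective F → Av A F → (w : E) ∉ sp x F := by
    refine Gen.all fun F => Gen.imp fun hF => Gen.imp fun hA => Gen.sub_notMem fun hle => ?_
    have h1 := hU.two F hF hA
    rw [inf_eq_right.2 hle, hU.fin] at h1
    omega
  have hg2 : Gen fun w : U => ∀ F F' : Fin 5 → V, Injective F → Injective F' →
      Av A F → Av A F' → ∀ j,
      (w : E) ∉ Submodule.span ℝ {qv x U f1 f2 F} ⊔ (spx x F' {j} ⊓ U) := by
    refine Gen.all fun F => Gen.all fun F' => Gen.imp fun hF => Gen.imp fun hF' =>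
      Gen.imp fun hA => Gen.imp fun hA' => Gen.all fun j => Gen.sub_notMem (hnle _ ?_)
    refine (Submodule.finrank_add_le_finrank_add_finrank _ _).trans ?_
    have h1 : Module.finrank ℝ (Submodule.span ℝ {qv x U f1 f2 F}) ≤ 1 :=
      (finrank_span_le_card _).trans (by simp)
    have h2 := hU.one F' hF' hA' j
    omega
  have hg3 : Gen fun w : U => ∀ F F' : Fin 5 → V, Injective F → Injective F' →
      Av A F → Av A F' → ∀ i j,
      (w : E) ∉ (spx x F {i} ⊓ U) ⊔ (spx x F' {j} ⊓ U) := by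
    refine Gen.all fun F => Gen.all fun F' => Gen.imp fun hF => Gen.imp fun hF' =>
      Gen.imp fun hA => Gen.imp fun hA' => Gen.all fun i => Gen.all fun j =>
      Gen.sub_notMem (hnle _ ?_)
    refine (Submodule.finrank_add_le_finrank_add_finrank _ _).trans ?_
    have h1 := hU.one F hF hA i
    have h2 := hU.one F' hF' hA' j
    omega
  have hg4 : Gen fun w : U => ∀ F F' : Fin 5 → V, Injective F → Injective F' →
      Av A F → Av A F' → ∀ k j,
      (w : E) ∉ (sp x F ⊓ U ⊓ LinearMap.ker (b k)) ⊔ (spx x F' {j} ⊓ U) := by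
    refine Gen.all fun F => Gen.all fun F' => Gen.imp fun hF => Gen.imp fun hF' =>
      Gen.imp fun hA => Gen.imp fun hA' => Gen.all fun k => Gen.all fun j =>
      Gen.sub_notMem (hnle _ ?_)
    refine (Submodule.finrank_add_le_finrank_add_finrank _ _).trans ?_
    have h1 := hU.edge F hF hA k
    have h2 := hU.one F' hF' hA' j
    omega
  obtain ⟨e, he, h1, h2, h3, h4⟩ := ((hg1.and (hg2.and (hg3.and hg4)))).exists_mem
  exact ⟨f1, f2, e, he, hpos, hr,
    fun F hF hA k y hy hk h0 => hed F hF hA k y ⟨hy, LinearMap.mem_ker.2 hk⟩ h0,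
    hdb, hiso, h1, h2, h3, h4⟩

end KS13
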