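import Pool.Agent.LibKS13.Cd

/-!
# KS13 row PU2: kap1, kapq, hq (port of KS37 P4g2)
q = qv x U f1 f2 F ∈ sp x F ⊓ U, f1 q = 0, f2 q = 1, q ≠ 0. kap1: b k q = 0: hE.edge gives q = 0. kapq: q - s e ∈ spx x F' {j}, in U: s ≠ 0: hE.e3; s = 0: hE.ridge. hq: q ∈ sp x (cd a B3): hE.dbl.
-/

open Finset Function
open scoped Classical

namespace KS13

open KS37

section
variable {E V : Type} [AddCommGroup E] [Module ℝ E] [Fintype V] {x : V → E}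
    {T : (Fin 5 → V) → Prop} {m : ℕ} {U : Submodule ℝ E} {A : Finset V}
    {b : Fin m → Module.Dual ℝ E}

/-- the vector `q` -/
private theorem PU2_q {f1 f2 : Module.Dual ℝ E} {e : E}
    (hE : PUE x U A b f1 f2 e) (F : Fin 5 → V) (hF : Injective F) (hA : Av A F) :
    qv x U f1 f2 F ∈ sp x F ∧ qv x U f1 f2 F ∈ U ∧
      f1 (qv x U f1 f2 F) = 0 ∧ qv x U f1 f2 F ≠ 0 := by
  obtain ⟨h1, h2, h3⟩ := solv_spec (hE.iso F hF hA) 0 1
  refine ⟨h1.1, h1.2, h2, fun h0 => ?_⟩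
  have h4 : f2 (qv x U f1 f2 F) = 1 := h3
  rw [h0, map_zero] at h4
  exact zero_ne_one h4

theorem pu_kap1 (hS : Sys 5 x T) {f1 f2 : Module.Dual ℝ E} {e : E}
    (hE : PUE x U A b f1 f2 e) (F : Fin 5 → V) (hF : Injective F) (hA : Av A F) (k : Fin m) :
    b k (qv x U f1 f2 F) ≠ 0 := by
  obtain ⟨h1, h2, h3, h4⟩ := PU2_q hE F hF hA
  intro h0
  exact h4 (hE.edge F hF hA k _ ⟨h1, h2⟩ h0 h3)

theorem pu_kapq (hS : Sys 5 x T) {f1 f2 : Module.Dual ℝ E} {e : E}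
    (hE : PUE x U A b f1 f2 e) (F F' : Fin 5 → V) (hF : Injective F) (hF' : Injective F')
    (hA : Av A F) (hA' : Av A F') (j : Fin 5) : kap x F' e j (qv x U f1 f2 F) ≠ 0 := by
  obtain ⟨h1, h2, h3, h4⟩ := PU2_q hE F hF hA
  intro h0
  obtain ⟨s, hs⟩ := (kap_eq_zero_iff hS F' hF' e (hE.enot F' hF' hA') j _).1 h0
  have h5 : qv x U f1 f2 F - s • e ∈ U :=
    Submodule.sub_mem _ h2 (Submodule.smul_mem _ _ hE.eU)
  by_cases hs0 : s = 0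
  · rw [hs0, zero_smul, sub_zero] at hs
    exact h4 (hE.ridge F' hF' hA' j _ ⟨hs, h2⟩ h3)
  · apply hE.e3 F F' hF hF' hA hA' j
    have h6 : e = s⁻¹ • (qv x U f1 f2 F - (qv x U f1 f2 F - s • e)) := by
      rw [sub_sub_cancel, smul_smul, inv_mul_cancel₀ hs0, one_smul]
    rw [h6]
    apply Submodule.smul_mem
    apply Submodule.sub_mem
    · exact Submodule.mem_sup_left (Submodule.mem_span_singleton_self _)
    · exact Submodule.mem_sup_right ⟨hs, h5⟩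

theorem pu_hq (hS : Sys 5 x T) {f1 f2 : Module.Dual ℝ E} {e : E}
    (hE : PUE x U A b f1 f2 e) (a : V) (B2 B3 : Fin 4 → V) (hD : Dist5 A a B2 B3) :
    hgt x (cd a B3) e (qv x U f1 f2 (cd a B2)) ≠ 0 := by
  obtain ⟨h1, h2, h3, h4⟩ := PU2_q hE (cd a B2) hD.f2.1 hD.f2.2
  intro h0
  have h5 := (hgt_eq_zero_iff hS (cd a B3) hD.f3.1 e (hE.enot _ hD.f3.1 hD.f3.2) _).1 h0
  exact h4 (hE.dbl a B2 B3 hD _ ⟨⟨h1, h5⟩, h2⟩ h3)

end

end KS13
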