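import Pool.Agent.LibKS13.Cd
import Pool.Agent.LibKS37.P3g4

/-!
# KS13 row PU3: non-degeneracy inside U (port of KS37 P4g3 `p4_nd`)
F2 = cd a B2, F3 = cd a B3. y = τ0 av + τ1 qv ≠ 0 (`P3g4_two`), y ∈ sp x F2 ⊓ U, killed by two of the functionals. (k,k'): hU.edge2. (k, F2 i): y ∈ spx x F2 {i} (`kap_zero_mem`): hU.edger. (F2 i, F2 i'):
`kap_zero_mem2`, hU.zero. (k, F3 j): y ∈ sp x F2 ⊓ U ⊓ ker b_k, y - s e ∈ spx x F3 {j} ⊓ U: s ≠ 0: hE.e6; s = 0: hU.edger for F3. (F2 i, F3 j): hE.e4, then hU.pairs. (F3 j, F3 j'): y - s e ∈ spx x F3 {j,j'} ⊓ U = ⊥, y = s e,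
y ∈ sp x F2: s = 0 (hE.enot).
-/

open Finset Function
open scoped Classical

namespace KS13

open KS37

theorem pu_nd {E V : Type} [AddCommGroup E] [Module ℝ E] [Fintype V] {x : V → E}
    {T : (Fin 5 → V) → Prop} (hS : Sys 5 x T)
    {m : ℕ} {U : Submodule ℝ E} {A : Finset V}
    {b : Fin m → Module.Dual ℝ E} (hU : UH x U A b)
    {f1 f2 : Module.Dual ℝ E} {e : E} (hE : PUE x U A b f1 f2 e) (a : V) (B2 B3 : Fin 4 → V)
    (hD : Dist5 A a B2 B3) :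
    Nondeg (alU x U b f1 f2 e (cd a B2) (cd a B3)) (beU x U b f1 f2 e (cd a B2) (cd a B3)) := by
  obtain ⟨i2, v2⟩ := hD.f2
  obtain ⟨i3, v3⟩ := hD.f3
  have hpairs := hU.pairs a B2 B3 hD
  set F2 := cd a B2 with hF2
  set F3 := cd a B3 with hF3
  have he2 := hE.enot F2 i2 v2
  have he3 := hE.enot F3 i3 v3
  have hiso := hE.iso F2 i2 v2
  have haa := solv_spec hiso 1 0
  have hqq := solv_spec hiso 0 1
  let φ : Fin m ⊕ (Fin 5 ⊕ Fin 5) → E →ₗ[ℝ] ℝ :=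
    Sum.elim (fun k => b k) (Sum.elim (fun i => kap x F2 e i) (fun i => kap x F3 e i))
  have hα : ∀ j, alU x U b f1 f2 e F2 F3 j = φ j (av x U f1 f2 F2) := by
    rintro (i | i | i) <;> rfl
  have hβ : ∀ j, beU x U b f1 f2 e F2 F3 j = φ j (qv x U f1 f2 F2) := by
    rintro (i | i | i) <;> rfl
  -- the six kinds of pairs
  have c11 : ∀ k k' : Fin m, k ≠ k' → ∀ y ∈ sp x F2 ⊓ U, b k y = 0 → b k' y = 0 → y = 0 :=
    fun k k' hk y hy h1 h2 => hU.edge2 F2 i2 v2 k k' hk y hy h1 h2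
  have c12 : ∀ (k : Fin m) (i : Fin 5), ∀ y ∈ sp x F2 ⊓ U, b k y = 0 →
      kap x F2 e i y = 0 → y = 0 :=
    fun k i y hy h1 h2 => hU.edger F2 i2 v2 k i y ⟨kap_zero_mem hS i2 he2 hy.1 h2, hy.2⟩ h1
  have c22 : ∀ (i i' : Fin 5), i ≠ i' → ∀ y ∈ sp x F2 ⊓ U, kap x F2 e i y = 0 →
      kap x F2 e i' y = 0 → y = 0 := by
    intro i i' hi y hy h1 h2
    have h3 : y ∈ spx x F2 {i, i'} ⊓ U := ⟨kap_zero_mem2 hS i2 he2 hy.1 h1 h2, hy.2⟩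
    rw [hU.zero F2 i2 v2 i i' hi] at h3
    exact (Submodule.mem_bot ℝ).1 h3
  have c13 : ∀ (k : Fin m) (j : Fin 5), ∀ y ∈ sp x F2 ⊓ U, b k y = 0 →
      kap x F3 e j y = 0 → y = 0 := by
    intro k j y hy h1 h2
    obtain ⟨s, hs⟩ := (kap_eq_zero_iff hS F3 i3 e he3 j y).1 h2
    have h5 : y - s • e ∈ U := Submodule.sub_mem _ hy.2 (Submodule.smul_mem _ _ hE.eU)
    have h0 := P3g4_e (P := sp x F2 ⊓ U ⊓ LinearMap.ker (b k)) (Q := spx x F3 {j} ⊓ U)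
      ⟨hy, LinearMap.mem_ker.2 h1⟩ ⟨hs, h5⟩ (hE.e6 F2 F3 i2 i3 v2 v3 k j)
    rw [h0, zero_smul, sub_zero] at hs
    exact hU.edger F3 i3 v3 k j y ⟨hs, hy.2⟩ h1
  have c23 : ∀ (i j : Fin 5), ∀ y ∈ sp x F2 ⊓ U, kap x F2 e i y = 0 →
      kap x F3 e j y = 0 → y = 0 := by
    intro i j y hy h1 h2
    have hs := kap_zero_mem hS i2 he2 hy.1 h1
    obtain ⟨s', hs'⟩ := (kap_eq_zero_iff hS F3 i3 e he3 j y).1 h2
    have h5 : y - s' • e ∈ U := Submodule.sub_mem _ hy.2 (Submodule.smul_mem _ _ hE.eU)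
    have h0' := P3g4_e (P := spx x F2 {i} ⊓ U) (Q := spx x F3 {j} ⊓ U) ⟨hs, hy.2⟩
      ⟨hs', h5⟩ (hE.e4 F2 F3 i2 i3 v2 v3 i j)
    rw [h0', zero_smul, sub_zero] at hs'
    have h8 : y ∈ spx x F2 {i} ⊓ spx x F3 {j} ⊓ U := ⟨⟨hs, hs'⟩, hy.2⟩
    rw [hpairs i j] at h8
    exact (Submodule.mem_bot ℝ).1 h8
  have c33 : ∀ (j j' : Fin 5), j ≠ j' → ∀ y ∈ sp x F2 ⊓ U, kap x F3 e j y = 0 →
      kap x F3 e j' y = 0 → y = 0 := by
    intro j j' hj y hy h1 h2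
    obtain ⟨s, hs⟩ := (kap_eq_zero_iff2 hS F3 i3 e he3 j j' y).1 ⟨h1, h2⟩
    have h5 : y - s • e ∈ U := Submodule.sub_mem _ hy.2 (Submodule.smul_mem _ _ hE.eU)
    have h6 : y - s • e ∈ spx x F3 {j, j'} ⊓ U := ⟨hs, h5⟩
    rw [hU.zero F3 i3 v3 j j' hj] at h6
    have h7 : s = 0 := P3g4_e' (Q := ⊥) hy.1 h6 bot_le he2
    rw [h7, zero_smul, sub_zero] at h6
    exact (Submodule.mem_bot ℝ).1 h6
  have key : ∀ j l, j ≠ l → ∀ y ∈ sp x F2 ⊓ U, φ j y = 0 → φ l y = 0 → y = 0 := by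
    rintro (i | i | i) (l | l | l) hne y hy hj hl
    · exact c11 i l (fun h => hne (by rw [h])) y hy hj hl
    · exact c12 i l y hy hj hl
    · exact c13 i l y hy hj hl
    · exact c12 l i y hy hl hj
    · exact c22 i l (fun h => hne (by rw [h])) y hy hj hl
    · exact c23 i l y hy hj hl
    · exact c13 l i y hy hl hj
    · exact c23 l i y hy hl hj
    · exact c33 i l (fun h => hne (by rw [h])) y hy hj hl
  intro j l hjl heq
  rw [hα, hα, hβ, hβ] at heq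
  obtain ⟨t0, t1, ht, hf, hg⟩ := P3g4_two heq
  have hy : t0 • av x U f1 f2 F2 + t1 • qv x U f1 f2 F2 ∈ sp x F2 ⊓ U :=
    Submodule.add_mem _ (Submodule.smul_mem _ _ haa.1) (Submodule.smul_mem _ _ hqq.1)
  have h0 := key j l hjl _ hy hf hg
  have hf1 := congrArg f1 h0
  have hf2 := congrArg f2 h0
  unfold av qv at hf1 hf2
  rw [map_add, map_smul, map_smul, haa.2.1, hqq.2.1, map_zero] at hf1
  rw [map_add, map_smul, map_smul, haa.2.2, hqq.2.2, map_zero] at hf2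
  simp only [smul_eq_mul, mul_one, mul_zero, add_zero, zero_add] at hf1 hf2
  rcases ht with ht | ht
  · exact ht hf1
  · exact ht hf2

end KS13
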