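import Pool.Agent.LibKS13.PU1
import Pool.Agent.LibKS13.PU2
import Pool.Agent.LibKS13.PU3

/-!
# KS13 PUg: PUGood exists (assembly)
-/

open Finset Function
open scoped Classical

namespace KS13

open KS37

theorem pu_good {E V : Type} [AddCommGroup E] [Module ℝ E] [Fintype V] {x : V → E}
    {T : (Fin 5 → V) → Prop} (hS : Sys 5 x T)
    {m : ℕ} {U : Submodule ℝ E} {A : Finset V}
    {b : Fin m → Module.Dual ℝ E} (hU : UH x U A b) :
    ∃ f1 f2 e, PUGood x U A b f1 f2 e := by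
  obtain ⟨f1, f2, e, hE⟩ := pu_exists hS hU
  exact ⟨f1, f2, e, hE.eU, hE.pos, hE.ridge, hE.edge, hE.dbl, hE.iso, hE.enot,
    fun F hF hA k => pu_kap1 hS hE F hF hA k,
    fun F F' hF hF' hA hA' j => pu_kapq hS hE F F' hF hF' hA hA' j,
    fun a B2 B3 hD => pu_hq hS hE a B2 B3 hD,
    fun a B2 B3 hD => pu_nd hS hU hE a B2 B3 hD⟩

end KS13
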