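import Pool.Agent.LibKS13.Cd

/-!
# KS13 row R1: the two signs of g y
Live: F2 = cd c B2, F3 = cd c B3; W = WW x B1 F2 F3, Iso2 W g f: hR.iso (sets univ.image B1 = vx B1 ∅ etc.; `adm_cd`, `sp_vx`, cards 4+5+5 = 14). y ∈ W (cones), y ≠ 0 (independent vectors, positive coefficients).
g y ≠ 0: otherwise f y g(x c) = 0, f y = 0, y = 0. If g y > 0: (g y)⁻¹ y has g = 1, f = f y/g y = f(x c)/g(x c) = th, so = aR + th • qR (`solv_unique`); all functionals are positive at it: b1 k (`dual_cone`), kap x F2 e i, kap x F3 e i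
(`cone_iff_kap`, hR.enot), linear in t. If g y < 0: the same for -g, -f (rh_neg or directly): (-g) y > 0, th x (-g) (-f) c = th x g f c.
-/

open Finset Function
open scoped Classical

namespace KS13

open KS37

private theorem R1_pos {E V : Type} [AddCommGroup E] [Module ℝ E] [Fintype V] {x : V → E}
    {T : (Fin 5 → V) → Prop} (hS : Sys 5 x T)
    {g f : Module.Dual ℝ E} {e : E} (hR : RH x g f e)
    (B1 : Fin 4 → V) (hB : Injective B1) (b1 : Fin 4 → Module.Dual ℝ E) (hb : DualB x B1 b1)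
    (c : V) (B2 B3 : Fin 4 → V) (hL : LiveU T (Finset.univ.image B1) c B2 B3) (y : E)
    (hy : f y * g (x c) = f (x c) * g y) (h1 : Cone x B1 y) (h2 : Cone x (cd c B2) y)
    (h3 : Cone x (cd c B3) y) (hg : 0 < g y) :
    ∀ j, 0 < alR x g f e b1 B1 (cd c B2) (cd c B3) j +
      beR x g f e b1 B1 (cd c B2) (cd c B3) j * th x g f c := by
  have hD : Dist5 (Finset.univ.image B1) c B2 B3 := hL.2.2
  have hF2 : Injective (cd c B2) := hD.f2.1
  have hF3 : Injective (cd c B3) := hD.f3.1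
  have c1 := (dual_cone hb y).1 h1
  have c2 := (cone_iff_kap hS (cd c B2) hF2 e (hR.enot _ hF2) y).1 h2
  have c3 := (cone_iff_kap hS (cd c B3) hF3 e (hR.enot _ hF3) y).1 h3
  have hiso : Iso2 (WW x B1 (cd c B2) (cd c B3)) g f := by
    have h := hR.iso (vx B1 ∅) (vx (cd c B2) ∅) (vx (cd c B3) ∅) (adm_cd (le_refl 4) hD ∅ ∅ ∅)
      (by rw [card_vx hB, card_vx hF2, card_vx hF3]; simp only [Finset.card_empty])
    unfold WW
    rw [sp_vx, sp_vx, sp_vx]
    exact h
  have hW : (g y)⁻¹ • y ∈ WW x B1 (cd c B2) (cd c B3) :=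
    Submodule.smul_mem _ _ ⟨⟨c1.1, c2.1⟩, c3.1⟩
  have hgx : g (x c) ≠ 0 := hR.gx c
  have e1 : g ((g y)⁻¹ • y) = 1 := by
    rw [map_smul, smul_eq_mul, inv_mul_cancel₀ hg.ne']
  have e2 : f ((g y)⁻¹ • y) = th x g f c := by
    rw [map_smul, smul_eq_mul]
    unfold th
    rw [eq_div_iff hgx, mul_assoc, hy]
    field_simp
  have e3 : (g y)⁻¹ • y = aR x g f B1 (cd c B2) (cd c B3) +
      th x g f c • qR x g f B1 (cd c B2) (cd c B3) := by
    have h := solv_unique hiso hW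
    rw [e1, e2, one_smul] at h
    exact h
  have key : ∀ φ : Module.Dual ℝ E, 0 < φ y → 0 < φ (aR x g f B1 (cd c B2) (cd c B3)) +
      φ (qR x g f B1 (cd c B2) (cd c B3)) * th x g f c := by
    intro φ hφ
    have h : φ ((g y)⁻¹ • y) = (g y)⁻¹ * φ y := by rw [map_smul, smul_eq_mul]
    rw [e3, map_add, map_smul, smul_eq_mul] at h
    rw [mul_comm (φ (qR x g f B1 (cd c B2) (cd c B3))), h]
    exact mul_pos (inv_pos.2 hg) hφ
  intro j
  rcases j with k | i | i
  · exact key (b1 k) (c1.2 k)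
  · exact key (kap x (cd c B2) e i) (c2.2 i)
  · exact key (kap x (cd c B3) e i) (c3.2 i)

theorem obr_le {E V : Type} [AddCommGroup E] [Module ℝ E] [Fintype V] {x : V → E}
    {T : (Fin 5 → V) → Prop} (hS : Sys 5 x T)
    {g f : Module.Dual ℝ E} {e : E} (hR : RH x g f e) (hR' : RH x (-g) (-f) e)
    (B1 : Fin 4 → V) (hB : Injective B1) (b1 : Fin 4 → Module.Dual ℝ E) (hb : DualB x B1 b1) :
    OBR x T g f B1 ≤ OBP x T g f e B1 b1 + OBP x T (-g) (-f) e B1 b1 := by
  unfold OBR OBP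
  rw [← Finset.sum_add_distrib]
  refine Finset.sum_le_sum fun c _ => ?_
  rw [← Finset.sum_add_distrib]
  refine Finset.sum_le_sum fun B2 _ => ?_
  rw [← Finset.sum_add_distrib]
  refine Finset.sum_le_sum fun B3 _ => ?_
  refine le_trans (ind_mono ?_) (ind_or_le _ _)
  rintro ⟨hL, y, hy, h1, h2, h3⟩
  have hD : Dist5 (Finset.univ.image B1) c B2 B3 := hL.2.2
  rcases lt_trichotomy (g y) 0 with hg | hg | hg
  · refine Or.inr ⟨hL, ?_⟩
    refine R1_pos hS hR' B1 hB b1 hb c B2 B3 hL y ?_ h1 h2 h3 ?_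
    · simp only [LinearMap.neg_apply]
      linarith
    · simp only [LinearMap.neg_apply]
      linarith
  · exfalso
    have hF2 : Injective (cd c B2) := hD.f2.1
    have hF3 : Injective (cd c B3) := hD.f3.1
    have hiso := hR.iso (vx B1 ∅) (vx (cd c B2) ∅) (vx (cd c B3) ∅)
      (adm_cd (le_refl 4) hD ∅ ∅ ∅)
      (by rw [card_vx hB, card_vx hF2, card_vx hF3]; simp only [Finset.card_empty])
    rw [← sp_vx, ← sp_vx, ← sp_vx] at hiso
    have c1 := (dual_cone hb y).1 h1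
    have c2 := (cone_iff_kap hS (cd c B2) hF2 e (hR.enot _ hF2) y).1 h2
    have c3 := (cone_iff_kap hS (cd c B3) hF3 e (hR.enot _ hF3) y).1 h3
    have hf : f y = 0 := by
      rw [hg, mul_zero] at hy
      exact (mul_eq_zero.1 hy).resolve_right (hR.gx c)
    have h0 : y = 0 := hiso.1 y ⟨⟨c1.1, c2.1⟩, c3.1⟩ hg hf
    have := c1.2 0
    rw [h0, map_zero] at this
    exact lt_irrefl _ this
  · exact Or.inl ⟨hL, R1_pos hS hR B1 hB b1 hb c B2 B3 hL y hy h1 h2 h3 hg⟩

end KS13
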