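import Pool.Agent.LibKS13.Cd
import Pool.Agent.LibKS37.P3g4

/-!
# KS13 row R2: non-degeneracy of the rotating sweep
D : Dist5 (univ.image B1) c B2 B3, F2 = cd c B2, F3 = cd c B3, W = WW x B1 F2 F3; a = aR: g = 1, f = 0; q = qR: g = 0, f = 1 (`solv_spec`, hR.iso with `adm_cd`). The functionals φ_j (b1 k, kap x F2 e i, kap x F3 e i) vanish at y ∈ W iff
y ∈ spx x B1 {k} (`dual_spx`), spx x F2 {i}, spx x F3 {i} (`kap_zero_mem`). r2_al: φ_j a = 0: a in a line with sum 13 and f a = 0: hR.f13: a = 0, but g a = 1. r2_be: φ_j q = 0: hR.g13: q = 0, but f q = 1.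
r2_th: y = a + th q: g y = 1, f y = th = f(x c)/g(x c), so f y g(x c) = f(x c) g y: hR.th (c ∉ vx B1 _): y = 0, but g y = 1. r2_nd: two functionals vanish at y = τ0 a + τ1 q ≠ 0 (`P3g4_two`): y is in an intersection with sum 12
(two vertices removed: `gf_cd`, `bot_of_finrank`): y = 0, contradiction (g y = τ0, f y = τ1).
-/

open Finset Function
open scoped Classical

namespace KS13

open KS37

section
variable {E V : Type} [AddCommGroup E] [Module ℝ E] [Fintype V] {x : V → E}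
    {T : (Fin 5 → V) → Prop}

/-- the coordinate functionals. -/
noncomputable def R2_phi (x : V → E) (e : E) (b1 : Fin 4 → Module.Dual ℝ E)
    (F2 F3 : Fin 5 → V) : Fin 4 ⊕ (Fin 5 ⊕ Fin 5) → (E →ₗ[ℝ] ℝ) :=
  Sum.elim (fun k => b1 k) (Sum.elim (fun i => kap x F2 e i) (fun i => kap x F3 e i))

theorem R2_al (g f : Module.Dual ℝ E) (e : E) (B1 : Fin 4 → V) (b1 : Fin 4 → Module.Dual ℝ E)
    (F2 F3 : Fin 5 → V) (j : Fin 4 ⊕ (Fin 5 ⊕ Fin 5)) :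
    alR x g f e b1 B1 F2 F3 j = R2_phi x e b1 F2 F3 j (aR x g f B1 F2 F3) := by
  rcases j with k | i | i <;> rfl

theorem R2_be (g f : Module.Dual ℝ E) (e : E) (B1 : Fin 4 → V) (b1 : Fin 4 → Module.Dual ℝ E)
    (F2 F3 : Fin 5 → V) (j : Fin 4 ⊕ (Fin 5 ⊕ Fin 5)) :
    beR x g f e b1 B1 F2 F3 j = R2_phi x e b1 F2 F3 j (qR x g f B1 F2 F3) := by
  rcases j with k | i | i <;> rfl

/-- the plane of a live object. -/
theorem R2_iso {g f : Module.Dual ℝ E} {e : E} (hR : RH x g f e) (B1 : Fin 4 → V)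
    (hB : Injective B1) (c : V) (B2 B3 : Fin 4 → V)
    (hD : Dist5 (Finset.univ.image B1) c B2 B3) :
    Iso2 (WW x B1 (cd c B2) (cd c B3)) g f := by
  have h := hR.iso (vx B1 ∅) (vx (cd c B2) ∅) (vx (cd c B3) ∅) (adm_cd le_rfl hD ∅ ∅ ∅) (by
    rw [card_vx hB, card_vx hD.f2.1, card_vx hD.f3.1]
    rfl)
  unfold WW
  rw [sp_vx, sp_vx, sp_vx]
  exact h

theorem R2_aR {g f : Module.Dual ℝ E} {e : E} (hR : RH x g f e) (B1 : Fin 4 → V)
    (hB : Injective B1) (c : V) (B2 B3 : Fin 4 → V)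
    (hD : Dist5 (Finset.univ.image B1) c B2 B3) :
    aR x g f B1 (cd c B2) (cd c B3) ∈ WW x B1 (cd c B2) (cd c B3) ∧
      g (aR x g f B1 (cd c B2) (cd c B3)) = 1 ∧ f (aR x g f B1 (cd c B2) (cd c B3)) = 0 :=
  solv_spec (R2_iso hR B1 hB c B2 B3 hD) 1 0

theorem R2_qR {g f : Module.Dual ℝ E} {e : E} (hR : RH x g f e) (B1 : Fin 4 → V)
    (hB : Injective B1) (c : V) (B2 B3 : Fin 4 → V)
    (hD : Dist5 (Finset.univ.image B1) c B2 B3) :
    qR x g f B1 (cd c B2) (cd c B3) ∈ WW x B1 (cd c B2) (cd c B3) ∧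
      g (qR x g f B1 (cd c B2) (cd c B3)) = 0 ∧ f (qR x g f B1 (cd c B2) (cd c B3)) = 1 :=
  solv_spec (R2_iso hR B1 hB c B2 B3 hD) 0 1

/-- one functional vanishes: a line with sum 13. -/
theorem R2_one (hS : Sys 5 x T) {g f : Module.Dual ℝ E} {e : E} (hR : RH x g f e)
    (B1 : Fin 4 → V) (hB : Injective B1) {b1 : Fin 4 → Module.Dual ℝ E} (hb : DualB x B1 b1)
    (c : V) (B2 B3 : Fin 4 → V) (hD : Dist5 (Finset.univ.image B1) c B2 B3)
    (j : Fin 4 ⊕ (Fin 5 ⊕ Fin 5)) {y : E} (hy : y ∈ WW x B1 (cd c B2) (cd c B3))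
    (h0 : R2_phi x e b1 (cd c B2) (cd c B3) j y = 0) :
    ∃ A1 A2 A3 : Finset V, Adm A1 A2 A3 ∧ A1.card + A2.card + A3.card = 13 ∧ c ∉ A1 ∧
      y ∈ vs x (A1 : Set V) ⊓ vs x (A2 : Set V) ⊓ vs x (A3 : Set V) := by
  obtain ⟨⟨hy1, hy2⟩, hy3⟩ := hy
  have hc : ∀ I : Finset (Fin 4), c ∉ vx B1 I := by
    intro I h
    obtain ⟨i, _, hi⟩ := mem_vx.1 h
    exact hD.2.2.2.2.2.1 (Finset.mem_image.2 ⟨i, Finset.mem_univ _, hi⟩)
  have e2 := hR.enot _ hD.f2.1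
  have e3 := hR.enot _ hD.f3.1
  rcases j with k | i | i
  · refine ⟨vx B1 {k}, vx (cd c B2) ∅, vx (cd c B3) ∅, adm_cd le_rfl hD _ _ _, ?_, hc _, ?_⟩
    · rw [card_vx hB, card_vx hD.f2.1, card_vx hD.f3.1, Finset.card_singleton]
      rfl
    · rw [← sp_vx, ← sp_vx, ← spx_vx1]
      exact ⟨⟨dual_spx hb hy1 {k} (by
        rintro l rfl
        exact h0), hy2⟩, hy3⟩
  · refine ⟨vx B1 ∅, vx (cd c B2) {i}, vx (cd c B3) ∅, adm_cd le_rfl hD _ _ _, ?_, hc _, ?_⟩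
    · rw [card_vx hB, card_vx hD.f2.1, card_vx hD.f3.1, Finset.card_singleton]
      rfl
    · rw [← sp_vx, ← sp_vx, ← spx_vx1]
      exact ⟨⟨hy1, kap_zero_mem hS hD.f2.1 e2 hy2 h0⟩, hy3⟩
  · refine ⟨vx B1 ∅, vx (cd c B2) ∅, vx (cd c B3) {i}, adm_cd le_rfl hD _ _ _, ?_, hc _, ?_⟩
    · rw [card_vx hB, card_vx hD.f2.1, card_vx hD.f3.1, Finset.card_singleton]
      rfl
    · rw [← sp_vx, ← sp_vx, ← spx_vx1]
      exact ⟨⟨hy1, hy2⟩, kap_zero_mem hS hD.f3.1 e3 hy3 h0⟩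

theorem R2_bot [Module.Finite ℝ E] {P Q : Submodule ℝ E} (h : Module.finrank ℝ P = 0)
    {y : E} (hPQ : Q ≤ P) (hy : y ∈ Q) : y = 0 := by
  have h1 := hPQ hy
  rw [bot_of_finrank h] at h1
  exact (Submodule.mem_bot ℝ).1 h1

/-- two functionals vanish: sum 12. -/
theorem R2_two (hS : Sys 5 x T) (hF : GF x) {g f : Module.Dual ℝ E} {e : E} (hR : RH x g f e)
    (B1 : Fin 4 → V) (hB : Injective B1) {b1 : Fin 4 → Module.Dual ℝ E} (hb : DualB x B1 b1)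
    (c : V) (B2 B3 : Fin 4 → V) (hD : Dist5 (Finset.univ.image B1) c B2 B3)
    (j l : Fin 4 ⊕ (Fin 5 ⊕ Fin 5)) (hjl : j ≠ l) {y : E}
    (hy : y ∈ WW x B1 (cd c B2) (cd c B3))
    (h0 : R2_phi x e b1 (cd c B2) (cd c B3) j y = 0)
    (h1 : R2_phi x e b1 (cd c B2) (cd c B3) l y = 0) : y = 0 := by
  haveI := finiteDimensional_of_sys hS
  obtain ⟨⟨hy1, hy2⟩, hy3⟩ := hy
  have e2 := hR.enot _ hD.f2.1
  have e3 := hR.enot _ hD.f3.1
  have s0 : ∀ {s : ℕ} (B : Fin s → V), sp x B = spx x B ((∅ : Finset (Fin s)) : Set (Fin s)) :=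
    fun B => by rw [sp_vx, spx_vx]
  have s1 : ∀ {s : ℕ} (B : Fin s → V) (i : Fin s),
      spx x B {i} = spx x B (({i} : Finset (Fin s)) : Set (Fin s)) :=
    fun B i => by rw [Finset.coe_singleton]
  have s2 : ∀ {s : ℕ} (B : Fin s → V) (i i' : Fin s),
      spx x B {i, i'} = spx x B (({i, i'} : Finset (Fin s)) : Set (Fin s)) :=
    fun B i i' => by rw [Finset.coe_insert, Finset.coe_singleton]
  have key : ∀ (I1 : Finset (Fin 4)) (I2 I3 : Finset (Fin 5)),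
      I1.card + I2.card + I3.card = 2 → y ∈ spx x B1 (I1 : Set (Fin 4)) →
      y ∈ spx x (cd c B2) (I2 : Set (Fin 5)) → y ∈ spx x (cd c B3) (I3 : Set (Fin 5)) →
      y = 0 := by
    intro I1 I2 I3 hc a1 a2 a3
    have h := gf_cd hF le_rfl hB hD I1 I2 I3
    have h' : Module.finrank ℝ (spx x B1 (I1 : Set (Fin 4)) ⊓
        spx x (cd c B2) (I2 : Set (Fin 5)) ⊓ spx x (cd c B3) (I3 : Set (Fin 5)) :
        Submodule ℝ E) = 0 := by omega
    exact R2_bot h' le_rfl ⟨⟨a1, a2⟩, a3⟩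
  have dk : ∀ k, b1 k y = 0 → y ∈ spx x B1 (({k} : Finset (Fin 4)) : Set (Fin 4)) := by
    intro k hk
    refine dual_spx hb hy1 _ ?_
    intro l hl
    rw [Finset.mem_coe, Finset.mem_singleton] at hl
    rw [hl]; exact hk
  have d2 : ∀ i, kap x (cd c B2) e i y = 0 →
      y ∈ spx x (cd c B2) (({i} : Finset (Fin 5)) : Set (Fin 5)) := fun i hi => by
    rw [← s1]; exact kap_zero_mem hS hD.f2.1 e2 hy2 hi
  have d3 : ∀ i, kap x (cd c B3) e i y = 0 →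
      y ∈ spx x (cd c B3) (({i} : Finset (Fin 5)) : Set (Fin 5)) := fun i hi => by
    rw [← s1]; exact kap_zero_mem hS hD.f3.1 e3 hy3 hi
  have z1 := hy1
  have z2 := hy2
  have z3 := hy3
  rw [s0] at z1 z2 z3
  rcases j with k | i | i <;> rcases l with k' | i' | i'
  · have hne : k ≠ k' := fun h => hjl (by rw [h])
    refine key {k, k'} ∅ ∅ (by rw [Finset.card_pair hne]; rfl) ?_ z2 z3
    refine dual_spx hb hy1 _ ?_
    intro l hl
    rw [Finset.mem_coe, Finset.mem_insert, Finset.mem_singleton] at hl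
    rcases hl with rfl | rfl
    · exact h0
    · exact h1
  · exact key {k} {i'} ∅ rfl (dk k h0) (d2 i' h1) z3
  · exact key {k} ∅ {i'} rfl (dk k h0) z2 (d3 i' h1)
  · exact key {k'} {i} ∅ rfl (dk k' h1) (d2 i h0) z3
  · have hne : i ≠ i' := fun h => hjl (by rw [h])
    refine key ∅ {i, i'} ∅ (by rw [Finset.card_pair hne]; rfl) z1 ?_ z3
    rw [← s2]
    exact kap_zero_mem2 hS hD.f2.1 e2 hy2 h0 h1
  · exact key ∅ {i} {i'} rfl z1 (d2 i h0) (d3 i' h1)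
  · exact key {k'} ∅ {i} rfl (dk k' h1) z2 (d3 i h0)
  · exact key ∅ {i'} {i} rfl z1 (d2 i' h1) (d3 i h0)
  · have hne : i ≠ i' := fun h => hjl (by rw [h])
    refine key ∅ ∅ {i, i'} (by rw [Finset.card_pair hne]; rfl) z1 z2 ?_
    rw [← s2]
    exact kap_zero_mem2 hS hD.f3.1 e3 hy3 h0 h1

theorem r2_al (hS : Sys 5 x T) {g f : Module.Dual ℝ E} {e : E}
    (hR : RH x g f e) (B1 : Fin 4 → V) (hB : Injective B1) {b1 : Fin 4 → Module.Dual ℝ E}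
    (hb : DualB x B1 b1) (c : V) (B2 B3 : Fin 4 → V) (hD : Dist5 (Finset.univ.image B1) c B2 B3)
    (j : Fin 4 ⊕ (Fin 5 ⊕ Fin 5)) : alR x g f e b1 B1 (cd c B2) (cd c B3) j ≠ 0 := by
  intro h0
  rw [R2_al] at h0
  obtain ⟨a1, a2, a3⟩ := R2_aR hR B1 hB c B2 B3 hD
  obtain ⟨A1, A2, A3, hA, hs, hc, hy⟩ := R2_one hS hR B1 hB hb c B2 B3 hD j a1 h0
  have h1 := hR.f13 A1 A2 A3 hA hs _ hy a3
  rw [h1, map_zero] at a2
  exact zero_ne_one a2

theorem r2_be (hS : Sys 5 x T) {g f : Module.Dual ℝ E} {e : E}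
    (hR : RH x g f e) (B1 : Fin 4 → V) (hB : Injective B1) {b1 : Fin 4 → Module.Dual ℝ E}
    (hb : DualB x B1 b1) (c : V) (B2 B3 : Fin 4 → V) (hD : Dist5 (Finset.univ.image B1) c B2 B3)
    (j : Fin 4 ⊕ (Fin 5 ⊕ Fin 5)) : beR x g f e b1 B1 (cd c B2) (cd c B3) j ≠ 0 := by
  intro h0
  rw [R2_be] at h0
  obtain ⟨a1, a2, a3⟩ := R2_qR hR B1 hB c B2 B3 hD
  obtain ⟨A1, A2, A3, hA, hs, hc, hy⟩ := R2_one hS hR B1 hB hb c B2 B3 hD j a1 h0
  have h1 := hR.g13 A1 A2 A3 hA hs _ hy a2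
  rw [h1, map_zero] at a3
  exact zero_ne_one a3

theorem r2_th (hS : Sys 5 x T) {g f : Module.Dual ℝ E} {e : E}
    (hR : RH x g f e) (B1 : Fin 4 → V) (hB : Injective B1) {b1 : Fin 4 → Module.Dual ℝ E}
    (hb : DualB x B1 b1) (c : V) (B2 B3 : Fin 4 → V) (hD : Dist5 (Finset.univ.image B1) c B2 B3)
    (j : Fin 4 ⊕ (Fin 5 ⊕ Fin 5)) : alR x g f e b1 B1 (cd c B2) (cd c B3) j +
      beR x g f e b1 B1 (cd c B2) (cd c B3) j * KS13.th x g f c ≠ 0 := by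
  intro h0
  rw [R2_al, R2_be] at h0
  obtain ⟨a1, a2, a3⟩ := R2_aR hR B1 hB c B2 B3 hD
  obtain ⟨q1, q2, q3⟩ := R2_qR hR B1 hB c B2 B3 hD
  have h0' : R2_phi x e b1 (cd c B2) (cd c B3) j (aR x g f B1 (cd c B2) (cd c B3) +
      KS13.th x g f c • qR x g f B1 (cd c B2) (cd c B3)) = 0 := by
    rw [map_add, map_smul, smul_eq_mul, mul_comm (KS13.th x g f c)]
    exact h0
  obtain ⟨A1, A2, A3, hA, hs, hc, hy⟩ := R2_one hS hR B1 hB hb c B2 B3 hD j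
    (Submodule.add_mem _ a1 (Submodule.smul_mem _ _ q1)) h0'
  have hg : g (aR x g f B1 (cd c B2) (cd c B3) +
      KS13.th x g f c • qR x g f B1 (cd c B2) (cd c B3)) = 1 := by
    rw [map_add, map_smul, a2, q2, smul_zero, add_zero]
  have hf : f (aR x g f B1 (cd c B2) (cd c B3) +
      KS13.th x g f c • qR x g f B1 (cd c B2) (cd c B3)) = KS13.th x g f c := by
    rw [map_add, map_smul, a3, q3, smul_eq_mul, mul_one, zero_add]
  have h1 := hR.th A1 A2 A3 hA hs c hc _ hy (by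
    rw [hg, hf, mul_one]
    unfold KS13.th
    rw [div_mul_cancel₀ _ (hR.gx c)])
  rw [h1, map_zero] at hg
  exact zero_ne_one hg

theorem r2_nd (hS : Sys 5 x T) (hF : GF x) {g f : Module.Dual ℝ E} {e : E}
    (hR : RH x g f e) (B1 : Fin 4 → V) (hB : Injective B1) {b1 : Fin 4 → Module.Dual ℝ E}
    (hb : DualB x B1 b1) (c : V) (B2 B3 : Fin 4 → V)
    (hD : Dist5 (Finset.univ.image B1) c B2 B3) :
    Nondeg (alR x g f e b1 B1 (cd c B2) (cd c B3)) (beR x g f e b1 B1 (cd c B2) (cd c B3)) := by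
  intro j l hjl heq
  rw [R2_al, R2_al, R2_be, R2_be] at heq
  obtain ⟨a1, a2, a3⟩ := R2_aR hR B1 hB c B2 B3 hD
  obtain ⟨q1, q2, q3⟩ := R2_qR hR B1 hB c B2 B3 hD
  obtain ⟨t0, t1, ht, hf, hg⟩ := P3g4_two heq
  have h0 := R2_two hS hF hR B1 hB hb c B2 B3 hD j l hjl
    (Submodule.add_mem _ (Submodule.smul_mem _ t0 a1) (Submodule.smul_mem _ t1 q1)) hf hg
  have hg1 := congrArg g h0
  have hf1 := congrArg f h0
  rw [map_add, map_smul, map_smul, a2, q2, map_zero] at hg1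
  rw [map_add, map_smul, map_smul, a3, q3, map_zero] at hf1
  simp only [smul_eq_mul, mul_one, mul_zero, add_zero, zero_add] at hg1 hf1
  rcases ht with ht | ht
  · exact ht hg1
  · exact ht hf1

end

end KS13
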