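import Pool.Agent.LibKS13.R2
import Pool.Agent.LibKS13.O4

/-!
# KS13 row R3: the rotating sweep summed up
For a live object `oi_btw` with alR, beR, t1 = th x g f c (≠ 0: hR.fx, hR.gx): ind(∀ 0 < value at th) = ind(∀ 0 < alR) + Σ_j ind(Ev ∧ Btw)(sg·eps). The terms j = inl k, inr (inl 0), inr (inr 0) are ≤ ind(Ev) (|sg|, |eps| ≤ 1, see
KS37 P4sum `P4sum_abs`), the others are kept (WR). Sum over (c,B2,B3), bound the sums of the kept ones by their absolute values.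
-/

open Finset Function
open scoped Classical

namespace KS13

open KS37

theorem R3_abs {J : Type} (α β : J → ℝ) (σ0 σ1 : ℝ) (j : J) (P Q R : Prop) :
    ind P * (ind (Q ∧ R) * (sg (β j) * eps α β σ0 σ1 j)) ≤ ind (P ∧ Q) := by
  have h1 : |sg (β j) * eps α β σ0 σ1 j| ≤ 1 := by
    unfold eps
    rw [abs_mul, abs_mul]
    have a1 := abs_sg_le (β j)
    have a2 := abs_sg_le (σ0 + σ1 * (-α j / β j))
    have a3 := abs_sg_le σ1
    exact mul_le_one₀ a1 (by positivity) (mul_le_one₀ a2 (abs_nonneg _) a3)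
  have h3 : sg (β j) * eps α β σ0 σ1 j ≤ 1 := (le_abs_self _).trans h1
  have h4 : ind (Q ∧ R) ≤ ind Q := ind_mono fun h => h.1
  calc ind P * (ind (Q ∧ R) * (sg (β j) * eps α β σ0 σ1 j)) ≤ ind P * (ind (Q ∧ R) * 1) :=
        mul_le_mul_of_nonneg_left (mul_le_mul_of_nonneg_left h3 (ind_nonneg _)) (ind_nonneg _)
    _ = ind P * ind (Q ∧ R) := by rw [mul_one]
    _ ≤ ind P * ind Q := mul_le_mul_of_nonneg_left h4 (ind_nonneg _)
    _ = ind (P ∧ Q) := (ind_and _ _).symm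

theorem R3_one {E V : Type} [AddCommGroup E] [Module ℝ E] [Fintype V] {x : V → E}
    {T : (Fin 5 → V) → Prop} (hS : Sys 5 x T)
    (hF : GF x) {g f : Module.Dual ℝ E} {e : E} (hR : RH x g f e)
    (B1 : Fin 4 → V) (hB : Injective B1) {b1 : Fin 4 → Module.Dual ℝ E} (hb : DualB x B1 b1)
    (c : V) (B2 B3 : Fin 4 → V) :
    ind (LiveU T (Finset.univ.image B1) c B2 B3 ∧
      ∀ j, 0 < alR x g f e b1 B1 (cd c B2) (cd c B3) j +
        beR x g f e b1 B1 (cd c B2) (cd c B3) j * th x g f c) ≤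
      ind (LiveU T (Finset.univ.image B1) c B2 B3 ∧
          ∀ j, 0 < alR x g f e b1 B1 (cd c B2) (cd c B3) j) +
      ∑ j : Fin 4, WR x T g f e B1 b1 c B2 B3 (Sum.inr (Sum.inl j.succ)) +
      ∑ j : Fin 4, WR x T g f e B1 b1 c B2 B3 (Sum.inr (Sum.inr j.succ)) +
      ∑ k : Fin 4, ind (LiveU T (Finset.univ.image B1) c B2 B3 ∧
        Ev (alR x g f e b1 B1 (cd c B2) (cd c B3)) (beR x g f e b1 B1 (cd c B2) (cd c B3))
          (Sum.inl k)) +
      ind (LiveU T (Finset.univ.image B1) c B2 B3 ∧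
        Ev (alR x g f e b1 B1 (cd c B2) (cd c B3)) (beR x g f e b1 B1 (cd c B2) (cd c B3))
          (Sum.inr (Sum.inl 0))) +
      ind (LiveU T (Finset.univ.image B1) c B2 B3 ∧
        Ev (alR x g f e b1 B1 (cd c B2) (cd c B3)) (beR x g f e b1 B1 (cd c B2) (cd c B3))
          (Sum.inr (Sum.inr 0))) := by
  by_cases hL : LiveU T (Finset.univ.image B1) c B2 B3
  swap
  · rw [ind_false fun h => hL h.1]
    have h2 : ∀ j, WR x T g f e B1 b1 c B2 B3 j = 0 := by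
      intro j
      unfold WR
      rw [ind_false hL, zero_mul]
    simp only [h2, Finset.sum_const_zero]
    have h3 : 0 ≤ ∑ k : Fin 4, ind (LiveU T (Finset.univ.image B1) c B2 B3 ∧
        Ev (alR x g f e b1 B1 (cd c B2) (cd c B3)) (beR x g f e b1 B1 (cd c B2) (cd c B3))
          (Sum.inl k)) := Finset.sum_nonneg fun _ _ => ind_nonneg _
    have h4 := ind_nonneg (LiveU T (Finset.univ.image B1) c B2 B3 ∧
        Ev (alR x g f e b1 B1 (cd c B2) (cd c B3)) (beR x g f e b1 B1 (cd c B2) (cd c B3))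
          (Sum.inr (Sum.inl 0)))
    have h5 := ind_nonneg (LiveU T (Finset.univ.image B1) c B2 B3 ∧
        Ev (alR x g f e b1 B1 (cd c B2) (cd c B3)) (beR x g f e b1 B1 (cd c B2) (cd c B3))
          (Sum.inr (Sum.inr 0)))
    have h6 := ind_nonneg (LiveU T (Finset.univ.image B1) c B2 B3 ∧
          ∀ j, 0 < alR x g f e b1 B1 (cd c B2) (cd c B3) j)
    linarith
  have hD : Dist5 (Finset.univ.image B1) c B2 B3 := hL.2.2
  have hth : th x g f c ≠ 0 := div_ne_zero (hR.fx c) (hR.gx c)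
  have hoi := oi_btw (alR x g f e b1 B1 (cd c B2) (cd c B3))
    (beR x g f e b1 B1 (cd c B2) (cd c B3)) (th x g f c) hth
    (r2_al hS hR B1 hB hb c B2 B3 hD) (r2_be hS hR B1 hB hb c B2 B3 hD)
    (r2_th hS hR B1 hB hb c B2 B3 hD) (r2_nd hS hF hR B1 hB hb c B2 B3 hD)
  rw [Fintype.sum_sum_type, Fintype.sum_sum_type, Fin.sum_univ_succ (n := 4),
    Fin.sum_univ_succ (n := 4)] at hoi
  have hW : ∀ j, WR x T g f e B1 b1 c B2 B3 j =
      ind (Ev (alR x g f e b1 B1 (cd c B2) (cd c B3)) (beR x g f e b1 B1 (cd c B2) (cd c B3)) j ∧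
        Btw (alR x g f e b1 B1 (cd c B2) (cd c B3)) (beR x g f e b1 B1 (cd c B2) (cd c B3))
          (th x g f c) j) *
      (sg (beR x g f e b1 B1 (cd c B2) (cd c B3) j) *
        eps (alR x g f e b1 B1 (cd c B2) (cd c B3)) (beR x g f e b1 B1 (cd c B2) (cd c B3)) 0 1 j) := by
    intro j
    unfold WR
    rw [ind_true hL, one_mul]
  simp only [← hW] at hoi
  have hle : ∀ j, WR x T g f e B1 b1 c B2 B3 j ≤ ind (LiveU T (Finset.univ.image B1) c B2 B3 ∧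
        Ev (alR x g f e b1 B1 (cd c B2) (cd c B3)) (beR x g f e b1 B1 (cd c B2) (cd c B3)) j) := by
    intro j
    unfold WR
    exact R3_abs _ _ _ _ j _ _ _
  have hle1 : ∑ k : Fin 4, WR x T g f e B1 b1 c B2 B3 (Sum.inl k) ≤
      ∑ k : Fin 4, ind (LiveU T (Finset.univ.image B1) c B2 B3 ∧
        Ev (alR x g f e b1 B1 (cd c B2) (cd c B3)) (beR x g f e b1 B1 (cd c B2) (cd c B3))
          (Sum.inl k)) := Finset.sum_le_sum fun k _ => hle (Sum.inl k)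
  have hle2 := hle (Sum.inr (Sum.inl 0))
  have hle3 := hle (Sum.inr (Sum.inr 0))
  have e1 : ind (LiveU T (Finset.univ.image B1) c B2 B3 ∧
      ∀ j, 0 < alR x g f e b1 B1 (cd c B2) (cd c B3) j +
        beR x g f e b1 B1 (cd c B2) (cd c B3) j * th x g f c) =
      ind (∀ j, 0 < alR x g f e b1 B1 (cd c B2) (cd c B3) j +
        beR x g f e b1 B1 (cd c B2) (cd c B3) j * th x g f c) := by
    rw [ind_and, ind_true hL, one_mul]
  have e2 : ind (LiveU T (Finset.univ.image B1) c B2 B3 ∧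
      ∀ j, 0 < alR x g f e b1 B1 (cd c B2) (cd c B3) j) =
      ind (∀ j, 0 < alR x g f e b1 B1 (cd c B2) (cd c B3) j) := by
    rw [ind_and, ind_true hL, one_mul]
  rw [e1, e2]
  linarith

theorem obp_le {E V : Type} [AddCommGroup E] [Module ℝ E] [Fintype V] {x : V → E}
    {T : (Fin 5 → V) → Prop} (hS : Sys 5 x T)
    (hF : GF x) {g f : Module.Dual ℝ E} {e : E} (hR : RH x g f e)
    (B1 : Fin 4 → V) (hB : Injective B1) {b1 : Fin 4 → Module.Dual ℝ E} (hb : DualB x B1 b1) :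
    OBP x T g f e B1 b1 ≤
      (∑ c : V, ∑ B2 : Fin 4 → V, ∑ B3 : Fin 4 → V,
        ind (LiveU T (Finset.univ.image B1) c B2 B3 ∧
          ∀ j, 0 < alR x g f e b1 B1 (cd c B2) (cd c B3) j)) +
      (∑ j : Fin 4, |∑ c : V, ∑ B2 : Fin 4 → V, ∑ B3 : Fin 4 → V,
        WR x T g f e B1 b1 c B2 B3 (Sum.inr (Sum.inl j.succ))|) +
      (∑ j : Fin 4, |∑ c : V, ∑ B2 : Fin 4 → V, ∑ B3 : Fin 4 → V,
        WR x T g f e B1 b1 c B2 B3 (Sum.inr (Sum.inr j.succ))|) +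
      (∑ k : Fin 4, EVR x T g f e B1 b1 (Sum.inl k)) +
      EVR x T g f e B1 b1 (Sum.inr (Sum.inl 0)) +
      EVR x T g f e B1 b1 (Sum.inr (Sum.inr 0)) := by
  have hswap : ∀ (G : Fin 4 → V → (Fin 4 → V) → (Fin 4 → V) → ℝ),
      ∑ a : V, ∑ B2 : Fin 4 → V, ∑ B3 : Fin 4 → V, ∑ j : Fin 4, G j a B2 B3 =
      ∑ j : Fin 4, ∑ a : V, ∑ B2 : Fin 4 → V, ∑ B3 : Fin 4 → V, G j a B2 B3 := by
    intro G
    have h1 : ∀ (a : V) (B2 : Fin 4 → V), ∑ B3 : Fin 4 → V, ∑ j : Fin 4, G j a B2 B3 =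
        ∑ j : Fin 4, ∑ B3 : Fin 4 → V, G j a B2 B3 := fun a B2 => Finset.sum_comm
    have h2 : ∀ a : V, ∑ B2 : Fin 4 → V, ∑ j : Fin 4, ∑ B3 : Fin 4 → V, G j a B2 B3 =
        ∑ j : Fin 4, ∑ B2 : Fin 4 → V, ∑ B3 : Fin 4 → V, G j a B2 B3 := fun a => Finset.sum_comm
    simp only [h1, h2]
    exact Finset.sum_comm
  have hsum : OBP x T g f e B1 b1 ≤ _ :=
    Finset.sum_le_sum fun a _ => Finset.sum_le_sum fun B2 _ => Finset.sum_le_sum fun B3 _ =>
      R3_one hS hF hR B1 hB hb a B2 B3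
  simp only [Finset.sum_add_distrib] at hsum
  rw [hswap (fun j a B2 B3 => WR x T g f e B1 b1 a B2 B3 (Sum.inr (Sum.inl j.succ))),
    hswap (fun j a B2 B3 => WR x T g f e B1 b1 a B2 B3 (Sum.inr (Sum.inr j.succ))),
    hswap (fun k a B2 B3 => ind (LiveU T (Finset.univ.image B1) a B2 B3 ∧
        Ev (alR x g f e b1 B1 (cd a B2) (cd a B3)) (beR x g f e b1 B1 (cd a B2) (cd a B3))
          (Sum.inl k)))] at hsum
  refine hsum.trans ?_
  have s1 : ∑ j : Fin 4, ∑ a : V, ∑ B2 : Fin 4 → V, ∑ B3 : Fin 4 → V,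
      WR x T g f e B1 b1 a B2 B3 (Sum.inr (Sum.inl j.succ)) ≤
      ∑ j : Fin 4, |∑ a : V, ∑ B2 : Fin 4 → V, ∑ B3 : Fin 4 → V,
        WR x T g f e B1 b1 a B2 B3 (Sum.inr (Sum.inl j.succ))| :=
    Finset.sum_le_sum fun j _ => le_abs_self _
  have s2 : ∑ j : Fin 4, ∑ a : V, ∑ B2 : Fin 4 → V, ∑ B3 : Fin 4 → V,
      WR x T g f e B1 b1 a B2 B3 (Sum.inr (Sum.inr j.succ)) ≤
      ∑ j : Fin 4, |∑ a : V, ∑ B2 : Fin 4 → V, ∑ B3 : Fin 4 → V,
        WR x T g f e B1 b1 a B2 B3 (Sum.inr (Sum.inr j.succ))| :=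
    Finset.sum_le_sum fun j _ => le_abs_self _
  unfold EVR
  linarith

end KS13
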