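import Pool.Agent.LibKS13.Cd

/-!
# KS13 row R4: the fixed slice (θ = 0)
aR ∈ sp x B1, f (aR) = 0 (`solv_spec`, hR.iso), b1 k (aR) > 0, Cone x (cd c B2) aR, Cone x (cd c B3) aR (`cone_iff_kap`): term by term ≤ OBU of U = sp x B1 ⊓ ker f.
-/

open Finset Function
open scoped Classical

namespace KS13

open KS37

theorem r4_fixed {E V : Type} [AddCommGroup E] [Module ℝ E] [Fintype V] {x : V → E}
    {T : (Fin 5 → V) → Prop} (hS : Sys 5 x T)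
    {g f : Module.Dual ℝ E} {e : E} (hR : RH x g f e)
    (B1 : Fin 4 → V) (hB : Injective B1) (b1 : Fin 4 → Module.Dual ℝ E) (hb : DualB x B1 b1) :
    (∑ c : V, ∑ B2 : Fin 4 → V, ∑ B3 : Fin 4 → V,
        ind (LiveU T (Finset.univ.image B1) c B2 B3 ∧
          ∀ j, 0 < alR x g f e b1 B1 (cd c B2) (cd c B3) j)) ≤
      OBU x T (sp x B1 ⊓ LinearMap.ker f) (Finset.univ.image B1) b1 := by
  unfold OBU
  refine Finset.sum_le_sum fun c _ => Finset.sum_le_sum fun B2 _ =>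
    Finset.sum_le_sum fun B3 _ => ind_mono ?_
  rintro ⟨hL, hpos⟩
  obtain ⟨h2, h3, hD⟩ := id hL
  refine ⟨hL, ?_⟩
  have hF2 : Injective (cd c B2) := hS.inj _ h2
  have hF3 : Injective (cd c B3) := hS.inj _ h3
  have hiso : Iso2 (WW x B1 (cd c B2) (cd c B3)) g f := by
    unfold WW
    rw [sp_vx B1, sp_vx (cd c B2), sp_vx (cd c B3)]
    refine hR.iso _ _ _ (adm_cd le_rfl hD ∅ ∅ ∅) ?_
    rw [card_vx hB, card_vx hF2, card_vx hF3]
    rfl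
  obtain ⟨hm, _, hf⟩ := solv_spec hiso 1 0
  have hm' : aR x g f B1 (cd c B2) (cd c B3) ∈ sp x B1 ⊓ sp x (cd c B2) ⊓ sp x (cd c B3) := hm
  refine ⟨aR x g f B1 (cd c B2) (cd c B3), ⟨hm'.1.1, LinearMap.mem_ker.2 hf⟩, fun k => ?_, ?_, ?_⟩
  · exact hpos (Sum.inl k)
  · exact (cone_iff_kap hS _ hF2 e (hR.enot _ hF2) _).2
      ⟨hm'.1.2, fun i => hpos (Sum.inr (Sum.inl i))⟩
  · exact (cone_iff_kap hS _ hF3 e (hR.enot _ hF3) _).2
      ⟨hm'.2, fun i => hpos (Sum.inr (Sum.inr i))⟩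

end KS13
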