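import Pool.Agent.LibKS13.R2
import Pool.Agent.LibKS37.G2
import Pool.Agent.LibKS37.P4ga

/-!
# KS13 row R5: groups on the side of F2, vertex in B2 (cf. KS37 P4ga)
For fixed c, B3, w: `ga` with tuple cd c w, index j.succ (`cd_update`), U = sp x B1 ⊓ sp x (cd c B3), f1 := g, f2 := f, h := f, X = image B1 ∪ image B3 ∪ {c} (≤ 9), bound 11. WW x B1 F2 F3 = sp x F2 ⊓ U (inf comm/assoc), so aR = solv (sp x F2 ⊓ U) g f 1 0.
h (aR) = f (aR) = 0, h (qR) = f (qR) = 1: the factor sg(h a + h q t)·sg(h q) of `ga` is eps _ _ 0 1 j. side y := (∀ k, 0 < b1 k y) ∧ (∀ i, 0 < kap x (cd c B3) e i y) ∧ ((0 < f y ∧ f y < th c) ∨ (th c < f y ∧ f y < 0)); at the event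
f y = t_j, so this is Btw. h1: spx x (cd c w) {j.succ} ⊓ U (for a live u0: spx x (cd c (update w j u0)) {j.succ}, `KS37.P4ga_spx`) is the line 4+4+5 = 13: hR.g13 (`adm_cd`). h2: hR.enot, hR.iso, r2_be.
`group_sum` 11 n^3, times n^4 (B3), n (c).
-/

open Finset Function
open scoped Classical

namespace KS13

open KS37

theorem R5_WW {E V : Type} [AddCommGroup E] [Module ℝ E] (x : V → E) (B1 : Fin 4 → V)
    (F2 F3 : Fin 5 → V) : WW x B1 F2 F3 = sp x F2 ⊓ (sp x B1 ⊓ sp x F3) := by
  unfold WW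
  rw [inf_comm (sp x B1) (sp x F2), inf_assoc]

theorem R5_X {V : Type} [Fintype V] (B B' : Fin 4 → V) (a : V) :
    ((Finset.univ.image B ∪ Finset.univ.image B' ∪ {a} : Finset V).card : ℝ) ≤ 9 := by
  have h := Finset.card_image_le (s := (Finset.univ : Finset (Fin 4))) (f := B)
  have h' := Finset.card_image_le (s := (Finset.univ : Finset (Fin 4))) (f := B')
  rw [Finset.card_univ, Fintype.card_fin] at h h'
  have h2 := Finset.card_union_le (Finset.univ.image B) (Finset.univ.image B')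
  have h3 := Finset.card_union_le (Finset.univ.image B ∪ Finset.univ.image B') {a}
  rw [Finset.card_singleton] at h3
  have : (Finset.univ.image B ∪ Finset.univ.image B' ∪ {a}).card ≤ 9 := by omega
  exact_mod_cast this

/-- the live objects of a group -/
theorem R5_live {E V : Type} [AddCommGroup E] [Module ℝ E] [Fintype V] {x : V → E}
    {T : (Fin 5 → V) → Prop} (hS : Sys 5 x T) (A : Finset V) (c : V) (B3 w : Fin 4 → V) (j : Fin 4)
    (hT3 : T (cd c B3)) (hi3 : Injective B3) (h3A : ∀ i, B3 i ∉ A) (hcA : c ∉ A)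
    (h3c : ∀ i, B3 i ≠ c) (hwA : ∀ l, l ≠ j → w l ∉ A) (hwc : ∀ l, l ≠ j → w l ≠ c)
    (hw3 : ∀ l, l ≠ j → ∀ i, w l ≠ B3 i) (u : V) :
    LiveU T A c (update w j u) B3 ↔
      (T (update (cd c w) j.succ u) ∧ u ∉ A ∪ Finset.univ.image B3 ∪ {c}) := by
  rw [← cd_update c w j u]
  constructor
  · rintro ⟨h1, _, h3, _, h5, h6, _, _, h9, _⟩
    refine ⟨h1, ?_⟩
    intro hu
    rcases Finset.mem_union.1 hu with hu | hu
    · rcases Finset.mem_union.1 hu with hu | hu
      · exact h6 j (by rw [update_self]; exact hu)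
      · obtain ⟨i, _, hi⟩ := Finset.mem_image.1 hu
        exact h5 j i (by rw [update_self]; exact hi.symm)
    · exact h9 j (by rw [update_self]; exact Finset.mem_singleton.1 hu)
  · rintro ⟨h1, hu⟩
    have hu1 : u ∉ A := fun h => hu (Finset.mem_union_left _ (Finset.mem_union_left _ h))
    have hu3 : ∀ i, u ≠ B3 i := fun i hi => hu (Finset.mem_union_left _ (Finset.mem_union_right _
      (Finset.mem_image.2 ⟨i, Finset.mem_univ i, hi.symm⟩)))
    have hua : u ≠ c := fun h => hu (Finset.mem_union_right _ (Finset.mem_singleton.2 h))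
    have hinj := hS.inj _ h1
    refine ⟨h1, hT3, ?_, hi3, ?_, ?_, h3A, hcA, ?_, h3c⟩
    · intro l l' h
      have h2 : cd c (update w j u) l.succ = cd c (update w j u) l'.succ := by
        rw [cd_succ, cd_succ]
        exact h
      exact Fin.succ_injective _ (hinj h2)
    · intro l i
      by_cases hl : l = j
      · subst hl
        rw [update_self]
        exact hu3 i
      · rw [update_of_ne hl]
        exact hw3 l hl i
    · intro l
      by_cases hl : l = j
      · subst hl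
        rw [update_self]
        exact hu1
      · rw [update_of_ne hl]
        exact hwA l hl
    · intro l
      by_cases hl : l = j
      · subst hl
        rw [update_self]
        exact hua
      · rw [update_of_ne hl]
        exact hwc l hl

/-- the plane of a live object -/
theorem R5_iso {E V : Type} [AddCommGroup E] [Module ℝ E] [Fintype V] {x : V → E}
    {g f : Module.Dual ℝ E} {e : E} (hR : RH x g f e)
    (B1 : Fin 4 → V) (hB : Injective B1) (c : V) (B2 B3 : Fin 4 → V)
    (hD : Dist5 (Finset.univ.image B1) c B2 B3) :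
    Iso2 (sp x (cd c B2) ⊓ (sp x B1 ⊓ sp x (cd c B3))) g f := by
  have h := hR.iso _ _ _ (adm_cd (le_refl 4) hD ∅ ∅ ∅) (by
    rw [card_vx hB, card_vx hD.f2.1, card_vx hD.f3.1]
    simp only [Finset.card_empty])
  rw [← sp_vx, ← sp_vx, ← sp_vx] at h
  rw [← R5_WW]
  exact h

/-- one group -/
theorem R5_group {E V : Type} [AddCommGroup E] [Module ℝ E] [Fintype V] {x : V → E}
    {T : (Fin 5 → V) → Prop} (hS : Sys 5 x T)
    {g f : Module.Dual ℝ E} {e : E} (hR : RH x g f e)
    (B1 : Fin 4 → V) (hB : Injective B1) {b1 : Fin 4 → Module.Dual ℝ E} (hb : DualB x B1 b1)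
    (j : Fin 4) (c : V) (B3 w : Fin 4 → V) :
    |∑ u, WR x T g f e B1 b1 c (update w j u) B3 (Sum.inr (Sum.inl j.succ))| ≤ 11 := by
  have hzero : (∀ u, ¬ LiveU T (Finset.univ.image B1) c (update w j u) B3) →
      |∑ u, WR x T g f e B1 b1 c (update w j u) B3 (Sum.inr (Sum.inl j.succ))| ≤ 11 := by
    intro h
    rw [Finset.sum_eq_zero, abs_zero]
    · norm_num
    · intro u _
      unfold WR
      rw [ind_false (h u), zero_mul]
  by_cases hex : ∃ u, LiveU T (Finset.univ.image B1) c (update w j u) B3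
  swap
  · exact hzero fun u h => hex ⟨u, h⟩
  obtain ⟨u0, hu0⟩ := hex
  have hu0' := hu0
  obtain ⟨-, hT3, -, hi3, g1, g2, h3A, hcA, g3, h3c⟩ := hu0'
  have hlive := R5_live hS (Finset.univ.image B1) c B3 w j hT3 hi3 h3A hcA h3c
    (fun l hl => by have := g2 l; rwa [update_of_ne hl] at this)
    (fun l hl => by have := g3 l; rwa [update_of_ne hl] at this)
    (fun l hl i => by have := g1 l i; rwa [update_of_ne hl] at this)
  have hga := ga hS (sp x B1 ⊓ sp x (cd c B3)) g f f e (cd c w) j.succ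
    (Finset.univ.image B1 ∪ Finset.univ.image B3 ∪ {c})
    (fun y => (∀ k, 0 < b1 k y) ∧ (∀ i, 0 < kap x (cd c B3) e i y) ∧
      ((0 < f y ∧ f y < KS13.th x g f c) ∨ (KS13.th x g f c < f y ∧ f y < 0)))
    (by
      rw [← P4ga_spx x (cd c w) j.succ u0, ← cd_update]
      intro y hy hg
      refine hR.g13 _ _ _ (adm_cd (le_refl 4) hu0.2.2 ∅ {j.succ} ∅) (by
        rw [card_vx hB, card_vx hu0.2.2.f2.1, card_vx hu0.2.2.f3.1]
        simp only [Finset.card_empty, Finset.card_singleton]) y ?_ hg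
      rw [← sp_vx, ← spx_vx1, ← sp_vx]
      exact ⟨⟨hy.2.1, hy.1⟩, hy.2.2⟩)
    (fun u hT hX => by
      have hl := (hlive u).2 ⟨hT, hX⟩
      have h3 := r2_be hS hR B1 hB hb c (update w j u) B3 hl.2.2 (Sum.inr (Sum.inl j.succ))
      have h3' : kap x (cd c (update w j u)) e j.succ
          (solv (WW x B1 (cd c (update w j u)) (cd c B3)) g f 0 1) ≠ 0 := h3
      rw [R5_WW, cd_update] at h3'
      refine ⟨hR.enot _ (hS.inj _ hT), ?_, h3'⟩
      rw [← cd_update]
      exact R5_iso hR B1 hB c (update w j u) B3 hl.2.2)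
  have hX := R5_X B1 B3 c
  refine le_trans (le_of_eq ?_) (hga.trans (by linarith))
  congr 1
  refine Finset.sum_congr rfl fun u _ => ?_
  by_cases hl : LiveU T (Finset.univ.image B1) c (update w j u) B3
  swap
  · have hl' : ¬ (T (update (cd c w) j.succ u) ∧
        u ∉ Finset.univ.image B1 ∪ Finset.univ.image B3 ∪ {c}) := fun h => hl ((hlive u).2 h)
    unfold WR
    rw [ind_false hl, zero_mul, ind_false, zero_mul]
    rintro ⟨h1, h2, -⟩
    exact hl' ⟨h1, h2⟩
  have hiso := R5_iso hR B1 hB c (update w j u) B3 hl.2.2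
  rw [cd_update] at hiso
  obtain ⟨-, -, fa⟩ := solv_spec hiso 1 0
  obtain ⟨-, -, fq⟩ := solv_spec hiso 0 1
  obtain ⟨hT, hXu⟩ := (hlive u).1 hl
  unfold WR
  rw [ind_true hl, one_mul, cd_update]
  have hW := R5_WW x B1 (update (cd c w) j.succ u) (cd c B3)
  have ha : aR x g f B1 (update (cd c w) j.succ u) (cd c B3) =
      solv (sp x (update (cd c w) j.succ u) ⊓ (sp x B1 ⊓ sp x (cd c B3))) g f 1 0 := by
    unfold aR
    rw [hW]
  have hq : qR x g f B1 (update (cd c w) j.succ u) (cd c B3) =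
      solv (sp x (update (cd c w) j.succ u) ⊓ (sp x B1 ⊓ sp x (cd c B3))) g f 0 1 := by
    unfold qR
    rw [hW]
  rw [fa, fq]
  set F2 : Fin 5 → V := update (cd c w) j.succ u with hF2
  set a : E := solv (sp x F2 ⊓ (sp x B1 ⊓ sp x (cd c B3))) g f 1 0 with hadef
  set q : E := solv (sp x F2 ⊓ (sp x B1 ⊓ sp x (cd c B3))) g f 0 1 with hqdef
  have hal : ∀ l, alR x g f e b1 B1 F2 (cd c B3) l = Sum.elim (fun k => b1 k a)
      (Sum.elim (fun i => kap x F2 e i a) (fun i => kap x (cd c B3) e i a)) l := by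
    intro l
    unfold alR
    rw [ha]
  have hbe : ∀ l, beR x g f e b1 B1 F2 (cd c B3) l = Sum.elim (fun k => b1 k q)
      (Sum.elim (fun i => kap x F2 e i q) (fun i => kap x (cd c B3) e i q)) l := by
    intro l
    unfold beR
    rw [hq]
  have htz : -alR x g f e b1 B1 F2 (cd c B3) (Sum.inr (Sum.inl j.succ)) /
      beR x g f e b1 B1 F2 (cd c B3) (Sum.inr (Sum.inl j.succ)) = tz x F2 e j.succ a q := by
    rw [hal, hbe]
    rfl
  have hfy : f (a + tz x F2 e j.succ a q • q) = tz x F2 e j.succ a q := by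
    rw [map_add, map_smul, smul_eq_mul, fa, fq, zero_add, mul_one]
  have hiff : (Ev (alR x g f e b1 B1 F2 (cd c B3)) (beR x g f e b1 B1 F2 (cd c B3))
        (Sum.inr (Sum.inl j.succ)) ∧
      Btw (alR x g f e b1 B1 F2 (cd c B3)) (beR x g f e b1 B1 F2 (cd c B3)) (KS13.th x g f c)
        (Sum.inr (Sum.inl j.succ))) ↔
      (T F2 ∧ u ∉ Finset.univ.image B1 ∪ Finset.univ.image B3 ∪ {c} ∧
        EvB x F2 e j.succ a q ∧
        (fun y => (∀ k, 0 < b1 k y) ∧ (∀ i, 0 < kap x (cd c B3) e i y) ∧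
          ((0 < f y ∧ f y < KS13.th x g f c) ∨ (KS13.th x g f c < f y ∧ f y < 0)))
          (a + tz x F2 e j.succ a q • q)) := by
    unfold Ev Btw
    rw [htz]
    constructor
    · rintro ⟨h5, h6⟩
      refine ⟨hT, hXu, ?_, ?_, ?_, ?_⟩
      · intro l hl
        have := h5 (Sum.inr (Sum.inl l)) (fun h => hl (Sum.inl_injective (Sum.inr_injective h)))
        rw [hal, hbe] at this
        exact this
      · intro k
        have := h5 (Sum.inl k) (by simp)
        rw [hal, hbe] at this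
        rw [map_add, map_smul, smul_eq_mul, mul_comm (tz _ _ _ _ _ _)]
        exact this
      · intro i
        have := h5 (Sum.inr (Sum.inr i)) (by simp)
        rw [hal, hbe] at this
        rw [map_add, map_smul, smul_eq_mul, mul_comm (tz _ _ _ _ _ _)]
        exact this
      · rw [hfy]
        exact h6
    · rintro ⟨-, -, h5, h6, h7, h8⟩
      rw [hfy] at h8
      refine ⟨?_, h8⟩
      rintro (k | l | i) hl
      · have := h6 k
        rw [map_add, map_smul, smul_eq_mul, mul_comm (tz _ _ _ _ _ _)] at this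
        rw [hal, hbe]
        exact this
      · rw [hal, hbe]
        exact h5 l (fun h => hl (by rw [h]))
      · have := h7 i
        rw [map_add, map_smul, smul_eq_mul, mul_comm (tz _ _ _ _ _ _)] at this
        rw [hal, hbe]
        exact this
  rw [ind_congr hiff]
  unfold eps
  rw [htz, hbe]
  rfl

theorem r5_ga {E V : Type} [AddCommGroup E] [Module ℝ E] [Fintype V] {x : V → E}
    {T : (Fin 5 → V) → Prop} (hS : Sys 5 x T)
    (hF : GF x) {g f : Module.Dual ℝ E} {e : E} (hR : RH x g f e)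
    (B1 : Fin 4 → V) (hB : Injective B1) {b1 : Fin 4 → Module.Dual ℝ E} (hb : DualB x B1 b1)
    (j : Fin 4) :
    |∑ c : V, ∑ B2 : Fin 4 → V, ∑ B3 : Fin 4 → V,
        WR x T g f e B1 b1 c B2 B3 (Sum.inr (Sum.inl j.succ))| ≤ 11 * nn V ^ 8 := by
  have h0 : ∀ c : V, |∑ B2 : Fin 4 → V, ∑ B3 : Fin 4 → V,
      WR x T g f e B1 b1 c B2 B3 (Sum.inr (Sum.inl j.succ))| ≤
      nn V ^ 4 * (11 * nn V ^ (4 - 1)) := by
    intro c
    rw [Finset.sum_comm]
    refine (Finset.abs_sum_le_sum_abs _ _).trans ?_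
    have h1 : ∀ B3 ∈ (Finset.univ : Finset (Fin 4 → V)),
        |∑ B2 : Fin 4 → V, WR x T g f e B1 b1 c B2 B3 (Sum.inr (Sum.inl j.succ))| ≤
          11 * nn V ^ (4 - 1) := by
      intro B3 _
      exact group_sum (fun B2 => WR x T g f e B1 b1 c B2 B3 (Sum.inr (Sum.inl j.succ))) j 11
        (by norm_num) (fun w => R5_group hS hR B1 hB hb j c B3 w)
    refine (Finset.sum_le_sum h1).trans ?_
    rw [sum_const_fun]
  refine (Finset.abs_sum_le_sum_abs _ _).trans ?_
  refine (Finset.sum_le_sum (fun c _ => h0 c)).trans (le_of_eq ?_)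
  rw [Finset.sum_const, nsmul_eq_mul, Finset.card_univ]
  show nn V * (nn V ^ 4 * (11 * nn V ^ (4 - 1))) = 11 * nn V ^ 8
  ring

end KS13
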