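import Pool.Agent.LibKS37.Basic

/-!
# KS13 definitions for the system of a vector configuration in ℝ^6
-/

open Finset Function
open scoped Classical

namespace KS13

open KS37

/-- determinant of six vectors of `ℝ^6`. -/
noncomputable def D6 (w : Fin 6 → Fin 6 → ℝ) : ℝ := Matrix.det (Matrix.of w)

/-- number of vertices strictly on the positive side of the hyperplane of `v`. -/
noncomputable def npos {V : Type} [Fintype V] (x : V → Fin 6 → ℝ) (v : Fin 5 → V) : ℕ :=
  (univ.filter (fun u : V => 0 < D6 (Fin.snoc (fun i => x (v i)) (x u)))).card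

/-- the `k`-facets (both orientations). -/
def TT {V : Type} [Fintype V] (x : V → Fin 6 → ℝ) (k : ℕ) (v : Fin 5 → V) : Prop :=
  Injective v ∧ (npos x v = k ∨ npos x v + k + 5 = Fintype.card V)

/-- any six vectors are independent. -/
def GP6 {V : Type} (x : V → Fin 6 → ℝ) : Prop :=
  ∀ v : Fin 6 → V, Injective v → D6 (fun i => x (v i)) ≠ 0

end KS13
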