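import Pool.Agent.LibKS13.R2
import Pool.Agent.LibKS37.A3

/-!
# KS13 row R7: event: the c-coordinate of F2 vanishes (cf. KS37 P4a)
y = aR + t qR (t the event time), g y = 1, y ∈ sp x B1 ⊓ sp x F2 ⊓ sp x F3, kap x F2 e 0 y = 0: y ∈ sp x B2 (`kap_zero_mem`, `spx_cd_zero`), Cone x F3 y. For fixed B2 (of a live object) W12 = sp x B1 ⊓ sp x B2 has dimension 4+4-6 = 2
(`finrank_sp_inf`). Let y0 be one event point (g y0 = 1), e' ≠ 0 in W12 ⊓ ker g (a line: `finrank_inf_ker`, `gen_line`): every event point y is y0 + s e' (y - y0 ∈ W12 ⊓ ker g). e' ∉ sp x F3 for the F3 of a live object: else e' is in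
vs B1 ⊓ vs B2 ⊓ vs F3 (4+4+5 = 13, Adm with A1 = image B1, A2 = image B2 = vx (cd c B2) {0}, A3: adm_cd), g e' = 0: hR.g13 gives e' = 0. So Hit x F3 e' y0 (`hit_iff`), F3 = cd c B3: Σ_{c,B3} ≤ NN x T y0 e' ≤ K (`sum_cons`). Sum over B2: n^4.
-/

open Finset Function
open scoped Classical

namespace KS13

open KS37

section
variable {E V : Type} [AddCommGroup E] [Module ℝ E] [Fintype V] {x : V → E}
    {T : (Fin 5 → V) → Prop}

private theorem R7_disj {V : Type} {B1 B2 : Fin 4 → V} (h : ∀ i, B2 i ∉ Finset.univ.image B1) :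
    Disj B1 B2 := by
  intro i j hij
  exact h j (Finset.mem_image.2 ⟨i, Finset.mem_univ _, hij⟩)

private theorem R7_NN_nonneg (p e : E) : 0 ≤ NN x T p e := by
  unfold NN
  exact Finset.sum_nonneg (fun _ _ => by unfold ind; split_ifs <;> norm_num)

private theorem R7_key (hS : Sys 5 x T) {g f : Module.Dual ℝ E} {e : E} (hR : RH x g f e)
    (B1 : Fin 4 → V) (hB : Injective B1) {b1 : Fin 4 → Module.Dual ℝ E} (hb : DualB x B1 b1)
    (c : V) (B2 B3 : Fin 4 → V) (hD : Dist5 (Finset.univ.image B1) c B2 B3)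
    (hev : Ev (alR x g f e b1 B1 (cd c B2) (cd c B3)) (beR x g f e b1 B1 (cd c B2) (cd c B3))
      (Sum.inr (Sum.inl 0))) :
    ∃ y, y ∈ sp x B1 ⊓ sp x B2 ∧ g y = 1 ∧ Cone x (cd c B3) y := by
  have hadm := adm_cd (le_refl 4) hD ∅ ∅ ∅
  have hcard : (vx B1 ∅).card + (vx (cd c B2) ∅).card + (vx (cd c B3) ∅).card = 14 := by
    rw [card_vx hB, card_vx hD.f2.1, card_vx hD.f3.1]
    rfl
  have hiso := hR.iso _ _ _ hadm hcard
  rw [← sp_vx, ← sp_vx, ← sp_vx] at hiso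
  have hne := r2_be hS hR B1 hB hb c B2 B3 hD (Sum.inr (Sum.inl 0))
  have hA := solv_spec hiso 1 0
  have hQ := solv_spec hiso 0 1
  have hne' : kap x (cd c B2) e 0 (qR x g f B1 (cd c B2) (cd c B3)) ≠ 0 := hne
  have hAm : aR x g f B1 (cd c B2) (cd c B3) ∈ WW x B1 (cd c B2) (cd c B3) ∧
      g (aR x g f B1 (cd c B2) (cd c B3)) = 1 ∧ f (aR x g f B1 (cd c B2) (cd c B3)) = 0 := hA
  have hQm : qR x g f B1 (cd c B2) (cd c B3) ∈ WW x B1 (cd c B2) (cd c B3) ∧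
      g (qR x g f B1 (cd c B2) (cd c B3)) = 0 ∧ f (qR x g f B1 (cd c B2) (cd c B3)) = 1 := hQ
  have hev' : ∀ i, 0 < kap x (cd c B3) e i (aR x g f B1 (cd c B2) (cd c B3)) +
      kap x (cd c B3) e i (qR x g f B1 (cd c B2) (cd c B3)) *
      (-kap x (cd c B2) e 0 (aR x g f B1 (cd c B2) (cd c B3)) /
        kap x (cd c B2) e 0 (qR x g f B1 (cd c B2) (cd c B3))) := by
    intro i
    exact hev (Sum.inr (Sum.inr i)) (by
      intro hh
      exact absurd (Sum.inr.inj hh) (by simp))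
  revert hAm hQm hev' hne'
  generalize aR x g f B1 (cd c B2) (cd c B3) = A
  generalize qR x g f B1 (cd c B2) (cd c B3) = Q
  intro hne' hAm hQm hev'
  obtain ⟨hAm, hgA, -⟩ := hAm
  obtain ⟨hQm, hgQ, -⟩ := hQm
  set t : ℝ := -(kap x (cd c B2) e 0 A) / kap x (cd c B2) e 0 Q with ht
  have hymem : A + t • Q ∈ WW x B1 (cd c B2) (cd c B3) :=
    Submodule.add_mem _ hAm (Submodule.smul_mem _ _ hQm)
  have hym : (A + t • Q ∈ sp x B1 ∧ A + t • Q ∈ sp x (cd c B2)) ∧ A + t • Q ∈ sp x (cd c B3) :=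
    hymem
  have hy0 : kap x (cd c B2) e 0 (A + t • Q) = 0 := by
    rw [map_add, map_smul, smul_eq_mul, ht]
    field_simp
    ring
  have h2 : A + t • Q ∈ sp x B2 := by
    have h3 := kap_zero_mem hS hD.f2.1 (hR.enot _ hD.f2.1) hym.1.2 hy0
    rwa [spx_cd_zero] at h3
  refine ⟨A + t • Q, ⟨hym.1.1, h2⟩, ?_, ?_⟩
  · rw [map_add, map_smul, smul_eq_mul, hgA, hgQ, mul_zero, add_zero]
  · refine (cone_iff_kap hS _ hD.f3.1 e (hR.enot _ hD.f3.1) _).2 ⟨hym.2, fun i => ?_⟩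
    have h4 := hev' i
    rw [map_add, map_smul, smul_eq_mul, mul_comm t]
    exact h4

private theorem R7_fix (hS : Sys 5 x T) (K : ℝ) (hK : ∀ p e, NN x T p e ≤ K)
    {g f : Module.Dual ℝ E} {e : E} (hR : RH x g f e)
    (B1 : Fin 4 → V) (hB : Injective B1) {b1 : Fin 4 → Module.Dual ℝ E} (hb : DualB x B1 b1)
    (B2 : Fin 4 → V) :
    ∑ c : V, ∑ B3 : Fin 4 → V,
      ind (LiveU T (Finset.univ.image B1) c B2 B3 ∧
        Ev (alR x g f e b1 B1 (cd c B2) (cd c B3)) (beR x g f e b1 B1 (cd c B2) (cd c B3))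
          (Sum.inr (Sum.inl 0))) ≤ K := by
  by_cases hex : ∃ c B3, LiveU T (Finset.univ.image B1) c B2 B3 ∧
        Ev (alR x g f e b1 B1 (cd c B2) (cd c B3)) (beR x g f e b1 B1 (cd c B2) (cd c B3))
          (Sum.inr (Sum.inl 0))
  · obtain ⟨c0, B30, hL0, hE0⟩ := hex
    obtain ⟨y0, hy0, hg0, -⟩ := R7_key hS hR B1 hB hb c0 B2 B30 hL0.2.2 hE0
    have hfin := finiteDimensional_of_sys hS
    have hdim := finrank_sp_inf hS B1 B2 hB hL0.2.2.1 (R7_disj hL0.2.2.2.2.2.1) (by norm_num)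
      (by norm_num) (by norm_num)
    have hker := finrank_inf_ker (sp x B1 ⊓ sp x B2) g ⟨y0, hy0, by rw [hg0]; exact one_ne_zero⟩
    obtain ⟨e', he', he0, hgen⟩ := gen_line (sp x B1 ⊓ sp x B2 ⊓ LinearMap.ker g) (by omega)
    refine le_trans ?_ (hK y0 e')
    unfold NN
    rw [KS37.sum_cons]
    refine Finset.sum_le_sum (fun c _ => Finset.sum_le_sum (fun B3 _ => ind_mono ?_))
    rintro ⟨hL, hE⟩
    obtain ⟨y, hy, hgy, hcy⟩ := R7_key hS hR B1 hB hb c B2 B3 hL.2.2 hE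
    refine ⟨hL.2.1, ?_⟩
    have hD := hL.2.2
    have hnot : e' ∉ sp x (cd c B3) := by
      intro hmem
      have hadm := adm_cd (le_refl 4) hD ∅ {0} ∅
      have hcard : (vx B1 ∅).card + (vx (cd c B2) {0}).card + (vx (cd c B3) ∅).card = 13 := by
        rw [card_vx hB, card_vx hD.f2.1, card_vx hD.f3.1]
        rfl
      refine he0 (hR.g13 _ _ _ hadm hcard e' ?_ he'.2)
      rw [← sp_vx, ← sp_vx, ← spx_vx1, spx_cd_zero]
      exact ⟨he'.1, hmem⟩
    have hk : g (y - y0) = 0 := by rw [map_sub, hgy, hg0, sub_self]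
    obtain ⟨s, hs⟩ := hgen (y - y0) ⟨Submodule.sub_mem _ hy hy0, hk⟩
    refine (hit_iff hS _ hD.f3.1 e' hnot y0).2 ⟨s, ?_⟩
    rw [← hs, add_sub_cancel]
    exact hcy
  · have h0 : ∑ c : V, ∑ B3 : Fin 4 → V,
      ind (LiveU T (Finset.univ.image B1) c B2 B3 ∧
        Ev (alR x g f e b1 B1 (cd c B2) (cd c B3)) (beR x g f e b1 B1 (cd c B2) (cd c B3))
          (Sum.inr (Sum.inl 0))) = 0 := by
      refine Finset.sum_eq_zero (fun c _ => Finset.sum_eq_zero (fun B3 _ => ind_false ?_))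
      intro h
      exact hex ⟨c, B3, h⟩
    rw [h0]
    exact (R7_NN_nonneg (x := x) (T := T) 0 e).trans (hK 0 e)

end

theorem r7_c {E V : Type} [AddCommGroup E] [Module ℝ E] [Fintype V] {x : V → E}
    {T : (Fin 5 → V) → Prop} (hS : Sys 5 x T)
    (K : ℝ) (hK : ∀ p e, NN x T p e ≤ K)
    (hF : GF x) {g f : Module.Dual ℝ E} {e : E} (hR : RH x g f e)
    (B1 : Fin 4 → V) (hB : Injective B1) {b1 : Fin 4 → Module.Dual ℝ E} (hb : DualB x B1 b1) :
    EVR x T g f e B1 b1 (Sum.inr (Sum.inl 0)) ≤ nn V ^ 4 * K := by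
  unfold EVR
  rw [Finset.sum_comm, ← sum_const_fun V 4 K]
  exact Finset.sum_le_sum (fun B2 _ => R7_fix hS K hK hR B1 hB hb B2)

end KS13
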