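import Pool.Agent.LibKS13.R2

/-!
# KS13 row R8: event: a B1-coordinate vanishes
y = aR + t qR, b1 k y = 0, all other functionals positive: y ∈ sp x (fun l : Fin 3 => B1 (k.succAbove l)) (`dual_spx`, `spx_single`), b1 (k.succAbove l) y > 0, Cone x F2 y, Cone x F3 y (`cone_iff_kap`). Dist5.mono (image of the subtuple ⊆ image B1).
Term by term. (t = -al/be, the value of the k-th functional at y is 0 since beR ≠ 0: r2_be.)
-/

open Finset Function
open scoped Classical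

namespace KS13

open KS37

theorem r8_b {E V : Type} [AddCommGroup E] [Module ℝ E] [Fintype V] {x : V → E}
    {T : (Fin 5 → V) → Prop} (hS : Sys 5 x T)
    {g f : Module.Dual ℝ E} {e : E} (hR : RH x g f e)
    (B1 : Fin 4 → V) (hB : Injective B1) {b1 : Fin 4 → Module.Dual ℝ E} (hb : DualB x B1 b1)
    (k : Fin 4) :
    EVR x T g f e B1 b1 (Sum.inl k) ≤
      OBU x T (sp x (fun l : Fin 3 => B1 (k.succAbove l)))
        (Finset.univ.image (fun l : Fin 3 => B1 (k.succAbove l)))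
        (fun l : Fin 3 => b1 (k.succAbove l)) := by
  unfold EVR OBU
  refine Finset.sum_le_sum fun c _ => Finset.sum_le_sum fun B2 _ => Finset.sum_le_sum fun B3 _ => ?_
  refine ind_mono ?_
  rintro ⟨hL, hE⟩
  have hD : Dist5 (Finset.univ.image B1) c B2 B3 := hL.2.2
  have hI : Iso2 (WW x B1 (cd c B2) (cd c B3)) g f := by
    unfold WW
    rw [sp_vx B1, sp_vx (cd c B2), sp_vx (cd c B3)]
    refine hR.iso _ _ _ (adm_cd (by norm_num) hD ∅ ∅ ∅) ?_
    rw [card_vx hB, card_vx hD.f2.1, card_vx hD.f3.1]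
    simp
  obtain ⟨ha, -, -⟩ := solv_spec hI 1 0
  obtain ⟨hq, -, -⟩ := solv_spec hI 0 1
  have hbe := r2_be hS hR B1 hB hb c B2 B3 hD (Sum.inl k)
  set t : ℝ := -alR x g f e b1 B1 (cd c B2) (cd c B3) (Sum.inl k) /
    beR x g f e b1 B1 (cd c B2) (cd c B3) (Sum.inl k) with ht
  set y : E := aR x g f B1 (cd c B2) (cd c B3) + t • qR x g f B1 (cd c B2) (cd c B3) with hy
  have hyW : y ∈ WW x B1 (cd c B2) (cd c B3) :=
    Submodule.add_mem _ ha (Submodule.smul_mem _ _ hq)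
  have hy1 : y ∈ sp x B1 := hyW.1.1
  have hy2 : y ∈ sp x (cd c B2) := hyW.1.2
  have hy3 : y ∈ sp x (cd c B3) := hyW.2
  have hval : ∀ φ : Module.Dual ℝ E, φ y = φ (aR x g f B1 (cd c B2) (cd c B3)) +
      φ (qR x g f B1 (cd c B2) (cd c B3)) * t := by
    intro φ
    rw [hy, map_add, map_smul, smul_eq_mul, mul_comm t]
  have hk0 : b1 k y = 0 := by
    have e1 : b1 k y = alR x g f e b1 B1 (cd c B2) (cd c B3) (Sum.inl k) +
        beR x g f e b1 B1 (cd c B2) (cd c B3) (Sum.inl k) * t := hval (b1 k)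
    rw [e1, ht, mul_div_cancel₀ _ hbe, add_neg_cancel]
  have hpos : ∀ l, l ≠ k → 0 < b1 l y := by
    intro l hl
    have e1 : b1 l y = alR x g f e b1 B1 (cd c B2) (cd c B3) (Sum.inl l) +
        beR x g f e b1 B1 (cd c B2) (cd c B3) (Sum.inl l) * t := hval (b1 l)
    rw [e1]
    exact hE (Sum.inl l) (fun h => hl (Sum.inl_injective h))
  have hpos2 : ∀ i, 0 < kap x (cd c B2) e i y := by
    intro i
    have e1 : kap x (cd c B2) e i y = alR x g f e b1 B1 (cd c B2) (cd c B3) (Sum.inr (Sum.inl i)) +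
        beR x g f e b1 B1 (cd c B2) (cd c B3) (Sum.inr (Sum.inl i)) * t :=
      hval (kap x (cd c B2) e i)
    rw [e1]
    exact hE (Sum.inr (Sum.inl i)) (fun h => by simp at h)
  have hpos3 : ∀ i, 0 < kap x (cd c B3) e i y := by
    intro i
    have e1 : kap x (cd c B3) e i y = alR x g f e b1 B1 (cd c B2) (cd c B3) (Sum.inr (Sum.inr i)) +
        beR x g f e b1 B1 (cd c B2) (cd c B3) (Sum.inr (Sum.inr i)) * t :=
      hval (kap x (cd c B3) e i)
    rw [e1]
    exact hE (Sum.inr (Sum.inr i)) (fun h => by simp at h)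
  refine ⟨⟨hL.1, hL.2.1, hD.mono ?_⟩, y, ?_, fun l => hpos _ (Fin.succAbove_ne k l), ?_, ?_⟩
  · intro v hv
    obtain ⟨l, -, hl⟩ := Finset.mem_image.1 hv
    exact Finset.mem_image.2 ⟨k.succAbove l, Finset.mem_univ _, hl⟩
  · rw [← spx_single B1 k]
    refine dual_spx hb hy1 {k} ?_
    intro l hl
    rw [Set.mem_singleton_iff] at hl
    rw [hl]
    exact hk0
  · exact (cone_iff_kap hS (cd c B2) hD.f2.1 e (hR.enot _ hD.f2.1) y).2 ⟨hy2, hpos2⟩
  · exact (cone_iff_kap hS (cd c B3) hD.f3.1 e (hR.enot _ hD.f3.1) y).2 ⟨hy3, hpos3⟩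

end KS13
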