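import Pool.Agent.LibKS13.Cd

/-!
# KS13 row RN: RH for (-g, -f)
Field by field (iso: (-g,-f) maps y to -(g y, f y); for (s,t) take y for (-s,-t)).
-/

open Finset Function
open scoped Classical

namespace KS13

open KS37

theorem rh_neg {E V : Type} [AddCommGroup E] [Module ℝ E] {x : V → E}
    {g f : Module.Dual ℝ E} {e : E} (hR : RH x g f e) : RH x (-g) (-f) e := by
  have hg : ∀ y, (-g) y = -(g y) := fun _ => rfl
  have hf : ∀ y, (-f) y = -(f y) := fun _ => rfl
  refine ⟨?_, ?_, ?_, ?_, ?_, ?_, ?_, hR.enot⟩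
  · intro v h
    rw [hg] at h
    exact hR.gx v (by linarith)
  · intro A1 A2 A3 h1 h2 y hy h
    rw [hg] at h
    exact hR.g13 A1 A2 A3 h1 h2 y hy (by linarith)
  · intro v h
    rw [hf] at h
    exact hR.fx v (by linarith)
  · intro A1 A2 h1 h2 h3 h4 y hy h
    rw [hf] at h
    exact hR.f7 A1 A2 h1 h2 h3 h4 y hy (by linarith)
  · intro A1 A2 A3 h1 h2 y hy h
    rw [hf] at h
    exact hR.f13 A1 A2 A3 h1 h2 y hy (by linarith)
  · intro A1 A2 A3 h1 h2
    obtain ⟨i1, i2⟩ := hR.iso A1 A2 A3 h1 h2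
    refine ⟨fun y hy a b => ?_, fun s t => ?_⟩
    · rw [hg] at a
      rw [hf] at b
      exact i1 y hy (by linarith) (by linarith)
    · obtain ⟨y, hy, hs, ht⟩ := i2 (-s) (-t)
      exact ⟨y, hy, by rw [hg, hs, neg_neg], by rw [hf, ht, neg_neg]⟩
  · intro A1 A2 A3 h1 h2 c hc y hy h
    rw [hg, hg, hf, hf] at h
    exact hR.th A1 A2 A3 h1 h2 c hc y hy (by linarith)

end KS13
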