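import Pool.Agent.LibKS13.Cd

/-!
# KS13 row RY: symmetry F2 ↔ F3
WW x B1 F2 F3 = WW x B1 F3 F2 (inf comm), so aR, qR agree; LiveU.symm; the functionals are permuted by inr inl ↔ inr inr: Ev, Btw, sg, eps correspond. Sum: `Finset.sum_comm` of the sums over B2, B3.
-/

open Finset Function
open scoped Classical

namespace KS13

open KS37

theorem RY_ev {J : Type} {α β α' β' : J → ℝ} (σ : J ≃ J) (ha : ∀ l, α' (σ l) = α l)
    (hb : ∀ l, β' (σ l) = β l) (j : J) : Ev α' β' (σ j) ↔ Ev α β j := by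
  unfold Ev
  rw [ha j, hb j]
  constructor
  · intro h l hl
    have := h (σ l) (fun h' => hl (σ.injective h'))
    rwa [ha l, hb l] at this
  · intro h l hl
    have hl' : σ.symm l ≠ j := by
      intro h'
      apply hl
      rw [← h', Equiv.apply_symm_apply]
    have := h (σ.symm l) hl'
    rw [← ha (σ.symm l), ← hb (σ.symm l), Equiv.apply_symm_apply] at this
    exact this

def RY_sw : Fin 4 ⊕ (Fin 5 ⊕ Fin 5) ≃ Fin 4 ⊕ (Fin 5 ⊕ Fin 5) :=
  Equiv.sumCongr (Equiv.refl _) (Equiv.sumComm _ _)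

theorem RY_WW {E V : Type} [AddCommGroup E] [Module ℝ E] (x : V → E) (B1 : Fin 4 → V)
    (F2 F3 : Fin 5 → V) : WW x B1 F2 F3 = WW x B1 F3 F2 := by
  unfold WW
  rw [inf_assoc, inf_comm (sp x F2), ← inf_assoc]

theorem RY_al {E V : Type} [AddCommGroup E] [Module ℝ E] (x : V → E)
    (g f : Module.Dual ℝ E) (e : E) (B1 : Fin 4 → V) (b1 : Fin 4 → Module.Dual ℝ E)
    (F2 F3 : Fin 5 → V) (l : Fin 4 ⊕ (Fin 5 ⊕ Fin 5)) :
    alR x g f e b1 B1 F2 F3 (RY_sw l) = alR x g f e b1 B1 F3 F2 l := by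
  rcases l with k | i | i
  all_goals
    unfold alR aR
    rw [RY_WW x B1 F2 F3]
    rfl

theorem RY_be {E V : Type} [AddCommGroup E] [Module ℝ E] (x : V → E)
    (g f : Module.Dual ℝ E) (e : E) (B1 : Fin 4 → V) (b1 : Fin 4 → Module.Dual ℝ E)
    (F2 F3 : Fin 5 → V) (l : Fin 4 ⊕ (Fin 5 ⊕ Fin 5)) :
    beR x g f e b1 B1 F2 F3 (RY_sw l) = beR x g f e b1 B1 F3 F2 l := by
  rcases l with k | i | i
  all_goals
    unfold beR qR
    rw [RY_WW x B1 F2 F3]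
    rfl

theorem RY_live {V : Type} {T : (Fin 5 → V) → Prop} {A : Finset V} {a : V}
    {B2 B3 : Fin 4 → V} : LiveU T A a B2 B3 ↔ LiveU T A a B3 B2 := ⟨LiveU.symm, LiveU.symm⟩

theorem RY_WR {E V : Type} [AddCommGroup E] [Module ℝ E] (x : V → E)
    (T : (Fin 5 → V) → Prop) (g f : Module.Dual ℝ E) (e : E) (B1 : Fin 4 → V)
    (b1 : Fin 4 → Module.Dual ℝ E) (c : V) (B2 B3 : Fin 4 → V) (j : Fin 4 ⊕ (Fin 5 ⊕ Fin 5)) :
    WR x T g f e B1 b1 c B2 B3 (RY_sw j) = WR x T g f e B1 b1 c B3 B2 j := by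
  unfold WR Btw eps
  rw [RY_ev RY_sw (RY_al x g f e B1 b1 (cd c B2) (cd c B3))
    (RY_be x g f e B1 b1 (cd c B2) (cd c B3)) j, RY_al, RY_be,
    propext (RY_live (T := T) (A := Finset.univ.image B1) (a := c) (B2 := B2) (B3 := B3))]

theorem r6_W {E V : Type} [AddCommGroup E] [Module ℝ E] [Fintype V] (x : V → E)
    (T : (Fin 5 → V) → Prop) (g f : Module.Dual ℝ E) (e : E) (B1 : Fin 4 → V)
    (b1 : Fin 4 → Module.Dual ℝ E) (i : Fin 5) :
    ∑ c : V, ∑ B2 : Fin 4 → V, ∑ B3 : Fin 4 → V,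
        WR x T g f e B1 b1 c B2 B3 (Sum.inr (Sum.inr i)) =
      ∑ c : V, ∑ B2 : Fin 4 → V, ∑ B3 : Fin 4 → V,
        WR x T g f e B1 b1 c B2 B3 (Sum.inr (Sum.inl i)) := by
  refine Finset.sum_congr rfl fun c _ => ?_
  rw [Finset.sum_comm]
  refine Finset.sum_congr rfl fun B2 _ => Finset.sum_congr rfl fun B3 _ => ?_
  exact RY_WR x T g f e B1 b1 c B3 B2 (Sum.inr (Sum.inl i))

theorem r6_E {E V : Type} [AddCommGroup E] [Module ℝ E] [Fintype V] (x : V → E)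
    (T : (Fin 5 → V) → Prop) (g f : Module.Dual ℝ E) (e : E) (B1 : Fin 4 → V)
    (b1 : Fin 4 → Module.Dual ℝ E) (i : Fin 5) :
    EVR x T g f e B1 b1 (Sum.inr (Sum.inr i)) = EVR x T g f e B1 b1 (Sum.inr (Sum.inl i)) := by
  unfold EVR
  refine Finset.sum_congr rfl fun c _ => ?_
  rw [Finset.sum_comm]
  refine Finset.sum_congr rfl fun B2 _ => Finset.sum_congr rfl fun B3 _ => ?_
  have h := RY_ev RY_sw (RY_al x g f e B1 b1 (cd c B3) (cd c B2))
    (RY_be x g f e B1 b1 (cd c B3) (cd c B2)) (Sum.inr (Sum.inl i))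
  have h2 : RY_sw (Sum.inr (Sum.inl i)) = Sum.inr (Sum.inr i) := rfl
  rw [h2] at h
  rw [propext h, propext (RY_live (T := T) (A := Finset.univ.image B1) (a := c) (B2 := B3)
    (B3 := B2))]

end KS13
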