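import Pool.Agent.LibKS13.Cd

/-!
# KS13 row UA: the subspace sp x R, R : Fin 3 → V, satisfies UH
All dimensions by `KS37.finrank_sp_inf`, `KS37.sp_inf_eq_bot`, `KS37.finrank_vs_inf`, `KS37.vs_inf_eq_bot` (dim E = 6) with `spx_vx1`, `spx_vx2`, `sp_vx`, `card_vx`, `vx_disj`; Av (univ.image R) F means Disj F R.
b k y = 0 on sp x R iff y ∈ spx x R {k} (`dual_spx`; conversely b k vanishes on spx x R {k}): sp x F ⊓ sp x R ⊓ ker (b k) = sp x F ⊓ spx x R {k} (5+2-6 = 1). one: 4+3-6 = 1; two: 5+3-6 = 2; zero: 3+3 ≤ 6;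
edge2: sp x F ⊓ spx x R {k,l}: 5+1 ≤ 6; edger: spx x F {i} ⊓ spx x R {k}: 4+2 ≤ 6. dbl: `gf_cd` (m = 3): 3+5+5-12 = 1; pairs: 3+4+4 ≤ 12.
-/

open Finset Function
open scoped Classical

namespace KS13

open KS37

private theorem UA_disj {V : Type} {F : Fin 5 → V} {R : Fin 3 → V}
    (h : Av (Finset.univ.image R) F) : Disj F R := by
  intro i j hij
  exact h i (Finset.mem_image.2 ⟨j, Finset.mem_univ _, hij.symm⟩)

private theorem UA_ker {E V : Type} [AddCommGroup E] [Module ℝ E] {s : ℕ} {x : V → E}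
    {R : Fin s → V} {b : Fin s → Module.Dual ℝ E} (hb : DualB x R b) (k : Fin s) {y : E}
    (hy : y ∈ spx x R {k}) : b k y = 0 := by
  have h : spx x R {k} ≤ LinearMap.ker (b k) := by
    unfold spx
    rw [Submodule.span_le]
    rintro _ ⟨l, hl, rfl⟩
    have hkl : k ≠ l := fun h => hl (by rw [h]; exact rfl)
    show b k (x (R l)) = 0
    rw [hb, if_neg hkl]
  exact h hy

private theorem UA_empty {E V : Type} [AddCommGroup E] [Module ℝ E] {s : ℕ} {x : V → E}
    (B : Fin s → V) : spx x B ((∅ : Finset (Fin s)) : Set (Fin s)) = sp x B := by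
  unfold sp spx
  rw [Finset.coe_empty, Set.compl_empty, Set.image_univ]

theorem uh_span {E V : Type} [AddCommGroup E] [Module ℝ E] [Fintype V] {x : V → E}
    {T : (Fin 5 → V) → Prop} (hS : Sys 5 x T)
    (hF : GF x) (R : Fin 3 → V) (hR : Injective R) (b : Fin 3 → Module.Dual ℝ E)
    (hb : DualB x R b) : UH x (sp x R) (Finset.univ.image R) b := by
  have := finiteDimensional_of_sys hS
  have hc2 : ∀ {s : ℕ} (i j : Fin s), i ≠ j → ({i, j} : Finset (Fin s)).card = 2 :=
    fun i j hij => Finset.card_pair hij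
  have hc1 : ∀ {s : ℕ} (i : Fin s), ({i} : Finset (Fin s)).card = 1 :=
    fun i => Finset.card_singleton i
  refine
    { fin := finrank_sp hS (by norm_num) R hR
      cardA := ?_
      sep := ?_
      two := ?_
      one := ?_
      zero := ?_
      edge := ?_
      edge2 := ?_
      edger := ?_
      dbl := ?_
      pairs := ?_ }
  · rw [Finset.card_image_of_injective _ hR, Finset.card_univ, Fintype.card_fin]
    norm_num
  · intro y hy h
    rw [dual_sum hb hy]
    exact Finset.sum_eq_zero fun k _ => by rw [h k, zero_smul]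
  · intro F hFi hA
    have h := finrank_sp_inf hS F R hFi hR (UA_disj hA) (by norm_num) (by norm_num) (by norm_num)
    omega
  · intro F hFi hA i
    rw [spx_vx1, sp_vx R]
    have h := finrank_vs_inf hS (vx F {i}) (vx R ∅) (vx_disj (UA_disj hA) _ _)
      (by rw [card_vx hFi, hc1]; norm_num) (by rw [card_vx hR, Finset.card_empty]; norm_num)
      (by rw [card_vx hFi, card_vx hR, hc1, Finset.card_empty]; norm_num)
    rw [card_vx hFi, card_vx hR, hc1, Finset.card_empty] at h
    omega
  · intro F hFi hA i j hij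
    rw [spx_vx2, sp_vx R]
    exact vs_inf_eq_bot hS _ _ (vx_disj (UA_disj hA) _ _)
      (by rw [card_vx hFi, card_vx hR, hc2 i j hij, Finset.card_empty])
  · intro F hFi hA k
    have he : sp x F ⊓ sp x R ⊓ LinearMap.ker (b k) = sp x F ⊓ spx x R {k} := by
      ext y
      simp only [Submodule.mem_inf, LinearMap.mem_ker]
      constructor
      · rintro ⟨⟨h1, h2⟩, h3⟩
        refine ⟨h1, dual_spx hb h2 {k} ?_⟩
        intro l hl
        rw [Set.mem_singleton_iff.1 hl]
        exact h3
      · rintro ⟨h1, h2⟩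
        exact ⟨⟨h1, spx_le_sp R {k} h2⟩, UA_ker hb k h2⟩
    rw [he, spx_vx1, sp_vx F]
    have h := finrank_vs_inf hS (vx F ∅) (vx R {k}) (vx_disj (UA_disj hA) _ _)
      (by rw [card_vx hFi, Finset.card_empty]; norm_num)
      (by rw [card_vx hR, hc1]; norm_num)
      (by rw [card_vx hFi, card_vx hR, hc1, Finset.card_empty]; norm_num)
    rw [card_vx hFi, card_vx hR, hc1, Finset.card_empty] at h
    omega
  · intro F hFi hA k l hkl y hy h1 h2
    have h3 : y ∈ spx x R {k, l} := by
      refine dual_spx hb hy.2 {k, l} ?_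
      intro m hm
      rcases hm with hm | hm
      · rw [hm]; exact h1
      · rw [Set.mem_singleton_iff.1 hm]; exact h2
    have h4 : sp x F ⊓ spx x R {k, l} = ⊥ := by
      rw [spx_vx2, sp_vx F]
      exact vs_inf_eq_bot hS _ _ (vx_disj (UA_disj hA) _ _)
        (by rw [card_vx hFi, card_vx hR, hc2 k l hkl, Finset.card_empty])
    have h5 : y ∈ sp x F ⊓ spx x R {k, l} := ⟨hy.1, h3⟩
    rw [h4] at h5
    exact (Submodule.mem_bot ℝ).1 h5
  · intro F hFi hA k i y hy h1
    have h3 : y ∈ spx x R {k} := by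
      refine dual_spx hb hy.2 {k} ?_
      intro m hm
      rw [Set.mem_singleton_iff.1 hm]; exact h1
    have h4 : spx x F {i} ⊓ spx x R {k} = ⊥ := by
      rw [spx_vx1, spx_vx1]
      exact vs_inf_eq_bot hS _ _ (vx_disj (UA_disj hA) _ _)
        (by rw [card_vx hFi, card_vx hR, hc1, hc1])
    have h5 : y ∈ spx x F {i} ⊓ spx x R {k} := ⟨hy.1, h3⟩
    rw [h4] at h5
    exact (Submodule.mem_bot ℝ).1 h5
  · intro a B2 B3 hD
    have h := gf_cd hF (by norm_num : 3 ≤ 4) hR hD ∅ ∅ ∅
    rw [UA_empty, UA_empty, UA_empty, Finset.card_empty, Finset.card_empty] at h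
    rw [inf_comm, ← inf_assoc, h]
  · intro a B2 B3 hD i j
    have h := gf_cd hF (by norm_num : 3 ≤ 4) hR hD ∅ {i} {j}
    rw [UA_empty, Finset.coe_singleton, Finset.coe_singleton, Finset.card_empty,
      Finset.card_singleton, Finset.card_singleton] at h
    apply bot_of_finrank
    rw [inf_comm, ← inf_assoc, h]

end KS13
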