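import Pool.Agent.LibKS13.Cd

/-!
# KS13 row UB: the subspace sp x B1 ⊓ ker f, B1 : Fin 4 → V, satisfies UH
`finrank_inf_ker` and `exists_ne_of_line` (Cd). fin: sp x B1 (4), f (x v) ≠ 0. two: sp x F ⊓ sp x B1 (5+4-6 = 3) contains the line spx x F {i,j} ⊓ sp x B1 (3+4 = 7, f7). one: spx x F {i} ⊓ sp x B1 (2), the same.
zero: spx x F {i,j} ⊓ sp x B1 (7): f7. edge: sp x F ⊓ spx x B1 {k} (5+3-6 = 2) contains the line sp x F ⊓ spx x B1 {k,l} (5+2 = 7). edge2: 5+2 = 7: f7. edger: spx x F {i} ⊓ spx x B1 {k}: 4+3 = 7: f7.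
(b k y = 0 on sp x B1 iff y ∈ spx x B1 {k}: `dual_spx`.) dbl: sp x B1 ⊓ sp x F2 ⊓ sp x F3 (4+5+5-12 = 2, `gf_cd`) contains a line with one vertex removed (13: f13, adm_cd). pairs: 4+4+4 = 12: ⊥ (`gf_cd`).
-/

open Finset Function
open scoped Classical

namespace KS13

open KS37

theorem UB_e {E V : Type} [AddCommGroup E] [Module ℝ E] [Fintype V] {x : V → E} {s : ℕ}
    (B : Fin s → V) : sp x B = spx x B ((∅ : Finset (Fin s)) : Set (Fin s)) :=
  (sp_vx B).trans (spx_vx B ∅).symm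

theorem UB_s {E V : Type} [AddCommGroup E] [Module ℝ E] [Fintype V] {x : V → E} {s : ℕ}
    (B : Fin s → V) (i : Fin s) :
    spx x B {i} = spx x B ((({i} : Finset (Fin s))) : Set (Fin s)) := by
  rw [Finset.coe_singleton]

theorem UB_p {E V : Type} [AddCommGroup E] [Module ℝ E] [Fintype V] {x : V → E} {s : ℕ}
    (B : Fin s → V) (i j : Fin s) :
    spx x B {i, j} = spx x B ((({i, j} : Finset (Fin s))) : Set (Fin s)) := by
  rw [Finset.coe_insert, Finset.coe_singleton]

theorem UB_mono {E V : Type} [AddCommGroup E] [Module ℝ E] [Fintype V] {x : V → E} {s : ℕ}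
    (B : Fin s → V) {I J : Set (Fin s)} (h : I ⊆ J) : spx x B J ≤ spx x B I := by
  unfold spx
  apply Submodule.span_mono
  apply Set.image_mono
  exact Set.compl_subset_compl.2 h

theorem UB_dim {E V : Type} [AddCommGroup E] [Module ℝ E] [Fintype V] {x : V → E}
    {T : (Fin 5 → V) → Prop} (hS : Sys 5 x T) {F : Fin 5 → V} (hF : Injective F)
    {B1 : Fin 4 → V} (hB : Injective B1) (hd : Disj F B1) (I : Finset (Fin 5))
    (J : Finset (Fin 4)) (h : 6 ≤ (5 - I.card) + (4 - J.card)) :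
    Module.finrank ℝ (spx x F (I : Set (Fin 5)) ⊓ spx x B1 (J : Set (Fin 4)) : Submodule ℝ E) + 6 =
      (5 - I.card) + (4 - J.card) := by
  rw [spx_vx, spx_vx]
  have h1 := finrank_vs_inf hS (vx F I) (vx B1 J) (vx_disj hd I J)
    (by rw [card_vx hF]; omega) (by rw [card_vx hB]; omega)
    (by rw [card_vx hF, card_vx hB]; omega)
  rw [card_vx hF, card_vx hB] at h1
  exact h1

theorem UB_f7 {E V : Type} [AddCommGroup E] [Module ℝ E] [Fintype V] {x : V → E}
    {g f : Module.Dual ℝ E} {e : E} (hR : RH x g f e) {F : Fin 5 → V} (hF : Injective F)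
    {B1 : Fin 4 → V} (hB : Injective B1) (hd : Disj F B1) (I : Finset (Fin 5))
    (J : Finset (Fin 4)) (h : (5 - I.card) + (4 - J.card) = 7) :
    ∀ y ∈ spx x F (I : Set (Fin 5)) ⊓ spx x B1 (J : Set (Fin 4)), f y = 0 → y = 0 := by
  intro y hy hf
  rw [spx_vx, spx_vx] at hy
  exact hR.f7 (vx B1 J) (vx F I) (vx_disj hd I J).symm (by rw [card_vx hB]; omega)
    (by rw [card_vx hF]; omega) (by rw [card_vx hF, card_vx hB]; omega) y ⟨hy.2, hy.1⟩ hf

theorem UB_disj {V : Type} {F : Fin 5 → V} {B1 : Fin 4 → V}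
    (h : Av (Finset.univ.image B1) F) : Disj F B1 := by
  intro i j hij
  exact h i (Finset.mem_image.2 ⟨j, Finset.mem_univ _, hij.symm⟩)

/-- dimension of the intersection with the slice. -/
theorem UB_fin {E V : Type} [AddCommGroup E] [Module ℝ E] [Fintype V] {x : V → E}
    {T : (Fin 5 → V) → Prop} (hS : Sys 5 x T) {g f : Module.Dual ℝ E} {e : E} (hR : RH x g f e)
    {F : Fin 5 → V} (hF : Injective F)
    {B1 : Fin 4 → V} (hB : Injective B1) (hd : Disj F B1) (I I' : Finset (Fin 5))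
    (J J' : Finset (Fin 4)) (hI : I ⊆ I') (hJ : J ⊆ J')
    (h : (5 - I'.card) + (4 - J'.card) = 7) :
    Module.finrank ℝ (spx x F (I : Set (Fin 5)) ⊓ spx x B1 (J : Set (Fin 4)) ⊓
      LinearMap.ker f : Submodule ℝ E) + 7 = (5 - I.card) + (4 - J.card) := by
  have := finiteDimensional_of_sys hS
  have hIc := Finset.card_le_card hI
  have hJc := Finset.card_le_card hJ
  have h1 := UB_dim hS hF hB hd I J (by omega)
  have h2 := UB_dim hS hF hB hd I' J' (by omega)
  have h3 := exists_ne_of_line (P := spx x F (I : Set (Fin 5)) ⊓ spx x B1 (J : Set (Fin 4)))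
    (L := spx x F (I' : Set (Fin 5)) ⊓ spx x B1 (J' : Set (Fin 4)))
    (inf_le_inf (UB_mono F (Finset.coe_subset.2 hI)) (UB_mono B1 (Finset.coe_subset.2 hJ)))
    (by omega) (UB_f7 hR hF hB hd I' J' h)
  have h4 := finrank_inf_ker _ f h3
  omega

theorem uh_slice {E V : Type} [AddCommGroup E] [Module ℝ E] [Fintype V] {x : V → E}
    {T : (Fin 5 → V) → Prop} (hS : Sys 5 x T)
    (hF : GF x) {g f : Module.Dual ℝ E} {e : E} (hR : RH x g f e) (B1 : Fin 4 → V)
    (hB : Injective B1) (b : Fin 4 → Module.Dual ℝ E) (hb : DualB x B1 b) :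
    UH x (sp x B1 ⊓ LinearMap.ker f) (Finset.univ.image B1) b := by
  have := finiteDimensional_of_sys hS
  have hker : ∀ k, sp x B1 ⊓ LinearMap.ker (b k) = spx x B1 {k} := by
    intro k
    apply le_antisymm
    · rintro y ⟨h1, h2⟩
      exact dual_spx hb h1 {k} (fun l hl => by rw [Set.mem_singleton_iff.1 hl]; exact h2)
    · intro y hy
      refine ⟨spx_le_sp _ _ hy, ?_⟩
      obtain ⟨c, hc, hy'⟩ := (mem_spx_iff B1 {k} y).1 hy
      show b k y = 0
      rw [hy', map_sum]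
      refine Finset.sum_eq_zero fun l _ => ?_
      rw [map_smul, hb]
      by_cases hkl : k = l
      · subst hkl
        rw [hc k rfl, zero_smul]
      · rw [if_neg hkl, smul_zero]
  refine ⟨?_, ?_, ?_, ?_, ?_, ?_, ?_, ?_, ?_, ?_, ?_⟩
  · -- fin
    have h1 := finrank_sp hS (by norm_num) B1 hB
    have h2 := finrank_inf_ker (sp x B1) f ⟨x (B1 0), Submodule.subset_span ⟨0, rfl⟩, hR.fx _⟩
    omega
  · -- cardA
    refine Finset.card_image_le.trans ?_
    rw [Finset.card_univ, Fintype.card_fin]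
  · -- sep
    intro y hy h
    rw [dual_sum hb hy.1]
    refine Finset.sum_eq_zero fun k _ => ?_
    rw [h k, zero_smul]
  · -- two
    intro F hFi hA
    rw [← inf_assoc, UB_e F, UB_e B1]
    have := UB_fin hS hR hFi hB (UB_disj hA) ∅ {0, 1} ∅ ∅ (Finset.empty_subset _)
      (Finset.empty_subset _) (by decide)
    rw [Finset.card_empty, Finset.card_empty] at this
    omega
  · -- one
    intro F hFi hA i
    rw [← inf_assoc, UB_s F, UB_e B1]
    obtain ⟨j, hj⟩ := exists_ne i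
    have := UB_fin hS hR hFi hB (UB_disj hA) {i} {i, j} ∅ ∅ (by simp)
      (Finset.empty_subset _) (by rw [Finset.card_pair hj.symm]; rfl)
    rw [Finset.card_singleton, Finset.card_empty] at this
    omega
  · -- zero
    intro F hFi hA i j hij
    rw [eq_bot_iff]
    rintro y ⟨h1, h2, h3⟩
    rw [Submodule.mem_bot]
    rw [UB_p F] at h1
    rw [UB_e B1] at h2
    exact UB_f7 hR hFi hB (UB_disj hA) {i, j} ∅ (by rw [Finset.card_pair hij]; rfl) y ⟨h1, h2⟩ h3
  · -- edge
    intro F hFi hA k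
    have e1 : sp x F ⊓ (sp x B1 ⊓ LinearMap.ker f) ⊓ LinearMap.ker (b k) =
        sp x F ⊓ spx x B1 {k} ⊓ LinearMap.ker f := by
      rw [← hker k]
      ext y
      simp only [Submodule.mem_inf]
      tauto
    rw [e1, UB_e F, UB_s B1]
    obtain ⟨l, hl⟩ := exists_ne k
    have := UB_fin hS hR hFi hB (UB_disj hA) ∅ ∅ {k} {k, l} (Finset.empty_subset _)
      (by simp) (by rw [Finset.card_pair hl.symm]; rfl)
    rw [Finset.card_singleton, Finset.card_empty] at this
    omega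
  · -- edge2
    rintro F hFi hA k l hkl y ⟨h1, h2, h3⟩ hk hl
    have h4 := dual_spx hb h2 {k, l} (by
      rintro m (rfl | rfl)
      · exact hk
      · exact hl)
    rw [UB_e F] at h1
    rw [UB_p B1] at h4
    exact UB_f7 hR hFi hB (UB_disj hA) ∅ {k, l} (by rw [Finset.card_pair hkl]; rfl) y ⟨h1, h4⟩ h3
  · -- edger
    rintro F hFi hA k i y ⟨h1, h2, h3⟩ hk
    have h4 := dual_spx hb h2 {k} (fun m hm => by rw [Set.mem_singleton_iff.1 hm]; exact hk)
    rw [UB_s F] at h1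
    rw [UB_s B1] at h4
    exact UB_f7 hR hFi hB (UB_disj hA) {i} {k} (by
      rw [Finset.card_singleton, Finset.card_singleton]) y ⟨h1, h4⟩ h3
  · -- dbl
    intro a B2 B3 hD
    have e1 : sp x (cd a B2) ⊓ sp x (cd a B3) ⊓ (sp x B1 ⊓ LinearMap.ker f) =
        sp x B1 ⊓ sp x (cd a B2) ⊓ sp x (cd a B3) ⊓ LinearMap.ker f := by
      ext y
      simp only [Submodule.mem_inf]
      tauto
    rw [e1, UB_e B1, UB_e (cd a B2), UB_e (cd a B3)]
    have h1 := gf_cd hF le_rfl hB hD ∅ ∅ ∅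
    have h2 := gf_cd hF le_rfl hB hD {0} ∅ ∅
    have h3 := exists_ne_of_line
      (P := spx x B1 ((∅ : Finset (Fin 4)) : Set (Fin 4)) ⊓
        spx x (cd a B2) ((∅ : Finset (Fin 5)) : Set (Fin 5)) ⊓
        spx x (cd a B3) ((∅ : Finset (Fin 5)) : Set (Fin 5)))
      (L := spx x B1 (({0} : Finset (Fin 4)) : Set (Fin 4)) ⊓
        spx x (cd a B2) ((∅ : Finset (Fin 5)) : Set (Fin 5)) ⊓
        spx x (cd a B3) ((∅ : Finset (Fin 5)) : Set (Fin 5)))
      (inf_le_inf_right _ (inf_le_inf_right _ (UB_mono B1 (by simp))))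
      (by rw [h2]; simp) (f := f) (by
        intro y hy hf
        rw [spx_vx, spx_vx, spx_vx] at hy
        refine hR.f13 _ _ _ (adm_cd le_rfl hD {0} ∅ ∅) ?_ y hy hf
        rw [card_vx hB, card_vx hD.f2.1, card_vx hD.f3.1]
        simp)
    have h4 := finrank_inf_ker _ f h3
    rw [h1] at h4
    simp only [Finset.card_empty] at h4
    omega
  · -- pairs
    intro a B2 B3 hD i j
    rw [eq_bot_iff]
    rintro y ⟨⟨h1, h2⟩, h3, h4⟩
    rw [Submodule.mem_bot]
    have h5 := gf_cd hF le_rfl hB hD ∅ {i} {j}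
    rw [Finset.card_empty, Finset.card_singleton, Finset.card_singleton] at h5
    have h6 := bot_of_finrank (by rw [h5])
    rw [UB_s] at h1 h2
    rw [UB_e B1] at h3
    have h7 : y ∈ spx x B1 ((∅ : Finset (Fin 4)) : Set (Fin 4)) ⊓
      spx x (cd a B2) (({i} : Finset (Fin 5)) : Set (Fin 5)) ⊓
      spx x (cd a B3) (({j} : Finset (Fin 5)) : Set (Fin 5)) := ⟨⟨h3, h1⟩, h2⟩
    rw [h6] at h7
    exact (Submodule.mem_bot ℝ).1 h7

end KS13
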