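import Pool.Agent.LibKS13.R1
import Pool.Agent.LibKS13.R3
import Pool.Agent.LibKS13.R4
import Pool.Agent.LibKS13.R5
import Pool.Agent.LibKS13.RY
import Pool.Agent.LibKS13.R7
import Pool.Agent.LibKS13.R8
import Pool.Agent.LibKS13.RN
import Pool.Agent.LibKS13.PU
import Pool.Agent.LibKS13.UA
import Pool.Agent.LibKS13.UB

/-!
# KS13 R9: OBR ≤ 616 n^8 + 34 n^4 K (assembly)
-/

open Finset Function
open scoped Classical

namespace KS13

open KS37

theorem obp_bound {E V : Type} [AddCommGroup E] [Module ℝ E] [Fintype V] {x : V → E}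
    {T : (Fin 5 → V) → Prop} (hS : Sys 5 x T)
    (K : ℝ) (hK : ∀ p e, NN x T p e ≤ K)
    (hF : GF x) {g f : Module.Dual ℝ E} {e : E} (hR : RH x g f e)
    (B1 : Fin 4 → V) (hB : Injective B1) {b1 : Fin 4 → Module.Dual ℝ E} (hb : DualB x B1 b1) :
    OBP x T g f e B1 b1 ≤ 308 * nn V ^ 8 + 17 * (nn V ^ 4 * K) := by
  have h0 := obp_le hS hF hR B1 hB hb
  have h1 := (r4_fixed hS hR B1 hB b1 hb).trans
    (pu_main hS K hK le_rfl (uh_slice hS hF hR B1 hB b1 hb))
  have h2 : (∑ j : Fin 4, |∑ c : V, ∑ B2 : Fin 4 → V, ∑ B3 : Fin 4 → V,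
        WR x T g f e B1 b1 c B2 B3 (Sum.inr (Sum.inl j.succ))|) ≤ 44 * nn V ^ 8 := by
    refine (Finset.sum_le_sum fun j _ => r5_ga hS hF hR B1 hB hb j).trans ?_
    rw [Finset.sum_const, Finset.card_univ, Fintype.card_fin, nsmul_eq_mul]
    push_cast; linarith
  have h3 : (∑ j : Fin 4, |∑ c : V, ∑ B2 : Fin 4 → V, ∑ B3 : Fin 4 → V,
        WR x T g f e B1 b1 c B2 B3 (Sum.inr (Sum.inr j.succ))|) ≤ 44 * nn V ^ 8 := by
    simp only [r6_W]
    exact h2
  have h4 : (∑ k : Fin 4, EVR x T g f e B1 b1 (Sum.inl k)) ≤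
      4 * (44 * nn V ^ 8 + 3 * (nn V ^ 4 * K)) := by
    refine (Finset.sum_le_sum fun k _ => (r8_b hS hR B1 hB hb k).trans
      (pu_main hS K hK (by norm_num) (uh_span hS hF _
        (hB.comp Fin.succAbove_right_injective) _ (fun i l => ?_)))).trans ?_
    · show b1 (k.succAbove i) (x (B1 (k.succAbove l))) = _
      rw [hb]
      by_cases h : i = l
      · subst h; simp
      · rw [if_neg h, if_neg (fun h' => h (Fin.succAbove_right_injective h'))]
    · rw [Finset.sum_const, Finset.card_univ, Fintype.card_fin, nsmul_eq_mul]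
      push_cast; linarith
  have h5 := r7_c hS K hK hF hR B1 hB hb
  have h6 : EVR x T g f e B1 b1 (Sum.inr (Sum.inr 0)) ≤ nn V ^ 4 * K := by
    rw [r6_E]; exact h5
  linarith

theorem obr_bound {E V : Type} [AddCommGroup E] [Module ℝ E] [Fintype V] {x : V → E}
    {T : (Fin 5 → V) → Prop} (hS : Sys 5 x T)
    (K : ℝ) (hK : ∀ p e, NN x T p e ≤ K)
    (hF : GF x) {g f : Module.Dual ℝ E} {e : E} (hR : RH x g f e)
    (B1 : Fin 4 → V) (hB : Injective B1) :
    OBR x T g f B1 ≤ 616 * nn V ^ 8 + 34 * (nn V ^ 4 * K) := by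
  obtain ⟨b1, hb⟩ := dual_exists hS (by norm_num) B1 hB
  have h1 := obp_bound hS K hK hF hR B1 hB hb
  have h2 := obp_bound hS K hK hF (rh_neg hR) B1 hB hb
  have h3 := obr_le hS hR (rh_neg hR) B1 hB b1 hb
  linarith

end KS13
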