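import Pool.Agent.LibKS13.S1
import Pool.Agent.LibKS13.PT
import Pool.Agent.LibKS13.F3

/-!
# KS13 S5: the bound for vector configurations (port of KS37 S5; card V < 14: NT ≤ n^5)
-/

open Finset Function
open scoped Classical

namespace KS13

open KS37

theorem S5_pos_iff {V : Type} [Fintype V] (x x' : V → Fin 6 → ℝ) (hgp : GP6 x) (hgp' : GP6 x')
    (h : ∀ v : Fin 6 → V, Injective v →
        0 < D6 (fun i => x (v i)) * D6 (fun i => x' (v i)))
    (v : Fin 5 → V) (hv : Injective v) (u : V) :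
    0 < D6 (Fin.snoc (fun i => x (v i)) (x u)) ↔ 0 < D6 (Fin.snoc (fun i => x' (v i)) (x' u)) := by
  by_cases hu : u ∈ univ.image v
  · rw [(S1_zero_iff x hgp v hv u).2 hu, (S1_zero_iff x' hgp' v hv u).2 hu]
  · have h1 : Injective (Fin.snoc v u : Fin 6 → V) := by
      rw [Fin.snoc_injective_iff]
      refine ⟨hv, ?_⟩
      rintro ⟨l, hl⟩
      exact hu (mem_image.2 ⟨l, mem_univ _, hl⟩)
    have h3 : ∀ y : V → Fin 6 → ℝ, (fun l : Fin 6 => y ((Fin.snoc v u : Fin 6 → V) l)) =
        (Fin.snoc (fun l => y (v l)) (y u) : Fin 6 → Fin 6 → ℝ) := by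
      intro y
      funext l
      refine Fin.lastCases ?_ (fun l => ?_) l
      · rw [Fin.snoc_last, Fin.snoc_last]
      · rw [Fin.snoc_castSucc, Fin.snoc_castSucc]
    have h4 := h _ h1
    rw [h3, h3] at h4
    constructor
    · intro h5
      exact pos_of_mul_pos_right h4 h5.le
    · intro h5
      exact pos_of_mul_pos_left h4 h5.le

theorem S5_TT {V : Type} [Fintype V] (x x' : V → Fin 6 → ℝ) (hgp : GP6 x) (hgp' : GP6 x')
    (h : ∀ v : Fin 6 → V, Injective v →
        0 < D6 (fun i => x (v i)) * D6 (fun i => x' (v i))) (k : ℕ) : TT x k = TT x' k := by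
  funext v
  apply propext
  unfold TT
  refine and_congr_right fun hv => ?_
  have h1 : npos x v = npos x' v := by
    unfold npos
    congr 1
    apply Finset.filter_congr
    intro u _
    exact S5_pos_iff x x' hgp hgp' h v hv u
  rw [h1]

theorem bound6 : ∃ C : ℝ, 0 < C ∧ ∀ (V : Type) [Fintype V] (x : V → Fin 6 → ℝ), GP6 x →
    (∀ v, 0 < x v 0) → ∀ k : ℕ, NT (TT x k) ^ 9 ≤ C * nn V ^ 44 := by
  obtain ⟨C, hC, hfin⟩ := final_sys13
  refine ⟨C + 13, by linarith, fun V _ x hgp hpos k => ?_⟩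
  have hn := nn_nonneg V
  by_cases hcard : 14 ≤ Fintype.card V
  · obtain ⟨x', h1, h2, h3⟩ := pert6 x hgp hpos
    have hgp' : GP6 x' := by
      intro v hv h0
      have h5 := h1 v hv
      rw [h0, mul_zero] at h5
      exact lt_irrefl _ h5
    rw [S5_TT x x' hgp hgp' h1 k]
    have h5 := hfin (Fin 6 → ℝ) V x' (TT x' k) (sys6 x' hgp' (by omega) k) h3 hcard
      ⟨LinearMap.proj 0, fun v => h2 v⟩
    refine h5.trans ?_
    have : 0 ≤ nn V ^ 44 := pow_nonneg hn _
    nlinarith
  · have h6 : nn V ≤ 13 := by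
      unfold nn
      have : Fintype.card V ≤ 13 := by omega
      exact_mod_cast this
    have h7 : NT (TT x k) ≤ nn V ^ 5 := by
      unfold NT
      refine (sum_ind_le _).trans ?_
      rw [card_fun_real]
    have h8 : 0 ≤ NT (TT x k) := Finset.sum_nonneg fun _ _ => ind_nonneg _
    calc NT (TT x k) ^ 9 ≤ (nn V ^ 5) ^ 9 := pow_le_pow_left₀ h8 h7 9
      _ = nn V * nn V ^ 44 := by ring
      _ ≤ (C + 13) * nn V ^ 44 := by
        refine mul_le_mul_of_nonneg_right ?_ (pow_nonneg hn _)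
        linarith

end KS13
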